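import Pool.Agent.Lib.MP_813db1_ag.Basic

/-! Derivations and algebraic independence in characteristic zero. -/

namespace Pool.Agent.Lib.MP_813db1_ag

open Module

variable {k κ : Type} [Field k] [CharZero k] [Field κ] [Algebra k κ]

omit [CharZero k] in
theorem der_adjoin (D : Derivation k κ κ) (s : Set κ) (hs : ∀ x ∈ s, D x = 0) :
    ∀ x ∈ IntermediateField.adjoin k s, D x = 0 := by
  intro x hx
  induction hx using IntermediateField.adjoin_induction with
  | mem x hx => exact hs x hx
  | algebraMap c => exact D.map_algebraMap c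
  | add x y _ _ hx hy => rw [map_add, hx, hy, add_zero]
  | inv x _ hx => rw [D.leibniz_inv, hx, smul_zero]
  | mul x y _ _ hx hy => rw [D.leibniz, hx, hy, smul_zero, smul_zero, add_zero]

namespace DerAux

omit [CharZero k] in
theorem der_aeval (D : Derivation k κ κ) (E : IntermediateField k κ)
    (hE : ∀ x ∈ E, D x = 0) (y : κ) (p : Polynomial E) :
    D (Polynomial.aeval y p) = Polynomial.aeval y (Polynomial.derivative p) * D y := by
  induction p using Polynomial.induction_on' with
  | add p q hp hq => rw [map_add, map_add, hp, hq, map_add, map_add, add_mul]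
  | monomial n a =>
    rw [Polynomial.derivative_monomial, Polynomial.aeval_monomial, Polynomial.aeval_monomial,
      D.leibniz, D.leibniz_pow]
    have h0 : D (algebraMap E κ a) = 0 := hE _ a.2
    rw [h0]
    simp only [smul_eq_mul, map_mul, map_natCast, nsmul_eq_mul]
    ring

theorem exists_der_basis {τ : Type} (x : τ → κ) (hx : IsTranscendenceBasis k x) (y : τ → κ) :
    ∃ D : Derivation k κ κ, ∀ b, D (x b) = y b := by
  let S := MvPolynomial τ k
  let φ : S →ₐ[k] κ := MvPolynomial.aeval x
  let : Algebra S κ := φ.toRingHom.toAlgebra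
  have hφ : ∀ s : S, algebraMap S κ s = φ s := fun _ => rfl
  have : IsScalarTower k S κ := IsScalarTower.of_algebraMap_eq fun c => by
    rw [hφ, φ.commutes]
  have : FaithfulSMul S κ := (faithfulSMul_iff_algebraMap_injective S κ).2 hx.1
  let F := FractionRing S
  let : Algebra F κ := FractionRing.liftAlgebra S κ
  have : IsScalarTower S F κ := FractionRing.isScalarTower_liftAlgebra S κ
  have : Algebra.IsAlgebraic S κ := by
    have h1 := hx.isAlgebraic
    refine ⟨fun a => ?_⟩
    have h2 : IsAlgebraic (Algebra.adjoin k (Set.range x)) ((RingHom.id κ) a) := h1.1 a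
    refine h2.of_ringHom_of_comp_eq (hx.1.aevalEquiv.toRingEquiv) (RingHom.id κ)
      hx.1.aevalEquiv.surjective Function.injective_id ?_
    exact RingHom.ext fun s => hx.1.algebraMap_aevalEquiv s
  have : Algebra.IsAlgebraic F κ :=
    (IsFractionRing.comap_isAlgebraic_iff (A := S) (K := F) (C := κ)).1 inferInstance
  have : CharZero F := charZero_of_injective_algebraMap (R := S) (IsFractionRing.injective S F)
  have : Algebra.FormallyEtale S F :=
    Algebra.FormallyEtale.of_isLocalization (Rₘ := F) (nonZeroDivisors S)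
  have : Algebra.FormallyEtale F κ := Algebra.FormallyEtale.of_isSeparable F κ
  have : Algebra.FormallyEtale S κ := Algebra.FormallyEtale.comp S F κ
  let d0 : Derivation k S κ := MvPolynomial.mkDerivation k y
  have hb := KaehlerDifferential.isBaseChange_of_formallyEtale k S κ
  let L : Ω[κ⁄k] →ₗ[κ] κ := hb.lift d0.liftKaehlerDifferential
  refine ⟨L.compDer (KaehlerDifferential.D k κ), fun b => ?_⟩
  have h1 : x b = algebraMap S κ (MvPolynomial.X b) := (MvPolynomial.aeval_X x b).symm
  have h2 : L (KaehlerDifferential.D k κ (algebraMap S κ (MvPolynomial.X b))) = y b := by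
    rw [← KaehlerDifferential.map_D k k S κ, IsBaseChange.lift_eq,
      Derivation.liftKaehlerDifferential_comp_D]
    exact MvPolynomial.mkDerivation_X _ _ _
  rw [h1]
  exact h2

end DerAux

theorem der_of_isAlgebraic (D : Derivation k κ κ) (E : IntermediateField k κ)
    (hE : ∀ x ∈ E, D x = 0) {y : κ} (hy : IsAlgebraic E y) : D y = 0 := by
  have : CharZero E := charZero_of_injective_algebraMap (algebraMap k E).injective
  have hint : IsIntegral E y := hy.isIntegral
  have h1 := DerAux.der_aeval D E hE y (minpoly E y)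
  rw [minpoly.aeval, map_zero] at h1
  have hsep : (minpoly E y).Separable := (minpoly.irreducible hint).separable
  have h2 := hsep.aeval_derivative_ne_zero (minpoly.aeval E y)
  exact (mul_eq_zero.1 h1.symm).resolve_left h2

theorem exists_der {τ : Type} (x : τ → κ) (hx : AlgebraicIndependent k x) (y : τ → κ) :
    ∃ D : Derivation k κ κ, ∀ b, D (x b) = y b := by
  obtain ⟨t, hst, ht⟩ := exists_isTranscendenceBasis_superset (R := k) (s := Set.range x)
    hx.to_subtype_range
  obtain ⟨D, hD⟩ := DerAux.exists_der_basis _ ht (fun b : t => Function.extend x y 0 b)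
  refine ⟨D, fun b => ?_⟩
  have := hD ⟨x b, hst ⟨b, rfl⟩⟩
  rw [this]
  exact hx.injective.extend_apply _ _ _

/-- If every derivation killing `E` vanishes then `κ` is algebraic over `E`. -/
theorem isAlgebraic_of_der (E : IntermediateField k κ)
    (h : ∀ D : Derivation k κ κ, (∀ x ∈ E, D x = 0) → D = 0) (y : κ) : IsAlgebraic E y := by
  have : CharZero E := charZero_of_injective_algebraMap (algebraMap k E).injective
  by_contra hy
  have hx : AlgebraicIndependent E (fun _ : Unit => y) :=
    algebraicIndependent_unique_type_iff.2 hy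
  obtain ⟨D, hD⟩ := exists_der _ hx (fun _ => 1)
  have h0 := h (D.restrictScalars k) (fun x hx => D.map_algebraMap ⟨x, hx⟩)
  have h1 : D y = 0 := by
    have := congrArg (fun D' : Derivation k κ κ => D' y) h0
    exact this
  rw [hD ()] at h1
  exact one_ne_zero h1

namespace DerAux

theorem exists_dual {τ : Type} [DecidableEq τ] (x : τ → κ) (hx : AlgebraicIndependent k x) :
    ∃ D : τ → Derivation k κ κ, ∀ a b, D a (x b) = if a = b then 1 else 0 := by
  choose D hD using fun a : τ => exists_der x hx (fun b => if a = b then 1 else 0)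
  exact ⟨D, hD⟩

omit [CharZero k] in
theorem sum_smul_apply {τ : Type} [Fintype τ] (D : τ → Derivation k κ κ) (g : τ → κ) (y : κ) :
    (∑ a, g a • D a) y = ∑ a, g a * D a y := by
  classical
  induction (Finset.univ : Finset τ) using Finset.induction_on with
  | empty => simp
  | insert a s ha ih =>
    rw [Finset.sum_insert ha, Finset.sum_insert ha, Derivation.add_apply, ih]
    rfl

theorem exists_basis_in (t : Set κ) : ∃ s : Set κ, AlgebraicIndependent k (fun a : s => (a : κ)) ∧
    s ⊆ t ∧ ∀ D : Derivation k κ κ, (∀ a ∈ s, D a = 0) → ∀ a ∈ t, D a = 0 := by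
  obtain ⟨s, hs⟩ := (AlgebraicIndependent.matroid k κ).exists_isBasis t
  obtain ⟨h1, h2, h3⟩ := AlgebraicIndependent.matroid_isBasis_iff.1 hs
  refine ⟨s, h1, h2, fun D hD a ha => ?_⟩
  exact der_of_isAlgebraic D _ (der_adjoin D s hD)
    (IntermediateField.isAlgebraic_adjoin_iff.2 (h3 a ha))

end DerAux

theorem card_le_of_der {τ σ : Type} [Fintype τ] [Fintype σ] (x : τ → κ)
    (hx : AlgebraicIndependent k x) (z : σ → κ)
    (h : ∀ D : Derivation k κ κ, (∀ c, D (z c) = 0) → ∀ b, D (x b) = 0) :
    Fintype.card τ ≤ Fintype.card σ := by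
  classical
  obtain ⟨D, hD⟩ := DerAux.exists_dual x hx
  have hli : LinearIndependent κ (fun (a : τ) (c : σ) => D a (z c)) := by
    rw [Fintype.linearIndependent_iff]
    intro g hg b
    have h1 := h (∑ a, g a • D a) (fun c => by
      rw [DerAux.sum_smul_apply]
      simpa using congrFun hg c) b
    rw [DerAux.sum_smul_apply] at h1
    simpa [hD] using h1
  simpa using hli.fintype_card_le_finrank

theorem exists_indep_compl {n : ℕ} (hn : 0 < n) (x : Fin (n - 1) → κ)
    (hx : AlgebraicIndependent k x) (z : Fin n → κ)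
    (h : ∀ D : Derivation k κ κ, (∀ c, D (z c) = 0) → ∀ b, D (x b) = 0) :
    ∃ c0 : Fin n, AlgebraicIndependent k (fun c : {c // c ≠ c0} => z c.1) := by
  classical
  obtain ⟨s, hs, hst, hD⟩ := DerAux.exists_basis_in (k := k) (Set.range z)
  have : Fintype s := ((Set.finite_range z).subset hst).fintype
  have hcard : Fintype.card (Fin (n - 1)) ≤ Fintype.card s :=
    card_le_of_der x hx (fun a : s => (a : κ)) fun D hD0 =>
      h D fun c => hD D (fun a ha => hD0 ⟨a, ha⟩) _ ⟨c, rfl⟩
  choose g hg using fun a : s => hst a.2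
  have hginj : Function.Injective g := fun a b hab => by
    apply Subtype.ext
    rw [← hg a, ← hg b, hab]
  let C : Finset (Fin n) := Finset.univ.image g
  have hC : n - 1 ≤ C.card := by
    rw [Finset.card_image_of_injective _ hginj, Finset.card_univ]
    simpa using hcard
  have hc0 : ∃ c0 : Fin n, ∀ c, c ≠ c0 → c ∈ C := by
    by_cases hall : ∀ c, c ∈ C
    · exact ⟨⟨0, hn⟩, fun c _ => hall c⟩
    · push Not at hall
      obtain ⟨c0, hc0⟩ := hall
      refine ⟨c0, fun c hc => ?_⟩
      have hsub : C ⊆ Finset.univ.erase c0 := fun d hd =>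
        Finset.mem_erase.2 ⟨fun e => hc0 (e ▸ hd), Finset.mem_univ _⟩
      have heq : C = Finset.univ.erase c0 := Finset.eq_of_subset_of_card_le hsub (by
        rw [Finset.card_erase_of_mem (Finset.mem_univ _), Finset.card_univ, Fintype.card_fin]
        exact hC)
      rw [heq]
      exact Finset.mem_erase.2 ⟨hc, Finset.mem_univ _⟩
  obtain ⟨c0, hc0⟩ := hc0
  have hpre : ∀ c : {c // c ≠ c0}, ∃ a : s, g a = c.1 := fun c => by
    simpa [C] using hc0 c.1 c.2
  choose f hf using hpre
  have hfinj : Function.Injective f := fun a b hab => by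
    apply Subtype.ext
    rw [← hf a, ← hf b, hab]
  refine ⟨c0, ?_⟩
  have := hs.comp f hfinj
  have heq : (fun c : {c // c ≠ c0} => z c.1) = (fun a : s => (a : κ)) ∘ f := by
    funext c
    simp only [Function.comp]
    rw [← hg (f c), hf c]
  rw [heq]
  exact this

theorem exists_indep_in {n : ℕ} (D : Basis (Fin n) κ (Derivation k κ κ))
    (E : IntermediateField k κ) (t : κ)
    (h : ∀ D' : Derivation k κ κ, (∀ y ∈ E, D' y = 0) → D' t = 0 → D' = 0) :
    ∃ x : Fin (n - 1) → κ, (∀ b, x b ∈ E) ∧ AlgebraicIndependent k x := by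
  classical
  obtain ⟨s, hs, hst, hD⟩ := DerAux.exists_basis_in (k := k) (E : Set κ)
  have hemb : Nonempty (Fin (n - 1) ↪ s) := by
    rcases finite_or_infinite s with hfin | hinf
    · have : Fintype s := Fintype.ofFinite s
      apply Function.Embedding.nonempty_of_card_le
      have hli : LinearIndependent κ
          (fun (a : Fin n) (c : Option s) => D a (c.elim t (fun b => (b : κ)))) := by
        rw [Fintype.linearIndependent_iff]
        intro g hg
        have hv : ∀ c : Option s, (∑ a, g a • D a) (c.elim t (fun b => (b : κ))) = 0 := fun c => by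
          rw [DerAux.sum_smul_apply]
          simpa using congrFun hg c
        have h1 := h (∑ a, g a • D a)
          (fun y hy => hD _ (fun a ha => hv (some ⟨a, ha⟩)) y hy) (hv none)
        exact Fintype.linearIndependent_iff.1 D.linearIndependent g h1
      have h2 := hli.fintype_card_le_finrank
      simp only [Fintype.card_fin, Module.finrank_fintype_fun_eq_card, Fintype.card_option] at h2
      rw [Fintype.card_fin]
      omega
    · exact ⟨⟨fun i => Infinite.natEmbedding s i, fun i j hij =>
        Fin.ext ((Infinite.natEmbedding s).injective hij)⟩⟩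
  obtain ⟨f⟩ := hemb
  exact ⟨fun b => (f b : κ), fun b => hst (f b).2, hs.comp f f.injective⟩

namespace DerAux

/-- Logarithmic derivative of a character. -/
noncomputable def logDer {M : Type} [AddCommGroup M] (χ : AddChar M κ) (D : Derivation k κ κ) :
    M →+ κ :=
  AddMonoidHom.mk' (fun m => χ (-m) * D (χ m)) (fun a b => by
    have ha : χ (-a) * χ a = 1 := by rw [← χ.map_add_eq_mul]; simp
    have hb : χ (-b) * χ b = 1 := by rw [← χ.map_add_eq_mul]; simp
    rw [neg_add, χ.map_add_eq_mul, χ.map_add_eq_mul, D.leibniz]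
    simp only [smul_eq_mul]
    linear_combination χ (-b) * D (χ b) * ha + χ (-a) * D (χ a) * hb)

omit [CharZero k] in
theorem mul_logDer {M : Type} [AddCommGroup M] (χ : AddChar M κ) (D : Derivation k κ κ) (m : M) :
    χ m * logDer χ D m = D (χ m) := by
  have ha : χ m * χ (-m) = 1 := by rw [← χ.map_add_eq_mul]; simp
  change χ m * (χ (-m) * D (χ m)) = _
  rw [← mul_assoc, ha, one_mul]

theorem map_eq_sum {M A : Type} [AddCommGroup M] [AddCommGroup A] {I : Type} [Fintype I]
    (b : Basis I ℤ M) (ψ : M →+ A) (m : M) : ψ m = ∑ j, b.repr m j • ψ (b j) := by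
  conv_lhs => rw [← b.sum_repr m]
  rw [map_sum]
  simp only [map_zsmul]

end DerAux

theorem toric_count {M : Type} [AddCommGroup M] [Module.Free ℤ M] [Module.Finite ℤ M]
    {ι : Type} [Fintype ι] {Q : ι → Type} [∀ i, Fintype (Q i)]
    (χ : AddChar M κ) (e : ∀ i, Q i → M) (c : ∀ i, Q i → k)
    (hrel : ∀ i, ∑ q, algebraMap k κ (c i q) * χ (e i q) = 0)
    (hind : ∀ α : ι → κ, (∀ ψ : M →+ ℤ,
      ∑ i, α i * ∑ q, algebraMap k κ (c i q) * χ (e i q) * (ψ (e i q) : κ) = 0) → α = 0)
    {τ : Type} [Fintype τ] (x : τ → κ) (hx : AlgebraicIndependent k x)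
    (hxm : ∀ b, x b ∈ IntermediateField.adjoin k (Set.range χ)) :
    Fintype.card τ + Fintype.card ι ≤ finrank ℤ M := by
  classical
  obtain ⟨D, hD⟩ := DerAux.exists_dual x hx
  let b := Module.Free.chooseBasis ℤ M
  let I := Module.Free.ChooseBasisIndex ℤ M
  let Psi : Matrix τ I κ := Matrix.of fun a j => DerAux.logDer χ (D a) (b j)
  let Theta : Matrix ι I κ := Matrix.of fun i j =>
    ∑ q, algebraMap k κ (c i q) * χ (e i q) * (b.repr (e i q) j : κ)
  have hmul : Psi * Theta.transpose = 0 := by
    ext a i
    have h1 : D a (∑ q, algebraMap k κ (c i q) * χ (e i q)) = 0 := by rw [hrel i, map_zero]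
    rw [map_sum] at h1
    simp only [Matrix.mul_apply, Matrix.transpose_apply, Psi, Theta, Matrix.of_apply,
      Matrix.zero_apply, Finset.mul_sum]
    rw [Finset.sum_comm, ← h1]
    refine Finset.sum_congr rfl fun q _ => ?_
    rw [Derivation.leibniz, Derivation.map_algebraMap, smul_zero, add_zero, smul_eq_mul,
      ← DerAux.mul_logDer χ (D a) (e i q), DerAux.map_eq_sum b (DerAux.logDer χ (D a)) (e i q),
      Finset.mul_sum, Finset.mul_sum]
    refine Finset.sum_congr rfl fun j _ => ?_
    rw [zsmul_eq_mul]
    ring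
  have hPsi : LinearIndependent κ Psi.row := by
    rw [Fintype.linearIndependent_iff]
    intro g hg a
    have h1 : ∀ j, DerAux.logDer χ (∑ a, g a • D a) (b j) = 0 := fun j => by
      have := congrFun hg j
      simp only [Finset.sum_apply, Pi.smul_apply, Matrix.row, Psi, Matrix.of_apply, smul_eq_mul,
        Pi.zero_apply] at this
      rw [← this]
      change χ (-(b j)) * (∑ a, g a • D a) (χ (b j)) = ∑ a, g a * (χ (-(b j)) * D a (χ (b j)))
      rw [DerAux.sum_smul_apply, Finset.mul_sum]
      refine Finset.sum_congr rfl fun a _ => by ring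
    have h2 : ∀ y ∈ Set.range χ, (∑ a, g a • D a) y = 0 := by
      rintro _ ⟨m, rfl⟩
      rw [← DerAux.mul_logDer, DerAux.map_eq_sum b]
      simp [h1]
    have h3 := der_adjoin _ _ h2 _ (hxm a)
    rw [DerAux.sum_smul_apply] at h3
    simpa [hD] using h3
  have hTheta : LinearIndependent κ Theta.row := by
    rw [Fintype.linearIndependent_iff]
    intro g hg
    have h1 : ∀ j, ∑ i, g i *
        ∑ q, algebraMap k κ (c i q) * χ (e i q) * (b.repr (e i q) j : κ) = 0 := fun j => by
      have := congrFun hg j
      simpa only [Finset.sum_apply, Pi.smul_apply, Matrix.row, Theta, Matrix.of_apply, smul_eq_mul,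
        Pi.zero_apply] using this
    have h2 := hind g fun ψ => by
      have h3 : ∑ j, (ψ (b j) : κ) * ∑ i, g i *
          ∑ q, algebraMap k κ (c i q) * χ (e i q) * (b.repr (e i q) j : κ) = 0 := by
        simp [h1]
      rw [← h3]
      simp only [Finset.mul_sum]
      rw [Finset.sum_comm]
      refine Finset.sum_congr rfl fun i _ => ?_
      rw [Finset.sum_comm]
      refine Finset.sum_congr rfl fun q _ => ?_
      rw [DerAux.map_eq_sum b ψ (e i q)]
      push_cast
      rw [Finset.mul_sum, Finset.mul_sum]
      refine Finset.sum_congr rfl fun j _ => ?_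
      rw [smul_eq_mul]
      push_cast
      ring
    intro i
    rw [h2]
    rfl
  have hr := Matrix.rank_add_rank_le_card_of_mul_eq_zero hmul
  rw [Matrix.rank_transpose, hPsi.rank_matrix, hTheta.rank_matrix] at hr
  rw [Module.finrank_eq_card_chooseBasisIndex]
  exact hr

end Pool.Agent.Lib.MP_813db1_ag
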