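import Mathlib

/-! Basic objects for non-vanishing on nondegenerate toric complete intersections. -/

namespace Pool.Agent.Lib.MP_813db1_ag

open Module

/-- Value monoid of the integer valued valuations. -/
abbrev Γ : Type := WithZero (Multiplicative ℤ)

section Val

variable {k K : Type} [Field k] [Field K] [Algebra k K]

/-- The valuation ring of `v` as a `k`-subalgebra. -/
def Rv (v : Valuation K Γ) (hk : ∀ c : k, v (algebraMap k K c) ≤ 1) : Subalgebra k K where
  carrier := {x | v x ≤ 1}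
  mul_mem' := fun {a b} ha hb => by
    simp only [Set.mem_ofPred_eq, map_mul] at *
    exact mul_le_one' ha hb
  add_mem' := fun {a b} ha hb => by
    simp only [Set.mem_ofPred_eq] at *
    exact v.map_add_le ha hb
  algebraMap_mem' := hk

theorem mem_Rv {v : Valuation K Γ} {hk : ∀ c : k, v (algebraMap k K c) ≤ 1} {x : K} :
    x ∈ Rv v hk ↔ v x ≤ 1 := Iff.rfl

/-- Fractions `a / s` with `a, s ∈ B` and `v s = 1`: the localisation of `B` at the centre
of `v`. -/
def loc (v : Valuation K Γ) (B : Subalgebra k K) : Subalgebra k K where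
  carrier := {x | ∃ a ∈ B, ∃ s ∈ B, v s = 1 ∧ x * s = a}
  mul_mem' := by
    rintro x y ⟨a, ha, s, hs, hv, hx⟩ ⟨b, hb, t, ht, hw, hy⟩
    refine ⟨a * b, B.mul_mem ha hb, s * t, B.mul_mem hs ht, by simp [hv, hw], ?_⟩
    rw [← hx, ← hy]; ring
  add_mem' := by
    rintro x y ⟨a, ha, s, hs, hv, hx⟩ ⟨b, hb, t, ht, hw, hy⟩
    refine ⟨a * t + b * s, B.add_mem (B.mul_mem ha ht) (B.mul_mem hb hs), s * t,
      B.mul_mem hs ht, by simp [hv, hw], ?_⟩
    rw [← hx, ← hy]; ring
  algebraMap_mem' := fun c => ⟨algebraMap k K c, B.algebraMap_mem c, 1, B.one_mem, by simp,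
    by simp⟩

theorem mem_loc {v : Valuation K Γ} {B : Subalgebra k K} {x : K} :
    x ∈ loc v B ↔ ∃ a ∈ B, ∃ s ∈ B, v s = 1 ∧ x * s = a := Iff.rfl

theorem le_loc (v : Valuation K Γ) (B : Subalgebra k K) : B ≤ loc v B :=
  fun x hx => ⟨x, hx, 1, B.one_mem, by simp, by simp⟩

end Val

/-- An integer valued valuation trivial on `k` with an embedding of its residue field. -/
structure Place (k K : Type) [Field k] [Field K] [Algebra k K] where
  v : Valuation K Γ
  hk : ∀ c : k, v (algebraMap k K c) ≤ 1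
  κ : Type
  [fld : Field κ]
  [alg : Algebra k κ]
  ρ : Rv v hk →ₐ[k] κ
  ρ_eq_zero : ∀ x : Rv v hk, ρ x = 0 ↔ v (x : K) < 1

attribute [instance] Place.fld Place.alg

namespace Place

variable {k K : Type} [Field k] [Field K] [Algebra k K] (P : Place k K)

open Classical in
/-- The residue map as a total function. -/
noncomputable def res (x : K) : P.κ := if h : P.v x ≤ 1 then P.ρ ⟨x, h⟩ else 0

theorem res_coe (x : Rv P.v P.hk) : P.res (x : K) = P.ρ x := by
  unfold res
  rw [dif_pos (mem_Rv.1 x.2)]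

theorem res_eq {x : K} (h : P.v x ≤ 1) : P.res x = P.ρ ⟨x, h⟩ := by
  unfold res
  rw [dif_pos h]

theorem res_add {x y : K} (hx : P.v x ≤ 1) (hy : P.v y ≤ 1) :
    P.res (x + y) = P.res x + P.res y := by
  rw [P.res_eq hx, P.res_eq hy, ← map_add, ← P.res_coe]; rfl

theorem res_mul {x y : K} (hx : P.v x ≤ 1) (hy : P.v y ≤ 1) :
    P.res (x * y) = P.res x * P.res y := by
  rw [P.res_eq hx, P.res_eq hy, ← map_mul, ← P.res_coe]; rfl

theorem res_algebraMap (c : k) : P.res (algebraMap k K c) = algebraMap k P.κ c := by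
  rw [← P.ρ.commutes c, ← P.res_coe]; rfl

theorem res_zero : P.res 0 = 0 := by simpa using P.res_algebraMap 0

theorem res_one : P.res 1 = 1 := by simpa using P.res_algebraMap 1

theorem res_eq_zero {x : K} (h : P.v x ≤ 1) : P.res x = 0 ↔ P.v x < 1 := by
  rw [P.res_eq h, P.ρ_eq_zero]

theorem res_sum {α : Type} (s : Finset α) (f : α → K) (h : ∀ a ∈ s, P.v (f a) ≤ 1) :
    P.res (∑ a ∈ s, f a) = ∑ a ∈ s, P.res (f a) := by
  classical
  induction s using Finset.induction_on with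
  | empty => simpa using P.res_zero
  | insert a s ha ih =>
    rw [Finset.sum_insert ha, Finset.sum_insert ha, P.res_add (h a (by simp)),
      ih (fun b hb => h b (by simp [hb]))]
    exact P.v.map_sum_le (fun b hb => h b (by simp [hb]))

theorem v_intCast (n : ℤ) : P.v (n : K) ≤ 1 := by
  simpa using P.hk (n : k)

theorem res_intCast (n : ℤ) : P.res (n : K) = n := by
  simpa using P.res_algebraMap (n : k)

/-- The order function of a character. -/
noncomputable def nu {M : Type} [AddCommGroup M] (χ : AddChar M K) : M →+ ℤ :=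
  AddMonoidHom.mk' (fun m => - WithZero.log (P.v (χ m))) (fun a b => by
    have h : ∀ m, P.v (χ m) ≠ 0 := fun m => by
      rw [Ne, P.v.zero_iff]; exact (χ.val_isUnit m).ne_zero
    rw [χ.map_add_eq_mul, map_mul, WithZero.log_mul (h a) (h b)]; ring)

theorem v_chi {M : Type} [AddCommGroup M] (χ : AddChar M K) (m : M) :
    P.v (χ m) = WithZero.exp (- P.nu χ m) := by
  have h : P.v (χ m) ≠ 0 := by
    rw [Ne, P.v.zero_iff]; exact (χ.val_isUnit m).ne_zero
  simp [nu, WithZero.exp_log h]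

theorem v_chi_le_one {M : Type} [AddCommGroup M] (χ : AddChar M K) (m : M) :
    P.v (χ m) ≤ 1 ↔ 0 ≤ P.nu χ m := by
  rw [P.v_chi, ← WithZero.exp_zero, WithZero.exp_le_exp]; omega

theorem v_chi_lt_one {M : Type} [AddCommGroup M] (χ : AddChar M K) (m : M) :
    P.v (χ m) < 1 ↔ 0 < P.nu χ m := by
  rw [P.v_chi, ← WithZero.exp_zero, WithZero.exp_lt_exp]; omega

end Place

/-- Every valuation trivial on `k` underlies a place. -/
theorem exists_place {k K : Type} [Field k] [Field K] [Algebra k K] (v : Valuation K Γ)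
    (hk : ∀ c : k, v (algebraMap k K c) ≤ 1) : ∃ P : Place k K, P.v = v := by
  let I : Ideal (Rv v hk) :=
    { carrier := {x | v (x : K) < 1}
      add_mem' := fun {a b} ha hb => by
        simp only [Set.mem_ofPred_eq, Subalgebra.coe_add] at *
        exact v.map_add_lt ha hb
      zero_mem' := by simp
      smul_mem' := fun c x hx => by
        simp only [Set.mem_ofPred_eq, smul_eq_mul, Subalgebra.coe_mul, map_mul] at *
        exact mul_lt_one_of_nonneg_of_lt_one_right (mem_Rv.1 c.2) zero_le hx }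
  have hI : ∀ x, x ∈ I ↔ v (x : K) < 1 := fun x => Iff.rfl
  haveI : I.IsMaximal := by
    rw [Ideal.isMaximal_iff]
    refine ⟨by rw [hI]; simp, ?_⟩
    intro J x _ hx hxJ
    rw [hI, not_lt] at hx
    have h1 : v (x : K) = 1 := le_antisymm (mem_Rv.1 x.2) hx
    have h0 : (x : K) ≠ 0 := by
      intro h; rw [h] at h1; simp at h1
    have : (⟨(x : K)⁻¹, by rw [mem_Rv, map_inv₀, h1]; simp⟩ : Rv v hk) * x = 1 := by
      ext; simp [inv_mul_cancel₀ h0]
    rw [← this]
    exact J.mul_mem_left _ hxJ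
  letI := Ideal.Quotient.field I
  exact ⟨{ v := v, hk := hk, κ := Rv v hk ⧸ I, ρ := Ideal.Quotient.mkₐ k I
           ρ_eq_zero := fun x => by
             rw [Ideal.Quotient.mkₐ_eq_mk, Ideal.Quotient.eq_zero_iff_mem, hI] }, rfl⟩

section Toric

variable {M : Type} [AddCommGroup M] {ι : Type} [Fintype ι] {Q : ι → Type}
  [∀ i, Fintype (Q i)] [∀ i, Nonempty (Q i)]

/-- Minimum of `ν` on the `i`-th exponent family. -/
noncomputable def mn (e : ∀ i, Q i → M) (ν : M →+ ℤ) (i : ι) : ℤ :=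
  Finset.univ.inf' Finset.univ_nonempty (fun q => ν (e i q))

/-- Sum of the minima. -/
noncomputable def phi (e : ∀ i, Q i → M) (ν : M →+ ℤ) : ℤ := ∑ i, mn e ν i

omit [Fintype ι] in
theorem mn_le (e : ∀ i, Q i → M) (ν : M →+ ℤ) (i : ι) (q : Q i) : mn e ν i ≤ ν (e i q) :=
  Finset.inf'_le _ (Finset.mem_univ q)

omit [Fintype ι] in
theorem exists_mn (e : ∀ i, Q i → M) (ν : M →+ ℤ) (i : ι) : ∃ q, ν (e i q) = mn e ν i := by
  obtain ⟨q, _, hq⟩ := Finset.exists_mem_eq_inf' (Finset.univ_nonempty (α := Q i))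
    (fun q => ν (e i q))
  exact ⟨q, hq.symm⟩

omit [Fintype ι] in
theorem mn_eq (e : ∀ i, Q i → M) (ν : M →+ ℤ) (i : ι) (q : Q i)
    (h : ∀ q', ν (e i q) ≤ ν (e i q')) : mn e ν i = ν (e i q) := by
  obtain ⟨q', hq'⟩ := exists_mn e ν i
  exact le_antisymm (mn_le e ν i q) (hq' ▸ h q')

open Classical in
/-- An extremal positive circuit of primitive covectors. -/
structure Circuit (e : ∀ i, Q i → M) where
  J : Type
  [fin : Fintype J]
  nu : J → M →+ ℤ
  lam : J → ℕ
  lam_pos : ∀ j, 0 < lam j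
  j0 : J
  G : ℕ
  G_pos : 0 < G
  W : J → M
  hW : ∀ j l, (lam j : ℤ) * nu j (W l) =
    G * ((if l = j then 1 else 0) - (if j0 = j then 1 else 0))
  rel : ∀ m, ∑ j, (lam j : ℤ) * nu j m = 0
  prim : ∀ j, ∃ m, nu j m = 1
  lt : - ∑ j, (lam j : ℤ) * phi e (nu j) < ∑ j, (lam j : ℤ)
  h3 : ∀ S : Finset J, S ≠ Finset.univ → 2 ≤ S.card →
    (Finset.univ.filter fun i => ∀ q, ∃ j ∈ S, nu j (e i q) ≠ mn e (nu j) i).card + 2 ≤ S.card

attribute [instance] Circuit.fin

/-- Valuative nondegeneracy of the system `∑ q, c i q * χ (e i q) = 0`. -/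
def ND {k K : Type} [Field k] [Field K] [Algebra k K] (e : ∀ i, Q i → M) (c : ∀ i, Q i → k)
    (χ : AddChar M K) : Prop :=
  ∀ (P : Place k K) (q0 : ∀ i, Q i), (∀ i q, P.v (χ (e i q - e i (q0 i))) ≤ 1) →
    ∀ α : ι → P.κ, (∀ ψ : M →+ ℤ, ∑ i, α i * ∑ q, algebraMap k P.κ (c i q) *
      P.res (χ (e i q - e i (q0 i))) * (ψ (e i q - e i (q0 i)) : P.κ) = 0) → α = 0

end Toric

section Forms

variable {k K : Type} [Field k] [Field K] [Algebra k K] {n : ℕ}

/-- Jacobian determinant of `b` with respect to the derivations `D`. -/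
noncomputable def jac (D : Fin n → Derivation k K K) (b : Fin n → K) : K :=
  Matrix.det (Matrix.of fun a c => D a (b c))

/-- Effectivity of a pluricanonical system, valuative form. -/
def EffV (D : Fin n → Derivation k K K) : Prop :=
  ∃ m : ℕ, 0 < m ∧ ∃ h : K, h ≠ 0 ∧ ∀ v : Valuation K Γ, Function.Surjective v →
    (∀ c : k, v (algebraMap k K c) ≤ 1) →
    ∃ b : Fin n → K, (∀ c, v (b c) ≤ 1) ∧ v h ≤ v (jac D b) ^ m

/-- Pseudo-effectivity of the canonical class, valuative form. -/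
def PsefV (D : Fin n → Derivation k K K) : Prop :=
  ∃ V : Finset K, ∀ N : ℕ, 0 < N → ∃ m : ℕ, 0 < m ∧ ∃ h : K, h ≠ 0 ∧
    ∀ v : Valuation K Γ, Function.Surjective v → (∀ c : k, v (algebraMap k K c) ≤ 1) →
    ∀ γ γ' : Γ, (∀ b : Fin n → K, (∀ c, v (b c) ≤ 1) → v (jac D b) ≤ γ) →
      (∀ y ∈ V, v y ≤ γ') → v h ≤ γ ^ (m * N) * γ' ^ m

end Forms

end Pool.Agent.Lib.MP_813db1_ag
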