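import Pool.Agent.Lib.MP_813db1_ag.Basic

/-! An unramified local ring with principal centre is the valuation ring. -/

namespace Pool.Agent.Lib.MP_813db1_ag

namespace LemUAux

variable {k K : Type} [Field k] [Field K] [Algebra k K] {v : Valuation K Γ}

theorem loc_v_le {B : Subalgebra k K} (hB : ∀ x ∈ B, v x ≤ 1) {x : K} (hx : x ∈ loc v B) :
    v x ≤ 1 := by
  obtain ⟨a, ha, s, -, hv, e⟩ := hx
  have := hB a ha
  rwa [← e, map_mul, hv, mul_one] at this

theorem inv_mem_loc {B : Subalgebra k K} {x : K} (hx : x ∈ loc v B) (h1 : v x = 1) :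
    x⁻¹ ∈ loc v B := by
  obtain ⟨a, ha, s, hs, hv, e⟩ := hx
  have h0 : x ≠ 0 := by
    intro h; rw [h] at h1; simp at h1
  refine ⟨s, hs, a, ha, by rw [← e, map_mul, h1, hv, mul_one], ?_⟩
  rw [← e, ← mul_assoc, inv_mul_cancel₀ h0, one_mul]

theorem isUnit_loc {B : Subalgebra k K} (hB : ∀ x ∈ B, v x ≤ 1) (x : loc v B) :
    IsUnit x ↔ v (x : K) = 1 := by
  constructor
  · intro h
    obtain ⟨y, hy⟩ := h.exists_right_inv
    have e : v (x : K) * v (y : K) = 1 := by
      rw [← map_mul, ← Subalgebra.coe_mul, hy]; simp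
    have h1 := loc_v_le hB x.2
    have h2 := loc_v_le hB y.2
    refine le_antisymm h1 ?_
    calc (1 : Γ) = v (x : K) * v (y : K) := e.symm
      _ ≤ v (x : K) * 1 := mul_le_mul_right h2 _
      _ = v (x : K) := mul_one _
  · intro h
    have h0 : (x : K) ≠ 0 := by
      intro h'; rw [h'] at h; simp at h
    exact IsUnit.of_mul_eq_one ⟨_, inv_mem_loc x.2 h⟩ (by ext; simp [mul_inv_cancel₀ h0])

theorem isLocalRing_loc {B : Subalgebra k K} (hB : ∀ x ∈ B, v x ≤ 1) :
    IsLocalRing (loc v B) := by
  refine IsLocalRing.of_isUnit_or_isUnit_one_sub_self fun x => ?_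
  rcases (loc_v_le hB x.2).eq_or_lt with h | h
  · exact Or.inl ((isUnit_loc hB x).2 h)
  · exact Or.inr ((isUnit_loc hB _).2 (by simpa using v.map_one_sub_of_lt h))

theorem mem_max {B : Subalgebra k K} (hB : ∀ x ∈ B, v x ≤ 1) [IsLocalRing (loc v B)]
    (x : loc v B) : x ∈ IsLocalRing.maximalIdeal (loc v B) ↔ v (x : K) < 1 := by
  rw [IsLocalRing.mem_maximalIdeal, mem_nonunits_iff, isUnit_loc hB]
  exact ⟨fun h => lt_of_le_of_ne (loc_v_le hB x.2) h, fun h => h.ne⟩

theorem loc_le {B C : Subalgebra k K} (h : B ≤ loc v C) : loc v B ≤ loc v C := by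
  rintro x ⟨a, ha, s, hs, hv, e⟩
  have h0 : s ≠ 0 := by
    intro h'; rw [h'] at hv; simp at hv
  have : x = a * s⁻¹ := by rw [← e, mul_assoc, mul_inv_cancel₀ h0, mul_one]
  rw [this]
  exact mul_mem (h ha) (inv_mem_loc (h hs) hv)

variable (k) in
/-- The generators as elements of the localisation. -/
noncomputable def gens (v : Valuation K Γ) (G : Finset K) :
    Finset (loc v (Algebra.adjoin k (G : Set K))) :=
  G.preimage Subtype.val Subtype.val_injective.injOn

theorem mem_adjoin_gens (G : Finset K) (x : loc v (Algebra.adjoin k (G : Set K)))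
    (hx : (x : K) ∈ Algebra.adjoin k (G : Set K)) :
    x ∈ Algebra.adjoin k (gens k v G : Set (loc v (Algebra.adjoin k (G : Set K)))) := by
  have e : (Algebra.adjoin k (gens k v G : Set (loc v (Algebra.adjoin k (G : Set K))))).map
      (loc v (Algebra.adjoin k (G : Set K))).val = Algebra.adjoin k (G : Set K) := by
    rw [AlgHom.map_adjoin]
    congr 1
    ext y
    constructor
    · rintro ⟨u, hu, rfl⟩
      simpa [gens] using hu
    · intro hy
      exact ⟨⟨y, le_loc v _ (Algebra.subset_adjoin hy)⟩, by simpa [gens] using hy, rfl⟩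
  obtain ⟨y, hy, hxy⟩ := e.ge hx
  have : y = x := Subtype.ext hxy
  rwa [← this]

theorem gens_cond (G : Finset K) (hB : ∀ x ∈ Algebra.adjoin k (G : Set K), v x ≤ 1)
    (s : loc v (Algebra.adjoin k (G : Set K))) :
    ∃ t ∈ Algebra.adjoin k (gens k v G : Set (loc v (Algebra.adjoin k (G : Set K)))),
      IsUnit t ∧ s * t ∈ Algebra.adjoin k (gens k v G : Set (loc v (Algebra.adjoin k (G : Set K)))) := by
  obtain ⟨a, ha, t, ht, hv, e⟩ := s.2
  refine ⟨⟨t, le_loc v _ ht⟩, mem_adjoin_gens G _ ht, (isUnit_loc hB _).2 hv,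
    mem_adjoin_gens G _ ?_⟩
  rw [Subalgebra.coe_mul, e]
  exact ha

theorem der_zero (G : Finset K) (hB : ∀ x ∈ Algebra.adjoin k (G : Set K), v x ≤ 1)
    {N : Type} [AddCommGroup N] [Module (loc v (Algebra.adjoin k (G : Set K))) N] [Module k N]
    (D : Derivation k (loc v (Algebra.adjoin k (G : Set K))) N)
    (h : ∀ g (hg : g ∈ G), D ⟨g, le_loc v _ (Algebra.subset_adjoin hg)⟩ = 0)
    (s : loc v (Algebra.adjoin k (G : Set K))) : D s = 0 := by
  have h1 : Set.EqOn D (0 : Derivation k _ N)
      (Algebra.adjoin k (gens k v G : Set (loc v (Algebra.adjoin k (G : Set K))))) := by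
    refine Derivation.eqOn_adjoin fun g hg => ?_
    have hg' : (g : K) ∈ G := by simpa [gens] using hg
    exact h g hg'
  obtain ⟨t, ht, hu, hst⟩ := gens_cond G hB s
  have h2 : D t = 0 := h1 ht
  have h3 : D (s * t) = 0 := h1 hst
  rw [Derivation.leibniz, h2, smul_zero, zero_add] at h3
  exact (hu.smul_eq_zero).1 h3

/-- The localisation of a polynomial ring in one variable has a principal centre. -/
theorem principal (F : IntermediateField k K) (t : K)
    (hB : ∀ x ∈ (Algebra.adjoin F {t}).restrictScalars k, v x ≤ 1)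
    [IsLocalRing (loc v ((Algebra.adjoin F {t}).restrictScalars k))] :
    (IsLocalRing.maximalIdeal (loc v ((Algebra.adjoin F {t}).restrictScalars k))).IsPrincipal := by
  have hm : ∀ f : Polynomial F,
      Polynomial.aeval t f ∈ (Algebra.adjoin F {t}).restrictScalars k := fun f =>
    Polynomial.aeval_mem_adjoin_singleton F t
  let p : Ideal (Polynomial F) :=
    { carrier := {f | v (Polynomial.aeval t f) < 1}
      add_mem' := fun {a b} ha hb => by
        simp only [Set.mem_ofPred_eq, map_add] at *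
        exact v.map_add_lt ha hb
      zero_mem' := by simp
      smul_mem' := fun c x hx => by
        simp only [Set.mem_ofPred_eq, smul_eq_mul, map_mul] at *
        exact mul_lt_one_of_nonneg_of_lt_one_right (hB _ (hm c)) zero_le hx }
  have hp : ∀ f, f ∈ p ↔ v (Polynomial.aeval t f) < 1 := fun f => Iff.rfl
  obtain ⟨g, hg⟩ := (IsPrincipalIdealRing.principal p).principal
  have hgp : g ∈ p := by rw [hg]; exact Submodule.mem_span_singleton_self g
  refine ⟨⟨⟨Polynomial.aeval t g, le_loc v _ (hm g)⟩, le_antisymm ?_ ?_⟩⟩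
  · intro x hx
    rw [mem_max hB] at hx
    obtain ⟨a, ha, s, hs, hv, e⟩ := x.2
    have ha' : a ∈ Algebra.adjoin F {t} := ha
    rw [Algebra.adjoin_singleton_eq_range_aeval] at ha'
    obtain ⟨f, hf⟩ := ha'
    have hf' : Polynomial.aeval t f = a := hf
    have hfp : f ∈ p := by
      rw [hp, hf', ← e, map_mul, hv, mul_one]; exact hx
    rw [hg] at hfp
    obtain ⟨u, hu⟩ := Submodule.mem_span_singleton.1 hfp
    have h0 : s ≠ 0 := by
      intro h'; rw [h'] at hv; simp at hv
    refine Submodule.mem_span_singleton.2 ⟨⟨Polynomial.aeval t u * s⁻¹,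
      mul_mem (le_loc v _ (hm u)) (inv_mem_loc (le_loc v _ hs) hv)⟩, Subtype.ext ?_⟩
    have e2 : Polynomial.aeval t u * Polynomial.aeval t g = (x : K) * s := by
      rw [e, ← hf', ← hu, smul_eq_mul, map_mul]
    change Polynomial.aeval t u * s⁻¹ * Polynomial.aeval t g = (x : K)
    rw [mul_right_comm, e2, mul_assoc, mul_inv_cancel₀ h0, mul_one]
  · rw [Submodule.span_le, Set.singleton_subset_iff]
    exact (mem_max hB _).2 hgp

theorem unram {A S : Type} [CommRing A] [CommRing S] [Algebra k A] [Algebra k S] [Algebra A S]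
    [IsScalarTower k A S]
    (h : ∀ (N : Type) [AddCommGroup N] [Module S N] [Module k N] [IsScalarTower k S N]
      (D : Derivation k S N), (∀ a : A, D (algebraMap A S a) = 0) → ∀ s, D s = 0) :
    Algebra.FormallyUnramified A S := by
  constructor
  have h0 := h _ ((KaehlerDifferential.D A S).restrictScalars k)
    (fun a => (KaehlerDifferential.D A S).map_algebraMap a)
  refine subsingleton_of_forall_eq 0 fun w => ?_
  have hw : w ∈ Submodule.span S (Set.range (KaehlerDifferential.D A S)) := by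
    rw [KaehlerDifferential.span_range_derivation]; trivial
  have hbot : Submodule.span S (Set.range (KaehlerDifferential.D A S)) = ⊥ := by
    rw [Submodule.span_eq_bot]
    rintro _ ⟨s, rfl⟩
    exact h0 s
  rwa [hbot] at hw

theorem valRing {A S : Type} [CommRing A] [CommRing S] [IsDomain S] [Algebra k A] [Algebra k S]
    [Algebra A S] [IsScalarTower k A S] [IsLocalRing A] [IsLocalRing S]
    [IsLocalHom (algebraMap A S)] [Algebra.EssFiniteType k S]
    (hpr : (IsLocalRing.maximalIdeal A).IsPrincipal)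
    (h : ∀ (N : Type) [AddCommGroup N] [Module S N] [Module k N] [IsScalarTower k S N]
      (D : Derivation k S N), (∀ a : A, D (algebraMap A S a) = 0) → ∀ s, D s = 0) :
    ValuationRing S := by
  have ess' : Algebra.EssFiniteType A S := Algebra.EssFiniteType.of_comp k _ _
  have unr : Algebra.FormallyUnramified A S := unram h
  have noeth : IsNoetherianRing S := Algebra.EssFiniteType.isNoetherianRing k _
  have hprS : (IsLocalRing.maximalIdeal S).IsPrincipal := by
    rw [← Algebra.FormallyUnramified.map_maximalIdeal (R := A)]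
    obtain ⟨g, hg⟩ := hpr.principal
    rw [hg, Ideal.submodule_span_eq, Ideal.map_span, Set.image_singleton]
    exact ⟨⟨_, rfl⟩⟩
  exact ((tfae_of_isNoetherianRing_of_isLocalRing_of_isDomain S).out 4 1).1 hprS

theorem valRing_loc {B B' : Subalgebra k K} (hB : ∀ x ∈ B, v x ≤ 1) (hB' : ∀ x ∈ B', v x ≤ 1)
    (hle : B' ≤ loc v B) [Algebra.EssFiniteType k (loc v B)] [IsLocalRing (loc v B')]
    (hpr : (IsLocalRing.maximalIdeal (loc v B')).IsPrincipal)
    (h : ∀ (N : Type) [AddCommGroup N] [Module (loc v B) N] [Module k N]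
      [IsScalarTower k (loc v B) N] (D : Derivation k (loc v B) N),
      (∀ a (ha : a ∈ B'), D ⟨a, hle ha⟩ = 0) → ∀ s, D s = 0) :
    ValuationRing (loc v B) := by
  have hS := isLocalRing_loc hB
  have hAS := loc_le hle
  let alg : Algebra (loc v B') (loc v B) := (Subalgebra.inclusion hAS).toRingHom.toAlgebra
  have tower : IsScalarTower k (loc v B') (loc v B) :=
    IsScalarTower.of_algebraMap_eq fun c => rfl
  have hloc : IsLocalHom (algebraMap (loc v B') (loc v B)) :=
    ⟨fun a ha => (isUnit_loc hB' a).2 ((isUnit_loc hB _).1 ha)⟩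
  exact valRing (k := k) hpr fun N _ _ _ _ D hD =>
    h N D fun a ha => hD ⟨a, le_loc v _ ha⟩

theorem mem_of_valRing {B : Subalgebra k K} (hB : ∀ x ∈ B, v x ≤ 1) [ValuationRing (loc v B)]
    {x a b : K} (ha : a ∈ B) (hb : b ∈ B) (e : x = a / b) (hx : v x ≤ 1) : x ∈ loc v B := by
  by_cases hb0 : b = 0
  · rw [e, hb0, div_zero]; exact zero_mem _
  obtain ⟨c, hc | hc⟩ := ValuationRing.cond (⟨a, le_loc v _ ha⟩ : loc v B) ⟨b, le_loc v _ hb⟩
  · have hc' : a * (c : K) = b := congrArg Subtype.val hc
    have ha0 : a ≠ 0 := by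
      intro h; rw [h, zero_mul] at hc'; exact hb0 hc'.symm
    have hc0 : (c : K) ≠ 0 := by
      intro h; rw [h, mul_zero] at hc'; exact hb0 hc'.symm
    have e2 : x = (c : K)⁻¹ := by
      rw [e, ← hc']; field_simp
    have e3 : x * c = 1 := by rw [e2, inv_mul_cancel₀ hc0]
    have h1 : v (c : K) = 1 := by
      refine le_antisymm (loc_v_le hB c.2) ?_
      calc (1 : Γ) = v x * v (c : K) := by rw [← map_mul, e3, map_one]
        _ ≤ 1 * v (c : K) := mul_le_mul_left hx _
        _ = v (c : K) := one_mul _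
    rw [e2]
    exact inv_mem_loc c.2 h1
  · have hc' : b * (c : K) = a := congrArg Subtype.val hc
    have e2 : x = (c : K) := by
      rw [e, ← hc']; field_simp
    rw [e2]; exact c.2

/-- A derivation of the field read modulo the valuation ring. -/
theorem exists_quot (S : Subalgebra k K) (hS : ∀ x ∈ S, v x ≤ 1) (D : Derivation k K K) :
    ∃ (N : Type) (_ : AddCommGroup N) (_ : Module S N) (_ : Module k N) (_ : IsScalarTower k S N)
      (D' : Derivation k S N), ∀ x : S, D' x = 0 ↔ v (D x) ≤ 1 := by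
  let R : Submodule S K :=
    { carrier := {y | v y ≤ 1}
      add_mem' := fun {a b} ha hb => v.map_add_le ha hb
      zero_mem' := by simp
      smul_mem' := fun c y hy => by
        have : c • y = (c : K) * y := rfl
        simp only [Set.mem_ofPred_eq, this, map_mul] at *
        exact mul_le_one' (hS _ c.2) hy }
  exact ⟨K ⧸ R, inferInstance, inferInstance, inferInstance, inferInstance,
    R.mkQ.compDer (D.compAlgebraMap S), fun x => Submodule.Quotient.mk_eq_zero R⟩

end LemUAux

open LemUAux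

variable {k K : Type} [Field k] [CharZero k] [Field K] [Algebra k K]

theorem lemmaU (v : Valuation K Γ) (hk : ∀ c : k, v (algebraMap k K c) ≤ 1)
    (G : Finset K) (hG : ∀ g ∈ G, v g ≤ 1)
    (hgen : IntermediateField.adjoin k (G : Set K) = ⊤)
    {n : ℕ} (z : Fin n → K) (hz : ∀ c, z c ∈ Algebra.adjoin k (G : Set K)) (c0 : Fin n)
    (hind : ∀ p : MvPolynomial {c // c ≠ c0} k, p ≠ 0 →
      v (MvPolynomial.aeval (fun c : {c // c ≠ c0} => z c.1) p) = 1)
    (hunr : ∀ (N : Type) [AddCommGroup N] [Module (loc v (Algebra.adjoin k (G : Set K))) N]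
      [Module k N] [IsScalarTower k (loc v (Algebra.adjoin k (G : Set K))) N]
      (D : Derivation k (loc v (Algebra.adjoin k (G : Set K))) N),
      (∀ c, D ⟨z c, le_loc v _ (hz c)⟩ = 0) →
      ∀ g (hg : g ∈ G), D ⟨g, le_loc v _ (Algebra.subset_adjoin hg)⟩ = 0)
    (D : Derivation k K K) (hD : ∀ c, v (D (z c)) ≤ 1) (x : K) (hx : v x ≤ 1) :
    v (D x) ≤ 1 := by
  have hB : ∀ y ∈ Algebra.adjoin k (G : Set K), v y ≤ 1 := fun y hy =>
    (Algebra.adjoin_le (S := Rv v hk) (fun g hg => hG g hg)) hy
  let F : IntermediateField k K :=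
    IntermediateField.adjoin k (Set.range fun c : {c // c ≠ c0} => z c.1)
  have hF : ∀ y ∈ F, y ∈ loc v (Algebra.adjoin k (G : Set K)) := by
    intro y hy
    obtain ⟨r, s, rfl⟩ := (IntermediateField.mem_adjoin_range_iff k _ y).1 hy
    have hm : ∀ q : MvPolynomial {c // c ≠ c0} k,
        MvPolynomial.aeval (fun c : {c // c ≠ c0} => z c.1) q ∈
          loc v (Algebra.adjoin k (G : Set K)) := by
      intro q
      induction q using MvPolynomial.induction_on with
      | C a => rw [MvPolynomial.aeval_C]; exact Subalgebra.algebraMap_mem _ a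
      | add p q hp hq => rw [map_add]; exact add_mem hp hq
      | mul_X p i hp =>
        rw [map_mul, MvPolynomial.aeval_X]; exact mul_mem hp (le_loc v _ (hz _))
    by_cases hs : s = 0
    · rw [hs, map_zero, div_zero]; exact zero_mem _
    · rw [div_eq_mul_inv]
      exact mul_mem (hm r) (inv_mem_loc (hm s) (hind s hs))
  have hle : (Algebra.adjoin F {z c0}).restrictScalars k ≤ loc v (Algebra.adjoin k (G : Set K)) := by
    intro y hy
    have hy' : y ∈ Algebra.adjoin F {z c0} := hy
    clear hy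
    induction hy' using Algebra.adjoin_induction with
    | mem u hu =>
      rw [Set.mem_singleton_iff] at hu
      rw [hu]; exact le_loc v _ (hz c0)
    | algebraMap r => exact hF r r.2
    | add a b _ _ ha hb => exact add_mem ha hb
    | mul a b _ _ ha hb => exact mul_mem ha hb
  have hB' : ∀ y ∈ (Algebra.adjoin F {z c0}).restrictScalars k, v y ≤ 1 := fun y hy =>
    loc_v_le hB (hle hy)
  have hzA : ∀ c, z c ∈ (Algebra.adjoin F {z c0}).restrictScalars k := by
    intro c
    by_cases hc : c = c0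
    · rw [hc]; exact Algebra.subset_adjoin (s := {z c0}) rfl
    · have : z c ∈ F := IntermediateField.subset_adjoin k _ ⟨⟨c, hc⟩, rfl⟩
      exact (Algebra.adjoin F {z c0}).algebraMap_mem ⟨z c, this⟩
  have hA := isLocalRing_loc hB'
  have ess : Algebra.EssFiniteType k (loc v (Algebra.adjoin k (G : Set K))) :=
    (Algebra.essFiniteType_iff _ _).2 ⟨gens k v G, gens_cond G hB⟩
  have val : ValuationRing (loc v (Algebra.adjoin k (G : Set K))) :=
    valRing_loc hB hB' hle (principal F (z c0) hB') fun N _ _ _ _ D' hD' =>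
      der_zero G hB D' (hunr N D' fun c => hD' (z c) (hzA c))
  have hx' : x ∈ IntermediateField.adjoin k (G : Set K) := by rw [hgen]; trivial
  obtain ⟨a, ha, b, hb, e⟩ := IntermediateField.mem_adjoin_iff_div.1 hx'
  have hxS : x ∈ loc v (Algebra.adjoin k (G : Set K)) := mem_of_valRing hB ha hb e hx
  obtain ⟨N, _, _, _, _, D', hD'⟩ := exists_quot (loc v (Algebra.adjoin k (G : Set K)))
    (fun y hy => loc_v_le hB hy) D
  exact (hD' ⟨x, hxS⟩).1 (der_zero G hB D' (hunr N D' fun c => (hD' _).2 (hD c)) _)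

end Pool.Agent.Lib.MP_813db1_ag
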