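import Pool.Agent.Lib.MP_813db1_ag.Local
import Pool.Agent.Lib.MP_813db1_ag.LemU

/-! The upper bound for Jacobians at places with a divisorial centre. -/

namespace Pool.Agent.Lib.MP_813db1_ag

open Module Finset Matrix

theorem cramer_zero {S N σ : Type} [CommRing S] [AddCommGroup N] [Module S N] [Fintype σ]
    [DecidableEq σ] (U : Matrix σ σ S) (hU : IsUnit U.det) (w : σ → N)
    (h : ∀ x, ∑ y, U x y • w y = 0) (x : σ) : w x = 0 := by
  have h1 := Matrix.nonsing_inv_mul U hU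
  calc w x = ∑ y, (U⁻¹ * U) x y • w y := by
        rw [h1, Fintype.sum_eq_single x (fun y hy => by rw [Matrix.one_apply_ne' hy, zero_smul])]
        simp
    _ = ∑ z, U⁻¹ x z • ∑ y, U z y • w y := by
        simp only [Matrix.mul_apply, sum_smul, smul_sum, smul_smul]
        rw [sum_comm]
    _ = 0 := by simp [h]

section

variable {k K : Type} [Field k] [Field K] [Algebra k K]

theorem isUnit_loc (v : Valuation K Γ) (B : Subalgebra k K) (x : loc v B) (hx : v (x : K) = 1) :
    IsUnit x := by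
  obtain ⟨a, ha, s, hs, hv, hxs⟩ := x.2
  have hx0 : (x : K) ≠ 0 := by
    intro h; rw [h] at hx; simp at hx
  have hva : v a = 1 := by rw [← hxs, map_mul, hx, hv, one_mul]
  refine IsUnit.of_mul_eq_one (⟨(x : K)⁻¹, s, hs, a, ha, hva, ?_⟩ : loc v B) ?_
  · rw [← hxs]; field_simp
  · ext; simp [mul_inv_cancel₀ hx0]

theorem loc_le (v : Valuation K Γ) (hk : ∀ c : k, v (algebraMap k K c) ≤ 1) (B : Subalgebra k K)
    (hB : B ≤ Rv v hk) : loc v B ≤ Rv v hk := by
  rintro x ⟨a, ha, s, -, hv, hxs⟩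
  have := mem_Rv.1 (hB ha)
  rw [← hxs, map_mul, hv, mul_one] at this
  exact this

theorem v_det_le {σ : Type} [Fintype σ] [DecidableEq σ] (P : Place k K) (A : Matrix σ σ K)
    (h : ∀ x y, P.v (A x y) ≤ 1) : P.v A.det ≤ 1 := (P.det_lift A h).1

theorem Place.res_aeval {σ : Type} (P : Place k K) (z : σ → K) (hz : ∀ c, P.v (z c) ≤ 1)
    (p : MvPolynomial σ k) : P.v (MvPolynomial.aeval z p) ≤ 1 ∧
      P.res (MvPolynomial.aeval z p) = MvPolynomial.aeval (fun c => P.res (z c)) p := by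
  let z' : σ → Rv P.v P.hk := fun c => ⟨z c, hz c⟩
  have h1 : MvPolynomial.aeval z p = (MvPolynomial.aeval z' p : Rv P.v P.hk) := by
    have := MvPolynomial.comp_aeval_apply z' (Rv P.v P.hk).val p
    exact this.symm
  refine ⟨h1 ▸ (MvPolynomial.aeval z' p).2, ?_⟩
  rw [h1, P.res_coe, MvPolynomial.comp_aeval_apply]
  congr 2
  funext c
  exact (P.res_eq (hz c)).symm

end

namespace Sys

variable {k K : Type} [Field k] [Field K] [Algebra k K] {n : ℕ} {M : Type} [AddCommGroup M]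
  {ι : Type} [Fintype ι] {Q : ι → Type} [∀ i, Fintype (Q i)] (S : Sys k K n M ι Q)
  [DecidableEq ι]

theorem unr (P : Place k K) (A : Adapt (P.nu S.χ)) (q0 : ∀ i, Q i)
    (h : ∀ i q, P.v (S.χ (S.e i q - S.e i (q0 i))) ≤ 1) (q : Fin n → M)
    (hq1 : ∀ c, A.ν' (q c) = 0 ∨ q c = A.qs) (hq2 : P.v (S.U q0 q).det = 1)
    (hq3 : 0 < A.a → ∃ c, q c = A.qs) (B : Subalgebra k K) (hB : ∀ m, S.χ (A.p m) ∈ B)
    (hBt : S.χ A.qs ∈ B) (hz : ∀ c, S.χ (q c) ∈ B)
    (N : Type) [AddCommGroup N] [Module (loc P.v B) N] [Module k N]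
    [IsScalarTower k (loc P.v B) N] (D : Derivation k (loc P.v B) N)
    (hD : ∀ c, D ⟨S.χ (q c), le_loc _ _ (hz c)⟩ = 0) :
    (∀ m, D ⟨S.χ (A.p m), le_loc _ _ (hB m)⟩ = 0) ∧ D ⟨S.χ A.qs, le_loc _ _ hBt⟩ = 0 := by
  let ξ : M → loc P.v B := fun m => ⟨S.χ (A.p m), le_loc _ _ (hB m)⟩
  let t : loc P.v B := ⟨S.χ A.qs, le_loc _ _ hBt⟩
  have hξ : ∀ x y, ξ (x + y) = ξ x * ξ y := fun x y => by
    ext; simp [ξ, S.χ.map_add_eq_mul]
  have hξ0 : ξ 0 = 1 := by ext; simp [ξ]
  have hξ1 : ∀ x, ξ x * ξ (-x) = 1 := fun x => by rw [← hξ, add_neg_cancel, hξ0]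
  have ht : D t = 0 := by
    rcases A.alt with ⟨-, h1, -⟩ | ⟨-, h1⟩
    · have : t = 1 := by ext; simp [t, h1]
      rw [this, D.map_one_eq_zero]
    · obtain ⟨c, hc⟩ := hq3 h1
      have : t = ⟨S.χ (q c), le_loc _ _ (hz c)⟩ := by ext; simp [t, hc]
      rw [this, hD]
  let ψ : M →+ N := AddMonoidHom.mk' (fun m => ξ (-m) • D (ξ m)) (fun x y => by
    rw [hξ, D.leibniz, neg_add, hξ, smul_add, smul_smul, smul_smul, add_comm]
    congr 2
    · rw [mul_assoc, mul_comm (ξ (-y)), hξ1, mul_one]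
    · rw [mul_right_comm, mul_comm (ξ (-x)), hξ1, one_mul])
  have hψ : ∀ m, D (ξ m) = ξ m • ψ m := fun m => by
    simp only [ψ, AddMonoidHom.mk'_apply, smul_smul, hξ1, one_smul]
  let e' : ∀ i, Q i → M := fun i q => S.e i q - S.e i (q0 i)
  let T : ∀ i, Q i → loc P.v B := fun i q => ξ (e' i q) * t ^ (A.ν' (e' i q)).toNat
  have hT : ∀ i q, (T i q : K) = S.χ (e' i q) := fun i q => by
    rw [A.chi_eq S.χ (m := e' i q) (A.nonneg ((P.v_chi_le_one _ _).1 (h i q)))]
    simp only [T, ξ, t, Subalgebra.coe_mul, Subalgebra.coe_pow]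
  have hDT : ∀ i q, D (T i q) = T i q • ψ (e' i q) := fun i q => by
    simp only [T, D.leibniz, D.leibniz_pow, ht, smul_zero, zero_add, hψ, smul_smul, mul_comm]
  let U' : Matrix (ι ⊕ Fin n) (ι ⊕ Fin n) (loc P.v B) := Matrix.fromRows
    (Matrix.of fun i x => ∑ q, S.c i q • T i q * (S.b.repr (e' i q) x : loc P.v B))
    (Matrix.of fun c x => (S.b.repr (q c) x : loc P.v B))
  have hU' : (loc P.v B).val.mapMatrix U' = S.U q0 q := by
    ext x y
    rcases x with i | c
    · simp only [U', U, Th', AlgHom.mapMatrix_apply, Matrix.map_apply, Matrix.fromRows_apply_inl,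
        Matrix.of_apply]
      rw [map_sum]
      refine sum_congr rfl fun q _ => ?_
      rw [map_mul, map_smul, map_intCast, Algebra.smul_def]
      congr 2
      exact hT i q
    · simp [U', U, co]
  have hdet : IsUnit U'.det := by
    apply isUnit_loc
    have := (loc P.v B).val.map_det U'
    rw [hU'] at this
    rw [← hq2, ← this]; rfl
  have hb : ∀ x, ψ (S.b x) = 0 := by
    apply cramer_zero U' hdet
    rintro (i | c)
    · have h1 : ∑ q, S.c i q • T i q = 0 := by
        apply Subtype.val_injective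
        change (loc P.v B).val _ = 0
        rw [map_sum, ← S.rel' i (S.e i (q0 i))]
        refine sum_congr rfl fun q _ => ?_
        rw [map_smul, Algebra.smul_def]
        congr 1
        exact hT i q
      have h2 := congrArg D h1
      rw [map_sum, map_zero] at h2
      rw [← h2]
      simp only [U', Matrix.fromRows_apply_inl, Matrix.of_apply, sum_smul]
      rw [sum_comm]
      refine sum_congr rfl fun q _ => ?_
      rw [D.map_smul, hDT, addHom_eq S.b ψ (e' i q), smul_sum, smul_sum]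
      refine sum_congr rfl fun x _ => ?_
      rw [mul_smul, smul_assoc, Int.cast_smul_eq_zsmul]
    · have h1 : ψ (q c) = 0 := by
        have : D (ξ (q c)) = 0 := by
          rcases hq1 c with h1 | h1
          · have : ξ (q c) = ⟨S.χ (q c), le_loc _ _ (hz c)⟩ := by
              ext; simp [ξ, A.p_of _ h1]
            rw [this, hD]
          · have : ξ (q c) = 1 := by ext; simp [ξ, h1, A.p_qs]
            rw [this, D.map_one_eq_zero]
        simp only [ψ, AddMonoidHom.mk'_apply, this, smul_zero]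
      rw [addHom_eq S.b] at h1
      rw [← h1]
      simp only [U', Matrix.fromRows_apply_inr, Matrix.of_apply, Int.cast_smul_eq_zsmul]
  refine ⟨fun m => ?_, ht⟩
  have := hψ m
  rw [addHom_eq S.b ψ m, sum_eq_zero fun x _ => by rw [hb, smul_zero], smul_zero] at this
  exact this

variable [∀ i, Nonempty (Q i)]

theorem local_bound [CharZero k] (hn : 0 < n) (h0 : K) (hh0 : h0 ≠ 0)
    (hdet : ∀ (q0 : ∀ i, Q i) (q : Fin n → M), (Matrix.of fun a c => lg S.χ (S.D a) (q c)).det =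
      h0 * (∏ i, S.χ (S.e i (q0 i))) * (S.U q0 q).det)
    (P : Place k K) (A : Adapt (P.nu S.χ)) (x : Fin (n - 1) → P.κ)
    (hx : AlgebraicIndependent k x)
    (hxm : ∀ b, x b ∈ IntermediateField.adjoin k (Set.range fun m => P.res (S.χ (A.p m))))
    (y : Fin n → K) (hy : ∀ c, P.v (y c) ≤ 1) :
    P.v (jac S.D y) ≤ P.v h0 * WithZero.exp (- (phi S.e (P.nu S.χ) + A.a)) := by
  classical
  obtain ⟨q0, hq0, hphi⟩ := S.exists_q0 P
  obtain ⟨q, hq1, hq2, hq3, hq4⟩ := S.frame P A q0 hq0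
  let G : Finset K := insert (S.χ A.qs) ((univ.image fun x => S.χ (A.p (S.b x))) ∪
    (univ.image fun x => S.χ (A.p (- S.b x))))
  let B := Algebra.adjoin k (G : Set K)
  have hp : ∀ m, P.nu S.χ (A.p m) = 0 := fun m => by rw [A.eq, A.nu_p, mul_zero]
  have hG : ∀ g ∈ G, P.v g ≤ 1 := by
    intro g hg
    simp only [G, mem_insert, mem_union, mem_image, mem_univ, true_and] at hg
    rcases hg with rfl | ⟨x, rfl⟩ | ⟨x, rfl⟩
    · rw [P.v_chi_le_one, A.nu_qs]; exact A.a_nonneg
    · rw [P.v_chi_le_one, hp]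
    · rw [P.v_chi_le_one, hp]
  have hBt : S.χ A.qs ∈ B := Algebra.subset_adjoin (by simp [G])
  have hB : ∀ m, S.χ (A.p m) ∈ B := by
    let T : AddSubgroup M :=
      { carrier := {m | S.χ (A.p m) ∈ B ∧ S.χ (A.p (-m)) ∈ B}
        add_mem' := fun {a b} ha hb => by
          simp only [Set.mem_ofPred_eq, neg_add, map_add, S.χ.map_add_eq_mul] at *
          exact ⟨B.mul_mem ha.1 hb.1, B.mul_mem ha.2 hb.2⟩
        zero_mem' := by simp
        neg_mem' := fun {a} ha => ⟨ha.2, by rw [neg_neg]; exact ha.1⟩ }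
    intro m
    have : m ∈ T := by
      rw [← S.b.sum_repr m]
      refine T.sum_mem fun x _ => T.zsmul_mem ⟨?_, ?_⟩ _
      · exact Algebra.subset_adjoin (by simp [G])
      · exact Algebra.subset_adjoin (by simp only [G]; simp [-map_neg])
    exact this.1
  have hz : ∀ c, S.χ (q c) ∈ B := fun c => by
    rcases hq1 c with h | h
    · rw [← A.p_of _ h]; exact hB _
    · rw [h]; exact hBt
  have hBR : B ≤ Rv P.v P.hk := Algebra.adjoin_le fun g hg => hG g hg
  have hgen : IntermediateField.adjoin k (G : Set K) = ⊤ := by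
    rw [eq_top_iff, ← S.gen, IntermediateField.adjoin_le_iff]
    rintro _ ⟨m, rfl⟩
    have e1 : S.χ m = S.χ (A.p m) * S.χ A.qs ^ A.ν' m := by
      rw [← S.χ.map_zsmul_eq_zpow, ← S.χ.map_add_eq_mul, A.p_apply, sub_add_cancel]
    rw [e1]
    have m1 : S.χ (A.p m) ∈ IntermediateField.adjoin k (G : Set K) :=
      IntermediateField.algebra_adjoin_le_adjoin k _ (hB m)
    have m2 : S.χ A.qs ∈ IntermediateField.adjoin k (G : Set K) :=
      IntermediateField.algebra_adjoin_le_adjoin k _ hBt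
    exact mul_mem m1 (zpow_mem m2 _)
  have hzv : ∀ c, P.v (S.χ (q c)) ≤ 1 := fun c => hBR (hz c)
  obtain ⟨c0, hc0⟩ := exists_indep_compl hn x hx (fun c => P.res (S.χ (q c))) (by
    intro D hD b
    let ρ' : loc P.v B →ₐ[k] P.κ := P.ρ.comp (Subalgebra.inclusion (loc_le P.v P.hk B hBR))
    let _ : Algebra (loc P.v B) P.κ := ρ'.toRingHom.toAlgebra
    have : IsScalarTower k (loc P.v B) P.κ :=
      IsScalarTower.of_algebraMap_eq fun c => (ρ'.commutes c).symm
    have hρ : ∀ y : loc P.v B, algebraMap (loc P.v B) P.κ y = P.res y := fun y =>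
      (P.res_eq (loc_le P.v P.hk B hBR y.2)).symm
    have h1 := (S.unr P A q0 hq0 q hq1 hq3 hq4 B hB hBt hz P.κ (D.compAlgebraMap (loc P.v B))
      (fun c => by
        change D (algebraMap (loc P.v B) P.κ _) = 0
        rw [hρ]; exact hD c)).1
    refine der_adjoin D _ ?_ _ (hxm b)
    rintro _ ⟨m, rfl⟩
    have h2 := h1 m
    change D (algebraMap (loc P.v B) P.κ _) = 0 at h2
    rw [hρ] at h2
    exact h2)
  have hU := lemmaU P.v P.hk G hG hgen (fun c => S.χ (q c)) hz c0 (fun p hp => by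
      obtain ⟨h1, h2⟩ := P.res_aeval (fun c : {c // c ≠ c0} => S.χ (q c.1)) (fun c => hzv c.1) p
      refine le_antisymm h1 (not_lt.1 fun hlt => hp ?_)
      rw [← P.res_eq_zero h1, h2] at hlt
      exact hc0.eq_zero_of_aeval_eq_zero p hlt)
    (fun N _ _ _ _ D hD g hg => by
      obtain ⟨h1, h2⟩ := S.unr P A q0 hq0 q hq1 hq3 hq4 B hB hBt hz N D hD
      simp only [G, mem_insert, mem_union, mem_image, mem_univ, true_and] at hg
      rcases hg with rfl | ⟨x, rfl⟩ | ⟨x, rfl⟩
      · exact h2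
      · exact h1 _
      · exact h1 _)
  have hj : P.v (jac S.D fun c => S.χ (q c)) = WithZero.exp (- ∑ c, P.nu S.χ (q c)) *
      (P.v h0 * WithZero.exp (- phi S.e (P.nu S.χ))) := by
    rw [jac_chi, hdet q0 q, map_mul, map_mul, map_mul, hq3, hphi, mul_one,
      ← chi_sum S.χ, P.v_chi, map_sum]
  let Jz : Matrix (Fin n) (Fin n) K := Matrix.of fun a c => S.D a (S.χ (q c))
  have hJ : IsUnit Jz.det := by
    apply Ne.isUnit
    intro h
    change jac S.D (fun c => S.χ (q c)) = 0 at h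
    rw [h, map_zero] at hj
    exact mul_ne_zero WithZero.exp_ne_zero
      (mul_ne_zero ((Valuation.ne_zero_iff _).2 hh0) WithZero.exp_ne_zero) hj.symm
  let D' : Fin n → Derivation k K K := fun c => ∑ a, Jz⁻¹ c a • S.D a
  have hD' : ∀ y : Fin n → K, (Matrix.of fun a c => D' a (y c)) =
      Jz⁻¹ * Matrix.of fun a c => S.D a (y c) := fun y => by
    ext a c
    simp only [D', Matrix.of_apply, der_sum_apply, Matrix.mul_apply]
  have h1 : ∀ a c, P.v (D' a (S.χ (q c))) ≤ 1 := fun a c => by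
    have := congrFun (congrFun (hD' fun c => S.χ (q c)) a) c
    rw [Matrix.of_apply, Matrix.nonsing_inv_mul _ hJ, Matrix.one_apply] at this
    rw [this]
    split_ifs <;> simp
  have h2 : jac S.D y = jac S.D (fun c => S.χ (q c)) * (Matrix.of fun a c => D' a (y c)).det := by
    rw [hD', Matrix.det_mul, ← mul_assoc]
    change _ = Jz.det * Jz⁻¹.det * jac S.D y
    rw [Matrix.det_nonsing_inv, Ring.mul_inverse_cancel _ hJ, one_mul]
  rw [h2, map_mul, hj]
  refine (mul_le_of_le_one_right' (v_det_le P _ fun a c => hU _ (h1 a) _ (hy c))).trans ?_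
  rw [mul_left_comm, ← WithZero.exp_add]
  apply mul_le_mul_right
  rw [WithZero.exp_le_exp]
  have h3 : ∀ c, 0 ≤ P.nu S.χ (q c) := fun c => (P.v_chi_le_one _ _).1 (hzv c)
  have h4 : A.a ≤ ∑ c, P.nu S.χ (q c) := by
    rcases A.a_nonneg.lt_or_eq with h | h
    · obtain ⟨c, hc⟩ := hq4 h
      rw [← A.nu_qs, ← hc]
      exact single_le_sum (fun c _ => h3 c) (mem_univ c)
    · rw [← h]; exact sum_nonneg fun c _ => h3 c
  linarith

end Sys

end Pool.Agent.Lib.MP_813db1_ag
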