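import Mathlib

/-! Definitions used in the statement on nondegenerate toric complete intersections. -/

namespace Pool.Agent.Lib.MP_813db1_ag

/-- The Laurent monomial `y ^ q`. -/
noncomputable def mono {d : ℕ} {F : Type} [Field F] (y : Fin d → Fˣ) (q : Fin d → ℤ) : F :=
  ((∏ j, y j ^ q j : Fˣ) : F)

/-- The exponents of the Laurent polynomial `f` on which the weight `w` is minimal. -/
noncomputable def face {d : ℕ} (f : (Fin d → ℤ) →₀ ℂ) (w : Fin d → ℤ) : Finset (Fin d → ℤ) :=
  f.support.filter fun q => ∀ q' ∈ f.support, w ⬝ᵥ q ≤ w ⬝ᵥ q'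

/-- Khovanskii nondegeneracy: for every weight `w`, at every common zero in the torus of the
`w`-initial forms, their logarithmic gradients are linearly independent. -/
def Nondeg {r d : ℕ} (f : Fin r → (Fin d → ℤ) →₀ ℂ) : Prop :=
  ∀ (w : Fin d → ℤ) (y : Fin d → ℂˣ), (∀ i, ∑ q ∈ face (f i) w, f i q * mono y q = 0) →
    LinearIndependent ℂ fun (i : Fin r) (j : Fin d) =>
      ∑ q ∈ face (f i) w, f i q * (q j : ℂ) * mono y q

variable {K : Type} [Field K] [Algebra ℂ K] {n : ℕ}

/-- `R` is a discrete valuation ring of `K` containing `ℂ`. -/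
def IsPlace (R : ValuationSubring K) : Prop :=
  (∀ c : ℂ, algebraMap ℂ K c ∈ R) ∧ IsDiscreteValuationRing R

/-- With `ω` the top form dual to `D`, the forms `db₁ ∧ ⋯ ∧ dbₙ` (`bᵢ ∈ R`) span
`jacMod D R • ω`. -/
noncomputable def jacMod (D : Fin n → Derivation ℂ K K) (R : ValuationSubring K) :
    Submodule R K :=
  Submodule.span R {g | ∃ b : Fin n → K, (∀ c, b c ∈ R) ∧
    g = Matrix.det (Matrix.of fun a c => D a (b c))}

/-- Some nonzero `m`-canonical form `h ω ^ m` is regular at every place. -/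
def QEffective (D : Fin n → Derivation ℂ K K) : Prop :=
  ∃ m : ℕ, 0 < m ∧ ∃ h : K, h ≠ 0 ∧ ∀ R : ValuationSubring K, IsPlace R → h ∈ jacMod D R ^ m

/-- For a fixed linear system `V` with polar divisor `A`, the class `N K + A` is
`ℚ`-effective for every `N`. -/
def PseudoEffective (D : Fin n → Derivation ℂ K K) : Prop :=
  ∃ V : Finset K, ∀ N : ℕ, 0 < N → ∃ m : ℕ, 0 < m ∧ ∃ h : K, h ≠ 0 ∧
    ∀ R : ValuationSubring K, IsPlace R →
      h ∈ jacMod D R ^ (m * N) * Submodule.span R (V : Set K) ^ m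

end Pool.Agent.Lib.MP_813db1_ag
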