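import Pool.Agent.Lib.MP_813db1_ag.Basic
import Pool.Agent.Lib.MP_813db1_ag.Defs

/-! From the definitions of the statement to the valuative forms. -/

namespace Pool.Agent.Lib.MP_813db1_ag

variable {K : Type} [Field K] [Algebra ℂ K]

/-- The monomial character of a point of the torus. -/
noncomputable def monoChar {d : ℕ} (x : Fin d → Kˣ) : AddChar (Fin d → ℤ) K where
  toFun := mono x
  map_zero_eq_one' := by simp [mono]
  map_add_eq_mul' := fun a b => by simp [mono, zpow_add, Finset.prod_mul_distrib]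

namespace BridgeAux

/-- A finitely generated subalgebra of a field over `ℂ` has a complex point. -/
theorem exists_point {κ : Type} [Field κ] [Algebra ℂ κ] (s : Finset κ) :
    Nonempty (Algebra.adjoin ℂ (s : Set κ) →ₐ[ℂ] ℂ) := by
  have : Algebra.FiniteType ℂ (Algebra.adjoin ℂ (s : Set κ)) :=
    (Subalgebra.fg_iff_finiteType _).1 (Subalgebra.fg_adjoin_finset s)
  obtain ⟨m, hm⟩ := Ideal.exists_maximal (Algebra.adjoin ℂ (s : Set κ))
  let _ := Ideal.Quotient.field m
  have := finite_of_finite_type_of_isJacobsonRing ℂ (Algebra.adjoin ℂ (s : Set κ) ⧸ m)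
  exact ⟨(IsAlgClosed.lift : (Algebra.adjoin ℂ (s : Set κ) ⧸ m) →ₐ[ℂ] ℂ).comp
    (Ideal.Quotient.mkₐ ℂ m)⟩

theorem map_mono {A F : Type} [CommRing A] [Field F] (φ : A →+* F) {d : ℕ} (Y : Fin d → Aˣ)
    (q : Fin d → ℤ) :
    mono (fun j => Units.map φ.toMonoidHom (Y j)) q = φ ((∏ j, Y j ^ q j : Aˣ) : A) := by
  have : (∏ j, Units.map φ.toMonoidHom (Y j) ^ q j) =
      Units.map φ.toMonoidHom (∏ j, Y j ^ q j) := by
    rw [map_prod]
    simp only [map_zpow]
  rw [mono, this]
  rfl

/-- Nondegeneracy holds over every extension field. -/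
theorem nondeg_ext {r d : ℕ} {f : Fin r → (Fin d → ℤ) →₀ ℂ} (hf : Nondeg f) {κ : Type} [Field κ]
    [Algebra ℂ κ] (w : Fin d → ℤ) (y : Fin d → κˣ)
    (h1 : ∀ i, ∑ q ∈ face (f i) w, algebraMap ℂ κ (f i q) * mono y q = 0) (β : Fin r → κ)
    (h2 : ∀ j, ∑ i, β i * ∑ q ∈ face (f i) w,
      algebraMap ℂ κ (f i q * (q j : ℂ)) * mono y q = 0) : β = 0 := by
  classical
  funext i0
  by_contra h0
  let s : Finset κ := insert (β i0)⁻¹ (Finset.univ.image β ∪
    (Finset.univ.image (fun j => (y j : κ)) ∪ Finset.univ.image (fun j => ((y j)⁻¹ : κˣ).val)))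
  obtain ⟨φ⟩ := exists_point s
  let A := Algebra.adjoin ℂ (s : Set κ)
  have m0 : (β i0)⁻¹ ∈ A := Algebra.subset_adjoin (by simp [s])
  have m1 : ∀ i, β i ∈ A := fun i => Algebra.subset_adjoin (by simp [s])
  have m2 : ∀ j, (y j : κ) ∈ A := fun j => Algebra.subset_adjoin (by simp [s])
  have m3 : ∀ j, ((y j)⁻¹ : κˣ).val ∈ A := fun j => Algebra.subset_adjoin (by simp [s])
  let Y : Fin d → Aˣ := fun j => ⟨⟨_, m2 j⟩, ⟨_, m3 j⟩, Subtype.ext (y j).mul_inv,
    Subtype.ext (y j).inv_mul⟩
  have hy : ∀ q, mono y q = A.val ((∏ j, Y j ^ q j : Aˣ) : A) := fun q => by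
    rw [← AlgHom.coe_toRingHom, ← map_mono]
    congr 1
  have hinj : Function.Injective A.val := Subtype.val_injective
  have hli := hf w (fun j => Units.map φ.toRingHom.toMonoidHom (Y j)) fun i => by
    have e : ∑ q ∈ face (f i) w, algebraMap ℂ A (f i q) * ((∏ j, Y j ^ q j : Aˣ) : A) = 0 := by
      apply hinj
      rw [map_zero, ← h1 i, map_sum]
      exact Finset.sum_congr rfl fun q _ => by rw [map_mul, AlgHom.commutes, hy]
    have := congrArg φ e
    rw [map_zero, map_sum] at this
    rw [← this]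
    exact Finset.sum_congr rfl fun q _ => by
      rw [map_mul, AlgHom.commutes, map_mono]
      rfl
  have k := Fintype.linearIndependent_iff.1 hli (fun i => φ ⟨β i, m1 i⟩) (funext fun j => by
    have e : ∑ i, (⟨β i, m1 i⟩ : A) * ∑ q ∈ face (f i) w,
        algebraMap ℂ A (f i q * (q j : ℂ)) * ((∏ j, Y j ^ q j : Aˣ) : A) = 0 := by
      apply hinj
      rw [map_zero, ← h2 j, map_sum]
      refine Finset.sum_congr rfl fun i _ => ?_
      rw [map_mul, map_sum]
      congr 1
      exact Finset.sum_congr rfl fun q _ => by rw [map_mul, AlgHom.commutes, hy]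
    have := congrArg φ e
    rw [map_zero, map_sum] at this
    rw [Finset.sum_apply, Pi.zero_apply, ← this]
    refine Finset.sum_congr rfl fun i _ => ?_
    rw [map_mul, map_sum, Pi.smul_apply, smul_eq_mul]
    congr 1
    exact Finset.sum_congr rfl fun q _ => by
      rw [map_mul, AlgHom.commutes, map_mono]
      rfl) i0
  have e : (⟨β i0, m1 i0⟩ : A) * ⟨_, m0⟩ = 1 := Subtype.ext (mul_inv_cancel₀ h0)
  have := congrArg φ e
  rw [map_mul, k, zero_mul, map_one] at this
  exact zero_ne_one this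

/-- A projection onto the kernel of an integral covector. -/
theorem exists_proj {M : Type} [AddCommGroup M] (ν : M →+ ℤ) :
    ∃ p : M →+ M, (∀ m, ν (p m) = 0) ∧ ∀ m, ν m = 0 → p m = m := by
  obtain ⟨g, hg⟩ := ν.toIntLinearMap.rangeRestrict.exists_rightInverse_of_surjective
    (LinearMap.range_rangeRestrict _)
  refine ⟨(LinearMap.id - g ∘ₗ ν.toIntLinearMap.rangeRestrict).toAddMonoidHom, fun m => ?_,
    fun m hm => ?_⟩
  · have := congrArg Subtype.val (LinearMap.congr_fun hg (ν.toIntLinearMap.rangeRestrict m))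
    have e : ν (g (ν.toIntLinearMap.rangeRestrict m)) = ν m := this
    change ν (m - g (ν.toIntLinearMap.rangeRestrict m)) = 0
    rw [map_sub, e, sub_self]
  · have e : ν.toIntLinearMap.rangeRestrict m = 0 := Subtype.ext hm
    change m - g (ν.toIntLinearMap.rangeRestrict m) = m
    rw [e, map_zero, sub_zero]

theorem mono_add {F : Type} [Field F] {d : ℕ} (y : Fin d → Fˣ) (a b : Fin d → ℤ) :
    mono y (a + b) = mono y a * mono y b := by
  simp [mono, zpow_add, Finset.prod_mul_distrib]

theorem mono_ne {F : Type} [Field F] {d : ℕ} (y : Fin d → Fˣ) (a : Fin d → ℤ) : mono y a ≠ 0 :=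
  Units.ne_zero _

/-- A character of the lattice is given by a point of the torus. -/
theorem exists_mono {F : Type} [Field F] {d : ℕ} (g : (Fin d → ℤ) → F) (h0 : g 0 = 1)
    (h : ∀ a b, g (a + b) = g a * g b) : ∃ y : Fin d → Fˣ, ∀ q, mono y q = g q := by
  have hne : ∀ a, g a ≠ 0 := fun a e => by
    have := h a (-a)
    rw [add_neg_cancel, h0, e, zero_mul] at this
    exact one_ne_zero this
  let G : (Fin d → ℤ) →+ Additive Fˣ := AddMonoidHom.mk' (fun a => Additive.ofMul
    (Units.mk0 (g a) (hne a))) fun a b => by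
      rw [← ofMul_mul]
      exact congrArg _ (Units.ext (h a b))
  refine ⟨fun j => (G (Pi.single j 1)).toMul, fun q => ?_⟩
  have e : q = ∑ j, q j • Pi.single j (1 : ℤ) := by
    funext k
    simp [Finset.sum_apply, Pi.single_apply]
  have e2 : G q = ∑ j, q j • G (Pi.single j 1) := by
    conv_lhs => rw [e]
    simp only [map_sum, map_zsmul]
  have e3 : (G q).toMul = ∏ j, (G (Pi.single j 1)).toMul ^ q j := by
    rw [e2, toMul_sum]
    rfl
  rw [mono, ← e3]
  rfl

/-- Elements of bounded value. -/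
def Bd (v : Valuation K Γ) (γ : Γ) : Submodule v.valuationSubring K where
  carrier := {x | v x ≤ γ}
  add_mem' := fun ha hb => v.map_add_le ha hb
  zero_mem' := by simp
  smul_mem' := fun c x hx => by
    change v ((c : K) * x) ≤ γ
    rw [map_mul]
    exact (mul_le_of_le_one_left' c.2).trans hx

omit [Algebra ℂ K] in
theorem mul_le_Bd {v : Valuation K Γ} {a b : Γ} {I J : Submodule v.valuationSubring K}
    (hI : I ≤ Bd v a) (hJ : J ≤ Bd v b) : I * J ≤ Bd v (a * b) := by
  refine Submodule.mul_le.2 fun x hx y hy => ?_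
  change v (x * y) ≤ a * b
  rw [map_mul]
  exact mul_le_mul' (hI hx) (hJ hy)

omit [Algebra ℂ K] in
theorem pow_le_Bd {v : Valuation K Γ} {a : Γ} {I : Submodule v.valuationSubring K}
    (hI : I ≤ Bd v a) (m : ℕ) : I ^ m ≤ Bd v (a ^ m) := by
  induction m with
  | zero =>
    rw [pow_zero, pow_zero, Submodule.one_eq_span, Submodule.span_le, Set.singleton_subset_iff]
    change v 1 ≤ 1
    rw [map_one]
  | succ m ih =>
    rw [pow_succ, pow_succ]
    exact mul_le_Bd ih hI

end BridgeAux

open BridgeAux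

theorem support_nonempty {r d : ℕ} (f : Fin r → (Fin d → ℤ) →₀ ℂ) (hf : Nondeg f)
    (x : Fin d → Kˣ) (hx : ∀ i, ∑ q ∈ (f i).support, algebraMap ℂ K (f i q) * mono x q = 0)
    (i : Fin r) : Nonempty (f i).support := by
  classical
  have hface : ∀ i, face (f i) 0 = (f i).support := fun i => by simp [face]
  by_contra hn
  have he : (f i).support = ∅ := by
    rwa [Finset.nonempty_coe_sort, Finset.not_nonempty_iff_eq_empty] at hn
  have := nondeg_ext hf 0 x (fun i => by rw [hface]; exact hx i) (Pi.single i 1) fun j => by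
    refine Finset.sum_eq_zero fun l _ => ?_
    by_cases h : l = i
    · rw [h, hface, he, Finset.sum_empty, mul_zero]
    · rw [Pi.single_eq_of_ne h, zero_mul]
  simpa using congrFun this i

theorem nd_of_nondeg {r d : ℕ} (f : Fin r → (Fin d → ℤ) →₀ ℂ) (hf : Nondeg f)
    (x : Fin d → Kˣ) (hx : ∀ i, ∑ q ∈ (f i).support, algebraMap ℂ K (f i q) * mono x q = 0) :
    ND (Q := fun i => (f i).support) (fun _ q => q.1) (fun i q => f i q.1) (monoChar x) := by
  classical
  intro P q0 hv α hα
  obtain ⟨p, hp1, hp2⟩ := exists_proj (P.nu (monoChar x))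
  have hle : ∀ m, P.v (monoChar x (p m)) ≤ 1 := fun m => (P.v_chi_le_one _ _).2 (hp1 m).ge
  obtain ⟨y, hy⟩ := exists_mono (fun m => P.res (monoChar x (p m)))
    (by rw [map_zero, AddChar.map_zero_eq_one, P.res_one])
    (fun a b => by rw [map_add, AddChar.map_add_eq_mul, P.res_mul (hle a) (hle b)])
  let w : Fin d → ℤ := fun j => P.nu (monoChar x) (Pi.single j 1)
  have hw : ∀ q, w ⬝ᵥ q = P.nu (monoChar x) q := fun q => by
    have e : q = ∑ j, q j • Pi.single j (1 : ℤ) := by
      funext k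
      simp [Finset.sum_apply, Pi.single_apply]
    conv_rhs => rw [e]
    simp only [map_sum, map_zsmul, smul_eq_mul, dotProduct, w, mul_comm]
  have hge : ∀ i, ∀ q ∈ (f i).support, P.nu (monoChar x) (q0 i) ≤ P.nu (monoChar x) q :=
    fun i q hq => by
      have := (P.v_chi_le_one _ _).1 (hv i ⟨q, hq⟩)
      rw [map_sub] at this
      exact sub_nonneg.1 this
  have key : ∀ i (g : (Fin d → ℤ) → P.κ), ∑ q : (f i).support, algebraMap ℂ P.κ (f i q) *
      P.res (monoChar x (q.1 - (q0 i).1)) * g q.1 = mono y (-(q0 i).1) *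
        ∑ q ∈ face (f i) w, algebraMap ℂ P.κ (f i q) * g q * mono y q := fun i g => by
    rw [Finset.sum_coe_sort (f i).support (fun q => algebraMap ℂ P.κ (f i q) *
      P.res (monoChar x (q - (q0 i).1)) * g q), face, Finset.sum_filter, Finset.mul_sum]
    refine Finset.sum_congr rfl fun q hq => ?_
    split_ifs with h
    · have h1 := h _ (q0 i).2
      rw [hw, hw] at h1
      have h2 : P.nu (monoChar x) (q - (q0 i).1) = 0 := by
        rw [map_sub]
        exact sub_eq_zero.2 (le_antisymm h1 (hge i q hq))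
      have h3 := hy (q - (q0 i).1)
      rw [hp2 _ h2] at h3
      rw [← h3, sub_eq_add_neg, mono_add]
      ring
    · have h2 : 0 < P.nu (monoChar x) (q - (q0 i).1) := by
        rw [map_sub, sub_pos]
        by_contra h3
        exact h fun q' hq' => by
          rw [hw, hw]
          exact (not_lt.1 h3).trans (hge i q' hq')
      rw [(P.res_eq_zero (hv i ⟨q, hq⟩)).2 ((P.v_chi_lt_one _ _).2 h2)]
      ring
  have h1 : ∀ i, ∑ q ∈ face (f i) w, algebraMap ℂ P.κ (f i q) * mono y q = 0 := fun i => by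
    have e : ∑ q : (f i).support, algebraMap ℂ K (f i q) * monoChar x (q.1 - (q0 i).1) = 0 := by
      rw [Finset.sum_coe_sort (f i).support (fun q => algebraMap ℂ K (f i q) *
        monoChar x (q - (q0 i).1)), ← mul_zero (mono x (-(q0 i).1)), ← hx i, Finset.mul_sum]
      refine Finset.sum_congr rfl fun q _ => ?_
      change _ * mono x _ = _
      rw [sub_eq_add_neg, mono_add]
      ring
    have e2 := congrArg P.res e
    rw [P.res_zero, P.res_sum _ _ fun q _ => by
      rw [map_mul]
      exact mul_le_one' (P.hk _) (hv i q)] at e2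
    have e3 := key i fun _ => 1
    simp only [mul_one] at e3
    refine (mul_eq_zero.1 (e3.symm.trans ?_)).resolve_left (mono_ne _ _)
    rw [← e2]
    exact Finset.sum_congr rfl fun q _ => by
      rw [P.res_mul (P.hk _) (hv i q), P.res_algebraMap]
  have h2 := nondeg_ext hf w y h1 (fun i => α i * mono y (-(q0 i).1)) fun j => by
    rw [← hα (Pi.evalAddMonoidHom (fun _ => ℤ) j)]
    refine Finset.sum_congr rfl fun i _ => ?_
    rw [key i fun q => ((Pi.evalAddMonoidHom (fun _ => ℤ) j (q - (q0 i).1) : ℤ) : P.κ), mul_assoc]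
    congr 2
    rw [← sub_zero (∑ q ∈ face (f i) w, _), ← mul_zero (((q0 i).1 j : ℤ) : P.κ), ← h1 i,
      Finset.mul_sum, ← Finset.sum_sub_distrib]
    refine Finset.sum_congr rfl fun q _ => ?_
    simp only [map_mul, map_intCast, Pi.evalAddMonoidHom_apply, Pi.sub_apply, Int.cast_sub]
    ring
  funext i
  exact (mul_eq_zero.1 (congrFun h2 i)).resolve_right (mono_ne _ _)

theorem psefV_of {n : ℕ} (D : Fin n → Derivation ℂ K K) (h : PseudoEffective D) : PsefV D := by
  obtain ⟨V, h⟩ := h
  refine ⟨V, fun N hN => ?_⟩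
  obtain ⟨m, hm, g, hg, h⟩ := h N hN
  refine ⟨m, hm, g, hg, fun v hv hk γ γ' h1 h2 => ?_⟩
  have : v.IsNontrivial := by
    obtain ⟨x, hx⟩ := hv (WithZero.exp (-1))
    exact ⟨x, by rw [hx]; exact WithZero.exp_ne_zero, by rw [hx]; simp⟩
  have k := h v.valuationSubring ⟨hk, inferInstance⟩
  refine mul_le_Bd (pow_le_Bd ?_ _) (pow_le_Bd ?_ _) k
  · refine Submodule.span_le.2 ?_
    rintro _ ⟨b, hb, rfl⟩
    exact h1 b hb
  · exact Submodule.span_le.2 fun y hy => h2 y hy

theorem qeff_of {n : ℕ} (D : Fin n → Derivation ℂ K K) (h : EffV D) : QEffective D := by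
  obtain ⟨m, hm, g, hg, h⟩ := h
  refine ⟨m, hm, g, hg, fun R hR => ?_⟩
  have := hR.2
  let v : Valuation K Γ := (IsDiscreteValuationRing.maximalIdeal R).valuation K
  have h1 : ∀ x, v x ≤ 1 → x ∈ R := fun x hx => by
    obtain ⟨a, rfl⟩ := IsDiscreteValuationRing.exists_lift_of_le_one hx
    exact a.2
  obtain ⟨b, hb, hj⟩ := h v (IsDedekindDomain.HeightOneSpectrum.valuation_surjective K _)
    fun c => IsDedekindDomain.HeightOneSpectrum.valuation_le_one _ (⟨_, hR.1 c⟩ : R)
  have hj0 : jac D b ^ m ≠ 0 := fun e => by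
    rw [← map_pow, e, map_zero, le_zero_iff, v.zero_iff] at hj
    exact hg hj
  have h2 : g / jac D b ^ m ∈ R := h1 _ (by
    rw [map_div₀, map_pow]
    exact div_le_one_of_le₀ hj zero_le)
  have h3 : jac D b ∈ jacMod D R := Submodule.subset_span ⟨b, fun c => h1 _ (hb c), rfl⟩
  have h4 := Submodule.smul_mem _ (⟨_, h2⟩ : R) (Submodule.pow_mem_pow _ h3 m)
  have e : (⟨_, h2⟩ : R) • jac D b ^ m = g := div_mul_cancel₀ g hj0
  rwa [e] at h4

theorem psef_of_qeff {n : ℕ} (D : Fin n → Derivation ℂ K K) (h : QEffective D) :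
    PseudoEffective D := by
  obtain ⟨m, hm, g, hg, h⟩ := h
  refine ⟨{1}, fun N _ => ⟨m, hm, g ^ N, pow_ne_zero _ hg, fun R hR => ?_⟩⟩
  rw [Finset.coe_singleton, ← Submodule.one_eq_span, one_pow, mul_one, pow_mul]
  exact Submodule.pow_mem_pow _ (h R hR) N

end Pool.Agent.Lib.MP_813db1_ag
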