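import Pool.Agent.Lib.MP_813db1_ag.Local

/-! The case of finite fibres: the equations are linear and the fibre is one point. -/

namespace Pool.Agent.Lib.MP_813db1_ag

open Module Finset Matrix

theorem exists_left_inv {K I J : Type} [Field K] [Fintype I] [Fintype J] [DecidableEq J]
    (B : Matrix I J K) (h : ∀ β, B *ᵥ β = 0 → β = 0) : ∃ C : Matrix J I K, C * B = 1 := by
  classical
  obtain ⟨g, hg⟩ := LinearMap.exists_leftInverse_of_injective (Matrix.toLin' B)
    (LinearMap.ker_eq_bot'.2 h)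
  refine ⟨LinearMap.toMatrix' g, ?_⟩
  have := congrArg LinearMap.toMatrix' hg
  rwa [LinearMap.toMatrix'_comp, LinearMap.toMatrix'_toLin', LinearMap.toMatrix'_id] at this

theorem ext_char_units {M J Ω : Type} [AddCommGroup M] [Fintype J] [Field Ω] [IsAlgClosed Ω]
    (ν : J → M →+ ℤ) (ρ : AddChar M Ω) (h : ∀ m, (∀ j, ν j m = 0) → ρ m = 1) :
    ∃ z : J → Ω, (∀ j, z j ≠ 0) ∧ ∀ m, ρ m = ∏ j, z j ^ ν j m := by
  classical
  let _ : DivisibleBy (Additive Ωˣ) ℤ := divisibleByOfSMulRightSurj _ _ fun {n} hn a => by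
    obtain ⟨y, hy⟩ := IsAlgClosed.exists_pow_nat_eq (a.toMul : Ω) (Int.natAbs_pos.2 hn)
    have hy0 : y ≠ 0 := by
      rintro rfl
      rw [zero_pow (Int.natAbs_ne_zero.2 hn)] at hy
      exact a.toMul.ne_zero hy.symm
    refine ⟨n.sign • Additive.ofMul (Units.mk0 y hy0), ?_⟩
    change n • n.sign • _ = a
    rw [smul_smul, Int.mul_sign_self, natCast_zsmul]
    apply Additive.toMul.injective
    ext
    simpa using hy
  let f : M →+ (J → ℤ) := AddMonoidHom.pi ν
  let ρ' : M →+ Additive Ωˣ := AddMonoidHom.mk'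
    (fun m => Additive.ofMul (Units.mk0 (ρ m) (chi_ne ρ m))) (fun x y => by
      apply Additive.toMul.injective
      ext
      simp [ρ.map_add_eq_mul])
  obtain ⟨z, hz⟩ := ext_char f ρ' (fun m hm => by
    apply Additive.toMul.injective
    ext
    simpa [ρ'] using h m (fun j => congrFun hm j))
  refine ⟨fun j => ((z (Pi.single j 1)).toMul : Ωˣ), fun j => Units.ne_zero _, fun m => ?_⟩
  have h1 := hz m
  have h2 : f m = ∑ j, ν j m • Pi.single j 1 := by
    funext j
    simp [f, Finset.sum_apply, Pi.single_apply]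
  rw [h2, map_sum] at h1
  have h3 := congrArg (fun a : Additive Ωˣ => ((a.toMul : Ωˣ) : Ω)) h1
  simp only [map_zsmul, toMul_sum, toMul_zsmul, Units.coe_prod, Units.val_zpow_eq_zpow_val] at h3
  exact h3.symm

namespace Circuit

variable {M : Type} [AddCommGroup M] {ι : Type} [Fintype ι] {Q : ι → Type}
  [∀ i, Fintype (Q i)] [∀ i, Nonempty (Q i)] {e : ∀ i, Q i → M} (C : Circuit e)

/-- Exponents in the homogeneous coordinates of the fibre. -/
noncomputable def aa (j : C.J) (i : ι) (q : Q i) : ℕ := (C.nu j (e i q) - mn e (C.nu j) i).toNat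

/-- Degrees of the equations on the fibre. -/
noncomputable def delta (i : ι) : ℕ := (- ∑ j, (C.lam j : ℤ) * mn e (C.nu j) i).toNat

theorem aa_eq (j : C.J) (i : ι) (q : Q i) :
    (C.aa j i q : ℤ) = C.nu j (e i q) - mn e (C.nu j) i :=
  Int.toNat_of_nonneg (sub_nonneg.2 (mn_le e _ i q))

theorem sum_aa' (i : ι) (q : Q i) :
    ∑ j, (C.lam j : ℤ) * C.aa j i q = - ∑ j, (C.lam j : ℤ) * mn e (C.nu j) i := by
  simp only [aa_eq, mul_sub, sum_sub_distrib, C.rel, zero_sub]

theorem delta_eq (i : ι) : (C.delta i : ℤ) = - ∑ j, (C.lam j : ℤ) * mn e (C.nu j) i := by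
  apply Int.toNat_of_nonneg
  rw [← C.sum_aa' i (Classical.arbitrary _)]
  positivity

theorem sum_aa (i : ι) (q : Q i) : ∑ j, C.lam j * C.aa j i q = C.delta i := by
  have := (C.sum_aa' i q).trans (C.delta_eq i).symm
  exact_mod_cast this

theorem sum_delta : ∑ i, C.delta i < ∑ j, C.lam j := by
  have h := C.lt
  have : ∑ i, (C.delta i : ℤ) = - ∑ j, (C.lam j : ℤ) * phi e (C.nu j) := by
    simp only [delta_eq, phi, mul_sum, sum_neg_distrib]
    rw [sum_comm]
  rw [← this] at h
  exact_mod_cast h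

theorem aa_zero {i : ι} (h : C.delta i = 0) (j : C.J) (q : Q i) : C.aa j i q = 0 := by
  have h1 := C.sum_aa i q
  rw [h, sum_eq_zero_iff] at h1
  exact (mul_eq_zero.1 (h1 j (mem_univ _))).resolve_left (C.lam_pos j).ne'

theorem sorted [DecidableEq C.J] (hmin : ∀ j, C.lam C.j0 ≤ C.lam j)
    (hc : Fintype.card C.J ≤ Fintype.card {i // C.delta i ≠ 0} + 1) :
    Fintype.card {i // C.delta i ≠ 0} + 1 = Fintype.card C.J ∧
      ∀ i q, ∑ j : {j // j ≠ C.j0}, C.aa j.1 i q ≤ 1 := by
  classical
  have : Nonempty {j // j ≠ C.j0} := (C.exists_ne C.j0).elim fun j hj => ⟨⟨j, hj⟩⟩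
  obtain ⟨⟨j1, hj1⟩, h1⟩ := Finite.exists_min (fun j : {j // j ≠ C.j0} => C.lam j.1)
  have h1' : ∀ j, j ≠ C.j0 → C.lam j1 ≤ C.lam j := fun j hj => h1 ⟨j, hj⟩
  obtain ⟨hcard, hδ⟩ := sort_lemma (fun i : {i // C.delta i ≠ 0} => C.delta i.1) C.lam C.j0 j1
    hj1.symm (fun t ⟨jt, hjt⟩ => by
      set T : Finset C.J := univ.filter fun j => C.lam j < t with hT
      have hTu : T ≠ univ := fun h => by
        have : jt ∈ T := h ▸ mem_univ _
        simp only [hT, mem_filter, mem_univ, true_and] at this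
        omega
      have key : ∀ i : {i // C.delta i ≠ 0}, C.delta i.1 < t →
          ∀ q, ∃ j ∈ T, C.nu j (e i.1 q) ≠ mn e (C.nu j) i.1 := by
        intro i hi q
        have h2 := C.sum_aa i.1 q
        obtain ⟨j, -, hj⟩ := exists_ne_zero_of_sum_ne_zero (h2 ▸ i.2)
        have h3 := single_le_sum (f := fun j => C.lam j * C.aa j i.1 q)
          (fun _ _ => Nat.zero_le _) (mem_univ j)
        have h4 : C.aa j i.1 q ≠ 0 := fun h => hj (by rw [h, mul_zero])
        have h5 : C.lam j ≤ C.lam j * C.aa j i.1 q :=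
          Nat.le_mul_of_pos_right _ (Nat.pos_of_ne_zero h4)
        refine ⟨j, by simp only [hT, mem_filter, mem_univ, true_and]; omega, fun h => h4 ?_⟩
        have := C.aa_eq j i.1 q
        omega
      by_cases h2 : 2 ≤ T.card
      · have h3 := C.h3 T hTu h2
        have h4 : (univ.filter fun i : {i // C.delta i ≠ 0} => C.delta i.1 < t).card ≤
            (univ.filter fun i => ∀ q, ∃ j ∈ T, C.nu j (e i q) ≠ mn e (C.nu j) i).card := by
          apply card_le_card_of_injOn Subtype.val
          · intro i hi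
            simp only [coe_filter, mem_univ, true_and, Set.mem_ofPred_eq] at hi ⊢
            exact key i hi
          · exact Subtype.val_injective.injOn
        have h5 : T.card ≤
            (univ.filter fun j => j ≠ C.j0 ∧ j ≠ j1 ∧ C.lam j < t).card + 2 := by
          have : T ⊆ insert C.j0 (insert j1
              (univ.filter fun j => j ≠ C.j0 ∧ j ≠ j1 ∧ C.lam j < t)) := by
            intro j hj
            simp only [hT, mem_filter, mem_univ, true_and, mem_insert] at hj ⊢
            tauto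
          refine (card_le_card this).trans ((card_insert_le _ _).trans ?_)
          exact Nat.succ_le_succ (card_insert_le _ _)
        have h6 := h4.trans (Nat.le_sub_of_add_le (le_of_eq_of_le (by congr) h3))
        omega
      · have : (univ.filter fun i : {i // C.delta i ≠ 0} => C.delta i.1 < t) = ∅ := by
          apply filter_eq_empty_iff.2
          intro i _ hi
          obtain ⟨j, hj, -⟩ := key i hi (Classical.arbitrary _)
          obtain ⟨q, hq⟩ := exists_mn e (C.nu j) i.1
          obtain ⟨j', hj', hne⟩ := key i hi q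
          have : j' = j := card_le_one.1 (by omega) _ hj' _ hj
          exact hne (this ▸ hq)
        rw [this]; exact Nat.zero_le _) h1'
    (by
      refine lt_of_le_of_lt (le_of_eq ?_) C.sum_delta
      rw [← Finset.sum_subtype (univ.filter fun i => C.delta i ≠ 0) (by simp), sum_filter_ne_zero])
    hc
  refine ⟨hcard, fun i q => ?_⟩
  by_cases h0 : C.delta i = 0
  · simp [C.aa_zero h0]
  · have h2 := hδ ⟨i, h0⟩
    have h3 := C.sum_aa i q
    have h4 : C.lam j1 * ∑ j : {j // j ≠ C.j0}, C.aa j.1 i q ≤ C.delta i := by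
      rw [← h3, mul_sum, Fintype.sum_eq_add_sum_subtype_ne _ C.j0]
      refine le_add_left (sum_le_sum fun j _ => Nat.mul_le_mul_right _ (h1 j))
    by_contra hh
    have h5 := Nat.mul_le_mul_left (C.lam j1) (show 2 ≤ _ from not_le.1 hh)
    have := hmin j1
    simp only at h2
    omega

end Circuit

namespace Sys

variable {k K : Type} [Field k] [Field K] [Algebra k K] {n : ℕ} {M : Type} [AddCommGroup M]
  {ι : Type} [Fintype ι] {Q : ι → Type} [∀ i, Fintype (Q i)] [∀ i, Nonempty (Q i)]
  (S : Sys k K n M ι Q) (C : Circuit S.e)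

/-- The function field of the base. -/
noncomputable def L0 : IntermediateField k K :=
  IntermediateField.adjoin k (S.χ '' (C.ker univ : Set M))

theorem chi_mem_L0 {m : M} (h : m ∈ C.ker univ) : S.χ m ∈ S.L0 C :=
  IntermediateField.subset_adjoin k _ ⟨m, h, rfl⟩

theorem caseA [CharZero k] [DecidableEq ι] (hmin : ∀ j, C.lam C.j0 ≤ C.lam j)
    (hA : ∀ D : Derivation k K K, (∀ x ∈ S.L0 C, D x = 0) → D = 0) :
    S.L0 C = ⊤ ∧ Fintype.card {i // C.delta i ≠ 0} + 1 = Fintype.card C.J := by
  classical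
  let B : Matrix ι {j // j ≠ C.j0} K := Matrix.of fun i j =>
    ∑ q, algebraMap k K (S.c i q) * S.χ (S.e i q) * (C.aa j.1 i q : K)
  have hB : ∀ i j, B i j =
      ∑ q, algebraMap k K (S.c i q) * S.χ (S.e i q) * (C.nu j.1 (S.e i q) : K) := by
    intro i j
    have : ∀ q, (C.aa j.1 i q : K) = (C.nu j.1 (S.e i q) : K) - (mn S.e (C.nu j.1) i : K) :=
      fun q => by exact_mod_cast congrArg (Int.cast : ℤ → K) (C.aa_eq j.1 i q)
    simp only [B, Matrix.of_apply, this, mul_sub, sum_sub_distrib, ← sum_mul, S.rel, zero_mul,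
      sub_zero]
  have : CharZero K := charZero_of_injective_algebraMap (algebraMap k K).injective
  have hinj : ∀ β, B *ᵥ β = 0 → β = 0 := by
    intro β hβ
    let ψ : M →+ K := AddMonoidHom.mk' (fun m => ∑ j : {j // j ≠ C.j0}, (C.nu j.1 m : K) * β j)
      (fun x y => by simp only [map_add, Int.cast_add, add_mul, sum_add_distrib])
    obtain ⟨D, hD⟩ := S.main_alg.2 ψ (fun i => by
      refine Eq.trans ?_ (congrFun hβ i)
      simp only [ψ, AddMonoidHom.mk'_apply, Matrix.mulVec, dotProduct, hB, mul_sum, sum_mul]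
      rw [sum_comm]
      simp only [mul_assoc])
    have hD0 : D = 0 := hA D (der_adjoin D _ (by
      rintro _ ⟨m, hm, rfl⟩
      rw [der_chi, hD]
      simp only [ψ, AddMonoidHom.mk'_apply]
      rw [sum_eq_zero fun j _ => by rw [hm j.1 (mem_univ _)]; simp, mul_zero]))
    funext l
    have h1 := hD (C.W l.1)
    rw [hD0] at h1
    have h2 : ψ (C.W l.1) = (C.nu l.1 (C.W l.1) : K) * β l := by
      simp only [ψ, AddMonoidHom.mk'_apply]
      apply Fintype.sum_eq_single
      intro j hj
      have := C.nu_W_sub (j := j.1) (l := l.1) (l' := C.j0)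
        (fun h => hj (Subtype.ext h.symm)) j.2.symm
      rw [map_sub, C.nu_W_j0, sub_zero] at this
      rw [this]; simp
    have h3 : C.nu l.1 (C.W l.1) ≠ 0 := fun h => by
      have := C.hW l.1 l.1
      rw [h, if_pos rfl, if_neg l.2.symm] at this
      exact C.G_ne (by simpa using this.symm)
    rw [h2] at h1
    have h4 : (C.nu l.1 (C.W l.1) : K) * β l = 0 := by rw [← h1]; simp [lg]
    exact (mul_eq_zero.1 h4).resolve_left (by exact_mod_cast h3)
  have hc : Fintype.card C.J ≤ Fintype.card {i // C.delta i ≠ 0} + 1 := by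
    have h1 := LinearMap.finrank_le_finrank_of_injective
      (f := Matrix.toLin' (B.submatrix (Subtype.val : {i // C.delta i ≠ 0} → ι) id))
      (LinearMap.ker_eq_bot.1 (LinearMap.ker_eq_bot'.2 fun β hβ => hinj β (by
        funext i
        by_cases hi : C.delta i = 0
        · simp [Matrix.mulVec, dotProduct, B, C.aa_zero hi]
        · exact congrFun hβ ⟨i, hi⟩)))
    simp only [finrank_fintype_fun_eq_card, Fintype.card_subtype_compl, Fintype.card_unique] at h1
    simp only [Fintype.card_subtype_compl]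
    omega
  obtain ⟨hcard, hlin⟩ := C.sorted hmin hc
  refine ⟨?_, hcard⟩
  obtain ⟨Cm, hCm⟩ := exists_left_inv B hinj
  let Ω := AlgebraicClosure K
  have : Algebra.IsAlgebraic (S.L0 C) K := ⟨isAlgebraic_of_der _ hA⟩
  have : IsAlgClosure (S.L0 C) Ω := IsAlgClosure.ofAlgebraic _ K Ω
  rw [eq_top_iff, ← S.gen, IntermediateField.adjoin_le_iff]
  rintro _ ⟨m, rfl⟩
  have hfix : ∀ σ : Ω ≃ₐ[S.L0 C] Ω, σ (algebraMap K Ω (S.χ m)) = algebraMap K Ω (S.χ m) := by
    intro σ
    have hne : ∀ m, algebraMap K Ω (S.χ m) ≠ 0 := fun m => by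
      simpa using chi_ne S.χ m
    let ρ : AddChar M Ω :=
      { toFun := fun m => σ (algebraMap K Ω (S.χ m)) / algebraMap K Ω (S.χ m)
        map_zero_eq_one' := by simp
        map_add_eq_mul' := fun x y => by
          simp only [S.χ.map_add_eq_mul, map_mul, div_mul_div_comm] }
    have hL : ∀ x ∈ S.L0 C, σ (algebraMap K Ω x) = algebraMap K Ω x := fun x hx =>
      σ.commutes (⟨x, hx⟩ : S.L0 C)
    obtain ⟨z, hz0, hz⟩ := ext_char_units (fun j : {j // j ≠ C.j0} => C.nu j.1) ρ (fun m hm => by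
      have : m ∈ C.ker univ := by
        rw [← C.ker_erase C.j0]
        exact fun j hj => hm ⟨j, ne_of_mem_erase hj⟩
      change σ _ / _ = 1
      rw [hL _ (S.chi_mem_L0 C this), div_self (hne m)])
    have hσ : ∀ m, σ (algebraMap K Ω (S.χ m)) =
        algebraMap K Ω (S.χ m) * ∏ j, z j ^ C.nu j.1 m := fun m => by
      rw [← hz m]
      exact (mul_div_cancel₀ _ (hne m)).symm
    have hBz : B.map (algebraMap K Ω) *ᵥ (fun j => z j - 1) = 0 := by
      funext i
      have h1 := congrArg (fun x => σ (algebraMap K Ω x)) (S.rel i)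
      simp only [map_sum, map_mul, map_zero, hσ,
        hL _ ((S.L0 C).algebraMap_mem _)] at h1
      have h2 : ∀ q, ∏ j, z j ^ C.nu j.1 (S.e i q) = (∏ j, z j ^ mn S.e (C.nu j.1) i) *
          (1 + ∑ j, (C.aa j.1 i q : Ω) * (z j - 1)) := fun q => by
        rw [← prod_pow_lin _ z (hlin i q), ← prod_mul_distrib]
        refine prod_congr rfl fun j _ => ?_
        rw [← zpow_natCast, ← zpow_add₀ (hz0 j), C.aa_eq]
        congr 1; ring
      have h3 : (∏ j, z j ^ mn S.e (C.nu j.1) i) ≠ 0 :=
        prod_ne_zero_iff.2 fun j _ => zpow_ne_zero _ (hz0 j)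
      have h4 := congrArg (algebraMap K Ω) (S.rel i)
      simp only [map_sum, map_mul, map_zero] at h4
      apply mul_left_cancel₀ h3
      rw [Pi.zero_apply, mul_zero, ← h1]
      simp only [h2, Matrix.mulVec, dotProduct, Matrix.map_apply, B, Matrix.of_apply, map_sum,
        map_mul, map_natCast]
      have h5 : ∀ q, algebraMap K Ω (algebraMap k K (S.c i q)) * (algebraMap K Ω (S.χ (S.e i q)) *
          ((∏ j, z j ^ mn S.e (C.nu j.1) i) * (1 + ∑ j, (C.aa j.1 i q : Ω) * (z j - 1)))) =
          (∏ j, z j ^ mn S.e (C.nu j.1) i) *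
            (algebraMap K Ω (algebraMap k K (S.c i q)) * algebraMap K Ω (S.χ (S.e i q)) +
            ∑ j, algebraMap K Ω (algebraMap k K (S.c i q)) * algebraMap K Ω (S.χ (S.e i q)) *
              (C.aa j.1 i q : Ω) * (z j - 1)) := fun q => by
        simp only [mul_assoc, ← mul_sum]; ring
      simp only [h5, ← mul_sum, sum_add_distrib, h4, zero_add]
      rw [sum_comm]
      simp only [sum_mul]
    have hz1 : ∀ j, z j = 1 := fun j => by
      have h1 : Cm.map (algebraMap K Ω) *ᵥ (B.map (algebraMap K Ω) *ᵥ fun j => z j - 1) =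
          fun j => z j - 1 := by
        rw [Matrix.mulVec_mulVec, ← Matrix.map_mul, hCm, Matrix.map_one _ (map_zero _) (map_one _),
          Matrix.one_mulVec]
      rw [hBz, Matrix.mulVec_zero] at h1
      exact sub_eq_zero.1 (congrFun h1 j).symm
    rw [hσ]; simp [hz1]
  obtain ⟨y, hy⟩ := (InfiniteGalois.mem_range_algebraMap_iff_fixed _).2 hfix
  have : (y : K) = S.χ m := (algebraMap K Ω).injective hy
  rw [← this]; exact y.2

end Sys

end Pool.Agent.Lib.MP_813db1_ag
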