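import Pool.Agent.Lib.MP_813db1_ag.Basic

/-! The linear programming dichotomy. -/

namespace Pool.Agent.Lib.MP_813db1_ag

namespace CombAux

theorem between {A B : Set ℚ} (hA : A.Finite) (hB : B.Finite) (h : ∀ a ∈ A, ∀ b ∈ B, a ≤ b) :
    ∃ x, (∀ a ∈ A, a ≤ x) ∧ ∀ b ∈ B, x ≤ b := by
  rcases A.eq_empty_or_nonempty with rfl | hne
  · obtain ⟨x, hx⟩ := hB.bddBelow
    exact ⟨x, fun a ha => absurd ha (Set.notMem_empty a), hx⟩
  · obtain ⟨x, hx, hm⟩ := Set.exists_max_image A id hA hne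
    exact ⟨x, hm, h x hx⟩

/-- Fourier-Motzkin elimination -/
theorem farkas_fin (d : ℕ) : ∀ S : Set ((Fin d → ℤ) × ℤ), S.Finite →
    (∀ p ∈ AddSubmonoid.closure S, p.1 = 0 → p.2 ≤ 0) →
    ∃ u : Fin d → ℚ, ∀ p ∈ S, (p.2 : ℚ) ≤ ∑ j, (p.1 j : ℚ) * u j := by
  induction d with
  | zero =>
    intro S _ h
    refine ⟨fun _ => 0, fun p hp => ?_⟩
    have := h p (AddSubmonoid.subset_closure hp) (Subsingleton.elim _ _)
    simpa using this
  | succ d ih =>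
    intro S hS h
    let τ : (Fin (d + 1) → ℤ) × ℤ →+ (Fin d → ℤ) × ℤ :=
      AddMonoidHom.mk' (fun p => (fun j => p.1 j.succ, p.2)) (fun _ _ => rfl)
    let ev : (Fin (d + 1) → ℤ) × ℤ →+ ℤ := AddMonoidHom.mk' (fun p => p.1 0) (fun _ _ => rfl)
    let S0 : Set ((Fin (d + 1) → ℤ) × ℤ) := {p ∈ S | p.1 0 = 0} ∪
      Set.image2 (fun p q => (-q.1 0).toNat • p + (p.1 0).toNat • q) {p ∈ S | 0 < p.1 0}
        {q ∈ S | q.1 0 < 0}
    have hS0 : S0.Finite := (hS.sep _).union ((hS.sep _).image2 _ (hS.sep _))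
    have hle : AddSubmonoid.closure (τ '' S0) ≤
        (AddSubmonoid.closure S ⊓ AddMonoidHom.mker ev).map τ := by
      rw [AddSubmonoid.closure_le]
      rintro _ ⟨p, hp, rfl⟩
      refine ⟨p, ?_, rfl⟩
      rcases hp with ⟨hp, h0⟩ | ⟨p, ⟨hp, p0⟩, q, ⟨hq, q0⟩, rfl⟩
      · exact ⟨AddSubmonoid.subset_closure hp, h0⟩
      · refine ⟨add_mem (nsmul_mem (AddSubmonoid.subset_closure hp) _)
          (nsmul_mem (AddSubmonoid.subset_closure hq) _), ?_⟩
        show (-q.1 0).toNat • p.1 0 + (p.1 0).toNat • q.1 0 = 0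
        rw [nsmul_eq_mul, nsmul_eq_mul, Int.toNat_of_nonneg (by omega), Int.toNat_of_nonneg p0.le]
        ring
    obtain ⟨u, hu⟩ := ih (τ '' S0) (hS0.image _) (fun p' hp' h0 => by
      obtain ⟨p, ⟨hp, hp0⟩, rfl⟩ := hle hp'
      refine h p hp (funext fun j => ?_)
      refine Fin.cases hp0 (fun j => congrFun h0 j) j)
    let r : (Fin (d + 1) → ℤ) × ℤ → ℚ := fun p => (p.2 : ℚ) - ∑ j : Fin d, (p.1 j.succ : ℚ) * u j
    obtain ⟨x, hx1, hx2⟩ := between (A := (fun p => r p / (p.1 0 : ℚ)) '' {p ∈ S | 0 < p.1 0})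
      (B := (fun p => r p / (p.1 0 : ℚ)) '' {p ∈ S | p.1 0 < 0}) ((hS.sep _).image _)
      ((hS.sep _).image _) (by
        rintro _ ⟨p, ⟨hp, p0⟩, rfl⟩ _ ⟨q, ⟨hq, q0⟩, rfl⟩
        have h1 := hu _ ⟨_, Or.inr ⟨p, ⟨hp, p0⟩, q, ⟨hq, q0⟩, rfl⟩, rfl⟩
        have e1 : (((-q.1 0).toNat : ℤ) : ℚ) = -(q.1 0 : ℚ) := by
          rw [Int.toNat_of_nonneg (by omega)]; push_cast; rfl
        have e2 : (((p.1 0).toNat : ℤ) : ℚ) = (p.1 0 : ℚ) := by
          rw [Int.toNat_of_nonneg p0.le]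
        simp only [τ, AddMonoidHom.mk'_apply, Prod.fst_add, Prod.smul_fst, Prod.snd_add,
          Prod.smul_snd, Pi.add_apply, Pi.smul_apply] at h1
        simp only [nsmul_eq_mul, Int.cast_add, Int.cast_mul,
          e1, e2, add_mul, mul_assoc, Finset.sum_add_distrib, ← Finset.mul_sum] at h1
        have hp' : (0 : ℚ) < p.1 0 := by exact_mod_cast p0
        have hq' : (0 : ℚ) < -(q.1 0 : ℚ) := by
          have : (q.1 0 : ℚ) < 0 := by exact_mod_cast q0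
          linarith
        show r p / (p.1 0 : ℚ) ≤ r q / (q.1 0 : ℚ)
        rw [← neg_div_neg_eq (r q), div_le_div_iff₀ hp' hq']
        simp only [r]
        linarith)
    refine ⟨Fin.cons x u, fun p hp => ?_⟩
    rw [Fin.sum_univ_succ]
    simp only [Fin.cons_zero, Fin.cons_succ]
    rcases lt_trichotomy (p.1 0) 0 with h0 | h0 | h0
    · have h1 : x ≤ r p / (p.1 0 : ℚ) := hx2 _ ⟨p, ⟨hp, h0⟩, rfl⟩
      have hq' : (p.1 0 : ℚ) < 0 := by exact_mod_cast h0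
      rw [le_div_iff_of_neg hq'] at h1
      simp only [r] at h1
      linarith
    · have h1 := hu _ ⟨p, Or.inl ⟨hp, h0⟩, rfl⟩
      rw [h0, Int.cast_zero, zero_mul, zero_add]
      exact h1
    · have h1 : r p / (p.1 0 : ℚ) ≤ x := hx1 _ ⟨p, ⟨hp, h0⟩, rfl⟩
      have hq' : (0 : ℚ) < p.1 0 := by exact_mod_cast h0
      rw [div_le_iff₀ hq'] at h1
      simp only [r] at h1
      linarith

theorem clear_den {d : ℕ} (u : Fin d → ℚ) :
    ∃ m : ℕ, 0 < m ∧ ∃ z : Fin d → ℤ, ∀ j, (z j : ℚ) = m * u j := by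
  have h : ∀ j, ∃ z : ℤ, (z : ℚ) = (∏ j, (u j).den : ℕ) * u j := fun j => by
    obtain ⟨k, hk⟩ := Finset.dvd_prod_of_mem (fun j => (u j).den) (Finset.mem_univ j)
    refine ⟨k * (u j).num, ?_⟩
    rw [hk, Int.cast_mul, ← Rat.mul_den_eq_num]
    push_cast
    ring
  choose z hz using h
  exact ⟨_, Finset.prod_pos fun j _ => (u j).den_pos, z, hz⟩

variable {M : Type} [AddCommGroup M]

/-- Farkas lemma for integral covectors -/
theorem farkas [Module.Free ℤ M] [Module.Finite ℤ M] {T : Type} [Fintype T] (ν : T → M →+ ℤ)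
    (c : T → ℤ) (h : ∀ n : T → ℕ, ∑ t, n t • ν t = 0 → ∑ t, (n t : ℤ) * c t ≤ 0) :
    ∃ (m : ℕ) (u : M), 0 < m ∧ ∀ t, (m : ℤ) * c t ≤ ν t u := by
  let b := Module.finBasis ℤ M
  obtain ⟨u, hu⟩ := farkas_fin _ (Set.range fun t => (fun j => ν t (b j), c t))
    (Set.finite_range _) (fun p hp h0 => by
      obtain ⟨n, rfl⟩ := AddSubmonoid.mem_closure_range_iff_of_fintype.1 hp
      have h1 : ∑ t, n t • ν t = 0 := by
        apply AddMonoidHom.toIntLinearMap_injective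
        refine b.ext fun j => ?_
        have := congrFun h0 j
        simpa [Prod.fst_sum, Finset.sum_apply] using this
      simpa [Prod.snd_sum] using h n h1)
  obtain ⟨m, hm, z, hz⟩ := clear_den u
  refine ⟨m, ∑ j, z j • b j, hm, fun t => ?_⟩
  have h1 := mul_le_mul_of_nonneg_left (hu _ ⟨t, rfl⟩) (Nat.cast_nonneg (α := ℚ) m)
  have h2 : ((ν t (∑ j, z j • b j) : ℤ) : ℚ) = m * ∑ j, (ν t (b j) : ℚ) * u j := by
    rw [map_sum, Finset.mul_sum, Int.cast_sum]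
    refine Finset.sum_congr rfl fun j _ => ?_
    rw [map_zsmul, smul_eq_mul, Int.cast_mul, hz]
    ring
  rw [← h2] at h1
  exact_mod_cast h1

/-- solvability of linear systems up to a positive multiple -/
theorem solve [Module.Free ℤ M] [Module.Finite ℤ M] {T : Type} [Fintype T] (ν : T → M →+ ℤ)
    (c : T → ℤ) (h : ∀ μ : T → ℤ, ∑ t, μ t • ν t = 0 → ∑ t, μ t * c t = 0) :
    ∃ (m : ℕ) (u : M), 0 < m ∧ ∀ t, ν t u = (m : ℤ) * c t := by
  obtain ⟨m, u, hm, hu⟩ := farkas (T := T ⊕ T) (Sum.elim ν fun t => -ν t)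
    (Sum.elim c fun t => -c t) (fun n hn => by
      have h1 := h (fun t => (n (Sum.inl t) : ℤ) - n (Sum.inr t)) (by
        rw [← hn, Fintype.sum_sum_type, ← Finset.sum_add_distrib]
        refine Finset.sum_congr rfl fun t _ => ?_
        simp only [Sum.elim_inl, Sum.elim_inr, natCast_zsmul, smul_neg, sub_eq_add_neg,
          add_smul, neg_smul])
      rw [Fintype.sum_sum_type, ← Finset.sum_add_distrib, ← h1]
      refine le_of_eq (Finset.sum_congr rfl fun t _ => ?_)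
      simp only [Sum.elim_inl, Sum.elim_inr]
      ring)
  refine ⟨m, u, hm, fun t => le_antisymm ?_ (hu (Sum.inl t))⟩
  have := hu (Sum.inr t)
  simp only [Sum.elim_inr, AddMonoidHom.neg_apply] at this
  linarith

/-- the map `n ↦ ∑ n t • g t` -/
def comb {A T : Type} [AddCommGroup A] [Fintype T] (g : T → A) : (T → ℕ) →+ A where
  toFun n := ∑ t, n t • g t
  map_zero' := by simp
  map_add' a b := by simp [add_smul, Finset.sum_add_distrib]

/-- Gordan lemma -/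
theorem gordan {A T : Type} [AddCommGroup A] [Module.Finite ℤ A] [Fintype T]
    (L : A →+ (T → ℤ)) : ∃ G : Set A, G.Finite ∧ (∀ a ∈ G, 0 ≤ L a) ∧
      ∀ a, 0 ≤ L a → a ∈ AddSubmonoid.closure G := by
  have h1 : AddMonoid.FG A := AddGroup.fg_iff_addMonoid_fg.1 (Module.Finite.iff_addGroup_fg.1 ‹_›)
  obtain ⟨S, hS⟩ := h1.fg_top
  let π : (S → ℕ) × (T → ℕ) →+ A := (comb fun s : S => (s : A)).comp (AddMonoidHom.fst _ _)
  let g : (S → ℕ) × (T → ℕ) →+ (T → ℤ) :=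
    { toFun := fun z t => z.2 t, map_zero' := by ext; simp, map_add' := fun _ _ => by ext; simp }
  obtain ⟨G, hG, hfin⟩ := (AddSubmonoid.fg_iff _).1 (AddSubmonoid.fg_eqLocusM (L.comp π) g)
  refine ⟨π '' G, hfin.image _, ?_, fun a ha => ?_⟩
  · rintro _ ⟨z, hz, rfl⟩ t
    have h2 : z ∈ (L.comp π).eqLocusM g := hG ▸ AddSubmonoid.subset_closure hz
    have h3 : L (π z) t = z.2 t := congrFun h2 t
    rw [h3]
    exact Int.natCast_nonneg _
  · have h2 : a ∈ AddSubmonoid.closure (Set.range fun s : S => (s : A)) := by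
      rw [Subtype.range_coe_subtype, Finset.setOfPred_mem, hS]; trivial
    obtain ⟨n, hn⟩ := AddSubmonoid.mem_closure_range_iff_of_fintype.1 h2
    have e : π (n, fun t => (L a t).toNat) = a := hn.symm
    rw [← AddMonoidHom.map_mclosure, hG]
    refine ⟨_, ?_, e⟩
    show L (π _) = _
    rw [e]
    funext t
    exact (Int.toNat_of_nonneg (ha t)).symm

theorem exists_prim {ν : M →+ ℤ} (h : ν ≠ 0) :
    ∃ (a : ℕ) (ν' : M →+ ℤ), 0 < a ∧ ν = a • ν' ∧ ∃ m, ν' m = 1 := by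
  obtain ⟨g, hg⟩ := Int.subgroup_cyclic ν.range
  have hd : ∀ m, (g.natAbs : ℤ) ∣ ν m := fun m => by
    have : ν m ∈ AddSubgroup.closure {g} := hg ▸ ⟨m, rfl⟩
    obtain ⟨k, hk⟩ := AddSubgroup.mem_closure_singleton.1 this
    exact Int.natAbs_dvd.2 ⟨k, by rw [← hk, smul_eq_mul, mul_comm]⟩
  have h0 : 0 < g.natAbs := by
    rw [Int.natAbs_pos]
    rintro rfl
    exact h (AddMonoidHom.ext fun m => by simpa using hd m)
  obtain ⟨m0, hm0⟩ : g ∈ ν.range := hg ▸ AddSubgroup.subset_closure rfl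
  refine ⟨g.natAbs, AddMonoidHom.mk' (fun m => ν m / g.natAbs)
    (fun a b => by rw [map_add, Int.add_ediv_of_dvd_left (hd a)]), h0, ?_, g.sign • m0, ?_⟩
  · ext m
    exact (Int.mul_ediv_cancel' (hd m)).symm
  · show ν (g.sign • m0) / g.natAbs = 1
    rw [map_zsmul, hm0, smul_eq_mul, Int.sign_mul_self_eq_natAbs]
    exact Int.ediv_self (by omega)

variable {ι : Type} [Fintype ι] {Q : ι → Type} [∀ i, Fintype (Q i)] [∀ i, Nonempty (Q i)]

theorem phi_cone (e : ∀ i, Q i → M) (q0 : ∀ i, Q i) {ν : M →+ ℤ}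
    (h : ∀ i q, ν (e i (q0 i)) ≤ ν (e i q)) : phi e ν = ν (∑ i, e i (q0 i)) := by
  rw [phi, map_sum]
  exact Finset.sum_congr rfl fun i _ => mn_eq e ν i (q0 i) (h i)

theorem cone_gen [Module.Free ℤ M] [Module.Finite ℤ M] (e : ∀ i, Q i → M) (q0 : ∀ i, Q i) :
    ∃ Φ : Set (M →+ ℤ), Φ.Finite ∧ (∀ t ∈ Φ, ∃ m, t m = 1) ∧
      ∀ ν : M →+ ℤ, (∀ i q, ν (e i (q0 i)) ≤ ν (e i q)) →
        (ν, phi e ν) ∈ AddSubmonoid.closure ((fun t => (t, phi e t)) '' Φ) := by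
  classical
  let L : (M →+ ℤ) →+ ((Σ i, Q i) → ℤ) :=
    AddMonoidHom.mk' (fun ν s => ν (e s.1 s.2) - ν (e s.1 (q0 s.1))) (fun a b => by
      funext s
      simp only [AddMonoidHom.add_apply, Pi.add_apply]
      ring)
  have hL : ∀ ν, 0 ≤ L ν ↔ ∀ i q, ν (e i (q0 i)) ≤ ν (e i q) := fun ν =>
    ⟨fun h i q => sub_nonneg.1 (h ⟨i, q⟩), fun h s => sub_nonneg.2 (h s.1 s.2)⟩
  obtain ⟨G, hG, hG1, hG2⟩ := gordan L
  choose! a p ha hp hm using fun ν : M →+ ℤ => exists_prim (ν := ν)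
  refine ⟨p '' {g ∈ G | g ≠ 0}, (hG.sep _).image _, ?_, fun ν hν => ?_⟩
  · rintro _ ⟨g, hg, rfl⟩
    exact hm g hg.2
  let H : (M →+ ℤ) →+ (M →+ ℤ) × ℤ :=
    AddMonoidHom.mk' (fun ν => (ν, ν (∑ i, e i (q0 i)))) (fun _ _ => rfl)
  have h1 : AddSubmonoid.closure G ≤ (AddSubmonoid.closure
      ((fun t => (t, phi e t)) '' (p '' {g ∈ G | g ≠ 0}))).comap H := by
    rw [AddSubmonoid.closure_le]
    intro g hg
    by_cases h0 : g = 0
    · rw [h0]; exact zero_mem _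
    have h2 : ∀ i q, p g (e i (q0 i)) ≤ p g (e i q) := fun i q => by
      have h3 := (hL g).1 (hG1 g hg) i q
      rw [hp g h0] at h3
      simp only [AddMonoidHom.nsmul_apply, nsmul_eq_mul] at h3
      exact le_of_mul_le_mul_left h3 (by exact_mod_cast ha g h0)
    have h3 : H g = a g • (p g, phi e (p g)) := by
      rw [phi_cone e q0 h2, congrArg H (hp g h0), map_nsmul]
      rfl
    rw [SetLike.mem_coe, AddSubmonoid.mem_comap, h3]
    refine nsmul_mem (AddSubmonoid.subset_closure ?_) _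
    exact ⟨_, ⟨g, ⟨hg, h0⟩, rfl⟩, rfl⟩
  rw [phi_cone e q0 hν]
  exact h1 (hG2 ν ((hL ν).2 hν))

/-- a finite family of primitive covectors generating all the cones -/
theorem exists_gen [Module.Free ℤ M] [Module.Finite ℤ M] (e : ∀ i, Q i → M) :
    ∃ (T : Type) (_ : Fintype T) (ν : T → M →+ ℤ), (∀ t, ∃ m, ν t m = 1) ∧
      ∀ μ : M →+ ℤ, ∃ n : T → ℕ, μ = ∑ t, n t • ν t ∧
        phi e μ = ∑ t, (n t : ℤ) * phi e (ν t) := by
  choose Φ h1 h2 h3 using cone_gen e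
  have hfin : (⋃ q0, Φ q0).Finite := Set.finite_iUnion h1
  let _ := hfin.fintype
  refine ⟨(⋃ q0, Φ q0 : Set _), inferInstance, Subtype.val, fun t => ?_, fun μ => ?_⟩
  · obtain ⟨q0, hq⟩ := Set.mem_iUnion.1 t.2
    exact h2 q0 _ hq
  choose q0 hq using exists_mn e μ
  have h4 := h3 q0 μ fun i q => hq i ▸ mn_le e μ i q
  have h5 : (μ, phi e μ) ∈ AddSubmonoid.closure
      (Set.range fun t : (⋃ q0, Φ q0 : Set _) => (t.1, phi e t.1)) := by
    refine AddSubmonoid.closure_mono ?_ h4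
    rintro _ ⟨t, ht, rfl⟩
    exact ⟨⟨t, Set.mem_iUnion.2 ⟨q0, ht⟩⟩, rfl⟩
  obtain ⟨n, hn⟩ := AddSubmonoid.mem_closure_range_iff_of_fintype.1 h5
  refine ⟨n, ?_, ?_⟩
  · simpa [Prod.fst_sum] using congrArg Prod.fst hn
  · simpa [Prod.snd_sum] using congrArg Prod.snd hn

theorem rel_phi (e : ∀ i, Q i → M) {T : Type} [Fintype T] (ν : T → M →+ ℤ) {l : T → ℤ}
    (h0 : 0 ≤ l) (h : ∑ t, l t • ν t = 0) : ∑ t, l t * phi e (ν t) ≤ 0 := by
  simp only [phi, Finset.mul_sum]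
  rw [Finset.sum_comm]
  refine Finset.sum_nonpos fun i _ => ?_
  obtain ⟨q⟩ : Nonempty (Q i) := inferInstance
  have h1 := DFunLike.congr_fun h (e i q)
  rw [AddMonoidHom.finsetSum_apply, AddMonoidHom.zero_apply] at h1
  rw [← h1]
  exact Finset.sum_le_sum fun t _ => mul_le_mul_of_nonneg_left (mn_le e _ i q) (h0 t)

open Classical in
theorem phi_sum (e : ∀ i, Q i → M) {J : Type} (ν : J → M →+ ℤ) (S : Finset J) :
    ∑ j ∈ S, phi e (ν j) + ((Finset.univ.filter fun i =>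
      ∀ q, ∃ j ∈ S, ν j (e i q) ≠ mn e (ν j) i).card : ℤ) ≤ phi e (∑ j ∈ S, ν j) := by
  simp only [phi]
  rw [Finset.sum_comm, Finset.card_filter, Nat.cast_sum, ← Finset.sum_add_distrib]
  refine Finset.sum_le_sum fun i _ => ?_
  obtain ⟨q, hq⟩ := exists_mn e (∑ j ∈ S, ν j) i
  rw [← hq, AddMonoidHom.finsetSum_apply]
  split_ifs with h
  · obtain ⟨j, hj, hne⟩ := h q
    exact Int.add_one_le_iff.2 (Finset.sum_lt_sum (fun j _ => mn_le e _ i q)
      ⟨j, hj, lt_of_le_of_ne (mn_le e _ i q) hne.symm⟩)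
  · rw [Nat.cast_zero, add_zero]
    exact Finset.sum_le_sum fun j _ => mn_le e _ i q

section Rel

variable {N T : Type} [AddCommGroup N] [Fintype T]

/-- the best ratio among the relations -/
theorem exists_ratio (ν : T → N) (f : T → ℤ) (μ0 : T → ℤ) (h0 : 0 ≤ μ0)
    (h1 : ∑ t, μ0 t • ν t = 0) (h2 : μ0 ≠ 0) :
    ∃ g : T → ℤ, 0 ≤ g ∧ ∑ t, g t • ν t = 0 ∧ g ≠ 0 ∧ ∀ μ : T → ℤ, 0 ≤ μ → ∑ t, μ t • ν t = 0 →
      (∑ t, g t * f t) * ∑ t, μ t ≤ (∑ t, μ t * f t) * ∑ t, g t := by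
  obtain ⟨G, hG, hfin⟩ := (AddSubmonoid.fg_iff _).1 (AddSubmonoid.fg_eqLocusM (comb ν) 0)
  have lift : ∀ μ : T → ℤ, 0 ≤ μ → ∑ t, μ t • ν t = 0 →
      ∃ n ∈ AddSubmonoid.closure G, μ = fun t => (n t : ℤ) := fun μ hμ hr => by
    have e : μ = fun t => ((μ t).toNat : ℤ) := funext fun t => (Int.toNat_of_nonneg (hμ t)).symm
    refine ⟨fun t => (μ t).toNat, ?_, e⟩
    rw [hG]
    rw [e] at hr
    show ∑ t, (μ t).toNat • ν t = 0
    simpa only [natCast_zsmul] using hr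
  have hne : {g ∈ G | g ≠ 0}.Nonempty := by
    by_contra hc
    obtain ⟨n, hn, rfl⟩ := lift μ0 h0 h1
    have : AddSubmonoid.closure G ≤ ⊥ := by
      rw [AddSubmonoid.closure_le]
      intro g hg
      by_contra h3
      exact hc ⟨g, hg, h3⟩
    have h4 : n = 0 := this hn
    exact h2 (by rw [h4]; rfl)
  have pos : ∀ g : T → ℕ, g ≠ 0 → (0 : ℤ) < ∑ t, (g t : ℤ) := fun g hg => by
    obtain ⟨t, ht⟩ := Function.ne_iff.1 hg
    exact Finset.sum_pos' (fun t _ => Int.natCast_nonneg _)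
      ⟨t, Finset.mem_univ _, Int.natCast_pos.2 (Nat.pos_of_ne_zero ht)⟩
  obtain ⟨g, hg, hmin⟩ := Set.exists_min_image {g ∈ G | g ≠ 0}
    (fun g => ((∑ t, (g t : ℤ) * f t : ℤ) : ℚ) / ((∑ t, (g t : ℤ) : ℤ) : ℚ)) (hfin.sep _) hne
  refine ⟨fun t => g t, fun t => Int.natCast_nonneg _, ?_, ?_, fun μ hμ hr => ?_⟩
  · have h3 : g ∈ (comb ν).eqLocusM 0 := hG ▸ AddSubmonoid.subset_closure hg.1
    have h4 : ∑ t, g t • ν t = 0 := h3
    simpa only [natCast_zsmul] using h4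
  · intro h3
    exact hg.2 (funext fun t => Int.natCast_eq_zero.1 (congrFun h3 t))
  obtain ⟨n, hn, rfl⟩ := lift μ hμ hr
  clear hμ hr
  induction hn using AddSubmonoid.closure_induction with
  | mem n hn =>
    by_cases h3 : n = 0
    · simp [h3]
    have h4 := hmin n ⟨hn, h3⟩
    rw [div_le_div_iff₀ (Int.cast_pos.2 (pos g hg.2)) (Int.cast_pos.2 (pos n h3)),
      ← Int.cast_mul, ← Int.cast_mul, Int.cast_le] at h4
    exact h4
  | zero => simp
  | add a b _ _ iha ihb =>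
    simp only [Pi.add_apply, Nat.cast_add, add_mul, Finset.sum_add_distrib] at iha ihb ⊢
    linarith

/-- a neutral relation of minimal support is a circuit -/
theorem exists_circuit (ν : T → N) (w : T → ℤ)
    (hw : ∀ μ : T → ℤ, 0 ≤ μ → ∑ t, μ t • ν t = 0 → 0 ≤ ∑ t, μ t * w t) (g : T → ℤ)
    (hg : 0 ≤ g ∧ ∑ t, g t • ν t = 0 ∧ g ≠ 0 ∧ ∑ t, g t * w t = 0) :
    ∃ l : T → ℤ, (0 ≤ l ∧ ∑ t, l t • ν t = 0 ∧ l ≠ 0 ∧ ∑ t, l t * w t = 0) ∧
      ∀ μ : T → ℤ, ∑ t, μ t • ν t = 0 → (∀ t, l t = 0 → μ t = 0) →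
        ∀ j0, l j0 ≠ 0 → μ j0 = 0 → μ = 0 := by
  classical
  obtain ⟨l, hl, hmin⟩ := (measure fun l : T → ℤ =>
    (Finset.univ.filter fun t => l t ≠ 0).card).wf.has_min
    {l | 0 ≤ l ∧ ∑ t, l t • ν t = 0 ∧ l ≠ 0 ∧ ∑ t, l t * w t = 0} ⟨g, hg⟩
  refine ⟨l, hl, ?_⟩
  obtain ⟨l0, l1, l2, l3⟩ := hl
  have lin : ∀ (a b : ℤ) (μ : T → ℤ), ∑ t, μ t • ν t = 0 →
      ∑ t, (a * l t + b * μ t) • ν t = 0 := fun a b μ h => by
    simp only [add_smul, mul_smul, Finset.sum_add_distrib, ← Finset.smul_sum, h, l1, smul_zero,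
      add_zero]
  have lin' : ∀ (a b : ℤ) (μ : T → ℤ),
      ∑ t, (a * l t + b * μ t) * w t = b * ∑ t, μ t * w t := fun a b μ => by
    simp only [add_mul, mul_assoc, Finset.sum_add_distrib, ← Finset.mul_sum, l3, mul_zero,
      zero_add]
  have nn : ∀ μ : T → ℤ, ∑ t, μ t • ν t = 0 → (∀ t, l t = 0 → μ t = 0) →
      0 ≤ ∑ t, μ t * w t := fun μ h hs => by
    have h1 := hw (fun t => (∑ s, |μ s|) * l t + 1 * μ t) (fun t => by
      by_cases ht : l t = 0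
      · simp [ht, hs t ht]
      have h2 : 1 ≤ l t := lt_of_le_of_ne (l0 t) (Ne.symm ht)
      have h3 : |μ t| ≤ ∑ s, |μ s| :=
        Finset.single_le_sum (fun s _ => abs_nonneg (μ s)) (Finset.mem_univ t)
      have h4 := mul_le_mul_of_nonneg_left h2 ((abs_nonneg _).trans h3)
      have h5 := neg_abs_le (μ t)
      show 0 ≤ (∑ s, |μ s|) * l t + 1 * μ t
      linarith) (lin _ _ μ h)
    rwa [lin', one_mul] at h1
  have neg : ∀ μ : T → ℤ, ∑ t, μ t • ν t = 0 → ∑ t, (-μ) t • ν t = 0 := fun μ h => by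
    simp only [Pi.neg_apply, neg_smul, Finset.sum_neg_distrib, h, neg_zero]
  have key : ∀ μ : T → ℤ, ∑ t, μ t • ν t = 0 → (∀ t, l t = 0 → μ t = 0) →
      ∀ j0, l j0 ≠ 0 → μ j0 = 0 → ∀ t, μ t ≤ 0 := fun μ h hs j0 hj0 hμ0 t0 => by
    by_contra hpos
    rw [not_le] at hpos
    have z : ∑ t, μ t * w t = 0 := by
      have h1 := nn (-μ) (neg μ h) fun t ht => by rw [Pi.neg_apply, hs t ht, neg_zero]
      simp only [Pi.neg_apply, neg_mul, Finset.sum_neg_distrib] at h1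
      linarith [nn μ h hs]
    have lp : ∀ t, l t ≠ 0 → 0 < l t := fun t ht => lt_of_le_of_ne (l0 t) (Ne.symm ht)
    have ht0 : l t0 ≠ 0 := fun h1 => hpos.ne' (hs t0 h1)
    obtain ⟨j, hj, hmax⟩ := Finset.exists_max_image (Finset.univ.filter fun t => l t ≠ 0)
      (fun t => (μ t : ℚ) / (l t : ℚ)) ⟨t0, by simpa using ht0⟩
    have hj' : l j ≠ 0 := (Finset.mem_filter.1 hj).2
    have hm : ∀ t, l t ≠ 0 → μ t * l j ≤ μ j * l t := fun t ht => by
      have h1 := hmax t (by simpa using ht)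
      rw [div_le_div_iff₀ (Int.cast_pos.2 (lp t ht)) (Int.cast_pos.2 (lp j hj'))] at h1
      exact_mod_cast h1
    have hμj : 0 < μ j :=
      (mul_pos_iff_of_pos_right (lp t0 ht0)).1 ((mul_pos hpos (lp j hj')).trans_le (hm t0 ht0))
    refine hmin (fun t => μ j * l t + -l j * μ t) ⟨fun t => ?_, lin _ _ μ h, fun h1 => ?_, ?_⟩ ?_
    · show 0 ≤ μ j * l t + -l j * μ t
      by_cases ht : l t = 0
      · simp [ht, hs t ht]
      · linarith [hm t ht]
    · have h2 : μ j * l j0 + -l j * μ j0 = 0 := congrFun h1 j0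
      rw [hμ0, mul_zero, add_zero] at h2
      exact (mul_pos hμj (lp j0 hj0)).ne' h2
    · rw [lin', z, mul_zero]
    · refine Finset.card_lt_card ⟨fun t ht => ?_, fun h1 => ?_⟩
      · rw [Finset.mem_filter] at ht ⊢
        refine ⟨ht.1, fun h2 => ht.2 ?_⟩
        show μ j * l t + -l j * μ t = 0
        rw [h2, hs t h2, mul_zero, mul_zero, add_zero]
      · exact (Finset.mem_filter.1 (h1 hj)).2 (by ring)
  intro μ h hs j0 hj0 hμ0
  funext t
  refine le_antisymm (key μ h hs j0 hj0 hμ0 t) ?_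
  have := key (-μ) (neg μ h) (fun t ht => by rw [Pi.neg_apply, hs t ht, neg_zero]) j0 hj0
    (by rw [Pi.neg_apply, hμ0, neg_zero]) t
  exact neg_nonpos.1 this

theorem sum_supp {X : Type} [AddCommMonoid X] (l : T → ℤ) (F : T → X)
    (h : ∀ t, l t = 0 → F t = 0) : ∑ j : {t // l t ≠ 0}, F j = ∑ t, F t :=
  Fintype.sum_of_injective Subtype.val Subtype.val_injective _ _
    (fun t ht => h t (by_contra fun h1 => ht ⟨⟨t, h1⟩, rfl⟩)) (fun _ => rfl)

theorem sum_pos_of_ne {l : T → ℤ} (h0 : 0 ≤ l) (h : l ≠ 0) : 0 < ∑ t, l t := by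
  obtain ⟨t, ht⟩ := Function.ne_iff.1 h
  exact Finset.sum_pos' (fun t _ => h0 t) ⟨t, Finset.mem_univ _, lt_of_le_of_ne (h0 t) ht.symm⟩

end Rel

open Classical in
theorem mk_circuit [Module.Free ℤ M] [Module.Finite ℤ M] (e : ∀ i, Q i → M) {J : Type}
    [Fintype J] (ν : J → M →+ ℤ) (l : J → ℤ) (hl : ∀ j, 0 < l j) (j0 : J)
    (rel : ∑ j, l j • ν j = 0) (ind : ∀ μ : J → ℤ, ∑ j, μ j • ν j = 0 → μ j0 = 0 → μ = 0)
    (prim : ∀ j, ∃ m, ν j m = 1) (lt : - ∑ j, l j * phi e (ν j) < ∑ j, l j)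
    (h3 : ∀ S : Finset J, S ≠ Finset.univ → 2 ≤ S.card →
      (Finset.univ.filter fun i => ∀ q, ∃ j ∈ S, ν j (e i q) ≠ mn e (ν j) i).card + 2 ≤ S.card) :
    Nonempty (Circuit e) := by
  have hs : ∀ k : J, ∃ (m : ℕ) (u : M), 0 < m ∧ ∀ j, (l j • ν j) u =
      (m : ℤ) * ((if k = j then 1 else 0) - (if j0 = j then 1 else 0)) := fun k => by
    refine solve _ _ fun μ hμ => ?_
    have h1 := ind (fun j => (μ j - μ j0) * l j) (by
      simp only [sub_smul, mul_smul, Finset.sum_sub_distrib, ← Finset.smul_sum, hμ, rel,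
        smul_zero, sub_zero]) (by simp)
    have h2 : (μ k - μ j0) * l k = 0 := congrFun h1 k
    simp only [mul_sub, Finset.sum_sub_distrib, mul_ite, mul_one, mul_zero, Finset.sum_ite_eq,
      Finset.mem_univ, if_true]
    exact (mul_eq_zero.1 h2).resolve_right (hl k).ne'
  choose m u hm hu using hs
  have c : ∀ j, (((l j).toNat : ℕ) : ℤ) = l j := fun j => Int.toNat_of_nonneg (hl j).le
  refine ⟨{ J := J, nu := ν, lam := fun j => (l j).toNat, lam_pos := fun j => ?_, j0 := j0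
            G := ∏ k, m k, G_pos := Finset.prod_pos fun k _ => hm k
            W := fun k => (∏ k' ∈ Finset.univ.erase k, m k') • u k, hW := fun j k => ?_
            rel := fun x => ?_, prim := prim, lt := ?_, h3 := h3 }⟩
  · have := hl j
    omega
  · have h1 : l j * ν j (u k) = _ := hu k j
    rw [c, map_nsmul, nsmul_eq_mul, mul_left_comm, h1,
      ← Finset.prod_erase_mul _ _ (Finset.mem_univ k), Nat.cast_mul, mul_assoc]
  · have h1 := DFunLike.congr_fun rel x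
    rw [AddMonoidHom.finsetSum_apply] at h1
    simp only [c]
    exact h1
  · simp only [c]
    exact lt

open Classical in
theorem bound3 (e : ∀ i, Q i → M) {T : Type} [Fintype T] (ν : T → M →+ ℤ)
    (hgen : ∀ μ : M →+ ℤ, ∃ n : T → ℕ, μ = ∑ t, n t • ν t ∧
      phi e μ = ∑ t, (n t : ℤ) * phi e (ν t)) {A B : ℤ} (hA : 0 ≤ A) (hAB : A < B)
    (hw : ∀ μ : T → ℤ, 0 ≤ μ → ∑ t, μ t • ν t = 0 → 0 ≤ ∑ t, μ t * (-phi e (ν t) * B - A))
    {l : T → ℤ} (l0 : 0 ≤ l) (l1 : ∑ t, l t • ν t = 0)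
    (l3 : ∑ t, l t * (-phi e (ν t) * B - A) = 0) (S : Finset T) (hS : ∀ t ∈ S, l t ≠ 0)
    (hne : ∑ t ∈ S, ν t ≠ 0) (h2 : 2 ≤ S.card) {c : ℕ}
    (hc : ∑ t ∈ S, phi e (ν t) + (c : ℤ) ≤ phi e (∑ t ∈ S, ν t)) : c + 2 ≤ S.card := by
  obtain ⟨n, hn1, hn2⟩ := hgen (∑ t ∈ S, ν t)
  have hn3 : 0 < ∑ t, (n t : ℤ) := sum_pos_of_ne (fun t => Int.natCast_nonneg _) fun h => hne (by
    rw [hn1]
    refine Finset.sum_eq_zero fun t _ => ?_
    rw [Int.natCast_eq_zero.1 (congrFun h t), zero_smul])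
  have h1 := hw (fun t => l t - (if t ∈ S then 1 else 0) + n t) (fun t => by
    show 0 ≤ l t - (if t ∈ S then 1 else 0) + n t
    have h3 : 0 ≤ l t := l0 t
    split_ifs with ht
    · have := hS t ht
      omega
    · omega) (by
    simp only [add_smul, sub_smul, Finset.sum_add_distrib, Finset.sum_sub_distrib, l1, ite_smul,
      one_smul, zero_smul, Finset.sum_ite_mem, Finset.univ_inter, natCast_zsmul, ← hn1]
    abel)
  simp only [add_mul, sub_mul, Finset.sum_add_distrib, Finset.sum_sub_distrib, l3, ite_mul,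
    one_mul, zero_mul, Finset.sum_ite_mem, Finset.univ_inter] at h1
  simp only [mul_sub, ← mul_assoc, Finset.sum_sub_distrib, ← Finset.sum_mul, mul_neg,
    Finset.sum_neg_distrib, ← hn2, Finset.sum_const, nsmul_eq_mul] at h1
  have h4 : (2 : ℤ) ≤ S.card := by exact_mod_cast h2
  have h5 := mul_le_mul_of_nonneg_right hc (hA.trans hAB.le)
  have h6 := mul_le_mul_of_nonneg_right (Int.add_one_le_iff.2 hn3) hA
  have h7 := mul_lt_mul_of_pos_left hAB (show (0 : ℤ) < S.card - 1 by linarith)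
  have h8 : (c : ℤ) * B < (S.card - 1) * B := by linarith
  have h9 := lt_of_mul_lt_mul_right h8 (hA.trans hAB.le)
  omega

end CombAux

open CombAux

variable {M : Type} [AddCommGroup M] [Module.Free ℤ M] [Module.Finite ℤ M]
  {ι : Type} [Fintype ι] {Q : ι → Type} [∀ i, Fintype (Q i)] [∀ i, Nonempty (Q i)]

theorem dichotomy (e : ∀ i, Q i → M) :
    (∃ (m : ℕ) (u : M), 0 < m ∧ ∀ ν : M →+ ℤ, ν ≠ 0 → (m : ℤ) * (phi e ν + 1) ≤ ν u) ∨
      Nonempty (Circuit e) := by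
  classical
  obtain ⟨T, _, ν, hprim, hgen⟩ := exists_gen e
  by_cases hF : ∀ n : T → ℕ, ∑ t, n t • ν t = 0 → ∑ t, (n t : ℤ) * (phi e (ν t) + 1) ≤ 0
  · obtain ⟨m, u, hm, hu⟩ := farkas ν _ hF
    refine Or.inl ⟨m, u, hm, fun μ hμ => ?_⟩
    obtain ⟨n, h1, h2⟩ := hgen μ
    have h3 : 0 < ∑ t, (n t : ℤ) := sum_pos_of_ne (fun t => Int.natCast_nonneg _) fun h => hμ (by
      rw [h1]
      refine Finset.sum_eq_zero fun t _ => ?_
      rw [Int.natCast_eq_zero.1 (congrFun h t), zero_smul])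
    have h4 : ∑ t, (n t : ℤ) * (m * (phi e (ν t) + 1)) ≤ μ u := by
      rw [h1, AddMonoidHom.finsetSum_apply]
      refine Finset.sum_le_sum fun t _ => ?_
      rw [AddMonoidHom.nsmul_apply, nsmul_eq_mul]
      exact mul_le_mul_of_nonneg_left (hu t) (Int.natCast_nonneg _)
    simp only [mul_left_comm _ (m : ℤ), ← Finset.mul_sum] at h4
    simp only [mul_add, mul_one, Finset.sum_add_distrib, ← h2] at h4
    have h5 := mul_le_mul_of_nonneg_left (Int.add_one_le_iff.2 h3) (Int.natCast_nonneg m)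
    linarith
  right
  obtain ⟨n0, hn0⟩ := not_forall.1 hF
  obtain ⟨r0, p0⟩ := Classical.not_imp.1 hn0
  rw [not_le] at p0
  have r1 : ∑ t, (n0 t : ℤ) • ν t = 0 := by simpa only [natCast_zsmul] using r0
  have n1 : (0 : T → ℤ) ≤ fun t => (n0 t : ℤ) := fun t => Int.natCast_nonneg _
  obtain ⟨g, g0, g1, g2, g3⟩ := exists_ratio ν (fun t => -phi e (ν t)) (fun t => n0 t) n1 r1
    (fun h => p0.ne' (Finset.sum_eq_zero fun t _ => by
      rw [show (n0 t : ℤ) = 0 from congrFun h t, zero_mul]))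
  obtain ⟨A, hA⟩ : ∃ A, A = ∑ t, g t * -phi e (ν t) := ⟨_, rfl⟩
  obtain ⟨B, hB⟩ : ∃ B, B = ∑ t, g t := ⟨_, rfl⟩
  rw [← hA, ← hB] at g3
  have ex : ∀ μ : T → ℤ, ∑ t, μ t * (-phi e (ν t) * B - A) =
      (∑ t, μ t * -phi e (ν t)) * B - A * ∑ t, μ t := fun μ => by
    rw [Finset.sum_mul, Finset.mul_sum, ← Finset.sum_sub_distrib]
    exact Finset.sum_congr rfl fun t _ => by ring
  have ng : ∀ μ : T → ℤ, ∑ t, μ t * -phi e (ν t) = -∑ t, μ t * phi e (ν t) := fun μ => by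
    simp only [mul_neg, Finset.sum_neg_distrib]
  have A0 : 0 ≤ A := by rw [hA, ng]; exact neg_nonneg.2 (rel_phi e ν g0 g1)
  have B0 : 0 < B := hB ▸ sum_pos_of_ne g0 g2
  have AB : A < B := by
    have h1 := g3 _ n1 r1
    simp only [mul_add, mul_one, Finset.sum_add_distrib] at p0
    rw [ng] at h1
    have h2 := mul_pos p0 B0
    have h3 : A * ∑ t, (n0 t : ℤ) < B * ∑ t, (n0 t : ℤ) := by linarith
    exact lt_of_mul_lt_mul_right h3 (Finset.sum_nonneg fun t _ => n1 t)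
  have hw : ∀ μ : T → ℤ, 0 ≤ μ → ∑ t, μ t • ν t = 0 →
      0 ≤ ∑ t, μ t * (-phi e (ν t) * B - A) := fun μ h0 h1 => by
    rw [ex]; exact sub_nonneg.2 (g3 μ h0 h1)
  obtain ⟨l, ⟨l0, l1, l2, l3⟩, hind⟩ := exists_circuit ν _ hw g
    ⟨g0, g1, g2, by rw [ex, ← hA, ← hB, sub_self]⟩
  obtain ⟨t0, ht0⟩ := Function.ne_iff.1 l2
  have ind : ∀ (j0 : {t // l t ≠ 0}) (μ : {t // l t ≠ 0} → ℤ), ∑ j, μ j • ν j = 0 → μ j0 = 0 →
      μ = 0 := fun j0 μ h1 h2 => by
    have e1 : ∀ j : {t // l t ≠ 0}, Function.extend Subtype.val μ 0 j.1 = μ j :=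
      fun j => Subtype.val_injective.extend_apply _ _ j
    have e2 : ∀ t, l t = 0 → Function.extend Subtype.val μ 0 t = 0 := fun t ht =>
      Function.extend_apply' _ _ _ fun ⟨j, hj⟩ => j.2 (hj ▸ ht)
    have h3 := hind (Function.extend Subtype.val μ 0) (by
      rw [← sum_supp l _ fun t ht => by rw [e2 t ht, zero_smul], ← h1]
      exact Finset.sum_congr rfl fun j _ => by rw [e1]) e2 j0 j0.2 (by rw [e1, h2])
    funext j
    rw [← e1, h3]
    rfl
  refine mk_circuit e (J := {t // l t ≠ 0}) (fun j => ν j) (fun j => l j)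
    (fun j => lt_of_le_of_ne (l0 j) j.2.symm) ⟨t0, ht0⟩ ?_ (ind _) (fun j => hprim j) ?_ ?_
  · rw [← l1]
    exact sum_supp l (fun t => l t • ν t) fun t ht => by rw [ht, zero_smul]
  · rw [sum_supp l (fun t => l t * phi e (ν t)) fun t ht => by rw [ht, zero_mul],
      sum_supp l l fun t ht => ht]
    rw [ex, ng] at l3
    have h1 := mul_lt_mul_of_pos_right AB (sum_pos_of_ne l0 l2)
    have h2 : (-∑ t, l t * phi e (ν t)) * B < (∑ t, l t) * B := by linarith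
    exact lt_of_mul_lt_mul_right h2 B0.le
  · intro S hS h2
    have hc := phi_sum e (fun j : {t // l t ≠ 0} => ν j) S
    rw [← Finset.card_map (Function.Embedding.subtype _) (s := S)] at h2 ⊢
    refine bound3 e ν hgen A0 AB hw l0 l1 l3 _ (fun t ht => ?_) (fun h => ?_) h2 ?_
    · obtain ⟨j, _, rfl⟩ := Finset.mem_map.1 ht
      exact j.2
    · rw [Finset.sum_map] at h
      obtain ⟨j1, hj1⟩ : ∃ j, j ∉ S := not_forall.1 fun h => hS (Finset.eq_univ_of_forall h)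
      have h3 := ind j1 (fun j => if j ∈ S then 1 else 0) (by
        simp only [ite_smul, one_smul, zero_smul, Finset.sum_ite_mem, Finset.univ_inter]
        exact h) (if_neg hj1)
      rw [Finset.card_map] at h2
      obtain ⟨j2, hj2⟩ := Finset.card_pos.1 (show 0 < S.card by omega)
      have h4 : (if j2 ∈ S then 1 else 0 : ℤ) = 0 := congrFun h3 j2
      rw [if_pos hj2] at h4
      exact one_ne_zero h4
    · rw [Finset.sum_map, Finset.sum_map]
      exact hc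

end Pool.Agent.Lib.MP_813db1_ag
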