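import Pool.Agent.Lib.MP_813db1_ag.Basic

/-! Linear projective Noether normalisation, and absence of sections of negative degree. -/

namespace Pool.Agent.Lib.MP_813db1_ag

namespace NoetherAux

open MvPolynomial

section A

variable {L K : Type} [Field L] [Field K] [Algebra L K]

/-- The conclusion of the normalisation lemma. -/
def Good (L : Type) {K : Type} [Field L] [Field K] [Algebra L K] {T : Type} (y : T → K) : Prop :=
  ∃ (g : ℕ) (s : Fin g → K), (∀ i, s i ∈ Submodule.span L (Set.range y)) ∧ (∀ i, s i ≠ 0) ∧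
    (∀ i1, AlgebraicIndependent L (fun i : {i // i ≠ i1} => s i.1 / s i1)) ∧
    ∀ R : ValuationSubring K, (∀ c : L, algebraMap L K c ∈ R) →
      ∀ b : K, (∀ i, b * s i ∈ R) → ∀ l, b * y l ∈ R

theorem Good.of {T T' : Type} {y : T → K} {y' : T' → K} (h : Good L y')
    (h1 : ∀ l, y' l ∈ Submodule.span L (Set.range y))
    (h2 : ∀ R : ValuationSubring K, (∀ c : L, algebraMap L K c ∈ R) →
      ∀ b : K, (∀ l, b * y' l ∈ R) → ∀ l, b * y l ∈ R) : Good L y := by
  obtain ⟨g, s, a1, a2, a3, a4⟩ := h
  refine ⟨g, s, fun i => ?_, a2, a3, fun R hR b hb => h2 R hR b (a4 R hR b hb)⟩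
  refine Submodule.span_le.2 ?_ (a1 i)
  rintro _ ⟨l, rfl⟩
  exact h1 l

theorem val_congr {σ : Type} (R : ValuationSubring K) (hR : ∀ c : L, algebraMap L K c ∈ R)
    (r : σ → K) (β : σ → L) (h : ∀ l, R.valuation (r l - algebraMap L K (β l)) < 1)
    (Q : MvPolynomial σ L) : R.valuation (aeval r Q - algebraMap L K (eval β Q)) < 1 := by
  have hc : ∀ c : L, R.valuation (algebraMap L K c) ≤ 1 := fun c =>
    (R.valuation_le_one_iff _).2 (hR c)
  induction Q using MvPolynomial.induction_on with
  | C a => simp
  | add p q hp hq =>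
    have e : aeval r (p + q) - algebraMap L K (eval β (p + q)) =
        (aeval r p - algebraMap L K (eval β p)) + (aeval r q - algebraMap L K (eval β q)) := by
      simp only [map_add]; ring
    rw [e]
    exact R.valuation.map_add_lt hp hq
  | mul_X p l hp =>
    have e : aeval r (p * X l) - algebraMap L K (eval β (p * X l)) =
        (aeval r p - algebraMap L K (eval β p)) * r l +
          algebraMap L K (eval β p) * (r l - algebraMap L K (β l)) := by
      simp only [map_mul, aeval_X, eval_X]; ring
    have h1 : R.valuation (r l) ≤ 1 := by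
      have := R.valuation.map_add_le (h l).le (hc (β l))
      rwa [sub_add_cancel] at this
    rw [e]
    refine R.valuation.map_add_lt ?_ ?_
    · rw [map_mul]
      exact mul_lt_one_of_nonneg_of_lt_one_left zero_le hp h1
    · rw [map_mul]
      exact mul_lt_one_of_nonneg_of_lt_one_right (hc _) zero_le (h l)

theorem good [CharZero L] (n : ℕ) : ∀ (T : Type) [Fintype T] (y : T → K), Fintype.card T = n →
    Good L y := by
  classical
  induction n using Nat.strong_induction_on with
  | _ n ih =>
    intro T _ y hn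
    have hlt : ∀ l : T, Fintype.card {i // i ≠ l} < n := fun l =>
      hn ▸ Fintype.card_subtype_lt (x := l) (by simp)
    by_cases c1 : ∃ l, y l = 0
    · obtain ⟨l, hl⟩ := c1
      refine (ih _ (hlt l) _ (fun i : {i // i ≠ l} => y i.1) rfl).of
        (fun i => Submodule.subset_span ⟨i.1, rfl⟩) fun R _ b hb i => ?_
      by_cases e : i = l
      · rw [e, hl, mul_zero]; exact R.zero_mem
      · exact hb ⟨i, e⟩
    push Not at c1
    by_cases c2 : ∃ l, ¬ AlgebraicIndependent L (fun i : {i // i ≠ l} => y i.1 / y l)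
    · obtain ⟨l, hl⟩ := c2
      rw [algebraicIndependent_iff] at hl
      push Not at hl
      obtain ⟨P, hP, hP0⟩ := hl
      have : ∃ β, eval β P ≠ 0 := by
        by_contra hc
        push Not at hc
        exact hP0 (MvPolynomial.funext fun β => by rw [hc β, map_zero])
      obtain ⟨β, hβ⟩ := this
      refine (ih _ (hlt l) _ (fun i : {i // i ≠ l} => y i.1 - β i • y l) rfl).of
        (fun i => Submodule.sub_mem _ (Submodule.subset_span ⟨i.1, rfl⟩)
          (Submodule.smul_mem _ _ (Submodule.subset_span ⟨l, rfl⟩))) fun R hR b hb => ?_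
      have key : b * y l ∈ R := by
        by_contra hc
        rw [← R.valuation_le_one_iff, not_le] at hc
        have hb0 : b * y l ≠ 0 := by
          intro e; rw [e, map_zero] at hc; exact not_lt_zero hc
        have hv := val_congr R hR (fun i : {i // i ≠ l} => y i.1 / y l) β (fun i => by
          have e : y i.1 / y l - algebraMap L K (β i) =
              (b * (y i.1 - β i • y l)) * (b * y l)⁻¹ := by
            have := c1 l
            have := left_ne_zero_of_mul hb0
            rw [Algebra.smul_def]
            field_simp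
          rw [e, map_mul, map_inv₀]
          exact mul_lt_one_of_nonneg_of_lt_one_right ((R.valuation_le_one_iff _).2 (hb i)) zero_le
            (inv_lt_one_of_one_lt₀ hc)) P
        rw [hP, zero_sub, Valuation.map_neg] at hv
        have h1 := (R.valuation_le_one_iff _).2 (hR (eval β P)⁻¹)
        have h2 := mul_lt_one_of_nonneg_of_lt_one_left zero_le hv h1
        rw [← map_mul, ← map_mul, mul_inv_cancel₀ hβ, map_one, map_one] at h2
        exact lt_irrefl _ h2
      intro i
      by_cases e : i = l
      · rw [e]; exact key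
      · have e2 : b * y i = b * (y i - β ⟨i, e⟩ • y l) + algebraMap L K (β ⟨i, e⟩) * (b * y l) := by
          rw [Algebra.smul_def]; ring
        rw [e2]
        exact R.add_mem _ _ (hb ⟨i, e⟩) (R.mul_mem _ _ (hR _) key)
    push Not at c2
    let e := (Fintype.equivFin T).symm
    refine ⟨Fintype.card T, fun i => y (e i), fun i => Submodule.subset_span ⟨_, rfl⟩,
      fun i => c1 _, fun i1 => ?_, fun R _ b hb l => ?_⟩
    · exact (c2 (e i1)).comp (fun i : {i // i ≠ i1} => (⟨e i.1, e.injective.ne i.2⟩ : {i // i ≠ e i1}))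
        fun a b h => Subtype.ext (e.injective (congrArg Subtype.val h))
    · have : b * y (e (e.symm l)) ∈ R := hb (e.symm l)
      rwa [e.apply_symm_apply] at this

end A

/-- Over a Dedekind domain, an element bounded at all valuations has an integral norm. -/
theorem norm_mem (A F K : Type) [CommRing A] [IsDedekindDomain A] [Field F] [CharZero F]
    [Algebra A F] [IsFractionRing A F] [Field K] [Algebra F K] [FiniteDimensional F K] (H : K)
    (h : ∀ v : Valuation K Γ, Function.Surjective v →
      (∀ a : A, v (algebraMap F K (algebraMap A F a)) ≤ 1) → v H ≤ 1) :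
    ∃ a : A, algebraMap A F a = Algebra.norm F H := by
  let : Algebra A K := ((algebraMap F K).comp (algebraMap A F)).toAlgebra
  have : IsScalarTower A F K := IsScalarTower.of_algebraMap_eq fun _ => rfl
  have : IsDedekindDomain (integralClosure A K) := IsIntegralClosure.isDedekindDomain A F K _
  have : IsFractionRing (integralClosure A K) K :=
    integralClosure.isFractionRing_of_finite_extension F K
  obtain ⟨c, hc⟩ := IsDedekindDomain.HeightOneSpectrum.mem_integers_of_valuation_le_one
    (R := integralClosure A K) K H fun v => h _ (v.valuation_surjective K) fun a =>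
      v.valuation_le_one (K := K) (algebraMap A (integralClosure A K) a)
  have hi : IsIntegral A H := hc ▸ c.2
  exact IsIntegrallyClosed.isIntegral_iff.1 (Algebra.isIntegral_norm F hi)

/-- Over a polynomial ring it is enough to look at valuations centred on hypersurfaces. -/
theorem norm_poly {L σ : Type} [Field L] [Finite σ] (F K : Type) [Field F] [CharZero F]
    [Algebra (MvPolynomial σ L) F] [IsFractionRing (MvPolynomial σ L) F] [Field K] [Algebra F K]
    [FiniteDimensional F K] (H : K)
    (h : ∀ v : Valuation K Γ, Function.Surjective v → ∀ a : σ,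
      (∀ p q : MvPolynomial σ L, degreeOf a q = 0 →
        v (algebraMap F K (algebraMap _ F p / algebraMap _ F q)) ≤ 1) → v H ≤ 1) :
    ∃ p : MvPolynomial σ L, algebraMap _ F p = Algebra.norm F H := by
  set N := Algebra.norm F H with hN
  by_cases c : IsUnit (IsFractionRing.den (MvPolynomial σ L) N : MvPolynomial σ L)
  · exact IsFractionRing.isInteger_of_isUnit_den c
  exfalso
  obtain ⟨q, hq, hd⟩ := WfDvdMonoid.exists_irreducible_factor c
    (nonZeroDivisors.ne_zero (IsFractionRing.den (MvPolynomial σ L) N).2)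
  have hp : Prime q := hq.prime
  obtain ⟨a, ha⟩ : ∃ a, degreeOf a q ≠ 0 := by
    by_contra hc
    push Not at hc
    have e : q = C (q.coeff 0) := vars_eq_empty_iff_eq_C.1 (Finset.eq_empty_of_forall_notMem
      fun i hi => mem_vars_iff_degreeOf_ne_zero.1 hi (hc i))
    have h0 : q.coeff 0 ≠ 0 := fun h0 => hp.ne_zero (by rw [e, h0, map_zero])
    exact hp.not_isUnit (e ▸ (IsUnit.mk0 _ h0).map C)
  have hI : (Ideal.span {q}).IsPrime := (Ideal.span_singleton_prime hp.ne_zero).2 hp
  have hS : (Ideal.span {q}).primeCompl ≤ nonZeroDivisors (MvPolynomial σ L) :=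
    Ideal.primeCompl_le_nonZeroDivisors _
  let A := Localization.subalgebra F (Ideal.span {q}).primeCompl hS
  have : IsLocalization.AtPrime A (Ideal.span {q}) :=
    Localization.subalgebra.isLocalization_subalgebra F _ hS
  have : IsNoetherianRing A :=
    IsLocalization.isNoetherianRing (Ideal.span {q}).primeCompl A inferInstance
  have : IsLocalRing A := IsLocalization.AtPrime.isLocalRing A (Ideal.span {q})
  have hm : (IsLocalRing.maximalIdeal A).IsPrincipal := by
    rw [← IsLocalization.AtPrime.map_eq_maximalIdeal (Ideal.span {q}) A, Ideal.map_span,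
      Set.image_singleton]
    exact ⟨_, rfl⟩
  have : IsDedekindDomain A :=
    ((tfae_of_isNoetherianRing_of_isLocalRing_of_isDomain A).out 4 2).1 hm
  obtain ⟨⟨x, r, t, ht, hx⟩, hx2⟩ := norm_mem A F K H fun v hv hA => h v hv a fun r t ht => by
    by_cases t0 : t = 0
    · rw [t0, map_zero, div_zero, map_zero, map_zero]; exact zero_le
    have hm : t ∈ (Ideal.span {q}).primeCompl := by
      intro hd
      obtain ⟨u, rfl⟩ := Ideal.mem_span_singleton.1 hd
      rw [degreeOf_mul_eq hp.ne_zero (right_ne_zero_of_mul t0)] at ht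
      omega
    exact hA ⟨_, r, t, hm, (IsFractionRing.mk'_eq_div _).symm⟩
  have e : N = IsLocalization.mk' F r ⟨t, hS ht⟩ := by rw [← hx]; exact hx2.symm
  have e3 := IsFractionRing.injective (MvPolynomial σ L) F (IsLocalization.mk'_eq_iff_eq'.1
    ((IsFractionRing.mk'_num_den (MvPolynomial σ L) N).trans e))
  have h4 : q ∣ IsFractionRing.num (MvPolynomial σ L) N * t := by
    rw [e3]; exact hd.mul_left _
  rcases hp.dvd_or_dvd h4 with h5 | h5
  · exact hp.not_isUnit (IsFractionRing.num_den_reduced (MvPolynomial σ L) N h5 hd)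
  · exact ht (Ideal.mem_span_singleton.2 h5)

section B

variable {L K : Type} [Field L] [Field K] [Algebra L K] {g : ℕ} {s : Fin g → K}

/-- The ratio `s i / s b` as a polynomial in the coordinates of the chart `b`. -/
noncomputable def co (L : Type) [Field L] (b i : Fin g) : MvPolynomial {i // i ≠ b} L :=
  if h : i = b then 1 else X ⟨i, h⟩

theorem aeval_co (hs : ∀ i, s i ≠ 0) (b i : Fin g) :
    aeval (fun i : {i // i ≠ b} => s i.1 / s b) (co L b i) = s i / s b := by
  unfold co
  split_ifs with h
  · rw [h, map_one, div_self (hs b)]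
  · rw [aeval_X]

theorem deg_co (b i : Fin g) (a : {i // i ≠ b}) (h : i ≠ a.1) : degreeOf a (co L b i) = 0 := by
  unfold co
  split_ifs with c
  · rw [← C_1, degreeOf_C]
  · exact degreeOf_X_of_ne fun e => h (by rw [e])

theorem deg_aeval {σ τ : Type} (a : σ) (f : τ → MvPolynomial σ L) (h : ∀ i, degreeOf a (f i) = 0)
    (t : MvPolynomial τ L) : degreeOf a (aeval f t) = 0 := by
  induction t using MvPolynomial.induction_on with
  | C c => rw [aeval_C, algebraMap_eq, degreeOf_C]
  | add p q hp hq =>
    have := degreeOf_add_le a (aeval f p) (aeval f q)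
    rw [map_add]
    omega
  | mul_X p l hp =>
    have := degreeOf_mul_le a (aeval f p) (f l)
    have := h l
    rw [map_mul, aeval_X]
    omega

theorem chart [CharZero L] (hs : ∀ i, s i ≠ 0) (b : Fin g)
    (hind : AlgebraicIndependent L (fun i : {i // i ≠ b} => s i.1 / s b))
    (F : IntermediateField L K) [FiniteDimensional F K] (h1 : ∀ i, s i / s b ∈ F)
    (h2 : F ≤ IntermediateField.adjoin L (Set.range fun i : {i // i ≠ b} => s i.1 / s b))
    (G : K) (hG : ∀ v : Valuation K Γ, Function.Surjective v → ∀ a, a ≠ b →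
      (∀ x ∈ IntermediateField.adjoin L
        (Set.range fun i : {i // i ≠ a} => s i.1 / s b), v x ≤ 1) →
      v (s a / s b) ≤ 1 → v G ≤ 1) :
    ∃ p : MvPolynomial {i // i ≠ b} L,
      aeval (fun i : {i // i ≠ b} => s i.1 / s b) p = (Algebra.norm F G : K) := by
  let x : {i // i ≠ b} → F := fun i => ⟨s i.1 / s b, h1 i.1⟩
  let : Algebra (MvPolynomial {i // i ≠ b} L) F := (aeval x).toRingHom.toAlgebra
  have hx : ∀ p : MvPolynomial {i // i ≠ b} L, algebraMap F K (algebraMap _ F p) =
      aeval (fun i : {i // i ≠ b} => s i.1 / s b) p := fun p =>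
    (aeval_algebraMap_apply K x p).symm
  have : FaithfulSMul (MvPolynomial {i // i ≠ b} L) F := by
    rw [faithfulSMul_iff_algebraMap_injective]
    intro p q h
    exact hind (by rw [← hx, ← hx, h])
  have : IsFractionRing (MvPolynomial {i // i ≠ b} L) F := by
    refine IsFractionRing.of_field _ _ fun z => ?_
    obtain ⟨r, t, e⟩ := (IntermediateField.mem_adjoin_range_iff _ _ _).1 (h2 z.2)
    refine ⟨r, t, (algebraMap F K).injective ?_⟩
    rw [map_div₀, hx, hx]
    exact e
  have : CharZero F := charZero_of_injective_algebraMap (algebraMap L F).injective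
  obtain ⟨p, hp⟩ := norm_poly (L := L) (σ := {i // i ≠ b}) F K G fun v hv a ha => by
    simp only [map_div₀ (algebraMap F K), hx] at ha
    refine hG v hv a.1 a.2 (fun z hz => ?_) ?_
    · obtain ⟨r, t, e⟩ := (IntermediateField.mem_adjoin_range_iff _ _ _).1 hz
      have k : ∀ r : MvPolynomial {i // i ≠ a.1} L,
          aeval (fun i : {i // i ≠ b} => s i.1 / s b)
            (aeval (fun i : {i // i ≠ a.1} => co L b i.1) r) =
          aeval (fun i : {i // i ≠ a.1} => s i.1 / s b) r := fun r => by
        rw [← AlgHom.comp_apply, comp_aeval]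
        simp only [aeval_co hs]
      have := ha (aeval (fun i : {i // i ≠ a.1} => co L b i.1) r)
        (aeval (fun i : {i // i ≠ a.1} => co L b i.1) t)
        (deg_aeval a (fun i : {i // i ≠ a.1} => co L b i.1) (fun i => deg_co b i.1 a i.2) t)
      rw [k r, k t, ← e] at this
      exact this
    · have := ha (X a) 1 (by rw [← C_1, degreeOf_C])
      rwa [map_one, div_one, aeval_X] at this
  exact ⟨p, by rw [← hx, hp]; rfl⟩

theorem homog (hs : ∀ i, s i ≠ 0) {i0 i1 : Fin g} (hne : i0 ≠ i1)
    (P : MvPolynomial {i // i ≠ i0} L) : ∃ (d : ℕ) (Q : MvPolynomial {i // i ≠ i1} L),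
      degreeOf ⟨i0, hne⟩ Q ≤ d ∧ aeval (fun i : {i // i ≠ i1} => s i.1 / s i1) Q =
        (s i0 / s i1) ^ d * aeval (fun i : {i // i ≠ i0} => s i.1 / s i0) P := by
  induction P using MvPolynomial.induction_on with
  | C c => exact ⟨0, C c, by rw [degreeOf_C], by simp⟩
  | add p q hp hq =>
    obtain ⟨d, Q, a1, a2⟩ := hp
    obtain ⟨d', Q', b1, b2⟩ := hq
    refine ⟨d + d', Q * X ⟨i0, hne⟩ ^ d' + Q' * X ⟨i0, hne⟩ ^ d, ?_, ?_⟩
    · refine (degreeOf_add_le _ _ _).trans (max_le ?_ ?_) <;>
        refine (degreeOf_mul_le _ _ _).trans ?_ <;> rw [degreeOf_X_self_pow] <;> omega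
    · simp only [map_add, map_mul, map_pow, aeval_X, a2, b2]
      ring
  | mul_X p l hp =>
    obtain ⟨d, Q, a1, a2⟩ := hp
    refine ⟨d + 1, Q * co L i1 l.1, (degreeOf_mul_le _ _ _).trans ?_, ?_⟩
    · rw [deg_co i1 l.1 ⟨i0, hne⟩ l.2]; omega
    · have := hs i0
      have := hs i1
      rw [map_mul, map_mul, aeval_co hs, a2, aeval_X, pow_succ]
      field_simp

end B

end NoetherAux

open NoetherAux MvPolynomial

variable {L K : Type} [Field L] [CharZero L] [Field K] [Algebra L K]

theorem noether {T : Type} [Fintype T] (y : T → K) :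
    ∃ (g : ℕ) (s : Fin g → K), (∀ i, s i ∈ Submodule.span L (Set.range y)) ∧ (∀ i, s i ≠ 0) ∧
      (∀ i1, AlgebraicIndependent L (fun i : {i // i ≠ i1} => s i.1 / s i1)) ∧
      ∀ R : ValuationSubring K, (∀ c : L, algebraMap L K c ∈ R) →
        ∀ b : K, (∀ i, b * s i ∈ R) → ∀ l, b * y l ∈ R :=
  good _ T y rfl

theorem lemmaC {g : ℕ} (s : Fin g → K) (hs : ∀ i, s i ≠ 0)
    (hind : ∀ i1, AlgebraicIndependent L (fun i : {i // i ≠ i1} => s i.1 / s i1))
    (i0 i1 : Fin g) (hne : i0 ≠ i1)
    (hfin : FiniteDimensional (IntermediateField.adjoin L (Set.range fun i => s i / s i0)) K)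
    (H : K) (hH : H ≠ 0)
    (hgood : ∀ v : Valuation K Γ, Function.Surjective v → ∀ a b : Fin g, a ≠ b →
      (∀ x ∈ IntermediateField.adjoin L
        (Set.range fun i : {i // i ≠ a} => s i.1 / s b), v x ≤ 1) →
      v (s a / s b) ≤ 1 → ∀ i, v (H * s i) ≤ 1) : False := by
  set F := IntermediateField.adjoin L (Set.range fun i => s i / s i0) with hF
  have e : ∀ i j b, s i / s j = (s i / s b) / (s j / s b) := fun i j b => by
    have := hs j
    have := hs b
    field_simp
  have h1 : ∀ i b, s i / s b ∈ F := fun i b => by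
    rw [e i b i0]
    exact div_mem (IntermediateField.subset_adjoin _ _ ⟨i, rfl⟩)
      (IntermediateField.subset_adjoin _ _ ⟨b, rfl⟩)
  have h2 : ∀ b, F ≤ IntermediateField.adjoin L
      (Set.range fun i : {i // i ≠ b} => s i.1 / s b) := fun b => by
    have k : ∀ i, s i / s b ∈ IntermediateField.adjoin L
        (Set.range fun i : {i // i ≠ b} => s i.1 / s b) := fun i => by
      by_cases c : i = b
      · rw [c, div_self (hs b)]; exact one_mem _
      · exact IntermediateField.subset_adjoin _ _ ⟨⟨i, c⟩, rfl⟩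
    refine IntermediateField.adjoin_le_iff.2 ?_
    rintro _ ⟨i, rfl⟩
    show s i / s i0 ∈ _
    rw [e i i0 b]
    exact div_mem (k i) (k i0)
  have ch := fun b => chart hs b (hind b) F (fun i => h1 i b) (h2 b) (H * s b)
    fun v hv a ha c1 c2 => hgood v hv a b ha c1 c2 b
  obtain ⟨P0, p0⟩ := ch i0
  obtain ⟨P1, p1⟩ := ch i1
  have n1 : P1 ≠ 0 := by
    rintro rfl
    rw [map_zero] at p1
    exact Algebra.norm_ne_zero_iff.2 (mul_ne_zero hH (hs i1)) (Subtype.ext p1.symm)
  have e0 : H * s i0 = H * s i1 * algebraMap F K ⟨s i0 / s i1, h1 _ _⟩ := by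
    show H * s i0 = H * s i1 * (s i0 / s i1)
    have := hs i1
    field_simp
  rw [e0, map_mul (Algebra.norm F), Algebra.norm_algebraMap] at p0
  obtain ⟨d, Q, q1, q2⟩ := homog (L := L) hs hne P0
  have e1 : Q = X ⟨i0, hne⟩ ^ (d + Module.finrank F K) * P1 := by
    refine hind i1 ?_
    rw [q2, p0, map_mul (aeval _), map_pow, aeval_X, p1]
    push_cast
    ring
  have := Module.finrank_pos (R := F) (M := K)
  rw [e1, degreeOf_mul_eq (pow_ne_zero _ (X_ne_zero _)) n1, degreeOf_X_self_pow] at q1
  omega

end Pool.Agent.Lib.MP_813db1_ag
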