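import Pool.Agent.Lib.MP_813db1_ag.Good
import Pool.Agent.Lib.MP_813db1_ag.Noether
import Pool.Agent.Lib.MP_813db1_ag.Comb

/-! Positive dimensional fibres, and the induction on the rank. -/

namespace Pool.Agent.Lib.MP_813db1_ag

open Module Finset Matrix

namespace Sys

variable {k K : Type} [Field k] [Field K] [Algebra k K] {n : ℕ} {M : Type} [AddCommGroup M]
  {ι : Type} [Fintype ι] {Q : ι → Type} [∀ i, Fintype (Q i)] [∀ i, Nonempty (Q i)]
  (S : Sys k K n M ι Q) (C : Circuit S.e)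

/-- Poles along the boundary of the fibre are uniformly bounded. -/
def Bdd (y : K) : Prop :=
  ∃ N : ℕ, ∀ P : Place k K, (∀ x ∈ S.L0 C, P.v x ≤ 1) → ∀ A : Adapt (P.nu S.χ),
    (A.ν' = 0 ∨ ∃ j, A.ν' = C.nu j) → P.v y ≤ WithZero.exp (A.a * N)

theorem exp_mono {a : ℤ} (ha : 0 ≤ a) {N N' : ℕ} (h : N ≤ N') :
    (WithZero.exp (a * N) : Γ) ≤ WithZero.exp (a * N') := by
  rw [WithZero.exp_le_exp]
  exact mul_le_mul_of_nonneg_left (by exact_mod_cast h) ha

variable {S C}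

theorem Bdd.add {x y : K} (hx : S.Bdd C x) (hy : S.Bdd C y) : S.Bdd C (x + y) := by
  obtain ⟨N, hN⟩ := hx
  obtain ⟨N', hN'⟩ := hy
  exact ⟨max N N', fun P hP A hA => P.v.map_add_le
    ((hN P hP A hA).trans (exp_mono A.a_nonneg (le_max_left _ _)))
    ((hN' P hP A hA).trans (exp_mono A.a_nonneg (le_max_right _ _)))⟩

theorem Bdd.mul {x y : K} (hx : S.Bdd C x) (hy : S.Bdd C y) : S.Bdd C (x * y) := by
  obtain ⟨N, hN⟩ := hx
  obtain ⟨N', hN'⟩ := hy
  refine ⟨N + N', fun P hP A hA => ?_⟩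
  rw [map_mul, Nat.cast_add, mul_add, WithZero.exp_add]
  exact mul_le_mul' (hN P hP A hA) (hN' P hP A hA)

variable (S C)

theorem bdd_L {x : K} (hx : x ∈ S.L0 C) : S.Bdd C x :=
  ⟨0, fun P hP A _ => by simpa using hP x hx⟩

theorem bdd_chi (m : M) : S.Bdd C (S.χ m) := by
  refine ⟨∑ j, (C.nu j m).natAbs, fun P _ A hA => ?_⟩
  rw [P.v_chi, WithZero.exp_le_exp, A.eq, ← mul_neg]
  apply mul_le_mul_of_nonneg_left _ A.a_nonneg
  rcases hA with h | ⟨j, h⟩
  · rw [h]; simp only [AddMonoidHom.zero_apply, neg_zero]; positivity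
  · rw [h]
    have := single_le_sum (f := fun j => (C.nu j m).natAbs) (fun _ _ => Nat.zero_le _)
      (mem_univ j)
    omega

theorem bdd_adjoin {x : K} (hx : x ∈ Algebra.adjoin k (Set.range S.χ)) : S.Bdd C x := by
  induction hx using Algebra.adjoin_induction with
  | mem x hx => obtain ⟨m, rfl⟩ := hx; exact S.bdd_chi C m
  | algebraMap c => exact S.bdd_L C ((S.L0 C).algebraMap_mem c)
  | add x y _ _ hx hy => exact hx.add hy
  | mul x y _ _ hx hy => exact hx.mul hy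

theorem bdd_span {x : K} (hx : x ∈ Submodule.span (S.L0 C) (Set.range fun l => S.χ (C.W l))) :
    S.Bdd C x := by
  induction hx using Submodule.span_induction with
  | mem x hx => obtain ⟨m, rfl⟩ := hx; exact S.bdd_chi C _
  | zero => exact S.bdd_L C (zero_mem _)
  | add x y _ _ hx hy => exact hx.add hy
  | smul c x _ hx => rw [Algebra.smul_def]; exact (S.bdd_L C c.2).mul hx

theorem bdd_finset (V : Finset K) (h : ∀ y ∈ V, S.Bdd C y) :
    ∃ N : ℕ, ∀ P : Place k K, (∀ x ∈ S.L0 C, P.v x ≤ 1) → ∀ A : Adapt (P.nu S.χ),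
      (A.ν' = 0 ∨ ∃ j, A.ν' = C.nu j) → ∀ y ∈ V, P.v y ≤ WithZero.exp (A.a * N) := by
  choose! N hN using h
  exact ⟨V.sup N, fun P hP A hA y hy =>
    (hN y hy P hP A hA).trans (exp_mono A.a_nonneg (le_sup hy))⟩

omit [∀ i, Nonempty (Q i)] in
theorem exists_denom (V : Finset K) :
    ∃ d : K, d ≠ 0 ∧ d ∈ Algebra.adjoin k (Set.range S.χ) ∧
      ∀ y ∈ V, d * y ∈ Algebra.adjoin k (Set.range S.χ) := by
  classical
  induction V using Finset.induction_on with
  | empty => exact ⟨1, one_ne_zero, one_mem _, by simp⟩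
  | insert y V _ ih =>
    obtain ⟨d, hd0, hd, hV⟩ := ih
    obtain ⟨r, hr, s, hs, rfl⟩ := IntermediateField.mem_adjoin_iff_div.1
      (show y ∈ IntermediateField.adjoin k (Set.range S.χ) by rw [S.gen]; trivial)
    by_cases h0 : s = 0
    · refine ⟨d, hd0, hd, fun y hy => ?_⟩
      rcases mem_insert.1 hy with rfl | hy
      · simp [h0]
      · exact hV y hy
    · refine ⟨d * s, mul_ne_zero hd0 h0, mul_mem hd hs, fun y hy => ?_⟩
      rcases mem_insert.1 hy with rfl | hy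
      · rw [mul_assoc, mul_div_cancel₀ _ h0]; exact mul_mem hd hr
      · rw [mul_right_comm]; exact mul_mem (hV y hy) hs

theorem caseB [CharZero k] [DecidableEq ι] [Module.Free ℤ M] [Module.Finite ℤ M] (hn : 0 < n)
    (hP : PsefV S.D) (D : Derivation k K K) (hD : ∀ x ∈ S.L0 C, D x = 0) : D = 0 := by
  classical
  by_contra hD0
  have : CharZero K := charZero_of_injective_algebraMap (algebraMap k K).injective
  obtain ⟨g, s, hspan, hs0, hind, hN⟩ := noether (L := S.L0 C) fun l => S.χ (C.W l)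
  have hLL : ∀ x ∈ S.L0 C, x ∈ Set.range (algebraMap (S.L0 C) K) := fun x hx => ⟨⟨x, hx⟩, rfl⟩
  obtain ⟨i0, i1, hne⟩ : ∃ i0 i1 : Fin g, i0 ≠ i1 := by
    by_contra hh
    push Not at hh
    obtain ⟨u, hu0, hu⟩ : ∃ u : K, u ≠ 0 ∧ ∀ i, u * s i = 1 := by
      rcases isEmpty_or_nonempty (Fin g) with h | ⟨⟨i⟩⟩
      · exact ⟨1, one_ne_zero, fun i => h.elim i⟩
      · exact ⟨(s i)⁻¹, inv_ne_zero (hs0 i), fun j => by
          rw [hh j i, inv_mul_cancel₀ (hs0 i)]⟩
    have := S.fin_of C s hN (S.L0 C) hLL u hu0 fun i => ⟨1, by rw [hu, map_one]⟩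
    apply hD0
    ext y
    exact der_of_isAlgebraic D _ hD (Algebra.IsAlgebraic.isAlgebraic y)
  have hfin := S.fin_of C s hN
    (IntermediateField.adjoin (S.L0 C) (Set.range fun i => s i / s i0))
    (fun x hx => ⟨⟨x, IntermediateField.algebraMap_mem _ (⟨x, hx⟩ : S.L0 C)⟩, rfl⟩) (s i0)⁻¹
    (inv_ne_zero (hs0 i0)) fun i =>
      ⟨⟨s i / s i0, IntermediateField.subset_adjoin _ _ ⟨i, rfl⟩⟩, (inv_mul_eq_div _ _).symm⟩
  obtain ⟨⟨h0, hh0, hdet⟩, -⟩ := S.main_alg
  obtain ⟨V, hV⟩ := hP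
  obtain ⟨d, hd0, -, hdV⟩ := S.exists_denom V
  obtain ⟨N1, hN1⟩ := S.bdd_finset C (V.image fun y => d * y) (fun y hy => by
    obtain ⟨y', hy', rfl⟩ := mem_image.1 hy
    exact S.bdd_adjoin C (hdV y' hy'))
  obtain ⟨N2, hN2⟩ := S.bdd_finset C (univ.image s) (fun y hy => by
    obtain ⟨i, -, rfl⟩ := mem_image.1 hy
    exact S.bdd_span C (hspan i))
  set Λ : ℕ := ∑ j, C.lam j with hΛ
  set Δ : ℤ := - ∑ j, (C.lam j : ℤ) * phi S.e (C.nu j) with hΔ
  have hΔΛ : Δ + 1 ≤ Λ := by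
    have := C.lt
    rw [hΛ]; push_cast; omega
  obtain ⟨u, hu⟩ : ∃ u : M, ∀ j, C.nu j u = C.G * (Λ * phi S.e (C.nu j) + Δ) :=
    ⟨_, C.nu_comb (fun j => Λ * phi S.e (C.nu j) + Δ) (by
      simp only [mul_add, sum_add_distrib, ← sum_mul, mul_left_comm _ (Λ : ℤ), ← mul_sum]
      rw [hΛ, hΔ]; push_cast; ring)⟩
  set m0 : ℕ := C.G * Λ with hm0
  obtain ⟨m, hm, h, hh, hall⟩ := hV (m0 * N1 + N2 + 1) (by omega)
  set N : ℕ := m0 * N1 + N2 + 1 with hNd
  refine lemmaC s hs0 hind i0 i1 hne hfin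
    ((h * d ^ m / h0 ^ (m * N)) ^ m0 * S.χ (- ((m * N) • u)))
    (mul_ne_zero (pow_ne_zero _ (div_ne_zero (mul_ne_zero hh (pow_ne_zero _ hd0))
      (pow_ne_zero _ hh0))) (chi_ne _ _)) ?_
  intro v hv a b _ hE hab i
  have hLv : ∀ x ∈ S.L0 C, v x ≤ 1 := fun x hx =>
    hE x (IntermediateField.algebraMap_mem _ (⟨x, hx⟩ : S.L0 C))
  obtain ⟨P, rfl⟩ := exists_place (k := k) v fun c => hLv _ ((S.L0 C).algebraMap_mem c)
  obtain ⟨A, hA, x, hx, hxm⟩ := S.good C hn P s hspan hs0 hN a b hE hab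
  have hvd : P.v d ≠ 0 := (Valuation.ne_zero_iff _).2 hd0
  have hv0 : P.v h0 ≠ 0 := (Valuation.ne_zero_iff _).2 hh0
  have hvh : P.v h ≠ 0 := (Valuation.ne_zero_iff _).2 hh
  have hvs : P.v (s i) ≠ 0 := (Valuation.ne_zero_iff _).2 (hs0 i)
  have h1 := hall P.v hv P.hk _ (WithZero.exp (A.a * N1) / P.v d)
    (S.local_bound hn h0 hh0 hdet P A x hx hxm) (fun y hy => by
      rw [le_div_iff₀ (zero_lt_iff.2 hvd), mul_comm, ← map_mul]
      exact hN1 P hLv A hA _ (mem_image_of_mem _ hy))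
  have h2 := hN2 P hLv A hA _ (mem_image_of_mem s (mem_univ i))
  have h3 : P.nu S.χ u ≤ m0 * (phi S.e (P.nu S.χ) + A.a) - A.a * C.G := by
    rw [phi_mul S.e A.a_nonneg A.eq, A.eq]
    have ha := A.a_nonneg
    have hG : (0 : ℤ) ≤ C.G := by positivity
    rcases hA with hA | ⟨j, hA⟩
    · have : A.a = 0 := by
        rcases A.alt with ⟨-, -, h⟩ | ⟨h, -⟩
        · exact h
        · rw [hA] at h; simp at h
      simp [this]
    · rw [hA, hu, hm0]
      push_cast
      nlinarith [mul_nonneg (mul_nonneg ha hG) (sub_nonneg.2 hΔΛ)]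
  simp only [map_mul, map_pow, map_div₀, P.v_chi, map_neg, map_nsmul]
  rw [← WithZero.exp_log hvd, ← WithZero.exp_log hv0, ← WithZero.exp_log hvh] at h1
  rw [← WithZero.exp_log hvs] at h2
  rw [← WithZero.exp_log hvd, ← WithZero.exp_log hv0, ← WithZero.exp_log hvh,
    ← WithZero.exp_log hvs, ← WithZero.exp_zero]
  simp only [← WithZero.exp_nsmul, ← WithZero.exp_add, ← WithZero.exp_sub, WithZero.exp_le_exp,
    nsmul_eq_mul] at h1 h2 ⊢
  generalize WithZero.log (P.v d) = ld at *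
  generalize WithZero.log (P.v h0) = l0 at *
  generalize WithZero.log (P.v h) = lh at *
  generalize WithZero.log (P.v (s i)) = ls at *
  generalize phi S.e (P.nu S.χ) = φ at *
  generalize P.nu S.χ u = nu at h3 ⊢
  have ha := A.a_nonneg
  generalize A.a = a' at *
  have hG : (1 : ℤ) ≤ C.G := by exact_mod_cast C.G_pos
  have hm1 : (1 : ℤ) ≤ m := by exact_mod_cast hm
  have e1 : (m0 : ℤ) * (lh + m * ld - (m * N : ℕ) * l0) ≤
      m0 * (- (m * N : ℕ) * (φ + a') + m * (a' * N1)) :=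
    mul_le_mul_of_nonneg_left (by linarith) (by positivity)
  have e2 : ((m * N : ℕ) : ℤ) * nu ≤ (m * N : ℕ) * (m0 * (φ + a') - a' * C.G) :=
    mul_le_mul_of_nonneg_left h3 (by positivity)
  have e3 : (N : ℤ) = m0 * N1 + N2 + 1 := by rw [hNd]; push_cast; ring
  have e4 : a' * m * N ≤ a' * m * N * C.G := le_mul_of_one_le_right (by positivity) hG
  have e5 : a' * N2 ≤ a' * N2 * m := le_mul_of_one_le_right (by positivity) hm1
  have e6 : 0 ≤ a' * m := by positivity
  have e7 : a' * m * N = a' * m * (m0 * N1 + N2 + 1) := by rw [e3]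
  push_cast at e1 e2 ⊢
  linarith

/-- The system on the base of the fibration, when the fibre is one point. -/
theorem exists_sub [Module.Free ℤ M] [Module.Finite ℤ M] (h1 : S.L0 C = ⊤)
    (h2 : Fintype.card {i // C.delta i ≠ 0} + 1 = Fintype.card C.J) :
    finrank ℤ (C.ker univ) < finrank ℤ M ∧
      ∃ S' : Sys k K n (C.ker univ) {i // C.delta i = 0} (fun i => Q i.1), S'.D = S.D := by
  classical
  have h3 := C.finrank_ker (univ.erase C.j0) (fun h => by
    have := h ▸ mem_univ C.j0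
    simp at this)
  rw [C.ker_erase, card_erase_of_mem (mem_univ _), card_univ] at h3
  have h4 : 1 < Fintype.card C.J := Fintype.one_lt_card_iff.2
    ((C.exists_ne C.j0).elim fun j hj => ⟨j, _, hj⟩)
  have h5 := finrank_eq_card_basis S.b
  have h6 := Fintype.card_subtype_compl (fun i => C.delta i = 0)
  have h7 := Fintype.card_subtype_le (fun i => C.delta i = 0)
  have h8 : finrank ℤ (C.ker univ) = Fintype.card ({i // C.delta i = 0} ⊕ Fin n) := by
    simp only [Fintype.card_sum, Fintype.card_fin] at h5 ⊢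
    simp only [ne_eq] at h2
    omega
  let q0 : ∀ i, Q i := fun i => Classical.arbitrary _
  have hm : ∀ (i : {i // C.delta i = 0}) (q : Q i.1),
      S.e i.1 q - S.e i.1 (q0 i.1) ∈ C.ker univ := fun i q j _ => by
    have e1 := C.aa_eq j i.1 q
    have e2 := C.aa_eq j i.1 (q0 i.1)
    rw [C.aa_zero i.2] at e1 e2
    rw [map_sub]; omega
  refine ⟨by omega, ⟨{
    e := fun i q => ⟨_, hm i q⟩
    c := fun i q => S.c i.1 q
    χ := S.χ.compAddMonoidHom (C.ker univ).subtype.toAddMonoidHom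
    gen := ?_
    rel := fun i => S.rel' i.1 _
    nd := ?_
    b := (Module.finBasisOfFinrankEq ℤ _ h8).reindex (Fintype.equivFin _).symm
    D := S.D }, rfl⟩⟩
  · rw [← h1, L0]
    congr 1
    ext y
    constructor
    · rintro ⟨m, rfl⟩; exact ⟨m, m.2, rfl⟩
    · rintro ⟨m, hm, rfl⟩; exact ⟨⟨m, hm⟩, rfl⟩
  · intro P q1 hq1 α hα
    obtain ⟨q2, hq2, -⟩ := S.exists_q0 P
    let q3 : ∀ i, Q i := fun i => if h : C.delta i = 0 then q1 ⟨i, h⟩ else q2 i
    have hq3 : ∀ i : {i // C.delta i = 0}, q3 i.1 = q1 i := fun i => dif_pos i.2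
    have he : ∀ (i : {i // C.delta i = 0}) (q : Q i.1),
        ((⟨_, hm i q⟩ - ⟨_, hm i (q1 i)⟩ : C.ker univ) : M) = S.e i.1 q - S.e i.1 (q3 i.1) := by
      intro i q
      rw [hq3]; simp
    have := S.nd P q3 (fun i q => by
        by_cases h : C.delta i = 0
        · rw [← he ⟨i, h⟩]; exact hq1 ⟨i, h⟩ q
        · simp only [q3, dif_neg h]; exact hq2 i q)
      (fun i => if h : C.delta i = 0 then α ⟨i, h⟩ else 0) (fun ψ => by
        refine Eq.trans ?_ (hα (ψ.comp (C.ker univ).subtype.toAddMonoidHom))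
        rw [← Fintype.sum_subtype_add_sum_subtype (fun i => C.delta i = 0),
          sum_eq_zero (s := (univ : Finset {i // ¬ C.delta i = 0}))
          fun i _ => by rw [dif_neg i.2, zero_mul], add_zero]
        refine sum_congr rfl fun i _ => ?_
        rw [dif_pos i.2]
        congr 1
        refine sum_congr rfl fun q _ => ?_
        rw [← he]; rfl)
    funext i
    have h1 := congrFun this i.1
    simpa [i.2] using h1

end Sys

theorem core {k K : Type} [Field k] [CharZero k] [Field K] [Algebra k K] {n : ℕ} (d : ℕ) :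
    ∀ (M : Type) [AddCommGroup M] [Module.Free ℤ M] [Module.Finite ℤ M] (ι : Type) [Fintype ι]
      (Q : ι → Type) [∀ i, Fintype (Q i)] [∀ i, Nonempty (Q i)] (S : Sys k K n M ι Q),
      finrank ℤ M = d → PsefV S.D → EffV S.D := by
  classical
  induction d using Nat.strong_induction_on with
  | _ d ih =>
    intro M _ _ _ ι _ Q _ _ S hd hP
    rcases Nat.eq_zero_or_pos n with rfl | hn
    · exact ⟨1, one_pos, 1, one_ne_zero, fun v _ _ => ⟨Fin.elim0, fun c => c.elim0, by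
        simp [jac]⟩⟩
    rcases dichotomy S.e with ⟨m, u, hm, hu⟩ | ⟨⟨C⟩⟩
    · exact S.eff_of_lp m u hm hu
    · have : Nonempty C.J := ⟨C.j0⟩
      obtain ⟨j, hj⟩ := Finite.exists_min C.lam
      obtain ⟨h1, h2⟩ := S.caseA (C.rebase j) hj (S.caseB (C.rebase j) hn hP)
      obtain ⟨h3, S', hS'⟩ := S.exists_sub (C.rebase j) h1 h2
      rw [← hS'] at hP ⊢
      exact ih _ (hd ▸ h3) _ _ _ S' rfl hP

end Pool.Agent.Lib.MP_813db1_ag
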