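import Pool.Agent.Lib.MP_813db1_ag.SC2

/-! A coordinate on an intermediate cover of genus zero. -/

namespace Pool.Agent.Lib.MP_813db1_ag.PQ

open WithZero Finset Equiv
open scoped IntermediateField

variable {F : Type} [Field F] [Algebra ℂ F] {G : Type} [Group G] [Finite G]
  {ρ : G →* (F ≃ₐ[ℂ] F)} {t : F} {u : Option ℂ → Valuation F Γ} {z : Option ℂ → G}

theorem Bases.lt (hb : Bases ρ t u z) (h : Cov ρ t) (p : Option ℂ) : u p (yy t p) < 1 :=
  hb.val p ▸ exp_neg_lt (by exact_mod_cast h.ram_pos p)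

theorem Bases.res (hb : Bases ρ t u z) (h : Cov ρ t) (p : Option ℂ) {x : F} (hx : u p x ≤ 1) :
    ∃ c : ℂ, u p (x - algebraMap ℂ F c) < 1 :=
  residue (h.loc p).fixed (hb.triv p) (h.loc p).ne (hb.lt h p) hx

theorem Bases.const (hb : Bases ρ t u z) (h : Cov ρ t) {x : F} (hx : ∀ p g, u p (ρ g x) ≤ 1) :
    ∃ c : ℂ, x = algebraMap ℂ F c := by
  obtain ⟨c, hc⟩ := hb.res h none (x := x) (by simpa using hx none 1)
  exact ⟨c, sub_eq_zero.1 (hb.vanish h (fun p g => by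
    rw [map_sub, AlgEquiv.commutes]
    exact (u p).map_sub_le (hx p g) (hb.triv p c)) hc)⟩

omit [Algebra ℂ F] in
theorem le_exp_of_lt {w : Valuation F Γ} {x : F} {k : ℤ} (h : w x < exp k) : w x ≤ exp (k - 1) := by
  by_cases h0 : x = 0
  · simp [h0]
  · obtain ⟨j, hj⟩ := exists_exp (v := w) h0
    rw [hj, exp_lt_exp] at h
    rw [hj, exp_le_exp]
    omega

variable {Ω : Type} [Fintype Ω] [DecidableEq Ω] [MulAction G Ω]

theorem exists_phi [MulAction.IsPretransitive G Ω] (h : Cov ρ t) (hb : Bases ρ t u z)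
    (h1 : ram t none = 1) (σ0 : Ω) (T : Finset (Option ℂ)) (hT : ∀ p, 2 ≤ ram t p → p ∈ T)
    (hg : ∑ p ∈ T, ind (MulAction.toPerm (z p) : Perm Ω) + 2 = 2 * Fintype.card Ω) :
    ∃ Φ : Ω → F, (∀ g σ, ρ g (Φ σ) = Φ (g • σ)) ∧ u none (Φ σ0) = exp 1 ∧
      ∀ p σ, p ≠ none ∨ σ ≠ σ0 → u p (Φ σ) ≤ 1 := by
  obtain ⟨M, d, hM, hM0, h2, h3⟩ := scott h hb Ω T hT
  have hti : u none t = exp 1 := by
    have := hb.val none
    rw [h1, yy, map_inv₀, inv_eq_iff_eq_inv, ← exp_neg] at this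
    simpa using this
  have htq : ∀ q, u (some q) t ≤ 1 := fun q => by
    have := (u _).map_add_le (hb.lt h (some q)).le (hb.triv _ q)
    rwa [yy, sub_add_cancel] at this
  have h4 : ∀ j, d j ≤ 1 := fun j => by
    by_contra h0
    have h5 := card_le_of_zero (Function.update d j 1) (h2.trans' (card_le_card fun i hi => by
      by_cases e : i = j
      · simp [e] at hi
      · simpa [e] using hi))
    rw [sum_update_of_mem (mem_univ _), sdiff_singleton_eq_erase] at h5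
    rw [← add_sum_erase _ d (mem_univ j)] at h3
    omega
  obtain ⟨j0, hj0⟩ : ∃ j0, d j0 = 0 := by
    by_contra h0
    push Not at h0
    have : _ ≤ ∑ j, d j := card_nsmul_le_sum univ d 1 fun j _ => Nat.pos_of_ne_zero (h0 j)
    rw [smul_eq_mul, card_univ] at this
    omega
  have h5 : ∀ σ j, u none (t⁻¹ ^ d j * M σ j) ≤ 1 := fun σ j => by
    rw [map_mul, map_pow, map_inv₀, hti, ← exp_neg, ← exp_nsmul]
    exact (mul_le_mul_right ((hM j).2 none σ) _).trans_eq (by rw [← exp_add]; simp [h1])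
  choose R hR using fun σ j => hb.res h none (h5 σ j)
  obtain ⟨c, hc1, hc2⟩ := Fintype.not_linearIndependent_iff.1 fun h : LinearIndependent ℂ
    fun j (σ : {σ // σ ≠ σ0}) => R σ j => by
    have h6 := h.fintype_card_le_finrank
    have h7 := Fintype.card_subtype_lt (p := fun σ => σ ≠ σ0) (x := σ0) (by simp)
    rw [Module.finrank_fintype_fun_eq_card] at h6
    omega
  let Φ : Ω → F := fun σ => t * ∑ j, algebraMap ℂ F (c j) * (t⁻¹ ^ d j * M σ j)
  have h6 : ∀ g σ, ρ g (Φ σ) = Φ (g • σ) := fun g σ => by simp [Φ, h.self, (hM _).1]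
  have h7 : ∀ p σ, p ≠ none ∨ σ ≠ σ0 → u p (Φ σ) ≤ 1 := by
    rintro (_ | q) σ h0
    · have h8 : ∑ j, c j * R σ j = 0 := by simpa using congrFun hc1 ⟨σ, by simpa using h0⟩
      have h9 : u none (∑ j, algebraMap ℂ F (c j) * (t⁻¹ ^ d j * M σ j -
          algebraMap ℂ F (R σ j))) < exp 0 := (u _).map_sum_lt one_ne_zero fun j _ => by
        rw [map_mul]
        exact mul_lt_one_of_nonneg_of_lt_one_right (hb.triv _ _) zero_le (hR σ j)
      simp only [mul_sub, sum_sub_distrib, ← map_mul, ← map_sum, h8, map_zero, sub_zero] at h9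
      rw [map_mul, hti]
      exact (mul_le_mul_right (le_exp_of_lt h9) _).trans_eq (by rw [← exp_add]; simp)
    · simp only [Φ, mul_sum]
      refine (u _).map_sum_le fun j _ => ?_
      rw [mul_left_comm, ← mul_assoc t, map_mul, map_mul]
      refine mul_le_one' (hb.triv _ _) (mul_le_one' ?_ ((hM j).2 _ σ))
      rcases Nat.le_one_iff_eq_zero_or_eq_one.1 (h4 j) with h8 | h8 <;> simp [h8, htq, h.ne]
  refine ⟨Φ, h6, le_antisymm ?_ (not_lt.1 fun h8 => ?_), h7⟩
  · rw [map_mul, hti]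
    exact mul_le_of_le_one_right' ((u _).map_sum_le fun j _ => by
      rw [map_mul]; exact mul_le_one' (hb.triv _ _) (h5 σ0 j))
  have h9 : ∀ Ψ : Ω → F, (∀ g σ, ρ g (Ψ σ) = Ψ (g • σ)) → (∀ p σ, u p (Ψ σ) ≤ 1) →
      ∃ k : ℂ, ∀ σ, Ψ σ = algebraMap ℂ F k := fun Ψ h10 h11 => by
    obtain ⟨k, hk⟩ := hb.const h (x := Ψ σ0) fun p g => h10 g σ0 ▸ h11 p _
    refine ⟨k, fun σ => ?_⟩
    obtain ⟨g, rfl⟩ := MulAction.exists_smul_eq G σ0 σ
    rw [← h10, hk, AlgEquiv.commutes]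
  obtain ⟨k, hk⟩ := h9 Φ h6 fun p σ => by
    by_cases h0 : p ≠ none ∨ σ ≠ σ0
    · exact h7 p σ h0
    · push Not at h0
      simpa [h0] using le_exp_of_lt h8
  obtain ⟨k0, hk0⟩ := h9 (M · j0) (hM j0).1 fun p σ => ((hM j0).2 p σ).trans_eq (by
    cases p <;> simp [hj0])
  have h10 : k0 ≠ 0 := fun h0 => hM0 (Matrix.det_eq_zero_of_column_eq_zero j0 fun σ => by
    rw [hk0, h0, map_zero])
  have h11 := Matrix.eq_zero_of_mulVec_eq_zero hM0 (v := (fun j => t * algebraMap ℂ F (c j) *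
    t⁻¹ ^ d j) - Pi.single j0 (algebraMap ℂ F (k / k0))) (funext fun σ => by
      rw [Matrix.mulVec_sub, Matrix.mulVec_single, Pi.sub_apply, Pi.zero_apply, sub_eq_zero]
      refine (Eq.trans ?_ (hk σ)).trans ?_
      · simp only [Φ, mul_sum, Matrix.mulVec, dotProduct]
        exact sum_congr rfl fun j _ => by ring
      · simp [hk0, mul_left_comm _ (algebraMap ℂ F k), h10])
  obtain ⟨j, hj⟩ := hc2
  have h12 := congrFun h11 j
  by_cases e : j = j0
  · subst e
    simp only [Pi.sub_apply, Pi.single_eq_same, hj0, pow_zero, mul_one, Pi.zero_apply] at h12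
    refine sub_ne h.tr (k / k0 / c j) ?_
    rw [map_div₀, ← sub_eq_zero.1 h12, mul_div_cancel_right₀ _ ((map_ne_zero _).2 hj), sub_self]
  · simp [e, h.ne, hj] at h12

variable {Φ : Ω → F} {σ0 : Ω}

theorem phi_deg [MulAction.IsPretransitive G Ω] (h : Cov ρ t) (hb : Bases ρ t u z)
    (h1 : ram t none = 1) (h2 : ∀ g σ, ρ g (Φ σ) = Φ (g • σ)) (h3 : u none (Φ σ0) = exp 1)
    (h4 : ∀ p σ, p ≠ none ∨ σ ≠ σ0 → u p (Φ σ) ≤ 1) (c : ℂ) : ∃ O : Option ℂ → Ω → ℤ,
      (∀ p σ, u p (Φ σ - algebraMap ℂ F c) = exp (-O p σ)) ∧ O none σ0 = -1 ∧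
      (∀ p σ, p ≠ none ∨ σ ≠ σ0 → 0 ≤ O p σ) ∧ (∀ q, ∑ σ, O (some q) σ ≤ ram t (some q)) ∧
      ∀ σ1, 0 < O none σ1 → O none σ1 = 1 ∧
        ∀ p σ, p ≠ none ∨ σ ≠ σ0 ∧ σ ≠ σ1 → O p σ = 0 := by
  classical
  have h5 : u none (Φ σ0 - algebraMap ℂ F c) = exp 1 := by
    rw [← h3]
    refine (u _).map_sub_eq_of_lt_left ((hb.triv _ c).trans_lt ?_)
    rw [h3, ← exp_zero, exp_lt_exp]; norm_num
  have h6 : ∀ σ, Φ σ - algebraMap ℂ F c ≠ 0 := fun σ => by
    obtain ⟨g, rfl⟩ := MulAction.exists_smul_eq G σ0 σ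
    rw [← h2, ← (ρ g).commutes, ← map_sub]
    exact (map_ne_zero _).2 (ne_zero_of_exp h5)
  choose O hO using fun p σ => exists_ord (w := u p) (h6 σ)
  have h7 : O none σ0 = -1 := by
    rw [hO, exp_inj] at h5
    omega
  have h8 : ∀ p σ, p ≠ none ∨ σ ≠ σ0 → 0 ≤ O p σ := fun p σ h0 => by
    have := (u p).map_sub_le (h4 p σ h0) (hb.triv p c)
    rwa [hO, ← exp_zero, exp_le_exp, neg_nonpos] at this
  obtain ⟨S, X, h9, h10, h11⟩ := deg_zero h.tr ((h.fix (∏ σ, (Φ σ - algebraMap ℂ F c))).2 fun g => by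
    rw [map_prod]
    exact Fintype.prod_equiv (MulAction.toPerm g) _ _ fun σ => by simp [h2])
    (prod_ne_zero_iff.2 fun σ _ => h6 σ)
  have he : ∀ p, (0 : ℤ) < ram t p := fun p => by exact_mod_cast h.ram_pos p
  have h12 : ∀ p, ∑ σ, O p σ = ram t p * X p := fun p => by
    have := h11 _ (hb.triv p) p _ (he p) (hb.val p)
    simp only [map_prod, hO, prod_exp, exp_inj, sum_neg_distrib] at this
    omega
  have h13 : ∀ q, 0 ≤ X (some q) := fun q => nonneg_of_mul_nonneg_right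
    (h12 _ ▸ sum_nonneg fun σ _ => h8 _ σ (Or.inl (by simp))) (he _) |> fun h => h
  have h14 : ∀ q, X (some q) ≤ -X none := fun q => by
    have h15 : ∑ p ∈ insert none (insert (some q) S), X p = 0 := by
      rw [← h10]
      exact (sum_subset ((subset_insert _ _).trans (subset_insert _ _)) fun p _ => h9 p).symm
    rw [← add_sum_erase _ _ (mem_insert_self _ _)] at h15
    have := single_le_sum (f := X) (s := (insert none (insert (some q) S)).erase none)
      (fun p hp => by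
        rcases p with _ | q'
        · simp at hp
        · exact h13 q') (a := some q) (by simp)
    omega
  have h15 := h12 none
  rw [h1, ← add_sum_erase _ _ (mem_univ σ0), h7] at h15
  have h16 : ∀ σ ∈ univ.erase σ0, 0 ≤ O none σ := fun σ hσ => h8 _ σ (Or.inr (ne_of_mem_erase hσ))
  have h17 := sum_nonneg h16
  refine ⟨O, hO, h7, h8, fun q => ?_, fun σ1 h18 => ?_⟩
  · rw [h12]
    exact mul_le_of_le_one_right (he _).le (by have := h14 q; omega)
  · have h19 : σ1 ∈ univ.erase σ0 := by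
      rw [mem_erase]
      exact ⟨by rintro rfl; omega, mem_univ _⟩
    rw [← add_sum_erase _ _ h19] at h15
    have h20 : ∀ σ ∈ (univ.erase σ0).erase σ1, 0 ≤ O none σ := fun σ hσ =>
      h16 σ (mem_of_mem_erase hσ)
    have h21 := sum_nonneg h20
    have h22 := h13 0
    have h23 := h14 0
    refine ⟨by omega, ?_⟩
    rintro (_ | q) σ h24
    · exact (sum_eq_zero_iff_of_nonneg h20).1 (by omega) σ (by simpa [and_comm] using h24)
    · refine (sum_eq_zero_iff_of_nonneg fun σ _ => h8 _ σ (Or.inl (by simp))).1 ?_ σ (mem_univ _)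
      have := h13 q
      have := h14 q
      rw [h12, show X (some q) = 0 by omega, mul_zero]

end Pool.Agent.Lib.MP_813db1_ag.PQ
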