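import Pool.Agent.Lib.MP_813db1_ag.DS1

/-! Vector fields on an intermediate cover of genus zero. -/

namespace Pool.Agent.Lib.MP_813db1_ag.PQ

open WithZero Finset Equiv
open scoped IntermediateField

variable {F : Type} [Field F] [Algebra ℂ F] {G : Type} [Group G] [Finite G]
  {ρ : G →* (F ≃ₐ[ℂ] F)} {t : F} {u : Option ℂ → Valuation F Γ} {z : Option ℂ → G}

theorem Cov.der_comm (h : Cov ρ t) {δ : Derivation ℂ F F} (hδ : δ t = 1) (g : G) (x : F) :
    ρ g (δ x) = δ (ρ g x) := by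
  let δ' : Derivation ℂ F F := Derivation.mk'
    ((ρ g).symm.toLinearMap ∘ₗ (δ : F →ₗ[ℂ] F) ∘ₗ (ρ g).toLinearMap) fun a b => by simp
  have h0 : ∀ y, δ' y = (ρ g).symm (δ (ρ g y)) := fun _ => rfl
  have h1 := der_zero (δ' - δ) {t} (by
    rintro _ rfl
    simp [h0, h.self, hδ]) (alg_of h.fixed x)
  rw [Derivation.sub_apply, sub_eq_zero] at h1
  rw [← h1, h0, AlgEquiv.apply_symm_apply]

theorem Bases.dval (hb : Bases ρ t u z) (h : Cov ρ t) {δ : Derivation ℂ F F} (hδ : δ t = 1)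
    (p : Option ℂ) {x : F} {k : ℤ} (hk : 0 < k) (hx : u p x = exp (-k)) :
    u p (δ x) = exp (p.elim (-(ram t p : ℤ)) (fun _ => ram t p) - k) := by
  obtain ⟨π0, h1, h2, h3⟩ := local_curve (h.loc p).fixed (hb.surj p) (hb.triv p) (h.ram_pos p)
    (hb.val p) δ
  have h4 : u p (δ π0) = exp (p.elim (-(ram t p : ℤ)) (fun _ => ram t p) - 1) := by
    rw [h2]
    rcases p with _ | q
    · rw [show δ (yy t none) = -(yy t none ^ 2) by rw [yy, Derivation.leibniz_inv, hδ]; simp,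
        Valuation.map_neg, map_pow, hb.val, ← exp_nsmul, ← exp_add]
      congr 1
      simp
      ring
    · simp [yy, hδ]
  obtain ⟨π, hπ⟩ := hb.surj p (exp (-1))
  have hπ0 := ne_zero_of_exp hπ
  have h5 : ∀ y, u p y ≤ 1 → u p (π * δ y) < u p (δ π0) := fun y hy => by
    rw [map_mul, hπ]
    exact (mul_le_mul_right (h3 y hy) _).trans_lt (mul_lt_of_lt_one_left
      (h4 ▸ zero_lt_iff.2 exp_ne_zero) (exp_neg_lt one_pos))
  have h6 : u p (δ π) = u p (δ π0) := by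
    refine le_antisymm (h3 π (hπ ▸ (exp_neg_lt one_pos).le)) (not_lt.1 fun h0 => ?_)
    obtain ⟨c, hc⟩ := hb.res h p h1
    have h7 : u p ((π0 - algebraMap ℂ F c) / π) ≤ 1 := by
      rw [map_div₀, hπ]
      exact div_le_one_of_le₀ (by simpa using le_exp_of_lt (k := 0) hc) zero_le
    have h8 : δ π0 = δ (π * ((π0 - algebraMap ℂ F c) / π)) := by
      rw [mul_div_cancel₀ _ hπ0]; simp
    rw [Derivation.leibniz] at h8
    refine ((u p).map_add_lt (h5 _ h7) ?_).ne (congrArg _ h8.symm)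
    rw [smul_eq_mul, map_mul]
    exact (mul_le_of_le_one_left' h7).trans_lt h0
  obtain ⟨n, rfl⟩ : ∃ n : ℕ, k = n + 1 := ⟨(k - 1).toNat, by omega⟩
  have h7 : ∀ j : ℕ, u p (π ^ j) = exp (-(j : ℤ)) := fun j => by
    rw [map_pow, hπ, ← exp_nsmul]; simp
  have h8 : u p (x / π ^ (n + 1)) = 1 := by
    rw [map_div₀, h7, hx]
    exact div_self exp_ne_zero
  have h9 : δ x = π ^ n * (π * δ (x / π ^ (n + 1)) + x / π ^ (n + 1) * ((n + 1 : ℕ) * δ π)) := by
    conv_lhs => rw [← mul_div_cancel₀ x (pow_ne_zero (n + 1) hπ0)]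
    rw [Derivation.leibniz, Derivation.leibniz_pow]
    simp only [smul_eq_mul, nsmul_eq_mul, Nat.add_sub_cancel]
    ring
  have h10 : u p (x / π ^ (n + 1) * ((n + 1 : ℕ) * δ π)) = u p (δ π0) := by
    rw [map_mul, map_mul, h8, (hb.triv p).natCast n.succ_ne_zero, h6, one_mul, one_mul]
  rw [h9, map_mul, (u p).map_add_eq_of_lt_right (h10 ▸ h5 _ h8.le), h10, h7, h4, ← exp_add]
  congr 1
  ring

variable {N : Subgroup G} [N.Normal] [Fintype (G ⧸ N)] [DecidableEq (G ⧸ N)] {Φ : G ⧸ N → F}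

omit [Finite G] [Fintype (G ⧸ N)] [DecidableEq (G ⧸ N)] in
theorem smul_quot (g : G) (σ : G ⧸ N) : g • σ = (g : G ⧸ N) * σ := by
  induction σ using QuotientGroup.induction_on
  rfl

theorem theta_val (h : Cov ρ t) (hb : Bases ρ t u z) (h1 : ram t none = 1)
    (h2 : ∀ g σ, ρ g (Φ σ) = Φ (g • σ)) (h3 : u none (Φ 1) = exp 1)
    (h4 : ∀ p σ, p ≠ none ∨ σ ≠ 1 → u p (Φ σ) ≤ 1) {δ : Derivation ℂ F F} (hδ : δ t = 1)
    (σ : G ⧸ N) {i : ℕ} (hi : i ≤ 2) : u none (Φ σ ^ i / δ (Φ σ)) ≤ exp 2 ∧ ∀ q,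
      u (some q) (Φ σ ^ i / δ (Φ σ)) ^ orderOf (z (some q) : G ⧸ N) ≤
        u (some q) (yy t (some q)) ^ (orderOf (z (some q) : G ⧸ N) - 1) := by
  have h5 : ∀ p, p ≠ none ∨ σ ≠ 1 → ∃ k : ℤ, u p (Φ σ ^ i / δ (Φ σ)) ≤
      exp (k - p.elim (-(ram t p : ℤ)) fun _ => ram t p) ∧ (p = none → k = 1) ∧
      (p ≠ none → orderOf (z p : G ⧸ N) * k ≤ ram t p) := fun p hp => by
    obtain ⟨c, hc⟩ := hb.res h p (h4 p σ hp)
    obtain ⟨O, h5, h6, h7, h8, h9⟩ := phi_deg h hb h1 h2 h3 h4 c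
    have h10 : 0 < O p σ := by
      rw [h5, ← exp_zero, exp_lt_exp] at hc
      omega
    have h11 := hb.dval h hδ p h10 (h5 p σ)
    rw [map_sub, Derivation.map_algebraMap, sub_zero] at h11
    refine ⟨O p σ, ?_, ?_, fun h12 => ?_⟩
    · rw [map_div₀, h11, map_pow, div_eq_mul_inv, ← exp_neg, neg_sub]
      exact mul_le_of_le_one_left' (pow_le_one' (h4 p σ hp) _)
    · rintro rfl
      exact (h9 σ h10).1
    · obtain ⟨q, rfl⟩ := Option.ne_none_iff_exists'.1 h12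
      refine le_trans ?_ ((sum_le_sum_of_subset_of_nonneg (subset_univ ((range (orderOf
        (z (some q) : G ⧸ N))).image fun n => z (some q) ^ n • σ)) fun τ _ _ =>
          h7 _ τ (Or.inl h12)).trans (h8 q))
      rw [sum_image fun a ha b hb' hab => ?_, sum_congr rfl (g := fun _ => O (some q) σ)
        fun n _ => ?_]
      · simp
      · have h13 := ((hb.rot (some q)).pow (hb.triv _) (zt_ne _ _) n).map_eq (hb.triv _)
          (pow_ne_zero _ (zt_ne _ _)) (Φ σ - algebraMap ℂ F c)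
        rw [map_sub, h2, AlgEquiv.commutes, h5, h5, exp_inj] at h13
        omega
      · simp only [smul_quot, mul_left_inj, QuotientGroup.mk_pow] at hab
        exact pow_injOn_Iio_orderOf (by simpa using ha) (by simpa using hb') hab
  refine ⟨?_, fun q => ?_⟩
  · by_cases h6 : σ = 1
    · subst h6
      have h7 := hb.dval h hδ none (x := (Φ 1)⁻¹) one_pos (by rw [map_inv₀, h3, exp_neg])
      rw [Derivation.leibniz_inv, smul_eq_mul, map_mul, Valuation.map_neg, map_pow, map_inv₀, h3,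
        h1, ← exp_neg, ← exp_nsmul, ← eq_inv_mul_iff_mul_eq₀ exp_ne_zero, ← exp_neg,
        ← exp_add] at h7
      rw [map_div₀, h7, map_pow, h3, ← exp_nsmul, ← exp_sub, exp_le_exp]
      simpa using hi
    · obtain ⟨k, h7, h8, -⟩ := h5 none (Or.inr h6)
      simpa [h8, h1] using h7
  · obtain ⟨k, h6, -, h7⟩ := h5 (some q) (Or.inl (by simp))
    refine (pow_le_pow_left' h6 _).trans ?_
    rw [hb.val, ← exp_nsmul, ← exp_nsmul, exp_le_exp, nsmul_eq_mul, nsmul_eq_mul,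
      Nat.cast_sub (orderOf_pos _)]
    have := h7 (by simp)
    simp only [Option.elim]
    push_cast
    linarith

theorem phi_mob (h : Cov ρ t) (hb : Bases ρ t u z) (h1 : ram t none = 1)
    (h2 : ∀ g σ, ρ g (Φ σ) = Φ (g • σ)) (h3 : u none (Φ 1) = exp 1)
    (h4 : ∀ p σ, p ≠ none ∨ σ ≠ 1 → u p (Φ σ) ≤ 1) {g : G} (hg : (g : G ⧸ N) ≠ 1) :
    ∃ b c l : ℂ, l ≠ 0 ∧ Φ 1 - algebraMap ℂ F c ≠ 0 ∧
      ρ g (Φ 1) = algebraMap ℂ F b + algebraMap ℂ F l / (Φ 1 - algebraMap ℂ F c) := by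
  obtain ⟨c, hc⟩ := hb.res h none (h4 none (g : G ⧸ N)⁻¹ (Or.inr (inv_ne_one.2 hg)))
  obtain ⟨O, h5, h6, h7, -, h9⟩ := phi_deg h hb h1 h2 h3 h4 c
  obtain ⟨h10, h11⟩ := h9 (g : G ⧸ N)⁻¹ (by
    rw [h5, ← exp_zero, exp_lt_exp] at hc
    omega)
  have h12 : u none (Φ 1 * (Φ (g : G ⧸ N)⁻¹ - algebraMap ℂ F c)) = 1 := by
    rw [map_mul, h3, h5, h10, ← exp_add]; simp
  obtain ⟨l, hl⟩ := hb.res h none h12.le
  obtain ⟨b, hb'⟩ := hb.const h (x := ρ g (Φ 1) - algebraMap ℂ F l / (Φ 1 - algebraMap ℂ F c))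
    fun p k => by
      simp only [map_sub, map_div₀, h2, AlgEquiv.commutes, smul_quot, mul_one]
      by_cases h13 : p = none ∧ (k : G ⧸ N) = (g : G ⧸ N)⁻¹
      · rw [h13.1, h13.2, inv_mul_cancel, ← mul_div_cancel_right₀ (Φ 1) (ne_zero_of_exp (h5 none
          (g : G ⧸ N)⁻¹)), ← sub_div, map_div₀, h5, h10]
        exact div_le_one_of_le₀ (by simpa using le_exp_of_lt (k := 0) hl) zero_le
      · refine (u p).map_sub_le (h4 _ _ ?_) ?_
        · rwa [Ne, Ne, mul_eq_one_iff_eq_inv, ← not_and_or]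
        · rw [map_div₀, h5, div_eq_mul_inv, ← exp_neg, neg_neg, ← exp_zero]
          refine (mul_le_of_le_one_left' (hb.triv _ _)).trans (exp_le_exp.2 ?_)
          by_cases h14 : p = none ∧ (k : G ⧸ N) = 1
          · rw [h14.1, h14.2, h6]; norm_num
          · exact (h11 p _ (by tauto)).le
  refine ⟨b, c, l, ?_, ne_zero_of_exp (h5 none 1), sub_eq_iff_eq_add.1 hb'⟩
  rintro rfl
  simp [h12] at hl

end Pool.Agent.Lib.MP_813db1_ag.PQ
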