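import Pool.Agent.Lib.MP_813db1_ag.SC1

/-! Groups with three elements satisfying the genus inequalities of a `(2, 3, e)` cover. -/

namespace Pool.Agent.Lib.MP_813db1_ag.PQ

open Finset Equiv Subgroup

section

variable {Ω : Type} [Fintype Ω] [DecidableEq Ω]

theorem ind_two (P : Perm Ω) (h : P ^ 2 = 1) : 2 * ind P ≤ Fintype.card Ω := by
  rw [ind_eq P h]
  simpa [sum_range_succ] using card_le_univ P.support

theorem ind_three (P : Perm Ω) (h : P ^ 3 = 1) : ind P ≤ 2 * (Fintype.card Ω / 3) := by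
  have h1 := ind_eq P h
  have h2 : P ^ 2 = P⁻¹ := eq_inv_of_mul_eq_one_left (by rw [← pow_succ, h])
  have h3 := card_le_univ P.support
  simp only [sum_range_succ, range_zero, sum_empty, pow_zero, pow_one, h2, Perm.support_inv,
    Perm.support_one, card_empty] at h1
  omega

end

variable {G : Type} [Group G]

theorem ind_normal (H : Subgroup G) [H.Normal] [Fintype (G ⧸ H)] [DecidableEq (G ⧸ H)] (g : G) :
    orderOf (g : G ⧸ H) * ind (MulAction.toPermHom G (G ⧸ H) g) + H.index =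
      orderOf (g : G ⧸ H) * H.index := by
  have h1 : ∀ (i : ℕ) (σ : G ⧸ H), (MulAction.toPermHom G (G ⧸ H) g ^ i) σ = (g : G ⧸ H) ^ i * σ :=
    fun i σ => by
      rw [← map_pow, ← QuotientGroup.mk_pow]
      induction σ using QuotientGroup.induction_on
      rfl
  have h2 := sum_ite_dvd (dvd_refl (orderOf (g : G ⧸ H))) H.index
  rw [Nat.div_self (orderOf_pos _), one_mul] at h2
  rw [ind_eq _ (Perm.ext fun σ => by rw [h1, pow_orderOf_eq_one, one_mul, Perm.one_apply]), ← h2]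
  congr 1
  refine sum_congr rfl fun i _ => ?_
  split_ifs with h
  · rw [card_eq_zero, Perm.support_eq_empty_iff]
    exact Perm.ext fun σ => by rw [h1, orderOf_dvd_iff_pow_eq_one.1 h, one_mul, Perm.one_apply]
  · rw [index_eq_card, Nat.card_eq_fintype_card, ← card_univ]
    refine congrArg _ (eq_univ_of_forall fun σ => ?_)
    rw [Perm.mem_support, h1, Ne, mul_eq_right]
    exact mt orderOf_dvd_iff_pow_eq_one.2 h

/-- The genus of every intermediate cover is a non-negative integer. -/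
def SC (x y z : G) : Prop :=
  ∀ (H : Subgroup G) [Fintype (G ⧸ H)] [DecidableEq (G ⧸ H)], ∃ d, H.index ≤ d + 1 ∧
    ind (MulAction.toPermHom G (G ⧸ H) x) + ind (MulAction.toPermHom G (G ⧸ H) y) +
      ind (MulAction.toPermHom G (G ⧸ H) z) = 2 * d

variable [Finite G] {x y z : G}

theorem SC.normal (h : SC x y z) (hx : x ^ 2 = 1) (hy : y ^ 3 = 1) (H : Subgroup G) [H.Normal] :
    ∃ d a b c, H.index ≤ d + 1 ∧ a + b + c = 2 * d ∧
      (x ∈ H ∧ a = 0 ∨ orderOf (x : G ⧸ H) = 2 ∧ 2 * a = H.index) ∧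
      (y ∈ H ∧ b = 0 ∨ orderOf (y : G ⧸ H) = 3 ∧ 3 * b = 2 * H.index) ∧
      orderOf (z : G ⧸ H) * c + H.index = orderOf (z : G ⧸ H) * H.index := by
  classical
  have := Fintype.ofFinite (G ⧸ H)
  obtain ⟨d, h1, h2⟩ := h H
  have h3 : ∀ (g : G) (p : ℕ), p.Prime → g ^ p = 1 →
      g ∈ H ∧ ind (MulAction.toPermHom G (G ⧸ H) g) = 0 ∨ orderOf (g : G ⧸ H) = p ∧
        p * ind (MulAction.toPermHom G (G ⧸ H) g) + H.index = p * H.index := fun g p hp hg => by
    have h4 := ind_normal H g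
    rcases (Nat.dvd_prime hp).1 (orderOf_dvd_of_pow_eq_one (x := (g : G ⧸ H))
      (by rw [← QuotientGroup.mk_pow, hg, QuotientGroup.mk_one])) with h5 | h5
    · rw [h5] at h4
      exact Or.inl ⟨(QuotientGroup.eq_one_iff g).1 (orderOf_eq_one_iff.1 h5), by omega⟩
    · exact Or.inr ⟨h5, h5 ▸ h4⟩
  refine ⟨d, _, _, _, h1, h2, (h3 x 2 Nat.prime_two hx).imp_right fun h => ⟨h.1, by omega⟩,
    (h3 y 3 Nat.prime_three hy).imp_right fun h => ⟨h.1, by omega⟩, ind_normal H z⟩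

theorem SC.top_z (h : SC x y z) (hx : x ^ 2 = 1) (hy : y ^ 3 = 1) (H : Subgroup G) [H.Normal]
    (hz : z ∈ H) : H = ⊤ := by
  obtain ⟨d, a, b, c, h1, h2, h3, h4, h5⟩ := h.normal hx hy H
  rw [(QuotientGroup.eq_one_iff z).2 hz, orderOf_one] at h5
  have := H.index_ne_zero_of_finite
  rw [← index_eq_one]
  omega

theorem SC.pow_index (h : SC x y z) (hx : x ^ 2 = 1) (hy : y ^ 3 = 1) {k : ℕ}
    (hk : 6 ∣ (center G).index * k) : orderOf z ∣ (center G).index * k := by
  let f : G →* center G :=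
    { toFun := fun g => MonoidHom.transferCenterPow G g ^ k
      map_one' := by simp
      map_mul' := fun a b => by rw [map_mul, Commute.mul_pow (mul_comm' _ _)] }
  have h0 : ∀ g, g ∈ f.ker ↔ orderOf g ∣ (center G).index * k := fun g => by
    rw [orderOf_dvd_iff_pow_eq_one, pow_mul, MonoidHom.mem_ker, Subtype.ext_iff]
    rfl
  obtain ⟨d, a, b, c, h1, h2, h3, h4, h5⟩ := h.normal hx hy f.ker
  have h6 := (QuotientGroup.eq_one_iff x).2 ((h0 x).2
    ((orderOf_dvd_of_pow_eq_one hx).trans (by omega)))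
  have h7 := (QuotientGroup.eq_one_iff y).2 ((h0 y).2
    ((orderOf_dvd_of_pow_eq_one hy).trans (by omega)))
  rw [h6, orderOf_one] at h3
  rw [h7, orderOf_one] at h4
  have h8 := f.ker.index_ne_zero_of_finite
  have h9 : c < f.ker.index := lt_of_mul_lt_mul_left (a := orderOf (z : G ⧸ f.ker)) (by omega)
    (Nat.zero_le _)
  rw [← h0, index_eq_one.1 (by omega : f.ker.index = 1)]
  trivial

theorem SC.ker (h : SC x y z) (hx : x ^ 2 = 1) (hy : y ^ 3 = 1) :
    (MulAction.toPermHom G (G ⧸ centralizer {z})).ker = center G := by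
  rw [← normalCore_eq_ker]
  refine le_antisymm (centralizer_eq_top_iff_subset.1 (h.top_z hx hy _ fun g hg => ?_))
    (normal_le_normalCore.2 (center_le_centralizer _))
  exact (mem_centralizer_singleton_iff.1 (normalCore_le _ hg))

/-- The numerical constraints on a small centraliser index. -/
def Chk (I : ℕ) (c : Multiset ℕ) : Prop :=
  c.sum < I → 2 * I ≤ c.sum - c.card + I / 2 + 2 * (I / 3) + 2 →
    (I ≤ 9 ∨ I ≤ 11 ∧ c.lcm ∣ 8 ∨ c.lcm = 7) → ∀ h ∈ Nat.divisors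
      ((I - c.sum).factorial * c.prod * ∏ n ∈ c.toFinset, (c.count n).factorial), c.lcm ∣ h →
      6 ∣ h * I → 7 ≤ h * I → h * I / c.lcm ≤ h * I / 6 + 2 →
      (h * I / 6 + h * I / c.lcm) % 2 = 0 → (I, h * I, c.lcm) ∈
        [(4, 12, 3), (6, 24, 4), (6, 36, 6), (7, 42, 6), (9, 54, 6), (9, 108, 6)]

set_option synthInstance.maxSize 2000 in
instance (I : ℕ) (c : Multiset ℕ) : Decidable (Chk I c) := by
  unfold Chk
  infer_instance

theorem chk : ∀ I ∈ range 19, ∀ a ∈ Icc 2 17, Chk I {a} ∧ ∀ b ∈ Icc 2 17, Chk I {a, b} := by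
  decide +kernel

theorem lcm_le (c : Multiset ℕ) (h1 : ∀ a ∈ c, 2 ≤ a) (h2 : c.sum ≤ 6) : c.lcm ≤ 6 := by
  have h3 : ∀ a ∈ Icc 2 6, ∀ b ∈ Icc 2 6, (a + b ≤ 6 → ({a, b} : Multiset ℕ).lcm ≤ 6) ∧
      ∀ d ∈ Icc 2 6, a + (b + d) ≤ 6 → ({a, b, d} : Multiset ℕ).lcm ≤ 6 := by decide +kernel
  have h4 : ∀ a ∈ c, a ∈ Icc 2 6 := fun a ha =>
    mem_Icc.2 ⟨h1 a ha, (Multiset.single_le_sum (fun _ _ => Nat.zero_le _) a ha).trans h2⟩
  have h5 := Multiset.card_nsmul_le_sum h1
  rw [smul_eq_mul] at h5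
  rcases (by omega : c.card = 0 ∨ c.card = 1 ∨ c.card = 2 ∨ c.card = 3) with h | h | h | h
  · simp [Multiset.card_eq_zero.1 h]
  · obtain ⟨a, rfl⟩ := Multiset.card_eq_one.1 h
    simpa using h2
  · obtain ⟨a, b, rfl⟩ := Multiset.card_eq_two.1 h
    exact (h3 a (h4 a (by simp)) b (h4 b (by simp))).1 (by simpa using h2)
  · obtain ⟨a, b, d, rfl⟩ := Multiset.card_eq_three.1 h
    exact (h3 a (h4 a (by simp)) b (h4 b (by simp))).2 d (h4 d (by simp)) (by simpa using h2)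

theorem small {I H : ℕ} (C : Multiset ℕ) (h1 : ∀ a ∈ C, 2 ≤ a) (h2 : C.sum < I)
    (h3 : 2 * I ≤ C.sum - C.card + I / 2 + 2 * (I / 3) + 2)
    (h4 : I ≤ 9 ∨ I ≤ 11 ∧ C.lcm ∣ 8 ∨ I ≤ 18 ∧ C.lcm = 7)
    (h5 : H ∣ (I - C.sum).factorial * C.prod * ∏ n ∈ C.toFinset, (C.count n).factorial)
    (h6 : C.lcm ∣ H) (h7 : 6 ∣ H * I) (h8 : 7 ≤ H * I) (h9 : H * I / C.lcm ≤ H * I / 6 + 2)
    (h10 : (H * I / 6 + H * I / C.lcm) % 2 = 0) (h11 : C.lcm ≠ 1) : (I, H * I, C.lcm) ∈
      [(4, 12, 3), (6, 24, 4), (6, 36, 6), (7, 42, 6), (9, 54, 6), (9, 108, 6)] := by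
  have h12 : I ≤ 18 := by omega
  refine (?_ : Chk I C) h2 h3 (h4.imp_right (Or.imp_right And.right)) H (Nat.mem_divisors.2 ⟨h5,
    mul_ne_zero (mul_ne_zero (Nat.factorial_ne_zero _) (Multiset.prod_ne_zero fun h0 => by
      simpa using h1 0 h0)) (prod_ne_zero_iff.2 fun _ _ => Nat.factorial_ne_zero _)⟩) h6 h7 h8 h9 h10
  clear h5 h6 h7 h8 h9 h10
  have h13 : ∀ a ∈ C, a ∈ Icc 2 17 := fun a ha => mem_Icc.2 ⟨h1 a ha, by
    have := Multiset.single_le_sum (fun _ _ => Nat.zero_le _) a ha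
    omega⟩
  have h14 : C.card ≤ 2 := by
    have h15 : C.card * 2 ≤ C.sum := Multiset.card_nsmul_le_sum h1
    rcases h4 with h | h | h
    · omega
    · omega
    · have h16 : C.card * 7 ≤ C.sum := Multiset.card_nsmul_le_sum fun a ha =>
        (((Nat.dvd_prime (by norm_num)).1 (h.2 ▸ Multiset.dvd_lcm ha)).resolve_left
          (by have := h1 a ha; omega)).ge
      omega
  rcases (by omega : C.card = 0 ∨ C.card = 1 ∨ C.card = 2) with h | h | h
  · simp [Multiset.card_eq_zero.1 h] at h11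
  · obtain ⟨a, rfl⟩ := Multiset.card_eq_one.1 h
    exact (chk I (mem_range.2 (by omega)) a (h13 a (by simp))).1
  · obtain ⟨a, b, rfl⟩ := Multiset.card_eq_two.1 h
    exact (chk I (mem_range.2 (by omega)) a (h13 a (by simp))).2 b (h13 b (by simp))

theorem arith {I m o e k : ℕ} (h1 : I ≤ 9 ∨ I ≤ 11 ∧ o ∣ 8 ∨ I ≤ 18 ∧ o = 7 → (I, m, o) ∈
      [(4, 12, 3), (6, 24, 4), (6, 36, 6), (7, 42, 6), (9, 54, 6), (9, 108, 6)])
    (h2 : m = o * k) (h3 : I ≤ k) (h4 : k ≤ m / 6 + 2) (h5 : (m / 6 + k) % 2 = 0) (h6 : 7 ≤ e)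
    (h7 : o ∣ e) (h8 : e ∣ m) (h9 : o ≠ 1) :
    m = 12 ∧ o = 3 ∧ 4 ≤ I ∧ I ≤ 6 ∧ e = 12 ∨ m = 24 ∧ o = 4 ∧ I = 6 ∨
    m ∈ [36, 42, 54, 108] ∧ o = 6 ∧ 6 ≤ I ∨ m ≠ 12 ∧ m ≠ 24 ∧ 10 ≤ I ∧
      (e = 8 → 12 ≤ I) ∧ (e = 7 → 19 ≤ I) ∧ (m ∈ [36, 42, 54, 108] → o = 6 ∨ o = 9) := by
  by_cases h0 : I ≤ 9 ∨ I ≤ 11 ∧ o ∣ 8 ∨ I ≤ 18 ∧ o = 7
  · have h10 := h1 h0
    simp only [List.mem_cons, Prod.mk.injEq, List.not_mem_nil, or_false] at h10
    rcases h10 with ⟨rfl, rfl, rfl⟩ | ⟨rfl, rfl, rfl⟩ | ⟨rfl, rfl, rfl⟩ | ⟨rfl, rfl, rfl⟩ |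
      ⟨rfl, rfl, rfl⟩ | ⟨rfl, rfl, rfl⟩
    · have := Nat.le_of_dvd (by norm_num) h8
      interval_cases e <;> simp at h8 ⊢
    all_goals simp
  · have h10 : 10 ≤ k := by omega
    have h11 : ∀ m' ∈ [12, 24, 36, 42, 54, 108], m = m' → m' = 108 ∧ (o = 6 ∨ o = 9) := by
      intro m' hm' h12
      simp only [List.mem_cons, List.not_mem_nil, or_false] at hm'
      have h13 : m' ≤ 108 := by omega
      have h14 : o ≤ 10 := by nlinarith
      clear h0 h1 h7 h8
      interval_cases o <;> omega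
    refine Or.inr (Or.inr (Or.inr ⟨fun h => by simpa using h11 12 (by simp) h,
      fun h => by simpa using h11 24 (by simp) h, by omega, ?_, ?_,
      fun h => (h11 m (List.mem_cons_of_mem _ (List.mem_cons_of_mem _ h)) rfl).2⟩))
    · rintro rfl
      by_contra h
      exact h0 (Or.inr (Or.inl ⟨by omega, h7⟩))
    · rintro rfl
      by_contra h
      exact h0 (Or.inr (Or.inr ⟨by omega, ((Nat.dvd_prime (by norm_num)).1 h7).resolve_left h9⟩))

variable (x y z) in
/-- What is used about a `(2, 3, e)` group; `m`, `I`, `o` are the index of the centre, the size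
of the class of `z` and the order of `z` modulo the centre. -/
structure Dat (m I o : ℕ) : Prop where
  hx : orderOf (x : G ⧸ center G) = 2
  hy : orderOf (y : G ⧸ center G) = 3
  dvd : o ∣ orderOf z
  two : 2 ≤ o
  ord : m = 12 ∨ m = 24 → ∀ g : G, orderOf (g : G ⧸ center G) ∈ [1, 2, 3, 4, 6]
  cases : m = 12 ∧ o = 3 ∧ 4 ≤ I ∧ I ≤ 6 ∧ orderOf z = 12 ∨ m = 24 ∧ o = 4 ∧ I = 6 ∨
    m ∈ [36, 42, 54, 108] ∧ o = 6 ∧ 6 ≤ I ∨ m ≠ 12 ∧ m ≠ 24 ∧ 10 ≤ I ∧
      (orderOf z = 8 → 12 ≤ I) ∧ (orderOf z = 7 → 19 ≤ I) ∧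
      (m ∈ [36, 42, 54, 108] → o = 6 ∨ o = 9)

theorem SC.dat (h : SC x y z) (hx : x ^ 2 = 1) (hy : y ^ 3 = 1) (he : 7 ≤ orderOf z) :
    Dat x y z (center G).index (centralizer {z}).index (orderOf (z : G ⧸ center G)) := by
  classical
  have := Fintype.ofFinite (G ⧸ centralizer {z})
  have hker := h.ker hx hy
  obtain ⟨d', h7, h8⟩ := h (centralizer {z})
  have hI : Fintype.card (G ⧸ centralizer {z}) = (centralizer {z}).index := by
    rw [index_eq_card, Nat.card_eq_fintype_card]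
  have hzC : z ∈ centralizer {z} := mem_centralizer_singleton_iff.2 rfl
  have hsum : (MulAction.toPermHom G (G ⧸ centralizer {z}) z).cycleType.sum <
      (centralizer {z}).index := by
    rw [Perm.sum_cycleType, ← hI, card_lt_iff_ne_univ]
    exact fun h0 => Perm.mem_support.1 (h0 ▸ mem_univ ((1 : G) : G ⧸ centralizer {z}))
      (QuotientGroup.eq.2 (by simpa using hzC))
  generalize MulAction.toPermHom G (G ⧸ centralizer {z}) = φ at hker h8 hsum
  have hord : ∀ g, orderOf (φ g) = orderOf (g : G ⧸ center G) := fun g =>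
    orderOf_eq_orderOf_iff.2 fun n => by
      rw [← map_pow, ← MonoidHom.mem_ker, hker, ← QuotientGroup.mk_pow, QuotientGroup.eq_one_iff]
  have h9 := ind_two (φ x) (by rw [← map_pow, hx, map_one])
  have h10 := ind_three (φ y) (by rw [← map_pow, hy, map_one])
  have h11 := relIndex_mul_index (center_le_centralizer ({z} : Set G))
  rw [← hker, relIndex_ker, hker] at h11
  have h12 : Nat.card ((centralizer {z}).map φ) ∣ Nat.card (centralizer {φ z}) :=
    card_dvd_of_le (by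
      rintro _ ⟨g, hg, rfl⟩
      rw [mem_centralizer_singleton_iff, ← map_mul, mem_centralizer_singleton_iff.1 hg, map_mul])
  have h13 := ((centralizer {z}).map φ).orderOf_dvd_natCard (mem_map_of_mem φ hzC)
  have h14 : ∀ g : G, orderOf (g : G ⧸ center G) ∣ (center G).index := fun g => orderOf_dvd_natCard _
  have h15 : ∀ g : G, (centralizer {z}).index ≤ 6 → orderOf (g : G ⧸ center G) ≤ 6 := fun g h0 => by
    rw [← hord, ← Perm.lcm_cycleType]
    exact lcm_le _ (fun _ => Perm.two_le_of_mem_cycleType)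
      ((φ g).sum_cycleType_le.trans (hI ▸ h0))
  have h16 : (centralizer {z}).index ≠ 1 := fun h0 => by
    have h1 := @h.pow_index _ _ _ _ _ _ hx hy 6 (dvd_mul_left _ _)
    rw [index_eq_one.2 (h.top_z hx hy _ (centralizer_eq_top_iff_subset.1 (index_eq_one.1 h0) rfl)),
      one_mul] at h1
    have := Nat.le_of_dvd (by norm_num) h1
    omega
  have h17 : orderOf (z : G ⧸ center G) ≠ 1 := fun h0 => h16 (index_eq_one.2
    (centralizer_eq_top_iff_subset.2 (Set.singleton_subset_iff.2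
      ((QuotientGroup.eq_one_iff z).1 (orderOf_eq_one_iff.1 h0)))))
  have h18 : orderOf (z : G ⧸ center G) ∣ orderOf z := orderOf_map_dvd (QuotientGroup.mk' _) z
  have h19 := (centralizer {z}).index_ne_zero_of_finite
  have h20 := (center G).index_ne_zero_of_finite
  have h21 := orderOf_pos (z : G ⧸ center G)
  obtain ⟨d, a, b, c, h1, h2, h3, h4, h5⟩ := h.normal hx hy (center G)
  have h22 := @h.pow_index _ _ _ _ _ _ hx hy 1
  rw [Perm.nat_card_centralizer, hI] at h12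
  rw [hord] at h13
  rw [hI] at h9 h10
  rw [show ind (φ z) = _ - _ from rfl] at h8
  have h23 := (φ z).lcm_cycleType.trans (hord z)
  have h24 : ∀ a ∈ (φ z).cycleType, 2 ≤ a := fun _ => Perm.two_le_of_mem_cycleType
  generalize (φ z).cycleType = C at h8 h12 h23 h24 hsum
  generalize (centralizer {z}).index = I at *
  generalize orderOf (z : G ⧸ center G) = o at *
  generalize (center G).index = m at *
  generalize Nat.card ((centralizer {z}).map φ) = H at *
  obtain ⟨k, hk⟩ := h13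
  have h25 : m = o * (k * I) := by rw [← h11, hk, mul_assoc]
  have h26 : m = c + k * I := by
    refine Nat.eq_of_mul_eq_mul_left h21 ?_
    rw [← h5, mul_add, ← h25]
  have h27 : I ≤ k * I := Nat.le_mul_of_pos_left _ (Nat.pos_of_ne_zero fun h0 => by
    simp [h0] at h25; omega)
  have h28 : 2 * (k * I) ≤ m := h25 ▸ Nat.mul_le_mul_right _ (by omega)
  have h29 : m / o = k * I := by rw [h25, Nat.mul_div_cancel_left _ h21]
  have h30 : (2 * a = m ∧ 3 * b = 2 * m) ∧ 6 ∣ m ∧ k * I ≤ m / 6 + 2 ∧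
      (m / 6 + k * I) % 2 = 0 := by
    have h3' := h3.imp And.right And.right
    have h4' := h4.imp And.right And.right
    have h0 : 2 ≤ k * I := by omega
    clear * - h1 h2 h3' h4' h26 h28 h0
    omega
  replace h3 := (h3.resolve_left fun h => by omega).1
  replace h4 := (h4.resolve_left fun h => by omega).1
  replace h30 := h30.2
  have h31 := h22 (by simpa using h30.1)
  rw [mul_one] at h31
  have h32 := Nat.le_of_dvd (by omega) h31
  have h33 := fun h0 => small (I := I) (H := H) C h24 hsum (by omega) h0 h12 (h23 ▸ ⟨k, hk⟩)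
    (h11 ▸ h30.1) (h11 ▸ he.trans h32) (by rw [h11, h23, h29]; exact h30.2.1)
    (by rw [h11, h23, h29]; exact h30.2.2) (h23 ▸ h17)
  rw [h11, h23] at h33
  have h34 := arith h33 h25 h27 h30.2.1 h30.2.2 he h18 h31 h17
  refine ⟨h3, h4, h18, by omega, fun h0 g => ?_, h34⟩
  simp only [List.mem_cons, List.not_mem_nil, or_false] at h34
  have h35 := h15 g (by clear * - h0 h34; omega)
  have h36 := (h14 g).trans (show m ∣ 24 by rcases h0 with rfl | rfl <;> norm_num)
  generalize orderOf (g : G ⧸ center G) = r at h35 h36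
  interval_cases r <;> simp at h36 ⊢

theorem centralizer_pow {j : ℕ} (hj : j.Coprime (orderOf (z : G ⧸ center G))) {g : G}
    (hg : IsConj (z ^ j) g) : (centralizer {z}).index ≤ (centralizer {g}).index := by
  obtain ⟨k, rfl⟩ := isConj_iff.1 hg
  obtain ⟨i, hi⟩ := exists_pow_eq_self_of_coprime hj
  rw [← QuotientGroup.mk_pow, ← QuotientGroup.mk_pow, QuotientGroup.eq, mem_center_iff] at hi
  rw [← index_comap_of_surjective (centralizer {k * z ^ j * k⁻¹})
    (f := (MulAut.conj k).toMonoidHom) (MulAut.conj k).surjective]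
  refine Nat.le_of_dvd (Nat.pos_of_ne_zero index_ne_zero_of_finite) (index_dvd_of_le fun a ha => ?_)
  have h1 : Commute a (z ^ j) := by
    have := mem_centralizer_singleton_iff.1 (mem_comap.1 ha)
    exact (MulAut.conj k).injective (by rw [map_mul, map_mul]; exact this)
  rw [mem_centralizer_singleton_iff, ← mul_inv_cancel_left ((z ^ j) ^ i) z]
  exact (h1.pow_right i).mul_right (hi a)

end Pool.Agent.Lib.MP_813db1_ag.PQ
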