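import Pool.Agent.Lib.MP_813db1_ag.DS2
import Pool.Agent.Lib.MP_813db1_ag.GT1

/-! The character of the space of vector fields on the line. -/

namespace Pool.Agent.Lib.MP_813db1_ag.PQ

open WithZero Finset Equiv
open scoped IntermediateField

variable {F : Type} [Field F] [Algebra ℂ F]

/-- The trace of a rotation of order `o`. -/
def tau (o : ℕ) : ℤ :=
  if o = 1 then 3 else if o = 2 then -1 else if o = 3 then 0 else if o = 4 then 1 else 2

theorem indep_pow {x : F} (hx : Transcendental ℂ x) :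
    LinearIndependent ℂ fun i : Fin 3 => x ^ (i : ℕ) := by
  have := (Polynomial.basisMonomials ℂ).linearIndependent.map'
    (Polynomial.aeval x).toLinearMap (LinearMap.ker_eq_bot.2 (transcendental_iff_injective.1 hx))
  simpa [Function.comp_def] using this.comp (fun i : Fin 3 => (i : ℕ)) Fin.val_injective

theorem quad_zero {x : F} (hx : Transcendental ℂ x) {a b c : ℂ}
    (h : algebraMap ℂ F a + algebraMap ℂ F b * x + algebraMap ℂ F c * x ^ 2 = 0) : c = 0 := by
  have h1 := indep_pow hx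
  rw [Fintype.linearIndependent_iff] at h1
  exact h1 ![a, b, c] (by simpa [Fin.sum_univ_three, Algebra.smul_def] using h) 2

/-- The coefficients of the powers of a matrix of trace `T` and determinant `-l`. -/
noncomputable def rec2 (T l : ℂ) : ℕ → ℂ × ℂ
  | 0 => (0, 1)
  | k + 1 => (T * (rec2 T l k).1 + (rec2 T l k).2, l * (rec2 T l k).1)

theorem mob_trace {x : F} (hx : Transcendental ℂ x) (f : F ≃ₐ[ℂ] F) (δ : Derivation ℂ F F)
    (hδ : ∀ y, f (δ y) = δ (f y)) (hδx : δ x ≠ 0) {o : ℕ} (ho : ∀ k, (f ^ k) x = x ↔ o ∣ k)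
    (ho' : o ∈ [1, 2, 3, 4, 6]) (hm : f x = x ∨ ∃ b c l : ℂ, l ≠ 0 ∧ x - algebraMap ℂ F c ≠ 0 ∧
      f x = algebraMap ℂ F b + algebraMap ℂ F l / (x - algebraMap ℂ F c)) :
    ∃ A : Matrix (Fin 3) (Fin 3) ℂ, (∀ i : Fin 3, f (x ^ (i : ℕ) / δ x) =
      ∑ k : Fin 3, A k i • (x ^ (k : ℕ) / δ x)) ∧ A.trace = tau o := by
  rcases hm with hm | ⟨b, c, l, hl, hc, hm⟩
  · refine ⟨1, fun i => by simp [hδ, hm, Matrix.one_apply], ?_⟩
    simp [Nat.dvd_one.1 ((ho 1).1 hm), tau]
  have hL := (map_ne_zero (algebraMap ℂ F)).2 hl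
  have h1 : ∀ k, algebraMap ℂ F (rec2 (b - c) l k).1 * (x - algebraMap ℂ F c) +
      algebraMap ℂ F (rec2 (b - c) l k).2 ≠ 0 ∧ (f ^ k) x * (algebraMap ℂ F (rec2 (b - c) l k).1 *
        (x - algebraMap ℂ F c) + algebraMap ℂ F (rec2 (b - c) l k).2) =
      algebraMap ℂ F (rec2 (b - c) l k).1 * (algebraMap ℂ F b * (x - algebraMap ℂ F c) +
        algebraMap ℂ F l) + algebraMap ℂ F (rec2 (b - c) l k).2 * x := fun k => by
    induction k with
    | zero => simp [rec2]
    | succ k ih =>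
      have h2 := (map_ne_zero (f ^ k)).2 hc
      rw [map_sub, AlgEquiv.commutes] at h2
      have h3 := mul_ne_zero h2 ih.1
      rw [pow_succ, AlgEquiv.mul_apply, hm]
      simp only [rec2, map_add, map_mul, map_sub, map_div₀, AlgEquiv.commutes]
      generalize (f ^ k) x = v at *
      generalize algebraMap ℂ F (rec2 (b - c) l k).1 = α at *
      generalize algebraMap ℂ F (rec2 (b - c) l k).2 = β at *
      have h4 : ((algebraMap ℂ F b - algebraMap ℂ F c) * α + β) * (x - algebraMap ℂ F c) +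
          algebraMap ℂ F l * α = (v - algebraMap ℂ F c) * (α * (x - algebraMap ℂ F c) + β) := by
        linear_combination -ih.2
      refine ⟨h4 ▸ h3, ?_⟩
      rw [add_mul, h4, ← mul_assoc, ← mul_assoc, div_mul_cancel₀ _ h2]
      linear_combination algebraMap ℂ F b * ih.2
  have h2 : ∀ k, (rec2 (b - c) l k).1 = 0 ↔ o ∣ k := fun k => by
    rw [← ho]
    refine ⟨fun h => mul_right_cancel₀ (h1 k).1 ((h1 k).2.trans (by simp [h, mul_comm])),
      fun h => ?_⟩
    have h3 := (h1 k).2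
    rw [h] at h3
    generalize (rec2 (b - c) l k).1 = α at h3 ⊢
    refine quad_zero hx (a := α * (b * c - l)) (b := -α * (b + c)) ?_
    simp only [map_mul, map_sub, map_add, map_neg]
    linear_combination h3
  refine ⟨(-l⁻¹) • !![c ^ 2, -c * (l - b * c), (l - b * c) ^ 2;
    -2 * c, l - 2 * b * c, 2 * b * (l - b * c); 1, b, b ^ 2], fun i => ?_, ?_⟩
  · have h3 : δ (f x) = -algebraMap ℂ F l * δ x / (x - algebraMap ℂ F c) ^ 2 := by
      rw [hm, map_add, Derivation.leibniz_div]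
      simp
      field_simp
    rw [map_div₀, hδ, h3, map_pow, hm]
    fin_cases i <;> simp [Fin.sum_univ_three, Algebra.smul_def, map_ofNat] <;> field_simp <;> ring
  · have h3 := h2 1
    have h4 := h2 2
    have h5 := h2 3
    have h6 := h2 4
    have h7 := h2 6
    simp only [rec2, mul_zero, zero_add, mul_one, add_zero] at h3 h4 h5 h6 h7
    rw [Matrix.trace_fin_three]
    simp only [List.mem_cons, List.not_mem_nil, or_false] at ho'
    rcases ho' with rfl | rfl | rfl | rfl | rfl <;> simp [tau] at h3 h4 h5 h6 h7 ⊢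
    · field_simp
      linear_combination (c - b) * h4
    · field_simp
      linear_combination -h5
    · field_simp
      exact mul_left_cancel₀ h4 (by linear_combination -h6)
    · field_simp
      exact mul_left_cancel₀ (mul_ne_zero h4 h5) (by linear_combination -h7)

variable {G : Type} [Group G] [Finite G]
  {ρ : G →* (F ≃ₐ[ℂ] F)} {t : F} {u : Option ℂ → Valuation F Γ} {z : Option ℂ → G}

variable (G) in
/-- The order modulo the centre. -/
noncomputable def oc (g : G) : ℕ := orderOf (g : G ⧸ Subgroup.center G)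

variable (G) in
/-- The index of an element acting on the cosets of the centre. -/
noncomputable def kc (g : G) : ℕ := (Subgroup.center G).index - (Subgroup.center G).index / oc G g

theorem oc_pos (g : G) : 0 < oc G g := orderOf_pos _

theorem kc_eq (g : G) : oc G g * kc G g + (Subgroup.center G).index =
    oc G g * (Subgroup.center G).index := by
  rw [kc, Nat.mul_sub, Nat.mul_div_cancel' (show oc G g ∣ (Subgroup.center G).index from
    orderOf_dvd_natCard _),
    Nat.sub_add_cancel (Nat.le_mul_of_pos_left _ (oc_pos g))]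

variable (ρ t) in
/-- Three vector fields on the quotient by the centre, with the bounds on their zeros and poles
at the points `p` of the line with inertia generator `z p`; `Y` has its pole at a general point. -/
structure Vec (Y : F) (P : Set (Option ℂ)) (z : Option ℂ → G) (θ : Fin 3 → F) (ψ : F)
    (A : G → Matrix (Fin 3) (Fin 3) ℂ) : Prop where
  ind : LinearIndependent ℂ θ
  ne : ψ ≠ 0
  fix : ∀ g, ρ g ψ = ψ
  act : ∀ g i, ρ g (θ i) = ∑ k, A g k i • θ k
  tr : ∀ g, (A g).trace = tau (oc G g)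
  pole : ∀ w : Valuation F Γ, Triv w → ∀ g i,
    w (ρ g (θ i)) ^ (Subgroup.center G).index * w ψ ≤ max 1 (w Y) ^ 2
  zero : ∀ w : Valuation F Γ, Triv w → ∀ p ∈ P, ∀ a : ℤ, 0 < a → w (yy t p) = exp (-a) →
    w ψ = exp (a * kc G (z p)) ∧ ∀ g i, w (ρ g (θ i)) ^ oc G (z p) ≤ exp (-(a * (oc G (z p) - 1)))

theorem disc_line (h : Cov ρ t) (hb : Bases ρ t u z) (h1 : ram t none = 1)
    (T : Finset (Option ℂ)) (hT : ∀ p, 2 ≤ ram t p → p ∈ T)
    (hg : ∑ p ∈ T, kc G (z p) + 2 = 2 * (Subgroup.center G).index)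
    (hord : ∀ g, oc G g ∈ [1, 2, 3, 4, 6]) : ∃ θ ψ A, Vec ρ t t {p | p ≠ none} z θ ψ A := by
  classical
  have := Fintype.ofFinite (G ⧸ Subgroup.center G)
  obtain ⟨Φ, h2, h3, h4⟩ := exists_phi h hb h1 (1 : G ⧸ Subgroup.center G) T hT (by
    rw [← Nat.card_eq_fintype_card, ← Subgroup.index_eq_card, ← hg]
    congr 1
    exact sum_congr rfl fun p _ => Nat.eq_of_mul_eq_mul_left (oc_pos (z p)) (Nat.add_right_cancel
      ((ind_normal _ (z p)).trans (kc_eq (z p)).symm)))
  obtain ⟨δ, hδ⟩ := exists_der (fun _ : Unit => t) (algebraicIndependent_unique_type_iff.2 h.tr)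
    (fun _ => 1)
  have h5 : ¬ u none (Φ 1) ≤ 1 := by rw [h3, ← exp_zero, exp_le_exp]; norm_num
  have h6 : Transcendental ℂ (Φ 1) := fun h0 => by
    obtain ⟨c, hc⟩ := IsAlgClosed.algebraMap_bijective_of_isIntegral (k := ℂ)
      (K := algebraicClosure ℂ F) |>.2 ⟨_, mem_algebraicClosure_iff.2 h0⟩
    exact h5 ((show algebraMap ℂ F c = Φ 1 from congrArg Subtype.val hc) ▸ hb.triv _ c)
  have h7 : δ (Φ 1) ≠ 0 := fun h0 => (h.const (hδ ()) h0).elim fun c hc => h5 (hc ▸ hb.triv _ c)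
  choose A hA1 hA2 using fun g => mob_trace h6 (ρ g) δ (h.der_comm (hδ ()) g) h7 (o := oc G g)
    (fun k => by
      rw [oc, orderOf_dvd_iff_pow_eq_one, ← map_pow, h2, smul_quot, mul_one, QuotientGroup.mk_pow]
      exact ⟨fun h0 => by_contra fun h8 => h5 (h0 ▸ h4 _ _ (Or.inr h8)), fun h0 => by rw [h0]⟩)
    (hord g) (by
      by_cases hg : (g : G ⧸ Subgroup.center G) = 1
      · exact Or.inl (by rw [h2, smul_quot, hg, mul_one])
      · exact Or.inr (phi_mob h hb h1 h2 h3 h4 hg))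
  have h8 : ∀ p, p ∉ T ∨ p = none → kc G (z p) = 0 := fun p hp => by
    have h9 : ram t p = 1 := by
      rcases hp with hp | rfl
      · have := h.ram_pos p
        have := mt (hT p) hp
        omega
      · exact h1
    simp [kc, oc, orderOf_eq_one_iff.1 ((hb.order h p).trans h9)]
  have h9 := fun w hw p a ha hp => val_prod (t := t) (w := w) hw (p := p) (a := a) ha hp
    (eraseNone T) (fun q => -(kc G (z (some q)) : ℤ)) fun q hq => by
      rw [h8 _ (Or.inl (by simpa using hq))]; simp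
  have h10 : ∑ q ∈ eraseNone T, (kc G (z (some q)) : ℤ) + 2 = 2 * (Subgroup.center G).index := by
    have h11 := sum_eraseNone (fun p => kc G (z (some p))) T
    rw [sum_congr rfl (g := fun p => kc G (z p)) (by
      rintro (_ | q) _
      exacts [(h8 _ (Or.inr rfl)).symm, rfl])] at h11
    exact_mod_cast h11 ▸ hg
  have h11 : ∀ q, t - algebraMap ℂ F q ∈ ℂ⟮t⟯ := fun q =>
    sub_mem (IntermediateField.mem_adjoin_simple_self ℂ t) (algebraMap_mem _ q)
  have h12 : ∀ w : Valuation F Γ, Triv w → ∀ p, w (yy t p) < 1 → ∀ g (i : Fin 3) y n m,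
      (∀ k, ρ k y = y) → (∀ σ, u p (Φ σ ^ (i : ℕ) / δ (Φ σ)) ^ n ≤ u p y ^ m) →
      w (ρ g (Φ 1 ^ (i : ℕ) / δ (Φ 1))) ^ n ≤ w y ^ m := fun w hw p hp g i y n m hy hle => by
    have : w.IsNontrivial := isNontrivial (h.loc p).ne hp.ne
    obtain ⟨v, hv, he⟩ := exists_norm w
    obtain ⟨k, rfl⟩ := hb.trans p v hv (fun c => he.le_one_iff_le_one.2 (hw c))
      (he.lt_one_iff_lt_one.2 hp)
    rw [← map_pow w, ← map_pow w, ← he, map_pow, map_pow, cv_apply, cv_apply, hy, ← AlgEquiv.mul_apply,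
      ← map_mul, map_div₀ (ρ _), map_pow (ρ _), h.der_comm (hδ ()), h2]
    exact hle _
  have h13 := fun σ (i : Fin 3) => theta_val h hb h1 h2 h3 h4 (hδ ()) σ (Nat.lt_succ_iff.1 i.2)
  have h14 : ∀ w : Valuation F Γ, Triv w → ∀ p ≠ none, ∀ a : ℤ, 0 < a → w (yy t p) = exp (-a) →
      ∀ g (i : Fin 3), w (ρ g (Φ 1 ^ (i : ℕ) / δ (Φ 1))) ^ oc G (z p) ≤
        exp (-(a * (oc G (z p) - 1))) := fun w hw p hp a ha hpa g i => by
    obtain ⟨q, rfl⟩ := Option.ne_none_iff_exists'.1 hp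
    refine (h12 w hw _ (hpa ▸ exp_neg_lt ha) g i _ _ _ (h.loc _).self
      fun σ => (h13 σ i).2 q).trans_eq ?_
    rw [hpa, ← exp_nsmul, nsmul_eq_mul, Nat.cast_sub (orderOf_pos _), oc]
    congr 1
    push_cast
    ring
  refine ⟨fun i => Φ 1 ^ (i : ℕ) / δ (Φ 1), ∏ q ∈ eraseNone T,
    (t - algebraMap ℂ F q) ^ (-(kc G (z (some q)) : ℤ)), A, ?_,
    prod_ne_zero_iff.2 fun q _ => zpow_ne_zero _ (sub_ne h.tr q),
    (h.fix _).1 (prod_mem fun q _ => zpow_mem (h11 q) _), hA1, hA2, fun w hw g i => ?_,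
    fun w hw p hp a ha hpa => ⟨?_, h14 w hw p hp a ha hpa⟩⟩
  · simpa [Function.comp_def, div_eq_inv_mul] using (indep_pow h6).map'
      (LinearMap.mulLeft ℂ (δ (Φ 1))⁻¹) (LinearMap.ker_eq_bot.2 (mul_right_injective₀ (inv_ne_zero h7)))
  · rcases tri_or hw h.tr with h15 | ⟨_ | q, a, ha, h15⟩
    · exact (mul_le_one' (pow_le_one' (le_one_all h.fixed hw h15 _) _)
        (le_one_all h.fixed hw h15 _)).trans (one_le_pow_of_one_le' (le_max_left _ _) _)
    · have h16 : w t = exp (a : ℤ) := by rw [← inv_inj, ← map_inv₀, ← exp_neg]; exact h15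
      have h17 := h12 w hw _ (h15 ▸ exp_neg_lt (by omega)) g i t 1 2 h.self fun σ => by
        have h18 := hb.val none
        rw [h1, yy, map_inv₀, inv_eq_iff_eq_inv, ← exp_neg] at h18
        simpa [h18, ← exp_nsmul] using (h13 σ i).1
      rw [pow_one] at h17
      refine (mul_le_mul_left (pow_le_pow_left' h17 _) _).trans (le_trans ?_
        (pow_le_pow_left' (le_max_right _ _) 2))
      rw [h9 w hw _ _ (by omega) h15, h16, ← exp_nsmul, ← exp_nsmul, ← exp_add, exp_le_exp]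
      simp only [Option.elim, sum_neg_distrib, neg_neg, nsmul_eq_mul, eq_sub_of_add_eq h10]
      push_cast
      linarith
    · refine le_trans ((pow_le_one_iff_of_nonneg zero_le (oc_pos (z (some q))).ne').1 ?_)
        (one_le_pow_of_one_le' (le_max_left _ _) _)
      rw [mul_pow, ← pow_mul, mul_comm _ (oc _ _), pow_mul, h9 w hw _ _ (by omega) h15]
      refine (mul_le_mul_left (pow_le_pow_left' (h14 w hw _ (by simp) a (by omega) h15 g i) _)
        _).trans_eq ?_
      have h16 : (oc G (z (some q)) * kc G (z (some q)) + (Subgroup.center G).index : ℤ) =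
        oc G (z (some q)) * (Subgroup.center G).index := by exact_mod_cast kc_eq _
      rw [← exp_nsmul, ← exp_nsmul, ← exp_add, ← exp_zero, exp_inj]
      simp only [Option.elim, nsmul_eq_mul]
      linear_combination a * h16
  · obtain ⟨q, rfl⟩ := Option.ne_none_iff_exists'.1 hp
    simpa using h9 w hw _ a ha hpa

theorem disc_factor (h : Cov ρ t) (hb : Bases ρ t u z) {q0 : ℂ} (h1 : ram t (some q0) = 1)
    (T : Finset (Option ℂ)) (hT : ∀ p, 2 ≤ ram t p → p ∈ T)
    (hg : ∑ p ∈ T, kc G (z p) + 2 = 2 * (Subgroup.center G).index)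
    (hord : ∀ g, oc G g ∈ [1, 2, 3, 4, 6]) :
    ∃ θ ψ A, Vec ρ t (t - algebraMap ℂ F q0)⁻¹ {p | p ≠ some q0} z θ ψ A := by
  obtain ⟨μ, h2, h3⟩ := mob h.tr q0
  have hY : Cov ρ (t - algebraMap ℂ F q0)⁻¹ := (h.loc (some q0)).loc none
  obtain ⟨h4, h5⟩ := hb.mob h hY μ h3
  obtain ⟨θ, ψ, A, h6⟩ := disc_line hY h5 (by rw [h4, h2, h1]) (T.map μ.symm.toEmbedding)
    (fun p hp => by simpa using hT _ (h4 p ▸ hp)) (by simpa using hg) hord
  refine ⟨θ, ψ, A, h6.ind, h6.ne, h6.fix, h6.act, h6.tr, h6.pole, fun w hw p hp a ha hpa => ?_⟩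
  obtain ⟨p, rfl⟩ := μ.surjective p
  exact h6.zero w hw p (fun h0 => hp (h0 ▸ h2)) a ha (h3 w hw p a ha hpa)

end Pool.Agent.Lib.MP_813db1_ag.PQ
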