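import Mathlib

/-! The numerical inequalities for products of discriminants. -/

namespace Pool.Agent.Lib.MP_813db1_ag.PQ

open Finset

/-- The exponent of each pair. -/
def pw (τ : Fin 4 → Bool) : ℕ := 12 / (∑ a, (τ a).toNat - 1)

theorem num1 : ∀ (τ : Fin 4 → Bool) (c : Fin 4), pw τ * ∑ x : Fin 4 × Fin 4,
    (if x.1 < x.2 ∧ τ x.1 ∧ τ x.2 then (if x.1 = c then 2 else 0) + if x.2 = c then 2 else 0
      else 0) ≤ if τ c then 24 else 0 := by decide +kernel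

/-- The order of vanishing in a form suited to evaluation. -/
def nv (o I x y : ℕ) (a b c d : Bool) (i j k l : ℕ) : ℕ :=
  12 / (a.toNat + b.toNat + c.toNat + d.toNat - 1) * ((if a ∧ b then I * ((i + j) % o) else 0) +
    (if a ∧ c then I * ((i + k) % o) else 0) + (if a ∧ d then I * ((i + l) % o) else 0) +
    (if b ∧ c then I * ((j + k) % o) else 0) + (if b ∧ d then I * ((j + l) % o) else 0) +
    if c ∧ d then I * ((k + l) % o) else 0) + 24 * ((if a then x else y) * i +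
      (if b then x else y) * j + (if c then x else y) * k + (if d then x else y) * l)

theorem nv4 : ∀ a b c d : Bool, 2 ≤ a.toNat + b.toNat + c.toNat + d.toNat → ∀ i < 4, ∀ j < 4,
    ∀ k < 4, ∀ l < 4, 576 ≤ nv 4 6 3 6 a b c d (i + 1) (j + 1) (k + 1) (l + 1) := by
  decide +kernel

set_option synthInstance.maxSize 2000 in
theorem nv3 : ∀ a b c d : Bool, 2 ≤ a.toNat + b.toNat + c.toNat + d.toNat → ∀ e ∈ range 2,
    ∀ i ∈ range 8, ∀ j ∈ range 8, ∀ k ∈ range 8, ∀ l ∈ range 8,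
      ((a → (i + 1) % 2 = e) ∧ (b → (j + 1) % 2 = e)) ∧
      (c → (k + 1) % 2 = e) ∧ (d → (l + 1) % 2 = e) →
      288 ≤ nv 3 4 1 3 a b c d (i + 1) (j + 1) (k + 1) (l + 1) := by
  decide +kernel

theorem num2 {o I x y : ℕ} (τ : Fin 4 → Bool) (h : 2 ≤ ∑ a, (τ a).toNat) (j : Fin 4 → ℕ)
    (hj : ∀ a, 0 < j a) (ho : o = 4 ∧ I = 6 ∧ x = 3 ∧ y = 6 ∨ o = 3 ∧ I = 4 ∧ x = 1 ∧ y = 3 ∧
      ∃ e < 2, ∀ a, τ a → j a % 2 = e) : 96 * y ≤ pw τ * ∑ v : Fin 4 × Fin 4,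
      (if v.1 < v.2 ∧ τ v.1 ∧ τ v.2 then I * ((j v.1 + j v.2) % o) else 0) +
      24 * ∑ a, (if τ a then x else y) * j a := by
  by_cases h1 : 4 * y ≤ x * ∑ a, j a
  · have h2 : x * ∑ a, j a ≤ ∑ a, (if τ a then x else y) * j a := by
      rw [mul_sum]
      exact sum_le_sum fun a _ => Nat.mul_le_mul_right _ (by split_ifs <;> omega)
    omega
  have h2 := fun a => Nat.sub_add_cancel (hj a)
  have h3 := hj 0
  have h4 := hj 1
  have h5 := hj 2
  have h6 := hj 3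
  rw [Fin.sum_univ_four] at h h1
  refine le_of_le_of_eq (b := nv o I x y (τ 0) (τ 1) (τ 2) (τ 3) (j 0 - 1 + 1) (j 1 - 1 + 1)
    (j 2 - 1 + 1) (j 3 - 1 + 1)) ?_ (by
      simp +decide [h2, pw, nv, Fintype.sum_prod_type, Fin.sum_univ_four, add_assoc])
  rcases ho with ⟨rfl, rfl, rfl, rfl⟩ | ⟨rfl, rfl, rfl, rfl, e, he, ho⟩
  · exact nv4 _ _ _ _ h _ (by omega) _ (by omega) _ (by omega) _ (by omega)
  · exact nv3 _ _ _ _ h e (mem_range.2 he) _ (mem_range.2 (by omega)) _ (mem_range.2 (by omega)) _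
      (mem_range.2 (by omega)) _ (mem_range.2 (by omega))
      (by simp only [h2]; exact ⟨⟨ho 0, ho 1⟩, ho 2, ho 3⟩)

end Pool.Agent.Lib.MP_813db1_ag.PQ
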