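import Pool.Agent.Lib.MP_813db1_ag.SC1

/-! The genus of an intermediate cover is a non-negative integer. -/

namespace Pool.Agent.Lib.MP_813db1_ag.PQ

open WithZero Finset Equiv
open scoped IntermediateField

variable {F : Type} [Field F] [Algebra ℂ F] {G : Type} [Group G] {ρ : G →* (F ≃ₐ[ℂ] F)} {t : F}

theorem deg_zero (ht : Transcendental ℂ t) {φ : F} (hφ : φ ∈ ℂ⟮t⟯) (h0 : φ ≠ 0) :
    ∃ (T : Finset (Option ℂ)) (X : Option ℂ → ℤ), (∀ p ∉ T, X p = 0) ∧ ∑ p ∈ T, X p = 0 ∧
      ∀ w : Valuation F Γ, Triv w → ∀ p (a : ℤ), 0 < a → w (yy t p) = exp (-a) →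
        w φ = exp (-(a * X p)) := by
  obtain ⟨c, hc, k, rfl⟩ := (rep ht φ hφ).resolve_left h0
  refine ⟨insertNone k.support, fun p => p.elim (-∑ q ∈ k.support, k q) k, ?_, ?_,
    fun w hw p a ha hp => ?_⟩
  · rintro (_ | q) hq
    · simp at hq
    · simpa using hq
  · simp
  · rw [map_mul, hw.eq_one hc, one_mul, Finsupp.prod,
      val_prod hw ha hp _ _ fun q hq => Finsupp.notMem_support_iff.1 hq]

variable [Finite G]

variable (ρ t) in
/-- A place over every point of the line, with its canonical inertia generator. -/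
structure Bases (u : Option ℂ → Valuation F Γ) (z : Option ℂ → G) : Prop where
  surj : ∀ p, Function.Surjective (u p)
  triv : ∀ p, Triv (u p)
  val : ∀ p, u p (yy t p) = exp (-(ram t p : ℤ))
  rot : ∀ p, Rot ρ (u p) (z p) (zt 1 (ram t p))
  card : ∀ p, Nat.card (ine ρ (u p)) = ram t p
  trans : ∀ p (w : Valuation F Γ), Function.Surjective w → Triv w → w (yy t p) < 1 → ∃ g, w = cv ρ (u p) g

theorem Cov.bases (h : Cov ρ t) : ∃ u z, Bases ρ t u z := by
  choose u h1 h2 h3 h4 h5 using fun p => (h.loc p).base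
  choose z hz using fun p => exists_gen h.inj (h2 p) (h1 p)
  simp only [h4, ← ram_eq] at hz h5
  exact ⟨u, z, h1, h2, fun p => (h5 p _ (h1 p) (h2 p) (h3 p)).2, hz,
    fun p => (h4 p).trans (ram_eq t p).symm, fun p w a b c => (h5 p w a b c).1⟩

variable {u : Option ℂ → Valuation F Γ} {z : Option ℂ → G}

theorem Bases.order (hb : Bases ρ t u z) (h : Cov ρ t) (p : Option ℂ) : orderOf (z p) = ram t p :=
  (hb.rot p).order h.inj (h.ram_pos p).ne' (hb.triv p) (hb.surj p)

theorem Bases.vanish (hb : Bases ρ t u z) (h : Cov ρ t) {x : F} (h1 : ∀ p g, u p (ρ g x) ≤ 1)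
    {p0 : Option ℂ} (h2 : u p0 x < 1) : x = 0 := by
  have := Fintype.ofFinite G
  classical
  by_contra h0
  obtain ⟨T, X, h3, h4, h5⟩ := deg_zero h.tr ((h.fix (∏ g, ρ g x)).2 fun f => by
    rw [map_prod]
    exact Fintype.prod_equiv (Equiv.mulLeft f) _ _ fun g => by simp)
    (prod_ne_zero_iff.2 fun g _ => (map_ne_zero _).2 h0)
  have he : ∀ p, (0 : ℤ) < ram t p := fun p => by exact_mod_cast h.ram_pos p
  have h6 := fun p => h5 _ (hb.triv p) p _ (he p) (hb.val p)
  have h7 : ∀ p, 0 ≤ X p := fun p => by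
    have : u p (∏ g, ρ g x) ≤ 1 := by rw [map_prod]; exact prod_le_one' fun g _ => h1 p g
    rw [h6, ← exp_zero, exp_le_exp, neg_nonpos] at this
    exact nonneg_of_mul_nonneg_right this (he p) |> fun h => h
  have h8 : u p0 (∏ g, ρ g x) < 1 := by
    rw [map_prod, ← mul_prod_erase _ _ (mem_univ 1), map_one, AlgEquiv.one_apply]
    exact mul_lt_one_of_lt_of_le h2 (prod_le_one' fun g _ => h1 p0 g)
  by_cases h9 : p0 ∈ T
  · rw [h6, (sum_eq_zero_iff_of_nonneg fun p _ => h7 p).1 h4 p0 h9] at h8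
    simp at h8
  · rw [h6, h3 p0 h9] at h8
    simp at h8

theorem scott (h : Cov ρ t) (hb : Bases ρ t u z) (Ω : Type) [Fintype Ω] [DecidableEq Ω]
    [MulAction G Ω] [MulAction.IsPretransitive G Ω] (T : Finset (Option ℂ))
    (hT : ∀ p, 2 ≤ ram t p → p ∈ T) : ∃ (M : Matrix Ω Ω F) (d : Ω → ℕ),
      (∀ j, (∀ g σ, ρ g (M σ j) = M (g • σ) j) ∧ ∀ p σ, u p (M σ j) ≤
        exp (p.elim (ram t none * d j : ℤ) fun _ => 0)) ∧ M.det ≠ 0 ∧
      (univ.filter fun j => d j = 0).card ≤ 1 ∧
      ∑ p ∈ T, ind (MulAction.toPerm (z p) : Perm Ω) = 2 * ∑ j, d j := by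
  classical
  have := Fintype.ofFinite G
  have he : ∀ p, (0 : ℤ) < ram t p := fun p => by exact_mod_cast h.ram_pos p
  have hsub := fun p q => val_sub (hb.triv p) (he p) (hb.val p) q
  have hti : u none t = exp (ram t none : ℤ) := by simpa using hsub none 0
  have htq : ∀ q, u (some q) t ≤ 1 := fun q => by
    have := (u _).map_add_le (hb.val (some q) ▸ exp_neg_lt (he _)).le (hb.triv _ q)
    rwa [yy, sub_add_cancel] at this
  let Bd : (Ω → F) → ℤ → Prop := fun Φ d => (∀ g σ, ρ g (Φ σ) = Φ (g • σ)) ∧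
    ∀ p σ, u p (Φ σ) ≤ exp (p.elim (ram t none * d) fun _ => 0)
  have hex : ∃ n, ∃ (M : Matrix Ω Ω F) (d : Ω → ℕ), (∀ j, Bd (M · j) (d j)) ∧ M.det ≠ 0 ∧
      ∑ j, d j = n := by
    obtain ⟨A, hA, h1⟩ := exists_det {Φ : Ω → F | ∃ d : ℕ, Bd Φ d} fun l hl => by
      funext σ0
      have h2 := Fintype.linearIndependent_iff.1 ((linearIndependent_monoidHom F F).comp
        (fun g : G => (ρ g : F →* F)) fun a b hab => h.inj (AlgEquiv.ext fun x =>
          DFunLike.congr_fun hab x)) (fun g => l (g • σ0)) (funext fun x => ?_) 1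
      · simpa using h2
      obtain ⟨d, hd, hd0, c, hc⟩ := h.bound x
      have h3 := hl (fun σ => ∑ g with g • σ0 = σ, ρ g (d * x)) ⟨c, fun f σ => ?_, fun p σ => ?_⟩
      · simp only [sum_mul] at h3
        rw [sum_congr rfl fun σ _ => sum_congr rfl (g := fun g => ρ g (d * x) * l (g • σ0))
          fun g hg => by rw [(mem_filter.1 hg).2], sum_fiberwise univ (· • σ0) fun g => ρ g (d * x) * l (g • σ0)] at h3
        simp only [map_mul, (h.fix d).1 hd, mul_assoc, ← mul_sum] at h3
        simpa [mul_comm] using (mul_eq_zero.1 h3).resolve_left hd0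
      · rw [map_sum]
        exact sum_equiv (Equiv.mulLeft f) (fun g => by simp [mul_smul]) fun g _ => by simp
      · refine (u p).map_sum_le fun g _ => (hc _ (cv_triv (hb.triv p) g)).trans_eq ?_
        rw [cv_apply, h.self]
        rcases p with _ | q
        · rw [hti, max_eq_right (by rw [← exp_zero, exp_le_exp]; omega), ← exp_nsmul]
          simp [mul_comm]
        · simp [htq q]
    choose d hd using h1
    exact ⟨_, A.transpose, d, hd, by rwa [Matrix.det_transpose], rfl⟩
  obtain ⟨M, d, hM, hM0, hd⟩ := Nat.find_spec hex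
  have red : ∀ (κ : Ω → F) (j0 : Ω), (∀ j, κ j ∈ ℂ⟮t⟯) → κ j0 ≠ 0 → (∀ p σ, u p (∑ j, κ j * M σ j) ≤
      exp (p.elim (ram t none * (d j0 - 1) : ℤ) fun _ => 0)) → False := fun κ j0 h1 h2 h3 => by
    have h4 : ∀ g σ, ρ g (∑ j, κ j * M σ j) = ∑ j, κ j * M (g • σ) j := fun g σ => by
      simp only [map_sum, map_mul, (h.fix _).1 (h1 _), (hM _).1]
    have h5 : (M.updateCol j0 fun σ => ∑ j, κ j * M σ j).det ≠ 0 :=
      (Matrix.det_updateCol_sum M j0 κ).trans_ne (mul_ne_zero h2 hM0)
    rcases Nat.eq_zero_or_pos (d j0) with h6 | h6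
    · refine h5 (Matrix.det_eq_zero_of_column_eq_zero j0 fun σ => ?_)
      have h7 : (exp (ram t none * ((d j0 : ℤ) - 1)) : Γ) < 1 := by
        simpa [h6] using exp_neg_lt (he none)
      rw [Matrix.updateCol_self]
      refine hb.vanish h (fun p g => h4 g σ ▸ (h3 p _).trans ?_) ((h3 none σ).trans_lt h7)
      cases p
      exacts [h7.le, le_rfl]
    · refine Nat.find_min hex (m := ∑ j, Function.update d j0 (d j0 - 1) j) ?_
        ⟨_, _, fun j => ?_, h5, rfl⟩
      · rw [← hd, sum_update_of_mem (mem_univ _), ← add_sum_erase _ d (mem_univ j0),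
          sdiff_singleton_eq_erase]
        omega
      · by_cases e : j = j0
        · subst e
          simp only [Matrix.updateCol_self, Function.update_self, Nat.cast_sub h6]
          exact ⟨h4, h3⟩
        · simp only [Matrix.updateCol_ne e, Function.update_of_ne e]
          exact hM j
  have hmax : ∀ c : Ω → ℂ, c ≠ 0 → ∃ j0, c j0 ≠ 0 ∧ ∀ j, c j ≠ 0 → d j ≤ d j0 := fun c hc => by
    obtain ⟨j0, h1, h2⟩ := exists_max_image (univ.filter fun j => c j ≠ 0) d
      ((Function.ne_iff.1 hc).imp fun j hj => by simpa using hj)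
    exact ⟨j0, by simpa using h1, fun j hj => h2 j (by simpa using hj)⟩
  have hloc := fun p => local_det (Ω := Ω) (hb.surj p) (hb.triv p) (fun x => residue (h.loc p).fixed
    (hb.triv p) (h.loc p).ne (hb.val p ▸ exp_neg_lt (he p))) (h.ram_pos p) (hb.rot p)
    (MulAction.toPerm (z p)) (by
      rw [← hb.order h p, ← MulAction.toPermHom_apply, ← map_pow, pow_orderOf_eq_one, map_one])
  have htm := IntermediateField.mem_adjoin_simple_self ℂ t
  have hfin : ∀ q, u (some q) (M.det ^ 2) = _ := fun q => hloc (some q) M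
    (fun σ j => (hM j).1 _ σ) (fun σ j => (hM j).2 _ σ) fun c hc => by_contra fun hc0 => by
      obtain ⟨j0, h1, h2⟩ := hmax c hc0
      refine red (fun j => (t - algebraMap ℂ F q)⁻¹ * algebraMap ℂ F (c j)) j0
        (fun j => mul_mem (inv_mem (sub_mem htm (algebraMap_mem _ _))) (algebraMap_mem _ _))
        (mul_ne_zero (inv_ne_zero (sub_ne h.tr q)) ((map_ne_zero _).2 h1)) fun p σ => ?_
      simp only [mul_assoc, ← mul_sum, map_mul, map_inv₀, hsub, ← exp_neg]
      rcases p with _ | q'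
      · refine (mul_le_mul_right ((u _).map_sum_le (g := exp (ram t none * d j0)) fun j _ => ?_)
          _).trans_eq (by rw [← exp_add]; congr 1; simp; ring)
        by_cases h3 : c j = 0
        · simp [h3]
        · rw [map_mul, (hb.triv _).eq_one h3, one_mul]
          exact ((hM j).2 none σ).trans (exp_le_exp.2
            (mul_le_mul_of_nonneg_left (by exact_mod_cast h2 j h3) (he _).le))
      · by_cases h3 : q' = q
        · subst h3
          exact (mul_le_mul_right (hc σ) _).trans_eq (by rw [← exp_add]; simp)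
        · simp only [Option.elim, if_neg h3, mul_zero, neg_zero, exp_zero, one_mul]
          exact (u _).map_sum_le fun j _ => by
            rw [map_mul]; exact mul_le_one' (hb.triv _ _) ((hM j).2 _ σ)
  have hti' : ∀ k : ℕ, u none (t⁻¹ ^ k) = exp (-(ram t none * k : ℤ)) := fun k => by
    rw [map_pow, map_inv₀, hti, ← exp_neg, ← exp_nsmul]; simp [mul_comm]
  have hinf := hloc none (Matrix.of fun σ j => t⁻¹ ^ d j * M σ j)
    (fun σ j => by simp [h.self, (hM j).1]) (fun σ j => by
      rw [Matrix.of_apply, map_mul, hti']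
      exact (mul_le_mul_right ((hM j).2 none σ) _).trans_eq (by rw [← exp_add]; simp))
    fun c hc => by_contra fun hc0 => by
      obtain ⟨j0, h1, h2⟩ := hmax c hc0
      refine red (fun j => algebraMap ℂ F (c j) * t ^ (d j0 - d j)) j0
        (fun j => mul_mem (algebraMap_mem _ _) (pow_mem htm _))
        (mul_ne_zero ((map_ne_zero _).2 h1) (pow_ne_zero _ h.ne)) fun p σ => ?_
      rcases p with _ | q
      · rw [sum_congr rfl (g := fun j => t ^ d j0 * (algebraMap ℂ F (c j) *
          (t⁻¹ ^ d j * M σ j))) fun j _ => ?_, ← mul_sum, map_mul, map_pow, hti, ← exp_nsmul]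
        · exact (mul_le_mul_right (hc σ) _).trans_eq (by rw [← exp_add]; congr 1; simp; ring)
        · by_cases h3 : c j = 0
          · simp [h3]
          · rw [pow_sub₀ _ h.ne (h2 j h3), inv_pow]; ring
      · refine (u _).map_sum_le fun j _ => ?_
        rw [map_mul, map_mul, map_pow]
        exact mul_le_one' (mul_le_one' (hb.triv _ _) (pow_le_one' (htq q) _)) ((hM j).2 _ σ)
  obtain ⟨S, X, h1, h2, h3⟩ := deg_zero h.tr ((h.fix (M.det ^ 2)).2 fun g => by
    have h4 : ρ g M.det = (M.submatrix (MulAction.toPerm g : Perm Ω) id).det := by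
      rw [AlgEquiv.map_det]
      congr 1
      ext σ j
      exact (hM j).1 g σ
    rw [map_pow, h4, Matrix.det_permute, mul_pow, ← Int.cast_pow, ← Units.val_pow_eq_pow_val,
      Int.units_sq]
    simp) (pow_ne_zero _ hM0)
  have h4 : ∀ p, X p = ind (MulAction.toPerm (z p) : Perm Ω) -
      if p = none then 2 * ∑ j, (d j : ℤ) else 0 := fun p => by
    have h5 := h3 _ (hb.triv p) p _ (he p) (hb.val p)
    refine mul_left_cancel₀ (he p).ne' ?_
    rcases p with _ | q
    · rw [Matrix.det_mul_row, mul_pow, map_mul, h5, prod_pow_eq_pow_sum, ← pow_mul, hti',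
        ← exp_add, exp_inj] at hinf
      push_cast at hinf
      rw [if_pos rfl]
      linarith
    · rw [hfin, exp_inj] at h5
      simp only [reduceCtorEq, if_false]
      linarith
  refine ⟨M, d, hM, hM0, ?_, ?_⟩
  · by_contra hc
    obtain ⟨j, hj, j', hj', hne⟩ := one_lt_card.1 (not_le.1 hc)
    have h6 : ∀ j, d j = 0 → ∃ c, c ≠ 0 ∧ ∀ σ, M σ j = algebraMap ℂ F c := fun j hj => by
      have h7 : ∀ p σ, u p (M σ j) ≤ 1 := fun p σ => ((hM j).2 p σ).trans_eq (by
        cases p <;> simp [hj])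
      obtain ⟨c, hc⟩ := residue (h.loc none).fixed (hb.triv _) (h.loc _).ne
        (hb.val _ ▸ exp_neg_lt (he _)) (h7 none j)
      have h8 := sub_eq_zero.1 (hb.vanish h (fun p g => by
        rw [map_sub, (hM j).1, AlgEquiv.commutes]
        exact (u p).map_sub_le (h7 p _) (hb.triv p c)) hc)
      have h9 : ∀ σ, M σ j = algebraMap ℂ F c := fun σ => by
        obtain ⟨g, rfl⟩ := MulAction.exists_smul_eq G j σ
        exact ((hM j).1 g j).symm.trans ((congrArg (ρ g) h8).trans ((ρ g).commutes c))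
      exact ⟨c, fun h0 => hM0 (Matrix.det_eq_zero_of_column_eq_zero j fun σ => by
        rw [h9, h0, map_zero]), h9⟩
    obtain ⟨c, hc0, hc⟩ := h6 j (mem_filter.1 hj).2
    obtain ⟨c', -, hc'⟩ := h6 j' (mem_filter.1 hj').2
    refine hM0 (Matrix.exists_mulVec_eq_zero_iff.1 ⟨Pi.single j (algebraMap ℂ F c') -
      Pi.single j' (algebraMap ℂ F c), fun h0 => hc0 ?_, funext fun σ => ?_⟩)
    · simpa [hne.symm] using congrFun h0 j'
    · simp [Matrix.mulVec_sub, hc, hc', Algebra.smul_def, mul_comm]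
  · have h5 : ∑ p ∈ insert none (S ∪ T), X p = 0 := by
      rw [← h2]
      exact (sum_subset (subset_union_left.trans (subset_insert _ _)) fun p _ => h1 p).symm
    simp only [h4, sum_sub_distrib, sum_ite_eq', mem_insert, true_or, if_true] at h5
    rw [← sum_subset (subset_union_right.trans (subset_insert _ _)) fun p _ hp => by
      have h6 : ram t p = 1 := by
        have := h.ram_pos p
        have := mt (hT p) hp
        omega
      rw [orderOf_eq_one_iff.1 ((hb.order h p).trans h6), ← MulAction.toPermHom_apply, map_one]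
      simp [ind], sub_eq_zero] at h5
    exact_mod_cast h5

theorem card_le_of_zero {Ω : Type} [Fintype Ω] (d : Ω → ℕ)
    (h : (univ.filter fun j => d j = 0).card ≤ 1) : Fintype.card Ω ≤ ∑ j, d j + 1 := by
  have h6 := card_filter_add_card_filter_not (s := univ) fun j => d j = 0
  have h7 := (card_nsmul_le_sum (univ.filter fun j => ¬ d j = 0) d 1 fun j hj =>
    Nat.pos_of_ne_zero (mem_filter.1 hj).2).trans (sum_le_sum_of_subset (subset_univ _))
  rw [card_univ] at h6
  rw [smul_eq_mul] at h7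
  omega

theorem Bases.conj (hb : Bases ρ t u z) (h : Cov ρ t) {w : Valuation F Γ}
    (hs : Function.Surjective w) (hw : Triv w) {p : Option ℂ} (hp : w (yy t p) < 1) {g : G} {j : ℕ}
    (hg : Rot ρ w g (zt j (ram t p))) : IsConj (z p ^ j) g := by
  obtain ⟨k, rfl⟩ := hb.trans p w hs hw hp
  have h1 := (hb.rot p).pow (hb.triv p) (zt_ne _ _) j
  rw [← zpow_natCast (zt _ _), zt_zpow (h.ram_pos p).ne' (h.ram_pos p).ne' (mul_comm _ _)] at h1
  rw [h1.uniq' h.inj (rot_cv.1 hg) (hb.triv p) (hb.surj p) (zt_ne _ _)]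
  exact (isConj_iff.2 ⟨k, rfl⟩).symm

/-- Moving an arbitrary point to infinity. -/
theorem mob (ht : Transcendental ℂ t) (q0 : ℂ) : ∃ μ : Option ℂ ≃ Option ℂ, μ none = some q0 ∧
    ∀ (w : Valuation F Γ), Triv w → ∀ p (a : ℤ), 0 < a → w (yy t (μ p)) = exp (-a) →
      w (yy (t - algebraMap ℂ F q0)⁻¹ p) = exp (-a) := by
  classical
  refine ⟨⟨fun p => p.elim (some q0) fun c => if c = 0 then none else some (q0 + c⁻¹),
    fun p => p.elim (some 0) fun q => if q = q0 then none else some (q - q0)⁻¹, ?_, ?_⟩, rfl, ?_⟩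
  · rintro (_ | c)
    · simp
    · by_cases hc : c = 0 <;> simp [hc]
  · rintro (_ | q)
    · simp
    · by_cases hq : q = q0 <;> simp [hq, sub_eq_zero]
  · rintro w hw (_ | c) a ha hp
    · simpa [yy] using hp
    · have h1 := val_sub hw ha hp q0
      by_cases hc : c = 0
      · simp only [hc, Equiv.coe_fn_mk, Option.elim, if_true] at h1
        simp [yy, hc, h1, ← exp_neg]
      · simp only [hc, Equiv.coe_fn_mk, Option.elim, if_false] at h1 hp
        have h2 : yy (t - algebraMap ℂ F q0)⁻¹ (some c) = -algebraMap ℂ F c *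
            yy t (some (q0 + c⁻¹)) * (t - algebraMap ℂ F q0)⁻¹ := by
          have := sub_ne ht q0
          have := (map_ne_zero (algebraMap ℂ F)).2 hc
          simp only [yy, map_add, map_inv₀]
          field_simp
          ring
        rw [h2, map_mul, map_mul, Valuation.map_neg, hw.eq_one hc, hp, map_inv₀, h1]
        simp [hc]

theorem Bases.mob (hb : Bases ρ t u z) (h : Cov ρ t) {Y : F} (hY : Cov ρ Y) (μ : Option ℂ → Option ℂ)
    (hμ : ∀ (w : Valuation F Γ), Triv w → ∀ p (a : ℤ), 0 < a → w (yy t (μ p)) = exp (-a) →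
      w (yy Y p) = exp (-a)) : (∀ p, ram Y p = ram t (μ p)) ∧ Bases ρ Y (u ∘ μ) (z ∘ μ) := by
  have h1 := fun p => hμ _ (hb.triv _) p _ (by exact_mod_cast h.ram_pos _) (hb.val (μ p))
  have h2 := fun p => (h1 p).trans_lt (exp_neg_lt (by exact_mod_cast h.ram_pos _))
  choose u0 h3 h4 h5 h6 h7 using fun p => (hY.loc p).base
  have h8 : ∀ p, ram Y p = ram t (μ p) := fun p => by
    have := (h7 p _ (hb.surj _) (hb.triv _) (h2 p)).2
    rw [h1, ← ram_eq, exp_inj] at this
    omega
  refine ⟨h8, fun p => hb.surj _, fun p => hb.triv _, fun p => h8 p ▸ h1 p,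
    fun p => h8 p ▸ hb.rot _, fun p => h8 p ▸ hb.card _, fun p w hs hw hp => ?_⟩
  obtain ⟨g, hg⟩ := (h7 p _ (hb.surj _) (hb.triv _) (h2 p)).1
  obtain ⟨g', hg'⟩ := (h7 p w hs hw hp).1
  exact ⟨g⁻¹ * g', by rw [hg', Function.comp, hg, cv_mul, mul_inv_cancel_left]⟩

end Pool.Agent.Lib.MP_813db1_ag.PQ
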