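import Pool.Agent.Lib.MP_813db1_ag.VA5

/-! The numerical inequalities of the dimension count. -/

namespace Pool.Agent.Lib.MP_813db1_ag.PQ

open Finset Filter

/-- The relevant multiplicity patterns. -/
def J8 : Finset (Fin 4 → ℕ) := Fintype.piFinset fun _ => Icc 1 8

/-- The volume of the conditions of one pattern, rounded up. -/
def vterm (ξ : Fin 4 → ℕ) (I : (Fin 4 → ℕ) → ℕ) (j : Fin 4 → ℕ) : ℕ :=
  (12600 - ∑ a, ξ a * j a) ^ 4 / (24 * (∏ a, j a) * I j ^ 3) + 1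

/-- The conditions have smaller volume than the space of sections. -/
def Vol' (ξ η : Fin 4 → ℕ) (I : (Fin 4 → ℕ) → ℕ) : Prop :=
  ∑ a ∈ range 8, ∑ b ∈ range 8, ∑ c ∈ range 8, ∑ d ∈ range 8,
    vterm ξ I ![a + 1, b + 1, c + 1, d + 1] ≤ ∏ a, η a

theorem sum_J8 (f : (Fin 4 → ℕ) → ℕ) : ∑ j ∈ J8, f j = ∑ a ∈ range 8, ∑ b ∈ range 8,
    ∑ c ∈ range 8, ∑ d ∈ range 8, f ![a + 1, b + 1, c + 1, d + 1] := by
  simp only [← sum_product']
  refine sum_bij' (fun j _ => (j 0 - 1, j 1 - 1, j 2 - 1, j 3 - 1))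
    (fun x _ => ![x.1 + 1, x.2.1 + 1, x.2.2.1 + 1, x.2.2.2 + 1]) (fun j hj => ?_) (fun x hx => ?_)
    (fun j hj => ?_) (fun x _ => by simp) fun j hj => congrArg f ?_
  · have h := fun a => mem_Icc.1 (Fintype.mem_piFinset.1 hj a)
    simp only [mem_product, mem_range]
    have := h 0; have := h 1; have := h 2; have := h 3
    omega
  · simp only [mem_product, mem_range] at hx
    refine Fintype.mem_piFinset.2 fun a => mem_Icc.2 ?_
    fin_cases a <;> simp <;> omega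
  all_goals
    have h := fun a => Nat.sub_add_cancel (mem_Icc.1 (Fintype.mem_piFinset.1 hj a)).1
    funext a
    fin_cases a <;> simp [h]

theorem J8_pos {j : Fin 4 → ℕ} (hj : j ∈ J8) (a : Fin 4) : 0 < j a :=
  (mem_Icc.1 (Fintype.mem_piFinset.1 hj a)).1

theorem Vol'.asymp {ξ η : Fin 4 → ℕ} {I : (Fin 4 → ℕ) → ℕ} (h : Vol' ξ η I) (hI : ∀ j, 0 < I j)
    (c : Fin 4 → ℕ) {n0 : ℕ} (hn0 : 0 < n0) : ∃ n : ℕ, 0 < n ∧ n0 ∣ n ∧ (∀ a, c a ≤ η a * n) ∧
      ∑ j ∈ J8, ((n * (12600 - ∑ a, ξ a * j a) : ℕ) + 32 : ℝ) ^ 4 / (24 * (∏ a, j a) * I j ^ 3) <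
        ∏ a, ((η a * n - c a : ℕ) : ℝ) := by
  have hJ : J8.Nonempty := ⟨fun _ => 1, by decide⟩
  have hJ1 := @J8_pos
  rw [Vol', ← sum_J8] at h
  unfold vterm at h
  generalize J8 = J at h hJ hJ1
  have h1 : ∑ j ∈ J, ((12600 - ∑ a, ξ a * j a : ℕ) : ℝ) ^ 4 / (24 * (∏ a, j a : ℕ) * I j ^ 3) <
      ∏ a, (η a : ℝ) := by
    have h' := (Nat.cast_le (α := ℝ)).2 h
    rw [Nat.cast_sum, Nat.cast_prod] at h'
    refine (sum_lt_sum_of_nonempty hJ fun j hj => ?_).trans_le h'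
    have h2 : 0 < 24 * (∏ a, j a) * I j ^ 3 :=
      Nat.mul_pos (Nat.mul_pos (by norm_num) (prod_pos fun a _ => hJ1 hj a)) (pow_pos (hI j) _)
    rw [div_lt_iff₀ (by exact_mod_cast h2)]
    exact_mod_cast (Nat.div_lt_iff_lt_mul h2).1 (Nat.lt_succ_self _)
  have hη : ∀ a, 0 < η a := fun a => Nat.pos_of_ne_zero fun h0 => by
    have h2 := (card_nsmul_le_sum J _ 1 fun j _ => Nat.le_add_left 1 _).trans h
    rw [prod_eq_zero (mem_univ a) h0] at h2
    have := card_pos.2 hJ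
    simp at h2
    simp [h2] at this
  let f : ℝ → ℝ := fun ε => ∏ a, ((η a : ℝ) - c a * ε) - ∑ j ∈ J,
    (((12600 - ∑ a, ξ a * j a : ℕ) : ℝ) + 32 * ε) ^ 4 / (24 * (∏ a, j a : ℕ) * I j ^ 3)
  have hf : Continuous f := by fun_prop
  have h2 : Tendsto (fun k : ℕ => ((n0 * k : ℕ) : ℝ)⁻¹) atTop (nhds 0) :=
    tendsto_inv_atTop_zero.comp (tendsto_natCast_atTop_atTop.comp
      (tendsto_id.const_mul_atTop' hn0))
  obtain ⟨k, h3, h4⟩ := ((((hf.tendsto 0).comp h2).eventually_const_lt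
    (show 0 < f 0 by simpa [f] using h1)).and (eventually_ge_atTop (∑ a, c a + 1))).exists
  have hn : 0 < n0 * k := Nat.mul_pos hn0 (by omega)
  have h5 : ∀ a, c a ≤ η a * (n0 * k) := fun a => by
    have h6 := single_le_sum (f := c) (fun _ _ => Nat.zero_le _) (mem_univ a)
    exact (by omega : c a ≤ k).trans ((Nat.le_mul_of_pos_left k hn0).trans
      (Nat.le_mul_of_pos_left _ (hη a)))
  refine ⟨n0 * k, hn, dvd_mul_right _ _, h5, ?_⟩
  simp only [Function.comp, f, sub_pos] at h3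
  generalize n0 * k = n at h3 hn h5
  have hn' : (0 : ℝ) < n := by exact_mod_cast hn
  have h6 := mul_lt_mul_of_pos_left h3 (pow_pos hn' 4)
  refine (h6.trans_eq' ?_).trans_eq ?_
  · rw [mul_sum]
    symm
    refine sum_congr rfl fun j _ => ?_
    rw [Nat.cast_mul, ← mul_div_assoc, ← mul_pow]
    congr 2
    field_simp
  · rw [show (n : ℝ) ^ 4 = ∏ _a : Fin 4, (n : ℝ) by simp, ← prod_mul_distrib]
    refine prod_congr rfl fun a _ => ?_
    rw [Nat.cast_sub (h5 a), Nat.cast_mul]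
    field_simp

end Pool.Agent.Lib.MP_813db1_ag.PQ
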