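import Pool.Agent.Lib.MP_813db1_ag.VA8
import Pool.Agent.Lib.MP_813db1_ag.VB1
import Pool.Agent.Lib.MP_813db1_ag.SC2

/-! Functions on a product of four curves vanishing to high order at common fixed points. -/

namespace Pool.Agent.Lib.MP_813db1_ag.PQ

open WithZero Finset
open scoped IntermediateField

variable {L : Type} [Field L] [Algebra ℂ L] {G : Type} [Group G]

/-- There is a function with small poles vanishing to high order at the common fixed points. -/
def Sec (ρ : G →* (L ≃ₐ[ℂ] L)) (C : Fin 4 → IntermediateField ℂ L) (t : ∀ a, C a)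
    (ξ η : Fin 4 → ℕ) : Prop :=
  ∀ D : Fin 4 → Derivation ℂ L L, (∀ a, ∀ x ∈ C a, D a x ∈ C a) →
    (∀ a, ∀ x ∈ C a, D a x = 0 → ∃ c, algebraMap ℂ L c = x) →
    (∀ a b, a ≠ b → ∀ x ∈ C b, D a x = 0) → ∀ B : Fin 4 → Finset (Option ℂ),
    (∀ a p, p ∈ B a ↔ 5 ≤ ram (t a) p) → ∀ q0 : Fin 4 → ℂ, (∀ a, ram (t a) (some (q0 a)) = 1) →
    ∀ n0 : ℕ, 0 < n0 → ∃ n : ℕ, 0 < n ∧ n0 ∣ n ∧ ∃ s : L, s ≠ 0 ∧
      (∀ w : Valuation L Γ, Triv w → w s ≤
        ∏ a, max 1 (w ((t a - algebraMap ℂ (C a) (q0 a))⁻¹ : C a)) ^ (η a * n * (B a).card)) ∧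
      ∀ w : Valuation L Γ, Function.Surjective w → Triv w → ∀ (g : G) (r : ℕ)
        (p : Fin 4 → Option ℂ) (j : Fin 4 → ℕ), 5 ≤ r → Rot ρ w g (zt 1 r) →
        (∀ a, 0 < j a ∧ w (yy (t a) (p a) : C a) = exp (-(j a * r : ℤ))) →
        w s ≤ exp (r * n * (∑ a, ξ a * j a - 12600 : ℤ))

theorem sec_count [Finite G] {ρ : G →* (L ≃ₐ[ℂ] L)} (hρ : Function.Injective ρ)
    (C : Fin 4 → IntermediateField ℂ L) (t : ∀ a, C a) (ρC : ∀ a, G →* (C a ≃ₐ[ℂ] C a))
    (hρC : ∀ a g x, (ρC a g x : L) = ρ g x) (hc : ∀ a, Cov (ρC a) (t a))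
    (u0 : ∀ a, Option ℂ → Valuation (C a) Γ) (z : Fin 4 → Option ℂ → G)
    (hb : ∀ a, Bases (ρC a) (t a) (u0 a) (z a))
    (ξ η : Fin 4 → ℕ) (I : (Fin 4 → ℕ) → ℕ) (hI0 : ∀ j, 0 < I j)
    (hξ : ∀ a, 1050 ≤ ξ a) (hI : ∀ (j : Fin 4 → ℕ) (g : G) (p : Fin 4 → Option ℂ),
      5 ≤ orderOf g → (∀ a, IsConj (z a (p a) ^ j a) g) →
      I j ≤ (Subgroup.centralizer {g}).index) (hV : Vol' ξ η I) : Sec ρ C t ξ η := by
  intro D hD1 hD2 hD3 B hB q0 hq0 n0 hn0
  replace hq0 : ∀ a, some (q0 a) ∉ B a := fun a h => by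
    have := (hB a _).1 h
    have := hq0 a
    omega
  replace hB := fun a p => (hB a p).2
  classical
  have := Fintype.ofFinite G
  by_cases hne : ∃ a, B a = ∅
  · obtain ⟨a, ha⟩ := hne
    refine ⟨n0, hn0, dvd_rfl, 1, one_ne_zero, fun w _ => ?_, fun w hs hw g r p j hr hg hp => ?_⟩
    · rw [map_one]
      exact one_le_prod' fun a _ => one_le_pow_of_one_le' (le_max_left _ _) _
    · obtain ⟨u, -, -, -, -, -, h1, -⟩ := (hc a).restrict hρ (hρC a) hs hw (by omega) (hp a).1 hg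
        (hp a).2
      simpa [ha] using hB a (p a) (hr.trans (Nat.le_of_dvd ((hc a).ram_pos _) h1))
  push Not at hne
  choose c hsec using fun a => (((hc a).loc (some (q0 a))).loc none).sections
  obtain ⟨n, hn, hdvd, hcn, hcount⟩ := hV.asymp hI0 c hn0
  have hM : ∀ a, c a ≤ η a * n * (B a).card := fun a =>
    (hcn a).trans (Nat.le_mul_of_pos_right _ (card_pos.2 (hne a)))
  choose f hf1 hf2 using fun a => hsec a (η a * n * (B a).card - c a)
  simp only [Nat.sub_add_cancel (hM _)] at hf2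
  have hu1 := fun a => (hb a).surj
  have hu2 := fun a => (hb a).triv
  have hu4 := fun a => (hb a).card
  have hπ : ∀ a (u : Valuation (C a) Γ), ∃ π, Function.Surjective u → u π = exp (-1) :=
    fun a u => by
      by_cases h : Function.Surjective u
      · exact (h _).imp fun π hπ _ => hπ
      · exact ⟨0, fun h' => absurd h' h⟩
  choose π hπ using hπ
  have hτ : ∀ a (u : Valuation (C a) Γ) (x : C a), ∃ τ : ℕ → ℂ,
      (∃ p, Function.Surjective u ∧ Triv u ∧ u (yy (t a) p) < 1) → u x ≤ 1 → ∀ B : ℕ, ∃ z,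
      u z ≤ 1 ∧ x = ∑ m ∈ range B, algebraMap ℂ _ (τ m) * π a u ^ m + z * π a u ^ B :=
    fun a u x => by
      by_cases h : ∃ p, Function.Surjective u ∧ Triv u ∧ u (yy (t a) p) < 1
      · obtain ⟨p, h1, h2, h3⟩ := h
        exact (((hc a).loc p).taylor h2 h3 (hπ a u h1) x).imp fun τ hτ _ => hτ
      · exact ⟨0, fun h' => absurd h' h⟩
  choose τ hτ using hτ
  let e : (Fin 4 → Option ℂ) → Fin 4 → ℕ := fun p a => ram (t a) (p a)
  have he : ∀ p a, 0 < e p a := fun p a => (hc a).ram_pos _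
  let Tup := fun (p : Fin 4 → Option ℂ) (j : Fin 4 → ℕ) =>
    (univ.filter fun g : G => I j ≤ (Subgroup.centralizer {g}).index).biUnion fun g =>
      Fintype.piFinset fun a => AA (ρC a) (u0 a (p a)) (zt (j a) (e p a)) g
  let Mon := fun (p : Fin 4 → Option ℂ) (j : Fin 4 → ℕ) =>
    (Fintype.piFinset fun _ : Fin 4 => range (12600 * n * ∑ a, e p a)).filter fun m =>
      ∑ a, (m a : ℝ) * (j a / e p a) < (n * (12600 - ∑ a, ξ a * j a) : ℕ)
  let Ω := (Fintype.piFinset B).biUnion fun p => J8.biUnion fun j => Tup p j ×ˢ Mon p j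
  have hcard : Ω.card < Fintype.card (∀ a, Fin (η a * n * (B a).card - c a) × Fin (Nat.card G)) := by
    have h1 : ∀ p, ∀ j ∈ J8, ((Tup p j ×ˢ Mon p j).card : ℝ) ≤ (Fintype.card G : ℝ) ^ 4 *
        (((n * (12600 - ∑ a, ξ a * j a) : ℕ) + 32 : ℝ) ^ 4 / (24 * (∏ a, j a) * I j ^ 3)) := by
      intro p j hj
      have h2 := (Nat.mul_le_mul_right _ (card_biUnion_le.trans_eq (sum_congr rfl fun g _ =>
        Fintype.card_piFinset _))).trans (tuples ρC (fun a => (hc a).inj) (fun a => u0 a (p a))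
          (fun a => hu1 a _) (fun a => hu2 a _) (fun a => zt (j a) (e p a)) (fun a => zt_ne _ _)
          (I j) (univ.filter fun g : G => I j ≤ (Subgroup.centralizer {g}).index)
          fun g hg => (mem_filter.1 hg).2)
      simp only [hu4] at h2
      have h3 : ((Tup p j).card : ℝ) * ((∏ a, (e p a : ℝ)) * I j ^ 3) ≤
          (Fintype.card G : ℝ) ^ 4 := by exact_mod_cast h2
      have h4 : ∀ a, (0 : ℝ) < e p a := fun a => by exact_mod_cast he p a
      have h5 : ∀ a, (0 : ℝ) < j a := fun a => by exact_mod_cast J8_pos hj a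
      have h11 : ∑ a, (j a : ℝ) / e p a ≤ 32 :=
        (sum_le_sum (g := fun _ => (8 : ℝ)) fun a _ => (div_le_self (h5 a).le
          (by exact_mod_cast he p a)).trans (by
            exact_mod_cast (mem_Icc.1 (Fintype.mem_piFinset.1 hj a)).2)).trans_eq (by norm_num)
      have h6 := (simplex (12600 * n * ∑ a, e p a) 4 (fun a => (j a : ℝ) / e p a)
        (fun a => div_pos (h5 a) (h4 a)) (n * (12600 - ∑ a, ξ a * j a) : ℕ)
        (Nat.cast_nonneg _)).trans (pow_le_pow_left₀ (add_nonneg (Nat.cast_nonneg _)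
          (sum_nonneg fun a _ => (div_pos (h5 a) (h4 a)).le)) (add_le_add_right h11 _) 4)
      have h7 := mul_le_mul h3 h6 (by positivity) (by positivity)
      have h8 : 0 < ∏ a, (e p a : ℝ) := prod_pos fun a _ => h4 a
      have h9 : 0 < ∏ a, (j a : ℝ) := prod_pos fun a _ => h5 a
      have h10 : (0 : ℝ) < I j := by exact_mod_cast hI0 j
      rw [card_product, Nat.cast_mul, ← mul_div_assoc, Nat.cast_prod, le_div_iff₀ (by positivity)]
      refine h7.trans_eq' ?_
      rw [prod_div_distrib]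
      simp only [Mon, Nat.factorial]
      field_simp
      norm_num
    have h0 : Ω.card ≤ _ := card_biUnion_le.trans (sum_le_sum fun p _ => card_biUnion_le)
    have h2 := ((Nat.cast_le (α := ℝ)).2 h0).trans ((Nat.cast_sum _ _).trans_le
      (sum_le_sum fun p _ => (Nat.cast_sum _ _).trans_le (sum_le_sum (h1 p))))
    rw [sum_const, ← mul_sum, Fintype.card_piFinset, nsmul_eq_mul] at h2
    have h3 : (0 : ℝ) < (∏ a, (B a).card : ℕ) := by
      exact_mod_cast prod_pos fun a _ => card_pos.2 (hne a)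
    have h4 : (0 : ℝ) < (Fintype.card G : ℝ) ^ 4 := by
      have := Fintype.card_pos (α := G)
      positivity
    have h5 := h2.trans_lt (mul_lt_mul_of_pos_left (mul_lt_mul_of_pos_left hcount h4) h3)
    rw [← Nat.cast_prod] at h5
    refine lt_of_lt_of_le (by exact_mod_cast h5) ?_
    rw [Fintype.card_pi, show ∀ x : ℕ, x ^ 4 = ∏ _a : Fin 4, x by simp, ← prod_mul_distrib,
      ← prod_mul_distrib]
    refine prod_le_prod' fun a _ => ?_
    rw [Fintype.card_prod, Fintype.card_fin, Fintype.card_fin, Nat.card_eq_fintype_card,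
      mul_left_comm, mul_comm]
    refine Nat.mul_le_mul_right _ ?_
    rw [Nat.mul_sub, mul_comm]
    exact Nat.sub_le_sub_left (Nat.le_mul_of_pos_left _ (card_pos.2 (hne a))) _
  obtain ⟨k, hk1, hk2⟩ := Fintype.not_linearIndependent_iff.1 fun h : LinearIndependent ℂ
    fun (i : ∀ a, Fin (η a * n * (B a).card - c a) × Fin (Nat.card G)) (x : Ω) =>
      ∏ a, τ a (x.1.1 a) (f a (i a)) (x.1.2 a) => by
    have := h.fintype_card_le_finrank
    rw [Module.finrank_fintype_fun_eq_card, Fintype.card_coe] at this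
    omega
  have hS1 : ∀ w : Valuation L Γ, Triv w → w (∑ i, algebraMap ℂ L (k i) * ∏ a, (f a (i a) : L)) ≤
      ∏ a, max 1 (w ((t a - algebraMap ℂ (C a) (q0 a))⁻¹ : C a)) ^ (η a * n * (B a).card) :=
    fun w hw => w.map_sum_le fun i _ => by
      rw [map_mul, map_prod]
      exact (mul_le_of_le_one_left' (hw _)).trans
        (prod_le_prod' fun a _ => hf2 a _ _ (hw.restr (C a)))
  refine ⟨n, hn, hdvd, _, fun h0 => ?_, hS1, fun w hs hw g r p j hr hg hp => ?_⟩
  · obtain ⟨i, hi⟩ := hk2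
    exact hi (Fintype.linearIndependent_iff.1 (indep_prod 4 C D _ f hD1 hD2 hD3 hf1) k
      (by simpa only [Algebra.smul_def] using h0) i)
  choose u h1 h2 h3 h4 h5 h6 α h7 h8 using fun a =>
    (hc a).restrict hρ (hρC a) hs hw (by omega) (hp a).1 hg (hp a).2
  have hpB : ∀ a, p a ∈ B a := fun a => hB a _ (hr.trans (Nat.le_of_dvd (he p a) (h6 a)))
  have hY : ∀ a, u a (t a - algebraMap ℂ (C a) (q0 a))⁻¹ ≤ 1 := fun a => by
    obtain ⟨e', he', h9⟩ := exists_pos ((hc a).loc (p a)).ne (h3 a)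
    rw [map_inv₀, val_sub (h2 a) (by omega) h9, ← exp_neg, ← exp_zero, exp_le_exp]
    have h10 := hpB a
    generalize p a = p' at h10
    rcases p' with _ | q
    · simp
    · simp [show q ≠ q0 a from fun h => hq0 a (h ▸ h10)]
  by_cases hj : 12600 ≤ ∑ a, ξ a * j a
  · refine (hS1 w hw).trans ((prod_le_one' fun a _ => ?_).trans ?_)
    · rw [max_eq_left ((h4 a _).1 (hY a)), one_pow]
    · rw [← exp_zero, exp_le_exp]
      have : (12600 : ℤ) ≤ ∑ a, ξ a * j a := by exact_mod_cast hj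
      exact mul_nonneg (by positivity) (by omega)
  have hord : orderOf g = r := hg.order hρ (by omega) hw hs
  have hjJ : j ∈ J8 := Fintype.mem_piFinset.2 fun a => mem_Icc.2 ⟨(hp a).1, by
    have h9 := (sum_le_sum fun b _ => Nat.mul_le_mul (hξ b) (hp b).1).trans
      (le_refl (∑ b ∈ univ.erase a, ξ b * j b))
    have h10 := Nat.mul_le_mul_right (j a) (hξ a)
    rw [← add_sum_erase _ _ (mem_univ a)] at hj
    simp at h9
    omega⟩
  have hT : u ∈ Tup p j := mem_biUnion.2 ⟨g, mem_filter.2 ⟨mem_univ _, hI j g p (by omega)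
    fun a => (hb a).conj (hc a) (h1 a) (h2 a) (h3 a) (h5 a)⟩, Fintype.mem_piFinset.2 fun a => by
      obtain ⟨h, hh⟩ := (hb a).trans _ _ (h1 a) (h2 a) (h3 a)
      exact mem_image.2 ⟨h, mem_filter.2 ⟨mem_univ _, hh ▸ h5 a⟩, hh.symm⟩⟩
  refine expand hw k _ (fun a => (π a (u a) : L)) (fun i a => τ a (u a) (f a (i a)))
    (12600 * n * ∑ a, e p a) _ (fun i a => ?_) fun m hm => ?_
  · obtain ⟨z, hz1, hz2⟩ := hτ a (u a) (f a (i a)) ⟨_, h1 a, h2 a, h3 a⟩
      ((hf2 a _ _ (h2 a)).trans_eq (by simp only [yy, max_eq_left (hY a), one_pow])) (12600 * n * ∑ a, e p a)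
    exact ⟨z, (h4 a z).1 hz1, (congrArg Subtype.val hz2).trans (by push_cast; rfl)⟩
  have h9 : ∀ a, (0 : ℝ) < e p a := fun a => by exact_mod_cast he p a
  by_cases hm' : ∑ a, (m a : ℝ) * (j a / e p a) < (n * (12600 - ∑ a, ξ a * j a) : ℕ)
  · have h10 : ∀ a, m a < 12600 * n * ∑ a, e p a := fun a => by
      have h11 := (single_le_sum (f := fun a => (m a : ℝ) * (j a / e p a))
        (fun _ _ => by positivity) (mem_univ a)).trans_lt hm'
      rw [← mul_div_assoc, div_lt_iff₀ (h9 a)] at h11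
      refine (Nat.le_mul_of_pos_right _ (hp a).1).trans_lt (lt_of_lt_of_le (by exact_mod_cast h11)
        (Nat.mul_le_mul ?_ (single_le_sum (f := e p) (fun _ _ => Nat.zero_le _) (mem_univ a))))
      rw [mul_comm 12600]
      exact Nat.mul_le_mul_left _ (Nat.sub_le _ _)
    have := congrFun hk1 ⟨(u, m), mem_biUnion.2 ⟨p, Fintype.mem_piFinset.2 hpB, mem_biUnion.2
      ⟨j, hjJ, mem_product.2 ⟨hT, mem_filter.2 ⟨Fintype.mem_piFinset.2 fun a =>
        mem_range.2 (h10 a), hm'⟩⟩⟩⟩⟩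
    exact Or.inr ⟨h10, by simpa using this⟩
  · refine Or.inl ?_
    simp only [map_prod, map_pow, h8 _ _ (hπ _ _ (h1 _)), ← exp_nsmul, prod_exp, exp_le_exp]
    have h10 : ∀ a, (α a : ℝ) = r * (j a / e p a) := fun a => by
      have h11 : (e p a : ℝ) * α a = j a * r := by exact_mod_cast h7 a
      rw [← mul_div_assoc, eq_div_iff (h9 a).ne']
      linarith
    rw [not_lt, Nat.cast_mul, Nat.cast_sub (not_le.1 hj).le] at hm'
    have h11 := mul_le_mul_of_nonneg_left hm' (Nat.cast_nonneg (α := ℝ) r)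
    rw [← Int.cast_le (R := ℝ)]
    simp only [nsmul_eq_mul]
    push_cast at h11 ⊢
    simp only [h10, mul_neg, sum_neg_distrib, mul_left_comm _ (r : ℝ), ← mul_sum]
    linarith

end Pool.Agent.Lib.MP_813db1_ag.PQ
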