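import Pool.Agent.Lib.MP_813db1_ag.DS3
import Pool.Agent.Lib.MP_813db1_ag.DS4
import Pool.Agent.Lib.MP_813db1_ag.VB3

/-! Invariant functions on products of curves whose quotients by the centre are lines. -/

namespace Pool.Agent.Lib.MP_813db1_ag.PQ

open WithZero Finset
open scoped IntermediateField

variable {L : Type} [Field L] [Algebra ℂ L] {G : Type} [Group G] [Finite G]
  {ρ : G →* (L ≃ₐ[ℂ] L)}

omit [Finite G] in
theorem Rot.dvd {w : Valuation L Γ} (hw : Triv w) {g : G} {r : ℕ} (hr : r ≠ 0)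
    (h : Rot ρ w g (zt 1 r)) {x : L} (hx : ρ g x = x) {k : ℤ} (hk : w x = exp (-k)) :
    (r : ℤ) ∣ k := by
  rw [← (zt_prim hr).zpow_eq_one_iff_dvd]
  by_contra hne
  have h1 := h x k hk
  rw [hx, ← one_sub_mul, ← map_one (algebraMap ℂ L), ← map_sub, map_mul,
    hw.eq_one (sub_ne_zero.2 (Ne.symm hne)), one_mul] at h1
  exact lt_irrefl _ h1

theorem pair {E E' : IntermediateField ℂ L} {t Y ψ : E} {t' Y' ψ' : E'}
    {ρE : G →* (E ≃ₐ[ℂ] E)} {ρE' : G →* (E' ≃ₐ[ℂ] E')} (hρ : ∀ g x, (ρE g x : L) = ρ g x)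
    (hρ' : ∀ g x, (ρE' g x : L) = ρ g x) {P P' : Set (Option ℂ)} {z z' : Option ℂ → G}
    {θ : Fin 3 → E} {θ' : Fin 3 → E'} {A A' : G → Matrix (Fin 3) (Fin 3) ℂ}
    (h : Vec ρE t Y P z θ ψ A) (h' : Vec ρE' t' Y' P' z' θ' ψ' A') (D : Derivation ℂ L L)
    (h1 : ∀ x ∈ E, D x ∈ E) (h2 : ∀ x ∈ E, D x = 0 → ∃ c, algebraMap ℂ L c = x)
    (h3 : ∀ x ∈ E', D x = 0) : ∃ s : L, s ≠ 0 ∧ (∀ w : Valuation L Γ, Triv w →
      w s ≤ max 1 (w Y) ^ 2 * max 1 (w Y') ^ 2) ∧ ∀ w : Valuation L Γ, Triv w → ∀ (g : G) (r : ℕ),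
        0 < r → Rot ρ w g (zt 1 r) → ∀ p ∈ P, ∀ p' ∈ P', ∀ j j' o I : ℕ, 0 < j → 0 < j' →
        oc G (z p) = o → oc G (z' p') = o → (Subgroup.center G).index = o * I →
        w (yy t p : E) = exp (-(j * r : ℤ)) → w (yy t' p' : E') = exp (-(j' * r : ℤ)) →
        w s ≤ exp (-(r * (I * ((j + j') % o) : ℕ) : ℤ)) := by
  classical
  have := Fintype.ofFinite G
  obtain ⟨i, i', hS⟩ : ∃ i i', ∑ g, ρ g (θ i * θ' i') ≠ 0 := by
    by_contra h0
    push Not at h0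
    have h4 := Fintype.linearIndependent_iff.1 (linearIndependent_smul h.ind
      (indep_const E D h1 h2 (fun i => (θ' i : L)) (fun i => h3 _ (θ' i).2)
        (h'.ind.map' E'.val.toLinearMap (LinearMap.ker_eq_bot.2 Subtype.val_injective))))
    have h5 : ∀ i i', ∑ g, A g i i * A' g i' i' = 0 := fun i i' =>
      h4 (fun k => ∑ g, A g k.1 i * A' g k.2 i') (by
        rw [← h0 i i']
        simp only [sum_smul, map_mul, ← hρ, ← hρ', h.act, h'.act]
        rw [sum_comm]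
        refine sum_congr rfl fun g _ => ?_
        push_cast
        rw [sum_mul_sum, Fintype.sum_prod_type]
        refine sum_congr rfl fun k _ => sum_congr rfl fun k' _ => ?_
        simp [IntermediateField.smul_def, mul_smul, smul_comm (A g k i)]) (i, i')
    have h6 : ∑ g, (A g).trace * (A' g).trace = 0 := by
      simp only [Matrix.trace, Matrix.diag, sum_mul_sum]
      rw [sum_comm]
      exact sum_eq_zero fun i _ => by rw [sum_comm]; exact sum_eq_zero fun i' _ => h5 i i'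
    simp only [h.tr, h'.tr] at h6
    have h7 : ∑ g, tau (oc G g) * tau (oc G g) = 0 := by exact_mod_cast h6
    simpa [oc, tau] using (sum_eq_zero_iff_of_nonneg fun _ _ => mul_self_nonneg _).1 h7 1
      (mem_univ _)
  have hmax : ∀ w : Valuation L Γ, ∃ g0, w (∑ g, ρ g (θ i * θ' i')) ≤
      w (ρE g0 (θ i)) * w (ρE' g0 (θ' i')) := fun w => by
    obtain ⟨g0, -, h4⟩ := exists_max_image univ (fun g => w (ρ g (θ i * θ' i'))) univ_nonempty
    exact ⟨g0, (w.map_sum_le h4).trans_eq (by rw [map_mul, map_mul, hρ, hρ'])⟩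
  refine ⟨(∑ g, ρ g (θ i * θ' i')) ^ (Subgroup.center G).index * ψ * ψ', mul_ne_zero (mul_ne_zero
    (pow_ne_zero _ hS) fun h0 => h.ne (Subtype.ext h0)) fun h0 => h'.ne (Subtype.ext h0),
    fun w hw => ?_, fun w hw g r hr hg p hp p' hp' j j' o I hj hj' ho ho' hm hy hy' => ?_⟩
  · obtain ⟨g0, h4⟩ := hmax w
    rw [map_mul, map_mul, map_pow, mul_assoc]
    refine (mul_le_mul_left (pow_le_pow_left' h4 _) _).trans ?_
    rw [mul_pow, mul_mul_mul_comm]
    exact mul_le_mul' (h.pole _ (hw.restr E) g0 i) (h'.pole _ (hw.restr E') g0 i')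
  · obtain ⟨g0, h4⟩ := hmax w
    obtain ⟨h5, h6⟩ := h.zero _ (hw.restr E) p hp _ (by positivity) hy
    obtain ⟨h5', h6'⟩ := h'.zero _ (hw.restr E') p' hp' _ (by positivity) hy'
    obtain ⟨k, hk⟩ := exists_ord (w := w) hS
    obtain ⟨k, rfl⟩ := hg.dvd hw hr.ne' (by
      rw [map_sum]
      exact Fintype.sum_equiv (Equiv.mulLeft g) _ _ fun f => by simp) hk
    have h7 := (pow_le_pow_left' h4 o).trans ((mul_pow _ _ _).trans_le
      (mul_le_mul' (ho ▸ h6 g0 i) (ho' ▸ h6' g0 i')))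
    have h8 := oc_pos (z p)
    have h9 : ∀ g, oc G g = o → (kc G g : ℤ) = o * I - I := fun g hg => by
      rw [kc, hg, hm, Nat.mul_div_cancel_left _ (ho ▸ h8),
        Nat.cast_sub (Nat.le_mul_of_pos_left _ (ho ▸ h8)), Nat.cast_mul]
    rw [hk, ← exp_nsmul, ← exp_add, exp_le_exp, nsmul_eq_mul] at h7
    rw [map_mul, map_mul, map_pow, hk, show w ψ = _ from h5, show w ψ' = _ from h5', h9 _ ho,
      h9 _ ho', ← exp_nsmul, ← exp_add, ← exp_add, exp_le_exp, hm, nsmul_eq_mul]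
    have h10 : (0 : ℤ) ≤ o * (k - j - j') + (j + j') :=
      nonneg_of_mul_nonneg_right (a := (r : ℤ)) (by linarith) (by omega) |> fun h => h
    have h11 : ((j + j' : ℕ) : ℤ) % o ≤ o * (k - j - j') + (j + j') := by
      obtain ⟨n, hn⟩ := Int.eq_ofNat_of_zero_le h10
      rw [← Int.mul_add_emod_self_left o (k - j - j'), Nat.cast_add, hn]
      exact_mod_cast Nat.mod_le _ _
    have h12 := mul_le_mul_of_nonneg_left h11 (by positivity : (0 : ℤ) ≤ r * I)
    push_cast at h12 ⊢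
    linarith

theorem sec_disc (hρ : Function.Injective ρ)
    (C : Fin 4 → IntermediateField ℂ L) (t : ∀ a, C a) (ρC : ∀ a, G →* (C a ≃ₐ[ℂ] C a))
    (hρC : ∀ a g x, (ρC a g x : L) = ρ g x) (hc : ∀ a, Cov (ρC a) (t a))
    (u0 : ∀ a, Option ℂ → Valuation (C a) Γ) (z : Fin 4 → Option ℂ → G)
    (hb : ∀ a, Bases (ρC a) (t a) (u0 a) (z a)) (τ : Fin 4 → Bool) (hτ : 2 ≤ ∑ a, (τ a).toNat)
    {o I x y η : ℕ} (ho : o = 4 ∧ I = 6 ∧ x = 3 ∧ y = 6 ∧ η = 525 ∨
      o = 3 ∧ I = 4 ∧ x = 1 ∧ y = 3 ∧ η = 1050) (hm : (Subgroup.center G).index = o * I)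
    (hord : ∀ g, oc G g ∈ [1, 2, 3, 4, 6]) (hA : ∀ a, τ a → ∃ c,
      (∀ p, 5 ≤ ram (t a) p ↔ p = c) ∧ oc G (z a c) = o ∧ (o = 3 → ram (t a) c = 12) ∧
      ∃ T : Finset (Option ℂ), (∀ p, 2 ≤ ram (t a) p → p ∈ T) ∧
        ∑ p ∈ T, kc G (z a p) + 2 = 2 * (Subgroup.center G).index) :
    Sec ρ C t (fun a => η * if τ a then x else y) fun a => if τ a then η else 0 := by
  classical
  intro D hD1 hD2 hD3 B hB q0 hq0 n0 hn0
  choose c hc1 hc2 hc3 T hT1 hT2 using hA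
  choose θ ψ A hV using fun a h => disc_factor (hc a) (hb a) (hq0 a) (T a h) (hT1 a h) (hT2 a h) hord
  have h1 : ∀ v : Fin 4 × Fin 4, ∃ s : L, s ≠ 0 ∧ (∀ w : Valuation L Γ, Triv w → w s ≤
      ∏ a, max 1 (w ((t a - algebraMap ℂ (C a) (q0 a))⁻¹ : C a)) ^ (if v.1 < v.2 ∧ τ v.1 ∧ τ v.2
        then (if v.1 = a then 2 else 0) + if v.2 = a then 2 else 0 else 0)) ∧
      ∀ w : Valuation L Γ, Triv w → ∀ (g : G) (r : ℕ) (p : Fin 4 → Option ℂ) (j : Fin 4 → ℕ),
        0 < r → Rot ρ w g (zt 1 r) → (∀ a, 5 ≤ ram (t a) (p a)) →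
        (∀ a, 0 < j a ∧ w (yy (t a) (p a) : C a) = exp (-(j a * r : ℤ))) →
        w s ≤ exp (-(r * (if v.1 < v.2 ∧ τ v.1 ∧ τ v.2 then I * ((j v.1 + j v.2) % o)
          else 0 : ℕ) : ℤ)) := fun v => by
    split_ifs with h
    · obtain ⟨s, h2, h3, h4⟩ := pair (hρC _) (hρC _) (hV _ h.2.1) (hV _ h.2.2) (D v.1) (hD1 _)
        (hD2 _) (hD3 _ _ h.1.ne)
      have h5 : ∀ a p, 5 ≤ ram (t a) p → p ≠ some (q0 a) := by
        rintro a _ hp rfl
        have := hq0 a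
        omega
      refine ⟨s, h2, fun w hw => (h3 w hw).trans_eq ?_, fun w hw g r p j hr hg h6 hp =>
        h4 w hw g r hr hg _ (h5 _ _ (h6 _)) _ (h5 _ _ (h6 _)) _ _ _ _ (hp _).1 (hp _).1
          ((hc1 _ h.2.1 _).1 (h6 _) ▸ hc2 _ _) ((hc1 _ h.2.2 _).1 (h6 _) ▸ hc2 _ _) hm (hp _).2
          (hp _).2⟩
      simp only [pow_add, prod_mul_distrib, pow_ite, pow_zero, prod_ite_eq, mem_univ, if_true]
    · exact ⟨1, one_ne_zero, by simp, by simp⟩
  choose s h2 h3 h4 using h1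
  refine ⟨24 * n0, by omega, dvd_mul_left _ _, (∏ v, s v) ^ (η * n0 * pw τ),
    pow_ne_zero _ (prod_ne_zero_iff.2 fun v _ => h2 v), fun w hw => ?_,
    fun w hs hw g r p j hr hg hp => ?_⟩
  · rw [map_pow, map_prod]
    refine (pow_le_pow_left' (prod_le_prod' fun v _ => h3 v w hw) _).trans ?_
    rw [prod_comm, ← prod_pow]
    refine prod_le_prod' fun a _ => ?_
    rw [prod_pow_eq_pow_sum, ← pow_mul, mul_comm, mul_assoc]
    refine pow_le_pow_right' (le_max_left _ _) ((Nat.mul_le_mul_left _ (num1 τ a)).trans ?_)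
    dsimp only
    split_ifs with h
    · rw [show B a = {c a h} from ext fun p => by rw [hB, hc1, mem_singleton], card_singleton]
      exact le_of_eq (by ring)
    · simp
  · choose u h5 h6 h7 h8 h9 h10 _ using fun a =>
      (hc a).restrict hρ (hρC a) hs hw (by omega) (hp a).1 hg (hp a).2
    have h11 := fun a => hr.trans (Nat.le_of_dvd ((hc a).ram_pos _) (h10 a))
    have h12 := num2 (o := o) (I := I) (x := x) (y := y) τ hτ j (fun a => (hp a).1)
      (ho.imp (by omega) fun h => ⟨h.1, h.2.1, h.2.2.1, h.2.2.2.1, if g ^ 6 = 1 then 0 else 1,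
        by split_ifs <;> omega, fun a ha => by
          have h13 := (hb a).conj (hc a) (h5 a) (h6 a) (h7 a) (h9 a)
          have h14 : g ^ 6 = 1 ↔ 12 ∣ j a * 6 := by
            rw [← hc3 a ha h.1, ← (hc1 a ha _).1 (h11 a), ← (hb a).order (hc a),
              orderOf_dvd_iff_pow_eq_one, pow_mul]
            obtain ⟨k, rfl⟩ := isConj_iff.1 h13
            simp [conj_pow]
          simp only [h14]
          split_ifs <;> omega⟩)
    rw [map_pow, map_prod]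
    refine (pow_le_pow_left' (prod_le_prod' fun v _ => h4 v w hw g r p j (by omega) hg h11 hp)
      _).trans ?_
    rw [prod_exp, ← exp_nsmul, exp_le_exp, sum_neg_distrib, ← mul_sum, ← Nat.cast_sum]
    have h13 := mul_le_mul_of_nonneg_left ((Nat.cast_le (α := ℤ)).2 h12)
      (by positivity : (0 : ℤ) ≤ r * n0 * η)
    have h14 : (η * y * 4 : ℤ) = 12600 := by rcases ho with h | h <;> simp [h]
    rw [← h14, nsmul_eq_mul]
    simp only [Nat.cast_mul, Nat.cast_add, Nat.cast_ofNat, Nat.cast_sum, mul_assoc (η : ℤ),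
      ← mul_sum] at h13 ⊢
    linarith

end Pool.Agent.Lib.MP_813db1_ag.PQ
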