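import Pool.Agent.Lib.MP_813db1_ag.Lat
import Pool.Agent.Lib.MP_813db1_ag.Der

/-! The residue form and adapted frames. -/

namespace Pool.Agent.Lib.MP_813db1_ag

open Module Finset Matrix

/-- Logarithmic derivative along a character. -/
noncomputable def lg {k K M : Type} [Field k] [Field K] [Algebra k K] [AddCommGroup M]
    (χ : AddChar M K) (D : Derivation k K K) : M →+ K :=
  AddMonoidHom.mk' (fun m => (χ m)⁻¹ * D (χ m)) (fun a b => by
    have ha := (χ.val_isUnit a).ne_zero
    have hb := (χ.val_isUnit b).ne_zero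
    rw [χ.map_add_eq_mul, D.leibniz, smul_eq_mul, smul_eq_mul]
    field_simp
    ring)

theorem chi_ne {K M : Type} [Field K] [AddCommGroup M] (χ : AddChar M K) (m : M) : χ m ≠ 0 :=
  (χ.val_isUnit m).ne_zero

theorem der_chi {k K M : Type} [Field k] [Field K] [Algebra k K] [AddCommGroup M]
    (χ : AddChar M K) (D : Derivation k K K) (m : M) : D (χ m) = χ m * lg χ D m := by
  simp only [lg, AddMonoidHom.mk'_apply]
  rw [← mul_assoc, mul_inv_cancel₀ (chi_ne χ m), one_mul]

theorem addHom_eq {M N σ : Type} [AddCommGroup M] [AddCommGroup N] [Fintype σ] (b : Basis σ ℤ M)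
    (ψ : M →+ N) (m : M) : ψ m = ∑ x, b.repr m x • ψ (b x) := by
  conv_lhs => rw [← b.sum_repr m]
  rw [map_sum]
  simp only [map_zsmul]

theorem exists_extend {κ V X ι : Type} [Field κ] [AddCommGroup V] [Module κ V]
    [Module.Finite κ V] [Fintype ι] {n : ℕ} (θ : ι → V) (hθ : LinearIndependent κ θ)
    (g : X → V) (hg : Submodule.span κ (Set.range g) = ⊤)
    (hn : finrank κ V = Fintype.card ι + n) :
    ∃ f : Fin n → X, LinearIndependent κ (Sum.elim θ (g ∘ f)) := by
  let W := Submodule.span κ (Set.range θ)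
  have hW : finrank κ W = Fintype.card ι := finrank_span_eq_card hθ
  have hq := W.finrank_quotient_add_finrank (R := κ)
  have hsp : Submodule.span κ (Set.range (W.mkQ ∘ g)) = ⊤ := by
    rw [Set.range_comp, ← Submodule.map_span, hg, Submodule.map_top, Submodule.range_mkQ]
  obtain ⟨f, hf, -, hli⟩ := Submodule.exists_fun_fin_finrank_span_eq κ (Set.range (W.mkQ ∘ g))
  have hn' : n = finrank κ (Submodule.span κ (Set.range (W.mkQ ∘ g))) := by
    rw [hsp, finrank_top]; omega
  choose x hx using hf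
  refine ⟨fun c => x (Fin.cast hn' c), ?_⟩
  have h1 : LinearIndependent κ
      (fun i => (⟨θ i, Submodule.subset_span ⟨i, rfl⟩⟩ : W)) :=
    LinearIndependent.of_comp W.subtype hθ
  refine LinearIndependent.sumElim_of_quotient h1 _ ?_
  have h2 := hli.comp (Fin.cast hn') (Fin.cast_injective hn')
  have h3 : (Submodule.Quotient.mk (p := W) ∘ g ∘ fun c => x (Fin.cast hn' c)) =
      f ∘ Fin.cast hn' := funext fun c => hx _
  rw [h3]
  exact h2

theorem der_sum_apply {k K α : Type} [Field k] [Field K] [Algebra k K] (s : Finset α)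
    (y : α → K) (D : α → Derivation k K K) (x : K) :
    (∑ a ∈ s, y a • D a) x = ∑ a ∈ s, y a * D a x := by
  classical
  induction s using Finset.induction_on with
  | empty => simp
  | insert a s ha ih => rw [sum_insert ha, sum_insert ha, Derivation.add_apply, ih]; rfl

/-- A nondegenerate system whose generic point generates `K`. -/
structure Sys (k K : Type) [Field k] [Field K] [Algebra k K] (n : ℕ) (M : Type) [AddCommGroup M]
    (ι : Type) [Fintype ι] (Q : ι → Type) [∀ i, Fintype (Q i)] where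
  e : ∀ i, Q i → M
  c : ∀ i, Q i → k
  χ : AddChar M K
  gen : IntermediateField.adjoin k (Set.range χ) = ⊤
  rel : ∀ i, ∑ q, algebraMap k K (c i q) * χ (e i q) = 0
  nd : ND e c χ
  b : Basis (ι ⊕ Fin n) ℤ M
  D : Basis (Fin n) K (Derivation k K K)

open Classical in
/-- The trivial place. -/
noncomputable def trivPlace (k K : Type) [Field k] [Field K] [Algebra k K] : Place k K where
  v := 1
  hk := fun _ => Valuation.one_apply_le_one _
  κ := K
  ρ := Subalgebra.val _
  ρ_eq_zero := fun x => by rw [Valuation.one_apply_lt_one_iff]; rfl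

theorem Place.det_lift {k K σ : Type} [Field k] [Field K] [Algebra k K] [Fintype σ]
    [DecidableEq σ] (P : Place k K) (A : Matrix σ σ K) (h : ∀ x y, P.v (A x y) ≤ 1) :
    P.v A.det ≤ 1 ∧ P.res A.det = (A.map P.res).det := by
  let A' : Matrix σ σ (Rv P.v P.hk) := Matrix.of fun x y => ⟨A x y, h x y⟩
  have h1 : A.det = (A'.det : K) := by
    have := (Rv P.v P.hk).val.map_det A'
    exact this.symm
  refine ⟨h1 ▸ A'.det.2, ?_⟩
  rw [h1, P.res_coe, P.ρ.map_det]
  congr 1
  ext x y
  exact (P.res_eq (h x y)).symm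

namespace Sys

variable {k K : Type} [Field k] [Field K] [Algebra k K] {n : ℕ} {M : Type} [AddCommGroup M]
  {ι : Type} [Fintype ι] {Q : ι → Type} [∀ i, Fintype (Q i)] (S : Sys k K n M ι Q)

theorem der_eq_zero (D : Derivation k K K) (h : ∀ m, lg S.χ D m = 0) : D = 0 := by
  ext x
  refine der_adjoin D (Set.range S.χ) ?_ x (by rw [S.gen]; trivial)
  rintro _ ⟨m, rfl⟩
  rw [der_chi, h, mul_zero]

theorem rel' (i : ι) (m : M) : ∑ q, algebraMap k K (S.c i q) * S.χ (S.e i q - m) = 0 := by
  simp only [sub_eq_add_neg, S.χ.map_add_eq_mul, ← mul_assoc, ← sum_mul, S.rel, zero_mul]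

theorem rel_lg (D : Derivation k K K) (i : ι) :
    ∑ q, algebraMap k K (S.c i q) * S.χ (S.e i q) * lg S.χ D (S.e i q) = 0 := by
  have := congrArg D (S.rel i)
  rw [map_sum, map_zero] at this
  rw [← this]
  refine sum_congr rfl fun q _ => ?_
  rw [← Algebra.smul_def, D.map_smul, der_chi, smul_mul_assoc]

/-- Logarithmic gradients. -/
noncomputable def Th : Matrix ι (ι ⊕ Fin n) K :=
  Matrix.of fun i x => ∑ q, algebraMap k K (S.c i q) * S.χ (S.e i q) * (S.b.repr (S.e i q) x : K)

/-- Coordinates of a family of exponents. -/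
noncomputable def co (q : Fin n → M) : Matrix (Fin n) (ι ⊕ Fin n) K :=
  Matrix.of fun c x => (S.b.repr (q c) x : K)

/-- Normalised logarithmic gradients. -/
noncomputable def Th' (q0 : ∀ i, Q i) : Matrix ι (ι ⊕ Fin n) K :=
  Matrix.of fun i x => ∑ q, algebraMap k K (S.c i q) * S.χ (S.e i q - S.e i (q0 i)) *
    (S.b.repr (S.e i q - S.e i (q0 i)) x : K)

/-- The frame matrix. -/
noncomputable def U (q0 : ∀ i, Q i) (q : Fin n → M) : Matrix (ι ⊕ Fin n) (ι ⊕ Fin n) K :=
  Matrix.fromRows (S.Th' q0) (S.co q)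

theorem Th_eq (q0 : ∀ i, Q i) (i : ι) (x : ι ⊕ Fin n) :
    S.Th i x = S.χ (S.e i (q0 i)) * S.Th' q0 i x := by
  simp only [Th, Th', Matrix.of_apply, map_sub, Finsupp.sub_apply, Int.cast_sub, mul_sub,
    sum_sub_distrib, ← sum_mul, S.rel', zero_mul, sub_zero, mul_sum]
  refine sum_congr rfl fun q _ => ?_
  have : S.χ (S.e i q) = S.χ (S.e i (q0 i)) * S.χ (S.e i q - S.e i (q0 i)) := by
    rw [← S.χ.map_add_eq_mul, add_sub_cancel]
  rw [this]; ring

theorem Th_mulVec (ψ : M →+ K) (i : ι) : (S.Th *ᵥ fun x => ψ (S.b x)) i =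
    ∑ q, algebraMap k K (S.c i q) * S.χ (S.e i q) * ψ (S.e i q) := by
  simp only [Matrix.mulVec, dotProduct, Th, Matrix.of_apply, sum_mul]
  rw [sum_comm]
  refine sum_congr rfl fun q _ => ?_
  rw [addHom_eq S.b ψ (S.e i q), mul_sum]
  refine sum_congr rfl fun x _ => ?_
  rw [zsmul_eq_mul]; ring

/-- Residues of the normalised gradients are independent. -/
theorem res_indep (P : Place k K) (q0 : ∀ i, Q i)
    (h : ∀ i q, P.v (S.χ (S.e i q - S.e i (q0 i))) ≤ 1) :
    (∀ i x, P.v (S.Th' q0 i x) ≤ 1) ∧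
      LinearIndependent P.κ (fun i x => P.res (S.Th' q0 i x)) := by
  have h1 : ∀ i q (z : ℤ), P.v (algebraMap k K (S.c i q) * S.χ (S.e i q - S.e i (q0 i)) *
      (z : K)) ≤ 1 := fun i q z => by
    rw [map_mul, map_mul]
    exact mul_le_one' (mul_le_one' (P.hk _) (h i q)) (P.v_intCast _)
  refine ⟨fun i x => P.v.map_sum_le fun q _ => h1 i q _, ?_⟩
  rw [Fintype.linearIndependent_iff]
  intro α hα i
  refine congrFun (S.nd P q0 h α fun ψ => ?_) i
  have h2 : ∀ i x, P.res (S.Th' q0 i x) = ∑ q, algebraMap k P.κ (S.c i q) *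
      P.res (S.χ (S.e i q - S.e i (q0 i))) * (S.b.repr (S.e i q - S.e i (q0 i)) x : P.κ) := by
    intro i x
    simp only [Th', Matrix.of_apply]
    rw [P.res_sum _ _ fun q _ => h1 i q _]
    refine sum_congr rfl fun q _ => ?_
    rw [P.res_mul _ (P.v_intCast _), P.res_mul (P.hk _) (h i q), P.res_algebraMap,
      P.res_intCast]
    rw [map_mul]; exact mul_le_one' (P.hk _) (h i q)
  have h3 : ∀ x, ∑ i, α i * P.res (S.Th' q0 i x) = 0 := fun x => by
    simpa using congrFun hα x
  calc _ = ∑ x, (∑ i, α i * P.res (S.Th' q0 i x)) * (ψ (S.b x) : P.κ) := by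
        simp only [h2, sum_mul, mul_sum]
        rw [sum_comm]
        refine sum_congr rfl fun i _ => ?_
        rw [sum_comm]
        refine sum_congr rfl fun q _ => ?_
        rw [addHom_eq S.b ψ (S.e i q - S.e i (q0 i))]
        simp only [smul_eq_mul, Int.cast_sum, Int.cast_mul, mul_sum]
        refine sum_congr rfl fun x _ => ?_
        ring
    _ = 0 := by simp [h3]

variable [DecidableEq ι] [∀ i, Nonempty (Q i)]

theorem exists_eta : ∃ η : Matrix (ι ⊕ Fin n) ι K, S.Th * η = 1 := by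
  classical
  let q0 : ∀ i, Q i := fun i => Classical.arbitrary _
  have h := (S.res_indep (trivPlace k K) q0 fun _ _ => Valuation.one_apply_le_one _).2
  have hres : ∀ x, (trivPlace k K).res x = x := fun x =>
    (trivPlace k K).res_eq (Valuation.one_apply_le_one _)
  have h' : LinearIndependent K (fun i x => S.Th' q0 i x) := by
    have e : (fun i x => (trivPlace k K).res (S.Th' q0 i x)) = fun i x => S.Th' q0 i x := by
      funext i x; exact hres _
    rw [e] at h
    exact h
  have hinj : LinearMap.ker S.Th.vecMulLinear = ⊥ := by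
    rw [LinearMap.ker_eq_bot']
    intro α hα
    rw [Fintype.linearIndependent_iff] at h'
    funext i
    have := h' (fun i => α i * S.χ (S.e i (q0 i))) (by
      funext x
      have := congrFun hα x
      simp only [Matrix.vecMulLinear_apply, Matrix.vecMul, dotProduct, S.Th_eq q0] at this
      simpa [mul_assoc] using this) i
    exact (mul_eq_zero.1 this).resolve_right (chi_ne _ _)
  obtain ⟨g, hg⟩ := LinearMap.exists_leftInverse_of_injective _ hinj
  refine ⟨(LinearMap.toMatrix' g)ᵀ, ?_⟩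
  ext i i'
  have := congrFun (LinearMap.congr_fun hg (Pi.single i 1)) i'
  rw [LinearMap.comp_apply, ← Matrix.toLin'_toMatrix' g, Matrix.toLin'_apply] at this
  simp only [Matrix.vecMulLinear_apply, Matrix.single_one_vecMul, LinearMap.id_apply] at this
  rw [Matrix.one_apply, Pi.single_apply] at *
  simp only [eq_comm (a := i')] at this
  rw [← this]
  simp only [Matrix.mul_apply, Matrix.mulVec, dotProduct, Matrix.transpose_apply, mul_comm]
  rfl

/-- Logarithmic derivatives of the basis. -/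
noncomputable def La : Matrix (ι ⊕ Fin n) (Fin n) K :=
  Matrix.of fun x a => lg S.χ (S.D a) (S.b x)

omit [DecidableEq ι] [∀ i, Nonempty (Q i)] in
theorem La_mulVec (y : Fin n → K) :
    S.La *ᵥ y = fun x => lg S.χ (∑ a, y a • S.D a) (S.b x) := by
  funext x
  simp only [La, Matrix.mulVec, dotProduct, Matrix.of_apply, lg, AddMonoidHom.mk'_apply,
    der_sum_apply, mul_sum]
  refine sum_congr rfl fun a _ => ?_
  ring

omit [DecidableEq ι] [∀ i, Nonempty (Q i)] in
theorem Th_La : S.Th * S.La = 0 := by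
  ext i a
  exact (S.Th_mulVec (lg S.χ (S.D a)) i).trans (S.rel_lg _ i)

theorem main_alg : (∃ h0 : K, h0 ≠ 0 ∧ ∀ (q0 : ∀ i, Q i) (q : Fin n → M),
      (Matrix.of fun a c => lg S.χ (S.D a) (q c)).det =
        h0 * (∏ i, S.χ (S.e i (q0 i))) * (S.U q0 q).det) ∧
    ∀ ψ : M →+ K, (∀ i, ∑ q, algebraMap k K (S.c i q) * S.χ (S.e i q) * ψ (S.e i q) = 0) →
      ∃ D : Derivation k K K, ∀ m, lg S.χ D m = ψ m := by
  obtain ⟨η, hη⟩ := S.exists_eta
  let P : Matrix (ι ⊕ Fin n) (ι ⊕ Fin n) K := Matrix.fromCols η S.La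
  have hP : ∀ w : ι ⊕ Fin n → K, S.Th *ᵥ (P *ᵥ w) = w ∘ Sum.inl := by
    intro w
    rw [Matrix.fromCols_mulVec, Matrix.mulVec_add, Matrix.mulVec_mulVec, Matrix.mulVec_mulVec,
      hη, S.Th_La, Matrix.one_mulVec, Matrix.zero_mulVec, add_zero]
  have hdet : P.det ≠ 0 := by
    intro h
    obtain ⟨w, hw0, hw⟩ := Matrix.exists_mulVec_eq_zero_iff.2 h
    have h1 := hP w
    rw [hw, Matrix.mulVec_zero] at h1
    rw [Matrix.fromCols_mulVec, ← h1, Matrix.mulVec_zero, zero_add, S.La_mulVec] at hw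
    have h2 : ∑ a, (w ∘ Sum.inr) a • S.D a = 0 := by
      apply S.der_eq_zero
      intro m
      rw [addHom_eq S.b]
      exact sum_eq_zero fun x _ => by rw [congrFun hw x]; simp
    have h3 := Fintype.linearIndependent_iff.1 S.D.linearIndependent _ h2
    apply hw0
    funext x
    rcases x with i | a
    · exact (congrFun h1 i).symm
    · exact h3 a
  refine ⟨⟨P.det, hdet, fun q0 q => ?_⟩, fun ψ hψ => ?_⟩
  · have h1 : Matrix.fromRows S.Th (S.co q) * P =
        Matrix.fromBlocks 1 0 (S.co q * η) (S.co q * S.La) := by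
      rw [Matrix.fromRows_mul_fromCols, hη, S.Th_La]
    have h2 := congrArg Matrix.det h1
    rw [Matrix.det_mul, Matrix.det_fromBlocks_zero₁₂, Matrix.det_one, one_mul] at h2
    have h3 : S.co q * S.La = (Matrix.of fun a c => lg S.χ (S.D a) (q c))ᵀ := by
      ext c a
      simp only [Matrix.mul_apply, co, La, Matrix.of_apply, Matrix.transpose_apply]
      rw [addHom_eq S.b (lg S.χ (S.D a)) (q c)]
      simp only [zsmul_eq_mul]
    have h4 : Matrix.fromRows S.Th (S.co q) =
        Matrix.diagonal (Sum.elim (fun i => S.χ (S.e i (q0 i))) (fun _ => 1)) * S.U q0 q := by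
      ext x y
      rw [Matrix.diagonal_mul]
      rcases x with i | c
      · exact S.Th_eq q0 i y
      · simp [U]
    rw [h3, Matrix.det_transpose, h4, Matrix.det_mul, Matrix.det_diagonal,
      Fintype.prod_sum_type] at h2
    rw [← h2]
    simp only [Sum.elim_inl, Sum.elim_inr, prod_const_one]
    ring
  · have hu : IsUnit P := (Matrix.isUnit_iff_isUnit_det P).2 (Ne.isUnit hdet)
    obtain ⟨w, hw⟩ := Matrix.mulVec_surjective_iff_isUnit.2 hu (fun x => ψ (S.b x))
    have h1 := hP w
    have h0 : S.Th *ᵥ (fun x => ψ (S.b x)) = 0 := by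
      funext i; rw [S.Th_mulVec]; exact hψ i
    rw [hw, h0] at h1
    rw [Matrix.fromCols_mulVec, ← h1, Matrix.mulVec_zero, zero_add, S.La_mulVec] at hw
    refine ⟨∑ a, (w ∘ Sum.inr) a • S.D a, fun m => ?_⟩
    rw [addHom_eq S.b, addHom_eq S.b ψ]
    exact sum_congr rfl fun x _ => by rw [congrFun hw x]

end Sys

end Pool.Agent.Lib.MP_813db1_ag
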