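import Pool.Agent.Lib.MP_813db1_ag.Bound
import Pool.Agent.Lib.MP_813db1_ag.CaseA

/-! Places coming from the charts of a Noether normalisation of the generic fibre. -/

namespace Pool.Agent.Lib.MP_813db1_ag

open Module Finset Matrix

theorem pos_of_mul_pos_of_pos_left' {a b : ℤ} (ha : 0 < a) (h : 0 < a * b) : 0 < b :=
  (pos_iff_pos_of_mul_pos h).1 ha

theorem int_of_val {F K : Type} [Field F] [Field K] [Algebra F K] (x : K)
    (h : ∀ R : ValuationSubring K, (∀ c : F, algebraMap F K c ∈ R) → x ∈ R) : IsIntegral F x := by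
  have h1 : x ∈ (integralClosure (Subring.closure (Set.range (algebraMap F K))) K).toSubring := by
    rw [← iInf_valuationSubring_superset, Subring.mem_iInf]
    rintro ⟨V, hV⟩
    exact h V fun c => hV ⟨c, rfl⟩
  obtain ⟨p, hp, hx⟩ : IsIntegral (Subring.closure (Set.range (algebraMap F K))) x := h1
  have h2 : p.map (algebraMap _ K) ∈ Polynomial.lifts (algebraMap F K) := by
    rw [Polynomial.lifts_iff_coeff_lifts]
    intro j
    rw [Polynomial.coeff_map]
    have : Subring.closure (Set.range (algebraMap F K)) ≤ (algebraMap F K).range :=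
      Subring.closure_le.2 fun _ hy => hy
    exact this (p.coeff j).2
  obtain ⟨q, hq, -, hm⟩ := Polynomial.lifts_and_natDegree_eq_and_monic h2 (hp.map _)
  refine ⟨q, hm, ?_⟩
  rw [← Polynomial.eval_map, hq, Polynomial.eval_map, hx]

namespace Place

variable {k K : Type} [Field k] [Field K] [Algebra k K] (P : Place k K)

theorem v_eq_one (E : IntermediateField k K) (hE : ∀ x ∈ E, P.v x ≤ 1) {x : K} (hx : x ∈ E)
    (h0 : x ≠ 0) : P.v x = 1 := by
  refine le_antisymm (hE x hx) ?_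
  have := hE _ (E.inv_mem hx)
  rwa [map_inv₀, inv_le_one₀ (zero_lt_iff.2 ((Valuation.ne_zero_iff _).2 h0))] at this

theorem res_inv {x : K} (h : P.v x = 1) : P.res x⁻¹ = (P.res x)⁻¹ := by
  have h0 : x ≠ 0 := by
    rintro rfl; simp at h
  apply eq_inv_of_mul_eq_one_left
  rw [← P.res_mul (by rw [map_inv₀, h, inv_one]) h.le, inv_mul_cancel₀ h0, P.res_one]

theorem adj_res (κ' : IntermediateField k P.κ) (X : Set K)
    (hv : ∀ x ∈ IntermediateField.adjoin k X, P.v x ≤ 1) (hX : ∀ x ∈ X, P.res x ∈ κ') :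
    ∀ x ∈ IntermediateField.adjoin k X, P.res x ∈ κ' := by
  intro x hx
  induction hx using IntermediateField.adjoin_induction with
  | mem x hx => exact hX x hx
  | algebraMap c => rw [P.res_algebraMap]; exact κ'.algebraMap_mem c
  | add x y hx hy ihx ihy => rw [P.res_add (hv x hx) (hv y hy)]; exact add_mem ihx ihy
  | inv x hx ih =>
    by_cases h0 : x = 0
    · rw [h0, _root_.inv_zero, P.res_zero]; exact zero_mem _
    · rw [P.res_inv (P.v_eq_one _ hv hx h0)]; exact inv_mem ih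
  | mul x y hx hy ihx ihy => rw [P.res_mul (hv x hx) (hv y hy)]; exact mul_mem ihx ihy

theorem indep_res {σ : Type} (E : IntermediateField k K) (hE : ∀ x ∈ E, P.v x ≤ 1) (x : σ → K)
    (hxE : ∀ b, x b ∈ E) (hx : AlgebraicIndependent k x) :
    AlgebraicIndependent k (fun b => P.res (x b)) := by
  rw [algebraicIndependent_iff]
  intro p hp
  obtain ⟨h1, h2⟩ := P.res_aeval x (fun b => hE _ (hxE b)) p
  rw [← h2, P.res_eq_zero h1] at hp
  apply hx.eq_zero_of_aeval_eq_zero
  by_contra h0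
  have hm : MvPolynomial.aeval x p ∈ E := by
    have : MvPolynomial.aeval x p ∈ Algebra.adjoin k (Set.range x) := by
      rw [Algebra.adjoin_range_eq_range_aeval]; exact ⟨p, rfl⟩
    exact (Algebra.adjoin_le (S := E.toSubalgebra) (by rintro _ ⟨b, rfl⟩; exact hxE b)) this
  exact hp.ne (P.v_eq_one E hE hm h0)

end Place

namespace Sys

variable {k K : Type} [Field k] [Field K] [Algebra k K] {n : ℕ} {M : Type} [AddCommGroup M]
  {ι : Type} [Fintype ι] {Q : ι → Type} [∀ i, Fintype (Q i)] [∀ i, Nonempty (Q i)]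
  (S : Sys k K n M ι Q) (C : Circuit S.e)

omit [∀ i, Nonempty (Q i)] in
theorem mem_of_subfield (T : Subfield K) (h1 : ∀ c, algebraMap k K c ∈ T)
    (h2 : ∀ x, S.χ (S.b x) ∈ T) (x : K) : x ∈ T := by
  have hx : x ∈ (IntermediateField.adjoin k (Set.range S.χ)).toSubfield := by
    rw [S.gen]; trivial
  rw [IntermediateField.adjoin_toSubfield] at hx
  refine Subfield.closure_le.2 ?_ hx
  rintro _ (⟨c, rfl⟩ | ⟨m, rfl⟩)
  · exact h1 c
  · rw [← S.b.sum_repr m, chi_sum]
    refine prod_mem fun x _ => ?_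
    rw [S.χ.map_zsmul_eq_zpow]
    exact zpow_mem (h2 x) _

theorem fin_of {g : ℕ} (s : Fin g → K)
    (hP : ∀ R : ValuationSubring K, (∀ c : S.L0 C, algebraMap (S.L0 C) K c ∈ R) →
      ∀ b : K, (∀ i, b * s i ∈ R) → ∀ l, b * S.χ (C.W l) ∈ R)
    (F : Type) [Field F] [Algebra F K] (hL : ∀ x ∈ S.L0 C, x ∈ Set.range (algebraMap F K))
    (u : K) (hu : u ≠ 0) (hus : ∀ i, u * s i ∈ Set.range (algebraMap F K)) :
    FiniteDimensional F K := by
  have h1 : ∀ l, u * S.χ (C.W l) ∈ algebraicClosure F K := fun l =>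
    mem_algebraicClosure_iff'.2 (int_of_val _ fun R hR => hP R
      (fun c => by obtain ⟨y, hy⟩ := hL c c.2; exact (hy ▸ hR y : (c : K) ∈ R)) u
      (fun i => by obtain ⟨y, hy⟩ := hus i; exact hy ▸ hR y) l)
  have h2 : ∀ m ∈ C.ker univ, S.χ m ∈ algebraicClosure F K := fun m hm => by
    obtain ⟨y, hy⟩ := hL _ (S.chi_mem_L0 C hm)
    exact hy ▸ IntermediateField.algebraMap_mem _ y
  have h3 : u ∈ algebraicClosure F K := by
    have := div_mem (h1 C.j0) (h2 _ fun j _ => C.nu_W_j0 j)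
    rwa [mul_div_assoc, div_self (chi_ne _ _), mul_one] at this
  have h4 : ∀ l, S.χ (C.W l) ∈ algebraicClosure F K := fun l => by
    have := div_mem (h1 l) h3
    rwa [mul_div_cancel_left₀ _ hu] at this
  have h5 : ∀ m, IsIntegral F (S.χ m) := fun m => by
    apply IsIntegral.of_pow C.G_pos
    rw [← mem_algebraicClosure_iff', ← S.χ.map_nsmul_eq_pow, ← natCast_zsmul,
      ← sub_add_cancel ((C.G : ℤ) • m) (∑ l, ((C.lam l : ℤ) * C.nu l m) • C.W l),
      S.χ.map_add_eq_mul, chi_sum]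
    refine mul_mem (h2 _ (C.sub_mem_ker m)) (prod_mem fun l _ => ?_)
    rw [S.χ.map_zsmul_eq_zpow]
    exact zpow_mem (h4 l) _
  have h6 := IntermediateField.finiteDimensional_adjoin (K := F)
    (S := Set.range fun x => S.χ (S.b x)) (by rintro _ ⟨x, rfl⟩; exact h5 _)
  have h7 : IntermediateField.adjoin F (Set.range fun x => S.χ (S.b x)) = ⊤ := by
    rw [eq_top_iff]
    intro x _
    refine S.mem_of_subfield
      (IntermediateField.adjoin F (Set.range fun x => S.χ (S.b x))).toSubfield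
      (fun c => ?_) (fun x => ?_) x
    · obtain ⟨y, hy⟩ := hL _ ((S.L0 C).algebraMap_mem c)
      exact hy ▸ IntermediateField.algebraMap_mem _ y
    · exact IntermediateField.subset_adjoin F _ ⟨x, rfl⟩
  rw [h7] at h6
  exact IntermediateField.topEquiv.toLinearEquiv.finiteDimensional

theorem card_le_one' [CharZero k] [Module.Free ℤ M] [Module.Finite ℤ M] (hn : 0 < n)
    (P : Place k K) (T : Finset C.J) (hT : T ≠ univ) (cf : C.J → ℤ) (hcf : ∀ j ∈ T, 0 < cf j)
    (hdec : ∀ m, (C.G : ℤ) * P.nu S.χ m = ∑ j ∈ T, cf j * C.nu j m)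
    (x : Fin (n - 1) → P.κ) (hx : AlgebraicIndependent k x)
    (hxm : ∀ b, x b ∈ IntermediateField.adjoin k
      (Set.range fun m : C.ker T => P.res (S.χ m))) : T.card ≤ 1 := by
  classical
  by_contra hc
  have h3 := C.h3 T hT (by omega)
  have hG : (0 : ℤ) < C.G := by exact_mod_cast C.G_pos
  have hker : ∀ m ∈ C.ker T, P.nu S.χ m = 0 := fun m hm => by
    have := hdec m
    rw [sum_eq_zero fun j hj => by rw [hm j hj, mul_zero]] at this
    exact (mul_eq_zero.1 this).resolve_left hG.ne'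
  have hle : ∀ m ∈ C.ker T, P.v (S.χ m) ≤ 1 := fun m hm => by
    rw [P.v_chi_le_one, hker m hm]
  let bad : ι → Prop := fun i => ∀ q, ∃ j ∈ T, C.nu j (S.e i q) ≠ mn S.e (C.nu j) i
  have hq0 : ∀ i, ∃ q0 : Q i, (∀ q, P.v (S.χ (S.e i q - S.e i q0)) ≤ 1) ∧
      (¬ bad i → ∀ q, S.e i q - S.e i q0 ∉ C.ker T → P.res (S.χ (S.e i q - S.e i q0)) = 0) := by
    intro i
    by_cases hi : bad i
    · obtain ⟨q0, hq0⟩ := exists_mn S.e (P.nu S.χ) i
      refine ⟨q0, fun q => ?_, fun h => absurd hi h⟩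
      rw [P.v_chi_le_one, map_sub, hq0]
      have := mn_le S.e (P.nu S.χ) i q
      omega
    · simp only [bad, not_forall, not_exists, not_and, not_not] at hi
      obtain ⟨q0, hq0⟩ := hi
      have h1 : ∀ q, ∀ j ∈ T, 0 ≤ C.nu j (S.e i q - S.e i q0) := fun q j hj => by
        rw [map_sub, hq0 j hj]
        exact sub_nonneg.2 (mn_le _ _ _ _)
      have h2 : ∀ q, P.v (S.χ (S.e i q - S.e i q0)) ≤ 1 := fun q => by
        rw [P.v_chi_le_one]
        apply nonneg_of_mul_nonneg_right _ hG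
        rw [hdec]
        exact sum_nonneg fun j hj => mul_nonneg (hcf j hj).le (h1 q j hj)
      refine ⟨q0, h2, fun _ q hq => ?_⟩
      rw [P.res_eq_zero (h2 q), P.v_chi_lt_one]
      apply pos_of_mul_pos_of_pos_left' hG
      rw [hdec]
      rw [C.mem_ker] at hq
      push Not at hq
      obtain ⟨j, hj, hne⟩ := hq
      exact sum_pos' (fun j hj => mul_nonneg (hcf j hj).le (h1 q j hj))
        ⟨j, hj, mul_pos (hcf j hj) (lt_of_le_of_ne (h1 q j hj) hne.symm)⟩
  choose q0 hq1 hq2 using hq0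
  let χ' : AddChar (C.ker T) P.κ :=
    { toFun := fun m => P.res (S.χ m)
      map_zero_eq_one' := by simp [P.res_one]
      map_add_eq_mul' := fun a b => by
        rw [Submodule.coe_add, S.χ.map_add_eq_mul, P.res_mul (hle _ a.2) (hle _ b.2)] }
  let e' : ∀ i : {i // ¬ bad i}, Q i.1 → C.ker T := fun i q =>
    if h : S.e i.1 q - S.e i.1 (q0 i.1) ∈ C.ker T then ⟨_, h⟩ else 0
  let c' : ∀ i : {i // ¬ bad i}, Q i.1 → k := fun i q =>
    if S.e i.1 q - S.e i.1 (q0 i.1) ∈ C.ker T then S.c i.1 q else 0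
  have hterm : ∀ (i : {i // ¬ bad i}) (q : Q i.1) (f : M → P.κ),
      algebraMap k P.κ (c' i q) * χ' (e' i q) * f (e' i q) = algebraMap k P.κ (S.c i.1 q) *
        P.res (S.χ (S.e i.1 q - S.e i.1 (q0 i.1))) * f (S.e i.1 q - S.e i.1 (q0 i.1)) := by
    intro i q f
    by_cases h : S.e i.1 q - S.e i.1 (q0 i.1) ∈ C.ker T
    · simp only [c', e', if_pos h, dif_pos h]; rfl
    · rw [hq2 i.1 i.2 q h]; simp only [c', if_neg h]; simp
  have hcount := toric_count (Q := fun i : {i // ¬ bad i} => Q i.1) χ' e' c' (fun i => by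
      have h1 := congrArg P.res (S.rel' i.1 (S.e i.1 (q0 i.1)))
      rw [P.res_zero, P.res_sum _ _ fun q _ => by
        rw [map_mul]; exact mul_le_one' (P.hk _) (hq1 _ q)] at h1
      rw [← h1]
      refine sum_congr rfl fun q _ => ?_
      rw [P.res_mul (P.hk _) (hq1 _ q), P.res_algebraMap]
      simpa using hterm i q (fun _ => 1))
    (fun α hα => by
      have := S.nd P q0 hq1 (fun i => if h : ¬ bad i then α ⟨i, h⟩ else 0) (fun ψ => by
        refine Eq.trans ?_ (hα (ψ.comp (C.ker T).subtype.toAddMonoidHom))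
        rw [← Fintype.sum_subtype_add_sum_subtype (fun i => ¬ bad i)]
        rw [sum_eq_zero (s := (univ : Finset {i // ¬ ¬ bad i}))
          fun i _ => by rw [dif_neg i.2, zero_mul], add_zero]
        refine sum_congr rfl fun i _ => ?_
        rw [dif_pos i.2]
        congr 1
        exact sum_congr rfl fun q _ => (hterm i q (fun m => (ψ m : P.κ))).symm)
      funext i
      have h1 := congrFun this i.1
      simpa [i.2] using h1) x hx hxm
  have h4 := C.finrank_ker T hT
  have h5 := finrank_eq_card_basis S.b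
  have h6 := Fintype.card_subtype_compl bad
  have h7 : Fintype.card {i // bad i} + 2 ≤ T.card := by
    rw [Fintype.card_subtype]
    exact le_of_eq_of_le (by congr) h3
  have h8 := Fintype.card_subtype_le bad
  simp only [Fintype.card_fin, Fintype.card_sum] at hcount h5
  omega

theorem good [CharZero k] [Module.Free ℤ M] [Module.Finite ℤ M] (hn : 0 < n) (P : Place k K)
    {g : ℕ} (s : Fin g → K)
    (hspan : ∀ i, s i ∈ Submodule.span (S.L0 C) (Set.range fun l => S.χ (C.W l)))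
    (hs0 : ∀ i, s i ≠ 0)
    (hP : ∀ R : ValuationSubring K, (∀ c : S.L0 C, algebraMap (S.L0 C) K c ∈ R) →
      ∀ b : K, (∀ i, b * s i ∈ R) → ∀ l, b * S.χ (C.W l) ∈ R) (a b : Fin g)
    (hE : ∀ x ∈ IntermediateField.adjoin (S.L0 C)
      (Set.range fun i : {i // i ≠ a} => s i.1 / s b), P.v x ≤ 1) (hab : P.v (s a / s b) ≤ 1) :
    ∃ A : Adapt (P.nu S.χ), (A.ν' = 0 ∨ ∃ j, A.ν' = C.nu j) ∧ ∃ x : Fin (n - 1) → P.κ,
      AlgebraicIndependent k x ∧ ∀ b, x b ∈
        IntermediateField.adjoin k (Set.range fun m => P.res (S.χ (A.p m))) := by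
  classical
  let X : Set K := S.χ '' (C.ker univ : Set M) ∪ Set.range fun i : {i // i ≠ a} => s i.1 / s b
  let E := IntermediateField.adjoin k X
  have hLv : ∀ x ∈ S.L0 C, P.v x ≤ 1 := fun x hx =>
    hE x (IntermediateField.algebraMap_mem _ (⟨x, hx⟩ : S.L0 C))
  have hEv : ∀ x ∈ E, P.v x ≤ 1 := by
    intro x hx
    apply hE
    have : E ≤ (IntermediateField.adjoin (S.L0 C)
        (Set.range fun i : {i // i ≠ a} => s i.1 / s b)).restrictScalars k := by
      rw [IntermediateField.adjoin_le_iff]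
      rintro _ (⟨m, hm, rfl⟩ | hy)
      · exact IntermediateField.algebraMap_mem _ (⟨_, S.chi_mem_L0 C hm⟩ : S.L0 C)
      · exact IntermediateField.subset_adjoin _ _ hy
    exact this hx
  have hsb : ∀ i, P.v (s i / s b) ≤ 1 := fun i => by
    by_cases h : i = a
    · rw [h]; exact hab
    · exact hEv _ (IntermediateField.subset_adjoin k _ (Or.inr ⟨⟨i, h⟩, rfl⟩))
  have hν0 : ∀ m ∈ C.ker univ, P.nu S.χ m = 0 := fun m hm => by
    have h1 := (P.v_chi_le_one _ _).1 (hLv _ (S.chi_mem_L0 C hm))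
    have h2 := (P.v_chi_le_one _ _).1 (hLv _ (S.chi_mem_L0 C (neg_mem hm)))
    rw [map_neg] at h2
    omega
  have : Nonempty C.J := ⟨C.j0⟩
  obtain ⟨ls, hls⟩ := Finite.exists_min fun l => P.nu S.χ (C.W l)
  let T : Finset C.J := univ.filter fun l => P.nu S.χ (C.W ls) < P.nu S.χ (C.W l)
  have hlsT : ls ∉ T := by simp [T]
  have hT : T ≠ univ := fun h => hlsT (h ▸ mem_univ _)
  let cf : C.J → ℤ := fun l => (C.lam l : ℤ) * (P.nu S.χ (C.W l) - P.nu S.χ (C.W ls))
  have hcf : ∀ j ∈ T, 0 < cf j := fun j hj =>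
    mul_pos (by exact_mod_cast C.lam_pos j) (sub_pos.2 (mem_filter.1 hj).2)
  have hdec : ∀ m, (C.G : ℤ) * P.nu S.χ m = ∑ j ∈ T, cf j * C.nu j m := fun m => by
    rw [C.decomp _ hν0 (P.nu S.χ (C.W ls)) m]
    refine (sum_subset (subset_univ T) fun l _ hl => ?_).symm
    have h1 := hls l
    simp only [T, mem_filter, mem_univ, true_and, not_lt] at hl
    simp [le_antisymm hl h1]
  let κ' := IntermediateField.adjoin k (Set.range fun m : C.ker T => P.res (S.χ m))
  have hk1 : ∀ m ∈ C.ker T, P.res (S.χ m) ∈ κ' := fun m hm =>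
    IntermediateField.subset_adjoin k _ ⟨⟨m, hm⟩, rfl⟩
  have hLκ : ∀ x ∈ S.L0 C, P.res x ∈ κ' := P.adj_res κ' _ hLv (by
    rintro _ ⟨m, hm, rfl⟩
    exact hk1 m fun j _ => hm j (mem_univ _))
  have hsp : ∀ x ∈ Submodule.span (S.L0 C) (Set.range fun l => S.χ (C.W l)),
      P.v (x / S.χ (C.W ls)) ≤ 1 ∧ P.res (x / S.χ (C.W ls)) ∈ κ' := by
    intro x hx
    induction hx using Submodule.span_induction with
    | mem x hx =>
      obtain ⟨l, rfl⟩ := hx
      have h1 : P.v (S.χ (C.W l - C.W ls)) ≤ 1 := by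
        rw [P.v_chi_le_one, map_sub]; exact sub_nonneg.2 (hls l)
      rw [← S.χ.map_sub_eq_div]
      refine ⟨h1, ?_⟩
      by_cases hl : l ∈ T
      · rw [(P.res_eq_zero h1).2]
        · exact zero_mem _
        · rw [P.v_chi_lt_one, map_sub]; exact sub_pos.2 (mem_filter.1 hl).2
      · exact hk1 _ fun j hj => C.nu_W_sub (fun h => hl (h ▸ hj)) (fun h => hlsT (h ▸ hj))
    | zero => rw [zero_div, P.res_zero]; exact ⟨by simp, zero_mem _⟩
    | add x y _ _ ihx ihy =>
      rw [add_div, P.res_add ihx.1 ihy.1]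
      exact ⟨P.v.map_add_le ihx.1 ihy.1, add_mem ihx.2 ihy.2⟩
    | smul c x _ ih =>
      have : (c • x) / S.χ (C.W ls) = (c : K) * (x / S.χ (C.W ls)) := by
        rw [Algebra.smul_def, mul_div_assoc]; rfl
      rw [this, P.res_mul (hLv _ c.2) ih.1, map_mul]
      exact ⟨mul_le_one' (hLv _ c.2) ih.1, mul_mem (hLκ _ c.2) ih.2⟩
  have hb1 : P.v (s b / S.χ (C.W ls)) = 1 := by
    refine le_antisymm (hsp _ (hspan b)).1 ?_
    have := hP P.v.valuationSubring (fun c => hLv _ c.2) (s b)⁻¹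
      (fun i => by rw [inv_mul_eq_div]; exact hsb i) ls
    rw [Valuation.mem_valuationSubring_iff, inv_mul_eq_div, ← inv_div, map_inv₀,
      inv_le_one₀] at this
    · exact this
    · exact zero_lt_iff.2 ((Valuation.ne_zero_iff _).2 (div_ne_zero (hs0 b) (chi_ne _ _)))
  have hEκ : ∀ x ∈ E, P.res x ∈ κ' := P.adj_res κ' _ hEv (by
    rintro _ (⟨m, hm, rfl⟩ | ⟨i, rfl⟩)
    · exact hk1 m fun j _ => hm j (mem_univ _)
    · have : s i.1 / s b = s i.1 / S.χ (C.W ls) * (s b / S.χ (C.W ls))⁻¹ := by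
        have := chi_ne S.χ (C.W ls)
        field_simp
      simp only
      rw [this, P.res_mul (hsp _ (hspan _)).1 (by rw [map_inv₀, hb1, inv_one]), P.res_inv hb1]
      exact mul_mem (hsp _ (hspan _)).2 (inv_mem (hsp _ (hspan _)).2))
  obtain ⟨x, hxE, hx⟩ := exists_indep_in S.D E (s a / s b) (by
    intro D h1 h2
    let E2 := IntermediateField.adjoin k (insert (s a / s b) (E : Set K))
    have hEE : ∀ y ∈ E, y ∈ E2 := fun y hy => IntermediateField.subset_adjoin k _ (Or.inr hy)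
    have := S.fin_of C s hP E2 (fun y hy => ⟨⟨y, hEE y
      (IntermediateField.adjoin.mono k _ _ Set.subset_union_left hy)⟩, rfl⟩) (s b)⁻¹
      (inv_ne_zero (hs0 b)) (fun i => ⟨⟨s i / s b, by
        by_cases h : i = a
        · rw [h]; exact IntermediateField.subset_adjoin k _ (Or.inl rfl)
        · exact hEE _ (IntermediateField.subset_adjoin k _ (Or.inr ⟨⟨i, h⟩, rfl⟩))⟩,
        (inv_mul_eq_div _ _).symm⟩)
    ext y
    refine der_of_isAlgebraic D E2 (der_adjoin D _ ?_) (Algebra.IsAlgebraic.isAlgebraic y)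
    rintro z (rfl | hz)
    · exact h2
    · exact h1 z hz)
  have hxi := P.indep_res E hEv x hxE hx
  have hcard := S.card_le_one' C hn P T hT cf hcf hdec _ hxi fun b => hEκ _ (hxE b)
  have hfin : ∀ A : Adapt (P.nu S.χ), (∀ m ∈ C.ker T, A.ν' m = 0) → ∀ b, P.res (x b) ∈
      IntermediateField.adjoin k (Set.range fun m => P.res (S.χ (A.p m))) := by
    intro A hA b
    refine IntermediateField.adjoin.mono k _ _ ?_ (hEκ _ (hxE b))
    rintro _ ⟨m, rfl⟩
    exact ⟨m, by simp only [A.p_of _ (hA m m.2)]⟩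
  rcases T.eq_empty_or_nonempty with h | ⟨j, hj⟩
  · let A : Adapt (P.nu S.χ) := ⟨0, 0, 0, fun m => by
      have := hdec m
      rw [h, sum_empty] at this
      simpa [C.G_pos.ne'] using this, Or.inl ⟨rfl, rfl, rfl⟩⟩
    exact ⟨A, Or.inl rfl, _, hxi, hfin A fun _ _ => rfl⟩
  · obtain ⟨qs, hqs⟩ := C.prim j
    have hTj : T = {j} := eq_singleton_iff_unique_mem.2 ⟨hj, fun y hy =>
      card_le_one.1 hcard _ hy _ hj⟩
    have h1 : ∀ m, (C.G : ℤ) * P.nu S.χ m = cf j * C.nu j m := fun m => by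
      rw [hdec, hTj, sum_singleton]
    have h2 : (C.G : ℤ) * P.nu S.χ qs = cf j := by rw [h1, hqs, mul_one]
    let A : Adapt (P.nu S.χ) := ⟨C.nu j, qs, P.nu S.χ qs, fun m => by
      apply mul_left_cancel₀ C.G_ne
      rw [h1, ← h2, mul_assoc], Or.inr ⟨hqs, by
        have := hcf j hj
        rw [← h2] at this
        exact pos_of_mul_pos_of_pos_left' (by exact_mod_cast C.G_pos) this⟩⟩
    exact ⟨A, Or.inr ⟨j, rfl⟩, _, hxi, hfin A fun m hm => hm j hj⟩

end Sys

end Pool.Agent.Lib.MP_813db1_ag
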