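import Pool.Agent.Lib.MP_813db1_ag.Basic

/-! Lattice and counting lemmas. -/

namespace Pool.Agent.Lib.MP_813db1_ag

open Module Finset

theorem prim_decomp {M : Type} [AddCommGroup M] (ν : M →+ ℤ) (h : ν ≠ 0) :
    ∃ (ν' : M →+ ℤ) (q : M) (a : ℤ), 0 < a ∧ ν' q = 1 ∧ ∀ m, ν m = a * ν' m := by
  obtain ⟨a, ha⟩ := Int.subgroup_cyclic ν.range
  have hmem : ∀ m, a ∣ ν m := fun m => by
    have : ν m ∈ ν.range := ⟨m, rfl⟩
    rw [ha, AddSubgroup.mem_closure_singleton] at this
    obtain ⟨n, hn⟩ := this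
    exact ⟨n, by rw [← hn]; simp [mul_comm]⟩
  have ha0 : a ≠ 0 := by
    rintro rfl
    apply h
    ext m
    simpa using hmem m
  obtain ⟨q, hq⟩ : a ∈ ν.range := by rw [ha]; exact AddSubgroup.mem_closure_singleton_self a
  have hab : ∀ m, |a| ∣ ν m := fun m => (abs_dvd _ _).2 (hmem m)
  have hpos : 0 < |a| := abs_pos.2 ha0
  refine ⟨AddMonoidHom.mk' (fun m => ν m / |a|) (fun x y => by
    rw [map_add, Int.add_ediv_of_dvd_right (hab y)]), a.sign • q, |a|, hpos, ?_, fun m => ?_⟩
  · rw [AddMonoidHom.mk'_apply, map_zsmul, hq, smul_eq_mul, Int.sign_mul_self_eq_abs]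
    exact Int.ediv_self hpos.ne'
  · simp only [AddMonoidHom.mk'_apply]
    exact (Int.mul_ediv_cancel' (hab m)).symm

theorem sum_min_eq {I : Type} (s : Finset I) (δ : I → ℕ) (T : ℕ) :
    ∑ t ∈ range T, (s.filter fun i => t < δ i).card = ∑ i ∈ s, min (δ i) T := by
  simp only [card_filter]
  rw [sum_comm]
  refine sum_congr rfl fun i _ => ?_
  rw [← card_filter]
  have : (range T).filter (fun t => t < δ i) = range (min (δ i) T) := by
    ext t; simp only [mem_filter, mem_range, lt_min_iff]; tauto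
  rw [this, card_range]

theorem sort_lemma {I J : Type} [Fintype I] [Fintype J] [DecidableEq J] (δ : I → ℕ) (lam : J → ℕ)
    (j0 j1 : J) (hne : j0 ≠ j1)
    (H : ∀ t, (∃ j, t ≤ lam j) → (univ.filter fun i => δ i < t).card ≤
      (univ.filter fun j => j ≠ j0 ∧ j ≠ j1 ∧ lam j < t).card)
    (h1 : ∀ j, j ≠ j0 → lam j1 ≤ lam j)
    (hlt : ∑ i, δ i < ∑ j, lam j) (hc : Fintype.card J ≤ Fintype.card I + 1) :
    Fintype.card I + 1 = Fintype.card J ∧ ∀ i, δ i < lam j0 + lam j1 := by
  classical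
  have hJ : 2 ≤ Fintype.card J := Fintype.one_lt_card_iff.2 ⟨j0, j1, hne⟩
  have : Nonempty I := Fintype.card_pos_iff.1 (by omega)
  have : Nonempty J := ⟨j0⟩
  obtain ⟨is, his⟩ := Finite.exists_max δ
  obtain ⟨js, hjs⟩ := Finite.exists_max lam
  set J' : Finset J := univ.filter fun j => j ≠ j0 ∧ j ≠ j1 with hJ'
  set I' : Finset I := univ.erase is with hI'
  have hJ'e : J' = (univ.erase j0).erase j1 := by
    ext j; simp [hJ']; tauto
  have hcJ : J'.card + 2 = Fintype.card J := by
    rw [hJ'e, card_erase_of_mem (by simp [hne.symm]), card_erase_of_mem (by simp), card_univ]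
    omega
  have hcI : I'.card + 1 = Fintype.card I := by
    rw [hI', card_erase_of_mem (by simp), card_univ]
    have := Fintype.card_pos (α := I)
    omega
  have hsJ : ∑ j, lam j = lam j0 + lam j1 + ∑ j ∈ J', lam j := by
    rw [hJ'e, ← add_sum_erase univ lam (mem_univ j0),
      ← add_sum_erase (univ.erase j0) lam (a := j1) (by simp [hne.symm])]
    ring
  have hsI : ∑ i, δ i = δ is + ∑ i ∈ I', δ i := by
    rw [hI', add_sum_erase univ δ (mem_univ is)]
  have hd1 : lam j1 ≤ δ is := by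
    by_contra hh
    have := H (lam j1) ⟨j1, le_rfl⟩
    have he : (univ.filter fun j => j ≠ j0 ∧ j ≠ j1 ∧ lam j < lam j1) = ∅ := by
      apply filter_eq_empty_iff.2
      rintro j - ⟨ha, -, hb⟩
      exact absurd (h1 j ha) (by omega)
    rw [he, card_empty, Nat.le_zero, card_eq_zero, filter_eq_empty_iff] at this
    exact this (mem_univ is) (by omega)
  have key : ∀ t ∈ range (lam js), (J'.filter fun j => t < lam j).card + (I'.card - J'.card) ≤
      (I'.filter fun i => t < δ i).card := by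
    intro t ht
    have h2 := H (t + 1) ⟨js, by simpa using ht⟩
    have e1 := card_filter_add_card_filter_not (s := I') (fun i => t < δ i)
    have e2 := card_filter_add_card_filter_not (s := J') (fun j => t < lam j)
    have e3 : (I'.filter fun i => ¬ t < δ i).card ≤ (univ.filter fun i => δ i < t + 1).card := by
      apply card_le_card
      intro i hi
      simp only [mem_filter, mem_univ, true_and] at hi ⊢
      omega
    have e4 : (univ.filter fun j => j ≠ j0 ∧ j ≠ j1 ∧ lam j < t + 1) =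
        J'.filter fun j => ¬ t < lam j := by
      ext j
      simp only [hJ', mem_filter, mem_univ, true_and, not_lt, Nat.lt_succ_iff, and_assoc]
    rw [e4] at h2
    omega
  have hsum := sum_le_sum key
  rw [sum_add_distrib, sum_min_eq, sum_min_eq, sum_const, card_range, smul_eq_mul] at hsum
  have e5 : ∑ j ∈ J', min (lam j) (lam js) = ∑ j ∈ J', lam j :=
    sum_congr rfl fun j _ => min_eq_left (hjs j)
  have e6 : ∑ i ∈ I', min (δ i) (lam js) ≤ ∑ i ∈ I', δ i :=
    sum_le_sum fun i _ => min_le_left _ _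
  have e7 : δ is + lam js * (I'.card - J'.card) < lam j0 + lam j1 := by omega
  refine ⟨?_, fun i => by have := his i; omega⟩
  by_contra hne'
  have : 1 ≤ I'.card - J'.card := by omega
  have h3 := Nat.mul_le_mul_left (lam js) this
  have := hjs j0
  omega

theorem prod_pow_lin {J F : Type} [Fintype J] [CommRing F] (a : J → ℕ) (z : J → F)
    (h : ∑ j, a j ≤ 1) : ∏ j, z j ^ a j = 1 + ∑ j, (a j : F) * (z j - 1) := by
  classical
  by_cases h0 : ∀ j, a j = 0
  · simp [h0]
  · push Not at h0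
    obtain ⟨j, hj⟩ := h0
    have hs := add_sum_erase univ a (mem_univ j)
    have h1 : a j = 1 := by omega
    have h2 : ∀ i ∈ univ.erase j, a i = 0 := by
      have : ∑ i ∈ univ.erase j, a i = 0 := by omega
      exact sum_eq_zero_iff.1 this
    rw [← mul_prod_erase univ _ (mem_univ j), ← add_sum_erase univ _ (mem_univ j),
      prod_eq_one fun i hi => by rw [h2 i hi, pow_zero],
      sum_eq_zero fun i hi => by rw [h2 i hi]; simp, h1]
    simp

theorem ext_char {M N A : Type} [AddCommGroup M] [AddCommGroup N] [AddCommGroup A]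
    [DivisibleBy A ℤ] (f : M →+ N) (ρ : M →+ A) (h : ∀ m, f m = 0 → ρ m = 0) :
    ∃ z : N →+ A, ∀ m, z (f m) = ρ m := by
  let ρ' : M ⧸ f.ker →+ A := QuotientAddGroup.lift f.ker ρ (fun m hm => h m hm)
  obtain ⟨z, hz⟩ := (Module.Baer.of_divisible A).extension_property_addMonoidHom
    (QuotientAddGroup.kerLift f) (QuotientAddGroup.kerLift_injective f) ρ'
  refine ⟨z, fun m => ?_⟩
  have := DFunLike.congr_fun hz (m : M ⧸ f.ker)
  simpa [ρ'] using this

variable {M : Type} [AddCommGroup M] {ι : Type} [Fintype ι] {Q : ι → Type}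
  [∀ i, Fintype (Q i)] [∀ i, Nonempty (Q i)]

omit [Fintype ι] in
theorem mn_mul (e : ∀ i, Q i → M) {ν ν' : M →+ ℤ} {a : ℤ} (ha : 0 ≤ a)
    (h : ∀ m, ν m = a * ν' m) (i : ι) : mn e ν i = a * mn e ν' i := by
  obtain ⟨q, hq⟩ := exists_mn e ν' i
  rw [mn_eq e ν i q, h, hq]
  intro q'
  rw [h, h, hq]
  exact mul_le_mul_of_nonneg_left (mn_le e ν' i q') ha

theorem phi_mul (e : ∀ i, Q i → M) {ν ν' : M →+ ℤ} {a : ℤ} (ha : 0 ≤ a)
    (h : ∀ m, ν m = a * ν' m) : phi e ν = a * phi e ν' := by
  simp only [phi, mul_sum, mn_mul e ha h]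

namespace Circuit

variable {e : ∀ i, Q i → M} (C : Circuit e)

/-- Common kernel of the covectors indexed by `S`. -/
def ker (S : Finset C.J) : Submodule ℤ M where
  carrier := {m | ∀ j ∈ S, C.nu j m = 0}
  add_mem' := fun {a b} ha hb j hj => by rw [map_add, ha j hj, hb j hj, add_zero]
  zero_mem' := fun j _ => map_zero _
  smul_mem' := fun c x hx j hj => by rw [map_zsmul, hx j hj, smul_zero]

theorem mem_ker {S : Finset C.J} {m : M} : m ∈ C.ker S ↔ ∀ j ∈ S, C.nu j m = 0 := Iff.rfl

/-- Change of the base index. -/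
def rebase (j : C.J) : Circuit e where
  J := C.J
  nu := C.nu
  lam := C.lam
  lam_pos := C.lam_pos
  j0 := j
  G := C.G
  G_pos := C.G_pos
  W := fun l => C.W l - C.W j
  hW := fun j' l => by rw [map_sub, mul_sub, C.hW, C.hW]; ring
  rel := C.rel
  prim := C.prim
  lt := C.lt
  h3 := C.h3

theorem lam_ne (j : C.J) : (C.lam j : ℤ) ≠ 0 := by exact_mod_cast (C.lam_pos j).ne'

theorem G_ne : (C.G : ℤ) ≠ 0 := by exact_mod_cast C.G_pos.ne'

theorem nu_W_sub {j l l' : C.J} (h : l ≠ j) (h' : l' ≠ j) : C.nu j (C.W l - C.W l') = 0 := by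
  have h1 := C.hW j l
  have h2 := C.hW j l'
  rw [if_neg h] at h1
  rw [if_neg h'] at h2
  apply mul_left_cancel₀ (C.lam_ne j)
  rw [map_sub, mul_sub, h1, h2]; ring

theorem nu_W_j0 (j : C.J) : C.nu j (C.W C.j0) = 0 := by
  apply mul_left_cancel₀ (C.lam_ne j)
  rw [C.hW]; ring

/-- Every vector of the hyperplane `λ ⊥` is, up to the factor `G`, a value vector. -/
theorem nu_comb (x : C.J → ℤ) (hx : ∑ l, (C.lam l : ℤ) * x l = 0) (j : C.J) :
    C.nu j (∑ l, ((C.lam l : ℤ) * x l) • C.W l) = C.G * x j := by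
  classical
  apply mul_left_cancel₀ (C.lam_ne j)
  rw [map_sum, mul_sum]
  have : ∀ l, (C.lam j : ℤ) * C.nu j (((C.lam l : ℤ) * x l) • C.W l) =
      (if l = j then (C.G : ℤ) * (C.lam l * x l) else 0) -
        (C.G * if C.j0 = j then 1 else 0) * (C.lam l * x l) := by
    intro l
    rw [map_zsmul, smul_eq_mul, mul_left_comm, C.hW]
    by_cases h : l = j <;> by_cases h' : C.j0 = j <;> simp [h, h'] <;> ring
  rw [sum_congr rfl fun l _ => this l, sum_sub_distrib, ← mul_sum, hx, sum_ite_eq' univ j]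
  simp; ring

theorem sub_mem_ker (m : M) :
    (C.G : ℤ) • m - ∑ l, ((C.lam l : ℤ) * C.nu l m) • C.W l ∈ C.ker univ := by
  intro j _
  rw [map_sub, C.nu_comb (fun l => C.nu l m) (C.rel m), map_zsmul, smul_eq_mul, sub_self]

theorem decomp (ν : M →+ ℤ) (h : ∀ m ∈ C.ker univ, ν m = 0) (μ : ℤ) (m : M) :
    (C.G : ℤ) * ν m = ∑ l, (C.lam l : ℤ) * (ν (C.W l) - μ) * C.nu l m := by
  have h1 := h _ (C.sub_mem_ker m)
  rw [map_sub, map_zsmul, map_sum, smul_eq_mul, sub_eq_zero] at h1
  have h2 := C.rel m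
  rw [h1]
  have : ∑ l, (C.lam l : ℤ) * (ν (C.W l) - μ) * C.nu l m =
      ∑ l, ν (((C.lam l : ℤ) * C.nu l m) • C.W l) - μ * ∑ l, (C.lam l : ℤ) * C.nu l m := by
    rw [mul_sum, ← sum_sub_distrib]
    refine sum_congr rfl fun l _ => ?_
    rw [map_zsmul, smul_eq_mul]; ring
  rw [this, h2]; ring

theorem exists_ne (j : C.J) : ∃ j', j' ≠ j := by
  by_contra hh
  push Not at hh
  obtain ⟨m, hm⟩ := C.prim j
  have := C.rel m
  rw [Fintype.sum_eq_single j (fun j' hj' => absurd (hh j') hj'), hm, mul_one] at this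
  exact C.lam_ne j this

theorem ker_erase [DecidableEq C.J] (j : C.J) : C.ker (univ.erase j) = C.ker univ := by
  ext m
  refine ⟨fun h j' _ => ?_, fun h j' _ => h j' (mem_univ _)⟩
  by_cases hj : j' = j
  · subst hj
    have := C.rel m
    rw [Fintype.sum_eq_single j' (fun l hl => by rw [h l (by simp [hl]), mul_zero])] at this
    exact (mul_eq_zero.1 this).resolve_left (C.lam_ne j')
  · exact h j' (by simp [hj])

theorem finrank_ker [Module.Finite ℤ M] (S : Finset C.J) (hS : S ≠ univ) :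
    finrank ℤ (C.ker S) + S.card = finrank ℤ M := by
  classical
  obtain ⟨j', hj'⟩ : ∃ j', j' ∉ S := by
    by_contra hh
    push Not at hh
    exact hS (eq_univ_of_forall hh)
  let F : M →ₗ[ℤ] (S → ℤ) := LinearMap.pi fun j : S => (C.nu j.1).toIntLinearMap
  have hker : LinearMap.ker F = C.ker S := by
    ext m
    simp only [LinearMap.mem_ker, funext_iff, F, LinearMap.pi_apply,
      AddMonoidHom.coe_toIntLinearMap, Pi.zero_apply, Subtype.forall, mem_ker]
  have hrn := (LinearMap.ker F).finrank_quotient_add_finrank (R := ℤ)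
  rw [F.quotKerEquivRange.finrank_eq] at hrn
  have hle : finrank ℤ (LinearMap.range F) ≤ S.card := by
    have := Submodule.finrank_le (LinearMap.range F)
    simpa using this
  have hW : ∀ (l j : S), C.nu j.1 (C.W l.1 - C.W j') * C.lam j.1 =
      if l = j then C.G else 0 := by
    intro l j
    have hj : j' ≠ j.1 := fun h => hj' (h ▸ j.2)
    rw [mul_comm, map_sub, mul_sub, C.hW, C.hW, if_neg hj]
    by_cases h : l = j
    · rw [if_pos (congrArg Subtype.val h), if_pos h]; ring
    · rw [if_neg (fun h' => h (Subtype.ext h')), if_neg h]; simp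
  have hge : S.card ≤ finrank ℤ (LinearMap.range F) := by
    have hli : LinearIndependent ℤ
        (fun l : S => (⟨F (C.W l.1 - C.W j'), ⟨_, rfl⟩⟩ : LinearMap.range F)) := by
      apply LinearIndependent.of_comp (LinearMap.range F).subtype
      rw [Fintype.linearIndependent_iff]
      intro g hg j
      have h1 := congrFun hg j
      simp only [Function.comp, Submodule.subtype_apply, Finset.sum_apply, Pi.smul_apply, F,
        LinearMap.pi_apply, AddMonoidHom.coe_toIntLinearMap, smul_eq_mul, Pi.zero_apply] at h1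
      have h2 : ∑ l : S, g l * (C.nu j.1 (C.W l.1 - C.W j') * C.lam j.1) = 0 := by
        simp only [← mul_assoc, ← sum_mul, h1, zero_mul]
      simp only [hW] at h2
      rw [Fintype.sum_eq_single j (fun l hl => by simp [hl])] at h2
      simpa [C.G_pos.ne'] using h2
    simpa using hli.fintype_card_le_finrank
  rw [hker] at hrn
  omega

end Circuit

end Pool.Agent.Lib.MP_813db1_ag
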