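import Pool.Agent.Lib.MP_813db1_ag.Frame

/-! Adapted frames at a place and the effective branch. -/

namespace Pool.Agent.Lib.MP_813db1_ag

open Module Finset Matrix

/-- A primitive covector and a dual vector adapted to `ν`. -/
structure Adapt {M : Type} [AddCommGroup M] (ν : M →+ ℤ) where
  ν' : M →+ ℤ
  qs : M
  a : ℤ
  eq : ∀ m, ν m = a * ν' m
  alt : (ν' = 0 ∧ qs = 0 ∧ a = 0) ∨ (ν' qs = 1 ∧ 0 < a)

theorem exists_adapt {M : Type} [AddCommGroup M] (ν : M →+ ℤ) : Nonempty (Adapt ν) := by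
  by_cases h : ν = 0
  · exact ⟨⟨0, 0, 0, fun m => by simp [h], Or.inl ⟨rfl, rfl, rfl⟩⟩⟩
  · obtain ⟨ν', q, a, ha, h1, h2⟩ := prim_decomp ν h
    exact ⟨⟨ν', q, a, h2, Or.inr ⟨h1, ha⟩⟩⟩

namespace Adapt

variable {M : Type} [AddCommGroup M] {ν : M →+ ℤ} (A : Adapt ν)

/-- Projection onto the kernel. -/
def p : M →+ M := AddMonoidHom.mk' (fun m => m - A.ν' m • A.qs) (fun x y => by
  rw [map_add, add_zsmul]; abel)

theorem p_apply (m : M) : A.p m = m - A.ν' m • A.qs := rfl

theorem nu_p (m : M) : A.ν' (A.p m) = 0 := by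
  rw [p_apply, map_sub, map_zsmul]
  rcases A.alt with ⟨h, -, -⟩ | ⟨h, -⟩ <;> simp [h]

theorem p_of (m : M) (h : A.ν' m = 0) : A.p m = m := by simp [p_apply, h]

theorem p_qs : A.p A.qs = 0 := by
  rcases A.alt with ⟨-, h, -⟩ | ⟨h, -⟩ <;> simp [p_apply, h]

theorem a_nonneg : 0 ≤ A.a := by
  rcases A.alt with ⟨-, -, h⟩ | ⟨-, h⟩ <;> omega

theorem nu_qs : ν A.qs = A.a := by
  rw [A.eq]
  rcases A.alt with ⟨-, -, h⟩ | ⟨h, -⟩ <;> simp [h]

theorem nonneg {m : M} (h : 0 ≤ ν m) : 0 ≤ A.ν' m := by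
  rw [A.eq] at h
  rcases A.alt with ⟨h1, -, -⟩ | ⟨-, h1⟩
  · simp [h1]
  · exact nonneg_of_mul_nonneg_right h h1 |> fun h => by nlinarith

theorem chi_eq {K : Type} [Field K] (χ : AddChar M K) {m : M} (h : 0 ≤ A.ν' m) :
    χ m = χ (A.p m) * χ A.qs ^ (A.ν' m).toNat := by
  rw [← χ.map_nsmul_eq_pow, ← χ.map_add_eq_mul, p_apply, ← natCast_zsmul, Int.toNat_of_nonneg h,
    sub_add_cancel]

end Adapt

theorem chi_sum {K M α : Type} [Field K] [AddCommGroup M] (χ : AddChar M K) (s : Finset α)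
    (f : α → M) : χ (∑ a ∈ s, f a) = ∏ a ∈ s, χ (f a) := by
  classical
  induction s using Finset.induction_on with
  | empty => simp
  | insert a s ha ih => rw [sum_insert ha, prod_insert ha, χ.map_add_eq_mul, ih]

theorem jac_update {k K : Type} [Field k] [Field K] [Algebra k K] {n : ℕ}
    (D : Fin n → Derivation k K K) (z : Fin n → K) (c : Fin n) (y : K) :
    jac D (Function.update z c y) =
      ((Matrix.of fun a c => D a (z c)).updateCol c (fun a => D a y)).det := by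
  unfold jac
  congr 1
  ext a c'
  by_cases h : c' = c
  · subst h; simp
  · simp [h]

theorem jac_chi {k K M : Type} [Field k] [Field K] [Algebra k K] [AddCommGroup M] {n : ℕ}
    (χ : AddChar M K) (D : Fin n → Derivation k K K) (q : Fin n → M) :
    jac D (fun c => χ (q c)) =
      (∏ c, χ (q c)) * (Matrix.of fun a c => lg χ (D a) (q c)).det := by
  rw [← Matrix.det_mul_row]
  unfold jac
  congr 1
  ext a c
  simp [der_chi]

namespace Sys

variable {k K : Type} [Field k] [Field K] [Algebra k K] {n : ℕ} {M : Type} [AddCommGroup M]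
  {ι : Type} [Fintype ι] {Q : ι → Type} [∀ i, Fintype (Q i)] (S : Sys k K n M ι Q)

theorem res_Th' (P : Place k K) (q0 : ∀ i, Q i)
    (h : ∀ i q, P.v (S.χ (S.e i q - S.e i (q0 i))) ≤ 1) (ψ : M →+ ℤ) (i : ι) :
    ∑ x, P.res (S.Th' q0 i x) * (ψ (S.b x) : P.κ) = ∑ q, algebraMap k P.κ (S.c i q) *
      P.res (S.χ (S.e i q - S.e i (q0 i))) * (ψ (S.e i q - S.e i (q0 i)) : P.κ) := by
  have h1 : ∀ q (z : ℤ), P.v (algebraMap k K (S.c i q) * S.χ (S.e i q - S.e i (q0 i)) *
      (z : K)) ≤ 1 := fun q z => by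
    rw [map_mul, map_mul]
    exact mul_le_one' (mul_le_one' (P.hk _) (h i q)) (P.v_intCast _)
  have h2 : ∀ x, P.res (S.Th' q0 i x) = ∑ q, algebraMap k P.κ (S.c i q) *
      P.res (S.χ (S.e i q - S.e i (q0 i))) * (S.b.repr (S.e i q - S.e i (q0 i)) x : P.κ) := by
    intro x
    simp only [Th', Matrix.of_apply]
    rw [P.res_sum _ _ fun q _ => h1 q _]
    refine sum_congr rfl fun q _ => ?_
    rw [P.res_mul _ (P.v_intCast _), P.res_mul (P.hk _) (h i q), P.res_algebraMap,
      P.res_intCast]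
    rw [map_mul]; exact mul_le_one' (P.hk _) (h i q)
  simp only [h2, sum_mul]
  rw [sum_comm]
  refine sum_congr rfl fun q _ => ?_
  rw [addHom_eq S.b ψ (S.e i q - S.e i (q0 i))]
  simp only [smul_eq_mul, Int.cast_sum, Int.cast_mul, mul_sum]
  refine sum_congr rfl fun x _ => ?_
  ring

variable [DecidableEq ι]

theorem frame [CharZero k] (P : Place k K) (A : Adapt (P.nu S.χ)) (q0 : ∀ i, Q i)
    (h : ∀ i q, P.v (S.χ (S.e i q - S.e i (q0 i))) ≤ 1) :
    ∃ q : Fin n → M, (∀ c, A.ν' (q c) = 0 ∨ q c = A.qs) ∧ Function.Injective q ∧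
      P.v (S.U q0 q).det = 1 ∧ (0 < A.a → ∃ c, q c = A.qs) := by
  obtain ⟨hle, hli⟩ := S.res_indep P q0 h
  let g : {m // A.ν' m = 0 ∨ m = A.qs} → (ι ⊕ Fin n → P.κ) :=
    fun m x => (S.b.repr m.1 x : P.κ)
  have hg : Submodule.span P.κ (Set.range g) = ⊤ := by
    rw [eq_top_iff, ← (Pi.basisFun P.κ (ι ⊕ Fin n)).span_eq, Submodule.span_le]
    rintro _ ⟨x, rfl⟩
    have : Pi.basisFun P.κ (ι ⊕ Fin n) x = g ⟨A.p (S.b x), Or.inl (A.nu_p _)⟩ +
        (A.ν' (S.b x) : P.κ) • g ⟨A.qs, Or.inr rfl⟩ := by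
      funext y
      simp only [g, A.p_apply, map_sub, map_zsmul, Pi.basisFun_apply, Pi.add_apply,
        Pi.smul_apply, Finsupp.sub_apply, Finsupp.smul_apply, smul_eq_mul, Basis.repr_self,
        Finsupp.single_apply, Pi.single_apply, eq_comm (a := y)]
      push_cast
      ring
    rw [this]
    exact Submodule.add_mem _ (Submodule.subset_span ⟨_, rfl⟩)
      (Submodule.smul_mem _ _ (Submodule.subset_span ⟨_, rfl⟩))
  obtain ⟨f, hf⟩ := exists_extend (n := n) _ hli g hg (by simp)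
  have hU : ∀ x y, P.v (S.U q0 (fun c => (f c).1) x y) ≤ 1 := by
    rintro (i | c) y
    · exact hle i y
    · exact P.v_intCast _
  have hrow : (S.U q0 (fun c => (f c).1)).map P.res =
      Sum.elim (fun i x => P.res (S.Th' q0 i x)) (g ∘ f) := by
    ext x y
    rcases x with i | c
    · rfl
    · exact P.res_intCast _
  have hunit : IsUnit ((S.U q0 (fun c => (f c).1)).map P.res) := by
    rw [← Matrix.linearIndependent_rows_iff_isUnit]
    rw [← hrow] at hf
    exact hf
  obtain ⟨hd1, hd2⟩ := P.det_lift _ hU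
  refine ⟨fun c => (f c).1, fun c => (f c).2, ?_, ?_, fun ha => ?_⟩
  · intro c c' hc
    have : (Sum.inr c : ι ⊕ Fin n) = Sum.inr c' := hf.injective (by
      funext x; simp only [Sum.elim_inr, Function.comp, g]; rw [show (f c).1 = (f c').1 from hc])
    exact Sum.inr_injective this
  · refine le_antisymm hd1 (not_lt.1 fun hlt => ?_)
    rw [← P.res_eq_zero hd1, hd2] at hlt
    exact ((Matrix.isUnit_iff_isUnit_det _).1 hunit).ne_zero hlt
  · by_contra hne
    push Not at hne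
    have : CharZero P.κ := charZero_of_injective_algebraMap (algebraMap k P.κ).injective
    have h1 : A.ν' A.qs = 1 := by
      rcases A.alt with ⟨-, -, h⟩ | ⟨h, -⟩
      · omega
      · exact h
    have hw : (S.U q0 (fun c => (f c).1)).map P.res *ᵥ (fun x => (A.ν' (S.b x) : P.κ)) =
        (S.U q0 (fun c => (f c).1)).map P.res *ᵥ 0 := by
      rw [Matrix.mulVec_zero, hrow]
      funext x
      rcases x with i | c
      · refine (S.res_Th' P q0 h A.ν' i).trans (sum_eq_zero fun q _ => ?_)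
        by_cases h0 : A.ν' (S.e i q - S.e i (q0 i)) = 0
        · rw [h0]; simp
        · have h2 := A.nonneg ((P.v_chi_le_one _ _).1 (h i q))
          have h3 : 0 < P.nu S.χ (S.e i q - S.e i (q0 i)) := by
            rw [A.eq]; exact mul_pos ha (lt_of_le_of_ne h2 (Ne.symm h0))
          rw [(P.res_eq_zero (h i q)).2 ((P.v_chi_lt_one _ _).2 h3)]; simp
      · have h2 := ((f c).2).resolve_right (hne c)
        rw [addHom_eq S.b] at h2
        have h3 := congrArg (Int.cast : ℤ → P.κ) h2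
        simpa [Matrix.mulVec, dotProduct, g] using h3
    have h4 := Matrix.mulVec_injective_iff_isUnit.2 hunit hw
    rw [addHom_eq S.b] at h1
    rw [sum_eq_zero fun x _ => by
      rw [show A.ν' (S.b x) = 0 from by simpa using congrFun h4 x, smul_zero]] at h1
    exact zero_ne_one h1

variable [∀ i, Nonempty (Q i)]

omit [DecidableEq ι] in
theorem exists_q0 (P : Place k K) : ∃ q0 : ∀ i, Q i,
    (∀ i q, P.v (S.χ (S.e i q - S.e i (q0 i))) ≤ 1) ∧
      P.v (∏ i, S.χ (S.e i (q0 i))) = WithZero.exp (- phi S.e (P.nu S.χ)) := by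
  choose q0 hq0 using exists_mn S.e (P.nu S.χ)
  refine ⟨q0, fun i q => ?_, ?_⟩
  · rw [P.v_chi_le_one, map_sub, hq0]
    have := mn_le S.e (P.nu S.χ) i q
    omega
  · rw [← chi_sum S.χ, P.v_chi, map_sum]
    simp only [hq0, phi]

theorem eff_of_lp [CharZero k] (m : ℕ) (u : M) (hm : 0 < m)
    (hu : ∀ ν : M →+ ℤ, ν ≠ 0 → (m : ℤ) * (phi S.e ν + 1) ≤ ν u) : EffV S.D := by
  obtain ⟨⟨h0, hh0, hdet⟩, -⟩ := S.main_alg
  refine ⟨m, hm, S.χ u * h0 ^ m, mul_ne_zero (chi_ne _ _) (pow_ne_zero _ hh0), ?_⟩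
  intro v hv hk
  obtain ⟨P, rfl⟩ := exists_place v hk
  obtain ⟨A⟩ := exists_adapt (P.nu S.χ)
  obtain ⟨q0, hq0, hphi⟩ := S.exists_q0 P
  obtain ⟨q, hq1, hq2, hq3, hq4⟩ := S.frame P A q0 hq0
  have hj : P.v (jac S.D fun c => S.χ (q c)) = WithZero.exp (- ∑ c, P.nu S.χ (q c)) *
      (P.v h0 * WithZero.exp (- phi S.e (P.nu S.χ))) := by
    rw [jac_chi, hdet q0 q, map_mul, map_mul, map_mul, hq3, hphi, mul_one,
      ← chi_sum S.χ, P.v_chi, map_sum]
  have hz : ∀ c, P.v (S.χ (q c)) ≤ 1 := fun c => by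
    rw [P.v_chi_le_one]
    rcases hq1 c with h | h
    · rw [A.eq, h, mul_zero]
    · rw [h, A.nu_qs]; exact A.a_nonneg
  rcases A.alt with ⟨-, -, ha⟩ | ⟨h1, ha⟩
  · have hν : ∀ m, P.nu S.χ m = 0 := fun m => by rw [A.eq, ha, zero_mul]
    have hp : phi S.e (P.nu S.χ) = 0 := by
      rw [phi_mul S.e le_rfl (ν' := 0) (fun m => by simp [hν]), zero_mul]
    refine ⟨fun c => S.χ (q c), hz, ?_⟩
    rw [hj, map_mul, map_pow, P.v_chi]
    simp [hν, hp]
  · obtain ⟨cs, hcs⟩ := hq4 ha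
    obtain ⟨π, hπ⟩ := hv (WithZero.exp (-1))
    have hπ0 : π ≠ 0 := by
      rintro rfl
      rw [map_zero] at hπ
      exact WithZero.exp_ne_zero hπ.symm
    obtain ⟨a', ha'⟩ : ∃ a' : ℕ, A.a = a' + 1 := ⟨(A.a - 1).toNat, by omega⟩
    set w := S.χ A.qs / π ^ (a' + 1) with hw
    have hpw : ∀ j : ℕ, P.v π ^ j = WithZero.exp (- (j : ℤ)) := fun j => by
      rw [hπ, ← WithZero.exp_nsmul]; simp
    have hvw : P.v w = 1 := by
      rw [hw, map_div₀, map_pow, hpw, P.v_chi, A.nu_qs, ha']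
      exact div_self WithZero.exp_ne_zero
    have hsum : ∑ c, P.nu S.χ (q c) = a' + 1 := by
      rw [Fintype.sum_eq_single cs, hcs, A.nu_qs, ha']
      intro c hc
      rcases hq1 c with h | h
      · rw [A.eq, h, mul_zero]
      · exact absurd (hq2 (h.trans hcs.symm)) hc
    have hsplit : jac S.D (fun c => S.χ (q c)) =
        (((a' + 1 : ℕ) : K) * π ^ a' * w) * jac S.D (Function.update (fun c => S.χ (q c)) cs π) +
          π ^ (a' + 1) * jac S.D (Function.update (fun c => S.χ (q c)) cs w) := by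
      have e1 : S.χ A.qs = π ^ (a' + 1) * w := by rw [hw]; field_simp
      conv_lhs => rw [← Function.update_eq_self cs (fun c => S.χ (q c))]
      rw [jac_update, jac_update, jac_update, ← Matrix.det_updateCol_smul,
        ← Matrix.det_updateCol_smul, ← Matrix.det_updateCol_add]
      congr 2
      funext a
      simp only [hcs, e1, Derivation.leibniz, Derivation.leibniz_pow, Pi.add_apply, Pi.smul_apply,
        smul_eq_mul, nsmul_eq_mul, Nat.add_sub_cancel]
      ring
    have hb : ∀ y, P.v y ≤ 1 → ∀ c, P.v (Function.update (fun c => S.χ (q c)) cs y c) ≤ 1 := by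
      intro y hy c
      by_cases hc : c = cs
      · subst hc; simpa using hy
      · simpa [hc] using hz c
    have hν : P.nu S.χ ≠ 0 := fun h => by
      have h2 := A.nu_qs
      have h3 : P.nu S.χ A.qs = 0 := DFunLike.congr_fun h _
      omega
    have hh : P.v (S.χ u * h0 ^ m) ≤ (WithZero.exp (-1) *
        (P.v h0 * WithZero.exp (- phi S.e (P.nu S.χ)))) ^ m := by
      rw [map_mul, map_pow, P.v_chi, mul_left_comm, mul_pow, ← WithZero.exp_add,
        ← WithZero.exp_nsmul, mul_comm]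
      apply mul_le_mul_right
      rw [WithZero.exp_le_exp, nsmul_eq_mul]
      have := hu _ hν
      linarith
    set X := P.v h0 * WithZero.exp (- phi S.e (P.nu S.χ)) with hX
    have hmax := P.v.map_add
      ((((a' + 1 : ℕ) : K) * π ^ a' * w) * jac S.D (Function.update (fun c => S.χ (q c)) cs π))
      (π ^ (a' + 1) * jac S.D (Function.update (fun c => S.χ (q c)) cs w))
    rw [← hsplit, hj, hsum, le_max_iff] at hmax
    rcases hmax with hmax | hmax
    · refine ⟨_, hb π (by rw [hπ, ← WithZero.exp_zero, WithZero.exp_le_exp]; omega),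
        hh.trans (pow_le_pow_left' ?_ m)⟩
      rw [map_mul, map_mul, map_mul, hvw, map_pow, hpw, mul_one] at hmax
      have h5 : P.v ((a' + 1 : ℕ) : K) ≤ 1 := by simpa using P.v_intCast ((a' + 1 : ℕ) : ℤ)
      have h6 := hmax.trans (mul_le_mul_left (mul_le_mul_left h5 _) _)
      rw [one_mul, show -((a' : ℤ) + 1) = - (a' : ℤ) + -1 by ring, WithZero.exp_add,
        mul_assoc] at h6
      exact le_of_mul_le_mul_left h6 WithZero.exp_pos
    · refine ⟨_, hb w hvw.le, hh.trans (pow_le_pow_left' ?_ m)⟩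
      rw [map_mul, map_pow, hpw] at hmax
      have h6 := le_of_mul_le_mul_left hmax WithZero.exp_pos
      refine le_trans ?_ h6
      apply mul_le_of_le_one_left'
      rw [← WithZero.exp_zero, WithZero.exp_le_exp]; omega

end Sys

end Pool.Agent.Lib.MP_813db1_ag
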