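import Pool.Agent.Lib.MP_813db1_ag.Der
import Pool.Agent.Lib.MP_813db1_ag.Bridge

/-! Valuations and derivations: tools for product-quotients. -/

namespace Pool.Agent.Lib.MP_813db1_ag.PQ

open WithZero
open scoped IntermediateField

variable {L : Type} [Field L] [Algebra ℂ L]

/-- The valuation is trivial on the constants. -/
def Triv (w : Valuation L Γ) : Prop := ∀ c : ℂ, w (algebraMap ℂ L c) ≤ 1

theorem Triv.eq_one {w : Valuation L Γ} (hw : Triv w) {c : ℂ} (hc : c ≠ 0) :
    w (algebraMap ℂ L c) = 1 := by
  refine le_antisymm (hw c) ?_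
  have h1 : w (algebraMap ℂ L c) * w (algebraMap ℂ L c⁻¹) = 1 := by
    rw [← map_mul, ← map_mul, mul_inv_cancel₀ hc, map_one, map_one]
  calc (1 : Γ) = w (algebraMap ℂ L c) * w (algebraMap ℂ L c⁻¹) := h1.symm
    _ ≤ w (algebraMap ℂ L c) * 1 := mul_le_mul_right (hw _) _
    _ = _ := mul_one _

theorem Triv.natCast {w : Valuation L Γ} (hw : Triv w) {m : ℕ} (hm : m ≠ 0) : w (m : L) = 1 := by
  simpa using hw.eq_one (c := (m : ℂ)) (Nat.cast_ne_zero.2 hm)

theorem Triv.intCast {w : Valuation L Γ} (hw : Triv w) (m : ℤ) : w (m : L) ≤ 1 := by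
  simpa using hw (m : ℂ)

theorem exists_c {J : Type} [Finite J] (w : J → Valuation L Γ) (hw : ∀ j, Triv (w j))
    (α β : J → L) : ∃ c : ℂ, ∀ j, w j (α j) ≤ w j (α j + algebraMap ℂ L c * β j) ∧
      w j (β j) ≤ w j (α j + algebraMap ℂ L c * β j) := by
  have hfin : (⋃ j, {c : ℂ | w j (α j + algebraMap ℂ L c * β j) <
      max (w j (α j)) (w j (β j))}).Finite := by
    refine Set.finite_iUnion fun j => Set.Subsingleton.finite ?_
    intro c hc c' hc'
    simp only [Set.mem_ofPred_eq] at hc hc'
    by_contra hne
    have h1 : w j (β j) < max (w j (α j)) (w j (β j)) := by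
      have e : algebraMap ℂ L (c - c') * β j = (α j + algebraMap ℂ L c * β j) -
          (α j + algebraMap ℂ L c' * β j) := by rw [map_sub]; ring
      have := (w j).map_sub_lt hc hc'
      rwa [← e, map_mul, (hw j).eq_one (sub_ne_zero.2 hne), one_mul] at this
    have h2 : w j (α j) < max (w j (α j)) (w j (β j)) := by
      have e : α j = (α j + algebraMap ℂ L c * β j) - algebraMap ℂ L c * β j := by ring
      have h3 : w j (algebraMap ℂ L c * β j) < max (w j (α j)) (w j (β j)) := by
        rw [map_mul]
        exact (mul_le_of_le_one_left' (hw j c)).trans_lt h1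
      have := (w j).map_sub_lt hc h3
      rwa [← e] at this
    exact lt_irrefl _ (max_lt h2 h1)
  obtain ⟨c, hc⟩ := hfin.exists_notMem
  refine ⟨c, fun j => ?_⟩
  simp only [Set.mem_iUnion, Set.mem_ofPred_eq, not_exists, not_lt] at hc
  exact max_le_iff.1 (hc j)

theorem adjoin_ind (t : L) (P : L → Prop) (h0 : ∀ c, P (algebraMap ℂ L c))
    (h1 : ∀ q, P (t - algebraMap ℂ L q)) (hmul : ∀ x y, P x → P y → P (x * y))
    (hinv : ∀ x, P x → P x⁻¹) : ∀ x ∈ ℂ⟮t⟯, P x := by
  have hp : ∀ p : Polynomial ℂ, P (Polynomial.aeval t p) := by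
    intro p
    rw [(IsAlgClosed.splits p).eq_prod_roots, map_mul, Polynomial.aeval_C]
    refine hmul _ _ (h0 _) ?_
    induction p.roots using Multiset.induction_on with
    | empty => simpa using h0 1
    | cons a s ih =>
      rw [Multiset.map_cons, Multiset.prod_cons, map_mul]
      refine hmul _ _ ?_ ih
      simpa using h1 a
  intro x hx
  obtain ⟨r, s, rfl⟩ := (IntermediateField.mem_adjoin_simple_iff ℂ x).1 hx
  rw [div_eq_mul_inv]
  exact hmul _ _ (hp r) (hinv _ (hp s))

theorem le_one_of_alg (w : Valuation L Γ) (E : IntermediateField ℂ L) (hE : ∀ x ∈ E, w x ≤ 1)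
    {x : L} (hx : IsAlgebraic E x) : w x ≤ 1 := by
  let _ : Algebra E w.integer :=
    ((algebraMap E L).codRestrict w.integer fun a => hE a a.2).toAlgebra
  have : IsScalarTower E w.integer L := IsScalarTower.of_algebraMap_eq fun _ => rfl
  exact (Valuation.integer.integers w).mem_of_integral
    (IsIntegral.tower_top (A := w.integer) hx.isIntegral)

omit [Algebra ℂ L] in
theorem det_lt {n : ℕ} (w : Valuation L Γ) (S : Set (Fin n → L)) (γ : Γ) (hγ : γ ≠ 0)
    (h : ∀ m : Fin n → Fin n → L, (∀ c, m c ∈ S) → w (Matrix.of m).det < γ)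
    (m : Fin n → Fin n → L) (hm : ∀ c, m c ∈ Submodule.span w.integer S) :
    w (Matrix.of m).det < γ := by
  classical
  have key : ∀ s : Finset (Fin n), ∀ m : Fin n → Fin n → L,
      (∀ c ∈ s, m c ∈ Submodule.span w.integer S) → (∀ c ∉ s, m c ∈ S) →
      w (Matrix.of m).det < γ := by
    intro s
    induction s using Finset.induction_on with
    | empty => exact fun m _ h2 => h m fun c => h2 c (by simp)
    | insert c0 s hc0 ih =>
      intro m h1 h2
      have h3 : ∀ x ∈ Submodule.span w.integer S,
          w ((Matrix.of m).updateRow c0 x).det < γ := by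
        intro x hx
        induction hx using Submodule.span_induction with
        | mem x hx =>
          refine ih (Function.update m c0 x) (fun c hc => ?_) (fun c hc => ?_)
          · rw [Function.update_of_ne (by rintro rfl; exact hc0 hc)]
            exact h1 c (Finset.mem_insert_of_mem hc)
          · by_cases e : c = c0
            · rw [e, Function.update_self]; exact hx
            · rw [Function.update_of_ne e]
              exact h2 c (by simp [e, hc])
        | zero =>
          rw [Matrix.det_eq_zero_of_row_eq_zero c0 (by simp), map_zero]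
          exact zero_lt_iff.2 hγ
        | add x y _ _ hx hy =>
          rw [Matrix.det_updateRow_add]
          exact w.map_add_lt hx hy
        | smul r x _ hx =>
          have e : r • x = (r : L) • x := rfl
          rw [e, Matrix.det_updateRow_smul, map_mul]
          exact (mul_le_of_le_one_left' r.2).trans_lt hx
      have := h3 _ (h1 c0 (Finset.mem_insert_self _ _))
      rwa [show m c0 = (Matrix.of m) c0 from rfl, Matrix.updateRow_eq_self] at this
  exact key Finset.univ m (fun c _ => hm c) (fun c hc => absurd (Finset.mem_univ c) hc)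

theorem jac_eq {n : ℕ} (D : Fin n → Derivation ℂ L L) (b : Fin n → L) :
    jac D b = (Matrix.of fun c a => D a (b c)).det := by
  rw [jac, ← Matrix.det_transpose]
  rfl

omit [Algebra ℂ L] in
theorem exists_exp {v : Valuation L Γ} {x : L} (hx : x ≠ 0) : ∃ k : ℤ, v x = exp k :=
  ⟨log (v x), (exp_log ((v.ne_zero_iff).2 hx)).symm⟩

/-- A logarithmic form has at most a simple pole. -/
theorem log_pole {n : ℕ} (D : Fin n → Derivation ℂ L L) (v : Valuation L Γ)
    (hv : Function.Surjective v) (hk : Triv v) (y : Fin n → L) (hy : ∀ c, y c ≠ 0) :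
    ∃ a : Fin n → L, (∀ c, v (a c) ≤ 1) ∧
      v (Matrix.of fun c i => D i (y c) / y c).det * exp (-1) ≤ v (jac D a) := by
  classical
  obtain ⟨π, hπ⟩ := hv (exp (-1))
  have hπ0 : π ≠ 0 := by
    rintro rfl
    rw [map_zero] at hπ
    exact exp_ne_zero hπ.symm
  have hπ1 : v π ≤ 1 := by rw [hπ, ← exp_zero, exp_le_exp]; omega
  by_contra hcon
  push Not at hcon
  set γ := v (Matrix.of fun c i => D i (y c) / y c).det with hγ
  have hγ0 : γ ≠ 0 := by
    intro h
    have := hcon (fun _ => 0) (fun _ => by simp)
    rw [h, zero_mul] at this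
    exact not_lt_zero this
  let p : Fin n → L := fun i => D i π / π
  let S : Set (Fin n → L) := {x | x = p ∨ ∃ a, v a ≤ 1 ∧ x = fun i => D i a}
  refine lt_irrefl γ (det_lt v S γ hγ0 (fun m hm => ?_) _ (fun c => ?_))
  · by_cases h1 : ∃ c0, m c0 = p
    · obtain ⟨c0, h0⟩ := h1
      by_cases h2 : ∃ c1, c1 ≠ c0 ∧ m c1 = p
      · obtain ⟨c1, h3, h4⟩ := h2
        rw [Matrix.det_zero_of_row_eq (M := Matrix.of m) h3 (h4.trans h0.symm), map_zero]
        exact zero_lt_iff.2 hγ0
      · push Not at h2
        have h5 : ∀ c, ∃ a, v a ≤ 1 ∧ (c ≠ c0 → m c = fun i => D i a) ∧ (c = c0 → a = π) := by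
          intro c
          by_cases e : c = c0
          · exact ⟨π, hπ1, fun h => absurd e h, fun _ => rfl⟩
          · obtain ⟨a, ha, h⟩ := (hm c).resolve_left (h2 c e)
            exact ⟨a, ha, fun _ => h, fun h => absurd h e⟩
        choose a ha1 ha2 ha3 using h5
        have e : jac D a = π * (Matrix.of m).det := by
          rw [jac_eq, ← Matrix.updateRow_eq_self (Matrix.of m) c0, ← Matrix.det_updateRow_smul]
          congr 1
          ext c i
          by_cases e : c = c0
          · subst e
            simp only [Matrix.of_apply, Matrix.updateRow_self, Pi.smul_apply, smul_eq_mul, h0, p,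
              ha3 c rfl]
            field_simp
          · simp [Matrix.updateRow_ne e, ha2 c e]
        have := hcon a ha1
        rw [e, map_mul, hπ, mul_comm] at this
        exact lt_of_mul_lt_mul_right this zero_le
    · push Not at h1
      choose a ha1 ha2 using fun c => (hm c).resolve_left (h1 c)
      have e : jac D a = (Matrix.of m).det := by
        rw [jac_eq]
        congr 1
        ext c i
        simp [ha2 c]
      have := hcon a ha1
      rw [e] at this
      refine this.trans_le (mul_le_of_le_one_right' ?_)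
      rw [← hπ]; exact hπ1
  · obtain ⟨k, hk'⟩ := exists_exp (v := v) (hy c)
    let u := y c * π ^ k
    have hu : v u = 1 := by
      rw [map_mul, map_zpow₀, hk', hπ, ← exp_zsmul, ← exp_add]
      simp
    have hu0 : u ≠ 0 := mul_ne_zero (hy c) (zpow_ne_zero _ hπ0)
    have e : (fun i => D i (y c) / y c) =
        (⟨u⁻¹, by rw [Valuation.mem_integer_iff, map_inv₀, hu, inv_one]⟩ : v.integer) •
          (fun i => D i u) - (⟨(k : L), hk.intCast k⟩ : v.integer) • p := by
      funext i
      change _ = u⁻¹ * D i u - (k : L) * (D i π / π)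
      have := hy c
      simp only [u, Derivation.leibniz, Derivation.leibniz_zpow, smul_eq_mul, zsmul_eq_mul]
      rw [zpow_sub_one₀ hπ0]
      have := zpow_ne_zero k hπ0
      field_simp
      ring
    rw [e]
    exact Submodule.sub_mem _ (Submodule.smul_mem _ _ (Submodule.subset_span
      (Or.inr ⟨u, hu.le, rfl⟩))) (Submodule.smul_mem _ _ (Submodule.subset_span (Or.inl rfl)))

section Compat

variable {K : Type} [Field K] [Algebra ℂ K] [Algebra K L] [IsScalarTower ℂ K L]

omit [IsScalarTower ℂ K L] in
theorem der_zero (Δ : Derivation ℂ K L) (s : Set K) (hs : ∀ x ∈ s, Δ x = 0) {y : K}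
    (hy : IsAlgebraic (IntermediateField.adjoin ℂ s) y) : Δ y = 0 := by
  have hE : ∀ x ∈ IntermediateField.adjoin ℂ s, Δ x = 0 := by
    intro x hx
    induction hx using IntermediateField.adjoin_induction with
    | mem x hx => exact hs x hx
    | algebraMap c => exact Δ.map_algebraMap c
    | add x y _ _ hx hy => rw [map_add, hx, hy, add_zero]
    | inv x _ hx => rw [Δ.leibniz_inv, hx, smul_zero]
    | mul x y _ _ hx hy => rw [Δ.leibniz, hx, hy, smul_zero, smul_zero, add_zero]
  set E := IntermediateField.adjoin ℂ s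
  have h1 : ∀ p : Polynomial E, Δ (Polynomial.aeval y p) =
      Polynomial.aeval y (Polynomial.derivative p) • Δ y := by
    intro p
    induction p using Polynomial.induction_on' with
    | add p q hp hq => rw [map_add, map_add, hp, hq, map_add, map_add, add_smul]
    | monomial n a =>
      rw [Polynomial.derivative_monomial, Polynomial.aeval_monomial, Polynomial.aeval_monomial,
        Δ.leibniz, Δ.leibniz_pow]
      have h0 : Δ (algebraMap E K a) = 0 := hE _ a.2
      rw [h0, smul_zero, add_zero, map_mul, map_natCast, ← Nat.cast_smul_eq_nsmul K, smul_smul,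
        smul_smul]
  have : CharZero E := charZero_of_injective_algebraMap (algebraMap ℂ E).injective
  have hint : IsIntegral E y := hy.isIntegral
  have h2 := h1 (minpoly E y)
  rw [minpoly.aeval, map_zero] at h2
  have hsep : (minpoly E y).Separable := (minpoly.irreducible hint).separable
  exact (smul_eq_zero.1 h2.symm).resolve_left (hsep.aeval_derivative_ne_zero (minpoly.aeval E y))

theorem der_compat (δ : Derivation ℂ K K) (D : Derivation ℂ L L) (s : Set K)
    (hs : ∀ x ∈ s, D (algebraMap K L x) = algebraMap K L (δ x)) {y : K}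
    (hy : IsAlgebraic (IntermediateField.adjoin ℂ s) y) :
    D (algebraMap K L y) = algebraMap K L (δ y) :=
  sub_eq_zero.1 (der_zero (D.compAlgebraMap K - (Algebra.linearMap K L).compDer δ) s
    (fun x hx => sub_eq_zero.2 (hs x hx)) hy)

end Compat

open IsDedekindDomain in
omit [Algebra ℂ L] in
theorem exists_over (A K : Type) [CommRing A] [IsDedekindDomain A] [Field K] [Algebra A K]
    [IsFractionRing A K] [Algebra K L] [Algebra A L] [IsScalarTower A K L]
    [FiniteDimensional K L] [Algebra.IsSeparable K L] (y : A) (h0 : y ≠ 0) (hy : ¬ IsUnit y) :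
    ∃ w : Valuation L Γ, Function.Surjective w ∧ (∀ a : A, w (algebraMap A L a) ≤ 1) ∧
      w (algebraMap A L y) < 1 := by
  have : IsDedekindDomain (integralClosure A L) := IsIntegralClosure.isDedekindDomain A K L _
  have : IsFractionRing (integralClosure A L) L :=
    integralClosure.isFractionRing_of_finite_extension K L
  have hinj : Function.Injective (algebraMap A L) := by
    rw [IsScalarTower.algebraMap_eq A K L]
    exact (algebraMap K L).injective.comp (IsFractionRing.injective A K)
  have hinj' : Function.Injective (algebraMap A (integralClosure A L)) := fun a b h =>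
    hinj (congrArg Subtype.val h)
  obtain ⟨m, hm, hym⟩ := exists_max_ideal_of_mem_nonunits hy
  obtain ⟨Q, hQ, hQm⟩ := Ideal.exists_ideal_over_maximal_of_isIntegral
    (S := integralClosure A L) m (by
      rw [(RingHom.injective_iff_ker_eq_bot _).1 hinj']; exact bot_le)
  have hyQ : algebraMap A (integralClosure A L) y ∈ Q := by
    rw [← hQm] at hym; exact hym
  let P : HeightOneSpectrum (integralClosure A L) := ⟨Q, hQ.isPrime, fun h => h0 (by
    rw [h] at hyQ
    exact hinj' (hyQ.trans (map_zero _).symm))⟩
  exact ⟨P.valuation L, P.valuation_surjective L,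
    fun a => P.valuation_le_one (algebraMap A (integralClosure A L) a),
    (P.valuation_lt_one_iff_mem (algebraMap A (integralClosure A L) y)).2 hyQ⟩

omit [Algebra ℂ L] in
theorem isNontrivial {w : Valuation L Γ} {x : L} (h0 : x ≠ 0) (h1 : w x ≠ 1) : w.IsNontrivial :=
  ⟨x, (w.ne_zero_iff).2 h0, h1⟩

omit [Algebra ℂ L] in
/-- A non-trivial valuation is equivalent to a surjective one. -/
theorem exists_norm (w : Valuation L Γ) [w.IsNontrivial] :
    ∃ u : Valuation L Γ, Function.Surjective u ∧ u.IsEquiv w := by
  let R := w.valuationSubring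
  refine ⟨(IsDiscreteValuationRing.maximalIdeal R).valuation L,
    IsDedekindDomain.HeightOneSpectrum.valuation_surjective L _,
    Valuation.isEquiv_of_val_le_one fun x => ⟨fun hx => ?_, fun hx => ?_⟩⟩
  · obtain ⟨a, rfl⟩ := IsDiscreteValuationRing.exists_lift_of_le_one hx
    exact a.2
  · exact IsDedekindDomain.HeightOneSpectrum.valuation_le_one _ (⟨x, hx⟩ : R)

omit [Algebra ℂ L] in
theorem exists_ext {K : Type} [Field K] [Algebra K L] [FiniteDimensional K L]
    [Algebra.IsSeparable K L] (v : Valuation K Γ) (hv : Function.Surjective v) :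
    ∃ w : Valuation L Γ, v.IsEquiv (w.comap (algebraMap K L)) := by
  obtain ⟨π, hπ⟩ := hv (exp (-1))
  have hπ0 : π ≠ 0 := by
    rintro rfl
    rw [map_zero] at hπ
    exact exp_ne_zero hπ.symm
  have hπ1 : v π < 1 := by rw [hπ, ← exp_zero, exp_lt_exp]; omega
  have : v.IsNontrivial := isNontrivial hπ0 hπ1.ne
  let R := v.valuationSubring
  let _ : Algebra R L := ((algebraMap K L).comp (algebraMap R K)).toAlgebra
  have : IsScalarTower R K L := IsScalarTower.of_algebraMap_eq fun _ => rfl
  obtain ⟨w, -, h1, h2⟩ := exists_over (L := L) R K (⟨π, hπ1.le⟩ : R)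
    (fun h => hπ0 (congrArg Subtype.val h)) (fun h => by
      obtain ⟨b, hb⟩ := h.exists_right_inv
      have h3 : v π * v (b : K) = 1 := by
        rw [← map_mul]; exact (congrArg (fun z : R => v (z : K)) hb).trans (map_one v)
      exact (mul_lt_one_of_lt_of_le hπ1 b.2).ne h3)
  refine ⟨w, Valuation.isEquiv_of_val_le_one fun x => ⟨fun hx => h1 ⟨x, hx⟩, fun hx => ?_⟩⟩
  by_contra hc
  rw [not_le] at hc
  have hx0 : x ≠ 0 := by rintro rfl; simp at hc
  obtain ⟨k, hk⟩ := exists_exp (v := v) hx0
  have hk0 : 0 < k := by rwa [hk, ← exp_zero, exp_lt_exp] at hc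
  have h3 : v (x * π)⁻¹ ≤ 1 := by
    rw [map_inv₀, map_mul, hk, hπ, ← exp_add, ← exp_neg, ← exp_zero, exp_le_exp]; omega
  have h4 : w (algebraMap K L (x * π)⁻¹) ≤ 1 := h1 ⟨_, h3⟩
  have h5 : w (algebraMap K L π) < 1 := h2
  have h6 : w (algebraMap K L x) ≤ 1 := hx
  have h7 : w (algebraMap K L (x * π)⁻¹) * (w (algebraMap K L x) * w (algebraMap K L π)) = 1 := by
    rw [← map_mul, ← map_mul, ← map_mul, ← map_mul, inv_mul_cancel₀ (mul_ne_zero hx0 hπ0),
      map_one, map_one]
  exact (mul_lt_one_of_nonneg_of_lt_one_right h4 zero_le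
    (mul_lt_one_of_nonneg_of_lt_one_right h6 zero_le h5)).ne h7

end Pool.Agent.Lib.MP_813db1_ag.PQ
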