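import Pool.Agent.Lib.MP_813db1_ag.PQ1

/-! Differentials at a valuation of a Galois extension. -/

namespace Pool.Agent.Lib.MP_813db1_ag.PQ

open WithZero Finset

variable {L : Type} [Field L] [Algebra ℂ L] (H : Subgroup (L ≃ₐ[ℂ] L)) (w : Valuation L Γ)

/-- Integral at all conjugates of the valuation. -/
def InB (x : L) : Prop := ∀ g : H, w ((g : L ≃ₐ[ℂ] L) x) ≤ 1

variable {H w}

theorem InB.le {x : L} (h : InB H w x) : w x ≤ 1 := h 1

theorem InB.map {x : L} (h : InB H w x) (g : H) : InB H w ((g : L ≃ₐ[ℂ] L) x) :=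
  fun g' => h (g' * g)

theorem InB.add_mul (hw : Triv w) {x y : L} (hx : InB H w x) (hy : InB H w y) (c : ℂ) :
    InB H w (x + algebraMap ℂ L c * y) := fun g => by
  rw [map_add, map_mul, AlgEquiv.commutes]
  refine w.map_add_le (hx g) ?_
  rw [map_mul]
  exact mul_le_one' (hw c) (hy g)

theorem Triv.comap (hw : Triv w) (g : L ≃ₐ[ℂ] L) : Triv (w.comap (g : L →+* L)) := fun c => by
  rw [Valuation.comap_apply, RingHom.coe_coe, AlgEquiv.commutes]
  exact hw c

theorem exists_frac [Finite H] (hw : Triv w) {z : L} (hz : w z ≤ 1) :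
    ∃ s a : L, InB H w s ∧ InB H w a ∧ w s = 1 ∧ z * s = a := by
  obtain ⟨c, hc⟩ := exists_c (J := H) (fun g => w.comap ((g : L ≃ₐ[ℂ] L) : L →+* L))
    (fun g => hw.comap _) (fun _ => z) (fun _ => 1)
  simp only [Valuation.comap_apply, RingHom.coe_coe, map_one, mul_one] at hc
  refine ⟨(z + algebraMap ℂ L c)⁻¹, _, fun g => ?_, fun g => ?_, ?_, rfl⟩
  · rw [map_inv₀, map_inv₀]
    exact inv_le_one_of_one_le₀ (hc g).2
  · rw [map_mul, map_mul, map_inv₀, map_inv₀, ← div_eq_mul_inv]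
    exact div_le_one_of_le₀ (hc g).1 zero_le
  · rw [map_inv₀, inv_eq_one]
    exact le_antisymm (w.map_add_le hz (hw c)) (hc 1).2

theorem exists_b0 [Finite H] (hw : Triv w) (b : H → L) (hb : ∀ g, InB H w (b g)) :
    ∃ b0, InB H w b0 ∧ ∀ g : H,
      w (b g - (g : L ≃ₐ[ℂ] L) (b g)) ≤ w (b0 - (g : L ≃ₐ[ℂ] L) b0) := by
  classical
  have := Fintype.ofFinite H
  have key : ∀ s : Finset H, ∃ b0, InB H w b0 ∧ ∀ g ∈ s,
      w (b g - (g : L ≃ₐ[ℂ] L) (b g)) ≤ w (b0 - (g : L ≃ₐ[ℂ] L) b0) := by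
    intro s
    induction s using Finset.induction_on with
    | empty => exact ⟨0, fun g => by simp, by simp⟩
    | insert g0 s _ ih =>
      obtain ⟨b1, h1, h2⟩ := ih
      obtain ⟨c, hc⟩ := exists_c (J := H) (fun _ => w) (fun _ => hw)
        (fun g => b g0 - (g : L ≃ₐ[ℂ] L) (b g0)) (fun g => b1 - (g : L ≃ₐ[ℂ] L) b1)
      refine ⟨b g0 + algebraMap ℂ L c * b1, (hb g0).add_mul hw h1 c, fun g hg => ?_⟩
      have e : b g0 + algebraMap ℂ L c * b1 - (g : L ≃ₐ[ℂ] L) (b g0 + algebraMap ℂ L c * b1) =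
          b g0 - (g : L ≃ₐ[ℂ] L) (b g0) + algebraMap ℂ L c * (b1 - (g : L ≃ₐ[ℂ] L) b1) := by
        rw [map_add, map_mul, AlgEquiv.commutes]; ring
      rw [e]
      rcases mem_insert.1 hg with rfl | hg
      · exact (hc g).1
      · exact (h2 g hg).trans (hc g).2
  obtain ⟨b0, h1, h2⟩ := key univ
  exact ⟨b0, h1, fun g => h2 g (mem_univ g)⟩

variable {ι : Type} (D : ι → Derivation ℂ L L)

variable (H w) in
/-- The differentials of the invariant integers. -/
def dInv : Set (ι → L) :=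
  {x | ∃ a ∈ IntermediateField.fixedField H, w a ≤ 1 ∧ x = fun i => D i a}

omit [Algebra ℂ L] in
theorem smul_mem' {M : Submodule w.integer (ι → L)} {r : L} (hr : w r ≤ 1) {x : ι → L}
    (hx : x ∈ M) : r • x ∈ M := M.smul_mem ⟨r, hr⟩ hx

theorem power_mem [Fintype H] [DecidableEq H] (hw : Triv w) {z : L} (hz : InB H w z) :
    (∏ h ∈ (univ : Finset H).erase 1, (z - (h : L ≃ₐ[ℂ] L) z)) • (fun i => D i z) ∈
      Submodule.span w.integer (dInv H w D) := by
  have key : ∀ s : Finset H, ∀ k : ℕ, (fun i => ∑ g : H, ((g : L ≃ₐ[ℂ] L) z) ^ k *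
      (∏ h ∈ s, ((g : L ≃ₐ[ℂ] L) z - (h : L ≃ₐ[ℂ] L) z)) * D i ((g : L ≃ₐ[ℂ] L) z)) ∈
      Submodule.span w.integer (dInv H w D) := by
    intro s
    induction s using Finset.induction_on with
    | empty =>
      intro k
      have hk : ((k + 1 : ℕ) : L) ≠ 0 := by
        have : CharZero L := charZero_of_injective_algebraMap (algebraMap ℂ L).injective
        exact Nat.cast_ne_zero.2 k.succ_ne_zero
      have h1 : (fun i => D i (∑ g : H, ((g : L ≃ₐ[ℂ] L) z) ^ (k + 1))) ∈
          Submodule.span w.integer (dInv H w D) := by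
        refine Submodule.subset_span ⟨_, ?_, w.map_sum_le fun g _ => ?_, rfl⟩
        · rw [IntermediateField.mem_fixedField_iff]
          intro f hf
          rw [map_sum]
          refine Fintype.sum_equiv (Equiv.mulLeft (⟨f, hf⟩ : H)) _ _ fun g => ?_
          rw [map_pow]
          rfl
        · rw [map_pow]
          exact pow_le_one' (hz g) _
      have h2 := smul_mem' (r := ((k + 1 : ℕ) : L)⁻¹)
        (by rw [map_inv₀, hw.natCast k.succ_ne_zero, inv_one]) h1
      convert h2 using 1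
      funext i
      rw [Pi.smul_apply, map_sum, smul_eq_mul, mul_sum]
      refine sum_congr rfl fun g _ => ?_
      rw [Derivation.leibniz_pow, prod_empty, Nat.add_sub_cancel, smul_eq_mul, nsmul_eq_mul]
      field_simp
    | insert h0 s hh ih =>
      intro k
      convert Submodule.sub_mem _ (ih (k + 1)) (smul_mem' (hz h0) (ih k)) using 1
      funext i
      rw [Pi.sub_apply, Pi.smul_apply, smul_eq_mul, mul_sum, ← sum_sub_distrib]
      refine sum_congr rfl fun g _ => ?_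
      rw [prod_insert hh]
      ring
  convert key (univ.erase 1) 0 using 1
  funext i
  rw [Fintype.sum_eq_single (1 : H)]
  · simp
  · intro g hg
    rw [prod_eq_zero (mem_erase.2 ⟨hg, mem_univ g⟩) (sub_self _), mul_zero, zero_mul]

theorem mem_dInv [Fintype H] [DecidableEq H] (hw : Triv w) {b0 : L} (hb : InB H w b0) {z : L}
    (hz : w z ≤ 1) :
    (∏ h ∈ (univ : Finset H).erase 1, (b0 - (h : L ≃ₐ[ℂ] L) b0)) • (fun i => D i z) ∈
      Submodule.span w.integer (dInv H w D) := by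
  set β := ∏ h ∈ (univ : Finset H).erase 1, (b0 - (h : L ≃ₐ[ℂ] L) b0) with hβ
  have key : ∀ z, InB H w z → β • (fun i => D i z) ∈ Submodule.span w.integer (dInv H w D) := by
    intro z hz
    obtain ⟨c, hc⟩ := exists_c (J := H) (fun _ => w) (fun _ => hw)
      (fun g => z - (g : L ≃ₐ[ℂ] L) z) (fun g => b0 - (g : L ≃ₐ[ℂ] L) b0)
    have h1 := power_mem D hw (hz.add_mul hw hb c)
    set z' := z + algebraMap ℂ L c * b0 with hz'
    set β' := ∏ h ∈ (univ : Finset H).erase 1, (z' - (h : L ≃ₐ[ℂ] L) z') with hβ'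
    have h2 : w β ≤ w β' := by
      rw [hβ, hβ', map_prod, map_prod]
      refine prod_le_prod' fun g _ => (hc g).2.trans_eq ?_
      congr 1
      rw [hz', map_add, map_mul, AlgEquiv.commutes]; ring
    have h3 : β • (fun i => D i z') ∈ Submodule.span w.integer (dInv H w D) := by
      by_cases h0 : β' = 0
      · rw [h0, map_zero, le_zero_iff, w.zero_iff] at h2
        rw [h2, zero_smul]
        exact zero_mem _
      · have := smul_mem' (r := β / β') (by
          rw [map_div₀]; exact div_le_one_of_le₀ h2 zero_le) h1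
        rwa [smul_smul, div_mul_cancel₀ _ h0] at this
    convert Submodule.sub_mem _ h3 (smul_mem' (hw c) (power_mem D hw hb)) using 1
    funext i
    simp only [hz', Pi.smul_apply, Pi.sub_apply, smul_eq_mul, map_add, Derivation.leibniz,
      Derivation.map_algebraMap, ← hβ]
    ring
  obtain ⟨s, a, hs, ha, h1, rfl⟩ := exists_frac (H := H) hw hz
  have hs0 : s ≠ 0 := by rintro rfl; simp at h1
  convert Submodule.sub_mem _ (smul_mem' (r := s⁻¹) (by rw [map_inv₀, h1, inv_one]) (key _ ha))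
    (smul_mem' (r := z * s⁻¹) (by rw [map_mul, map_inv₀, h1, inv_one, mul_one]; exact hz)
      (key _ hs)) using 1
  funext i
  simp only [Pi.smul_apply, Pi.sub_apply, smul_eq_mul, Derivation.leibniz]
  field_simp
  ring

/-- An element of the inertia group preserves the valuation ring. -/
theorem inertia [Finite H] (hw : Triv w) (g : H)
    (hg : ∀ b, InB H w b → w (b - (g : L ≃ₐ[ℂ] L) b) < 1) {z : L} (hz : w z ≤ 1) :
    w (z - (g : L ≃ₐ[ℂ] L) z) < 1 := by
  obtain ⟨s, a, hs, ha, h1, rfl⟩ := exists_frac (H := H) hw hz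
  have h2 : w ((g : L ≃ₐ[ℂ] L) s) = 1 := by
    have := w.map_add_eq_of_lt_left (x := s) (y := -(s - (g : L ≃ₐ[ℂ] L) s))
      (by rw [Valuation.map_neg, h1]; exact hg s hs)
    rw [h1] at this
    rw [← this]; congr 1; ring
  have e : (z - (g : L ≃ₐ[ℂ] L) z) * (g : L ≃ₐ[ℂ] L) s =
      (z * s - (g : L ≃ₐ[ℂ] L) (z * s)) - z * (s - (g : L ≃ₐ[ℂ] L) s) := by
    rw [map_mul]; ring
  have h3 := w.map_sub_lt (hg _ ha) (y := z * (s - (g : L ≃ₐ[ℂ] L) s)) (by
    rw [map_mul]
    exact mul_lt_one_of_nonneg_of_lt_one_right hz zero_le (hg s hs))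
  rwa [← e, map_mul, h2, mul_one] at h3

/-- A separating element. -/
theorem exists_sep [Fintype H] [DecidableEq H] (hw : Triv w) : ∃ b0, InB H w b0 ∧
    ∏ h ∈ (univ : Finset H).erase 1, (b0 - (h : L ≃ₐ[ℂ] L) b0) ≠ 0 := by
  have h1 : ∀ g : H, ∃ b, InB H w b ∧ (g ≠ 1 → b - (g : L ≃ₐ[ℂ] L) b ≠ 0) := by
    intro g
    by_contra hcon
    push Not at hcon
    have h2 : ∀ z, w z ≤ 1 → (g : L ≃ₐ[ℂ] L) z = z := by
      intro z hz
      obtain ⟨s, a, hs, ha, h3, rfl⟩ := exists_frac (H := H) hw hz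
      have hs0 : s ≠ 0 := by rintro rfl; simp at h3
      have h4 := sub_eq_zero.1 (hcon _ ha).2
      rw [map_mul, ← sub_eq_zero.1 (hcon _ hs).2] at h4
      exact (mul_right_cancel₀ hs0 h4).symm
    refine (hcon 0 fun g => by simp).1 (Subtype.ext (AlgEquiv.ext fun z => ?_))
    change (g : L ≃ₐ[ℂ] L) z = z
    rcases le_total (w z) 1 with h | h
    · exact h2 z h
    · have := h2 z⁻¹ (by rw [map_inv₀]; exact inv_le_one_of_one_le₀ h)
      rwa [map_inv₀, inv_inj] at this
  choose b hb1 hb2 using h1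
  obtain ⟨b0, h2, h3⟩ := exists_b0 hw b hb1
  refine ⟨b0, h2, prod_ne_zero_iff.2 fun g hg h0 => ?_⟩
  have := h3 g
  rw [h0, map_zero, le_zero_iff, w.zero_iff] at this
  exact hb2 g (mem_erase.1 hg).1 this

/-- Descent of regularity when the inertia group is trivial. -/
theorem descent [Finite H] {n : ℕ} (D : Fin n → Derivation ℂ L L) (hw : Triv w)
    (hI : ∀ g : H, g ≠ 1 → ∃ b, InB H w b ∧ 1 ≤ w (b - (g : L ≃ₐ[ℂ] L) b))
    (z : Fin n → L) (hz : ∀ c, w (z c) ≤ 1) : ∃ a : Fin n → L,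
      (∀ c, a c ∈ IntermediateField.fixedField H ∧ w (a c) ≤ 1) ∧ w (jac D z) ≤ w (jac D a) := by
  classical
  have := Fintype.ofFinite H
  have h1 : ∀ g : H, ∃ b, InB H w b ∧ (g ≠ 1 → 1 ≤ w (b - (g : L ≃ₐ[ℂ] L) b)) := fun g => by
    by_cases h : g = 1
    · exact ⟨0, fun g => by simp, fun h' => absurd h h'⟩
    · obtain ⟨b, h1, h2⟩ := hI g h
      exact ⟨b, h1, fun _ => h2⟩
  choose b hb1 hb2 using h1
  obtain ⟨b0, h2, h3⟩ := exists_b0 hw b hb1
  set β := ∏ h ∈ (univ : Finset H).erase 1, (b0 - (h : L ≃ₐ[ℂ] L) b0) with hβ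
  have h4 : 1 ≤ w β := by
    rw [hβ, map_prod]
    exact one_le_prod' fun g hg => (hb2 g (mem_erase.1 hg).1).trans (h3 g)
  have hβ0 : β ≠ 0 := by rintro h; rw [h] at h4; simp at h4
  by_contra hcon
  push Not at hcon
  have hγ : w (jac D z) ≠ 0 := by
    intro h
    have := hcon (fun _ => 0) fun _ => ⟨zero_mem _, by simp⟩
    rw [h] at this
    exact not_lt_zero this
  have := det_lt w (dInv H w D) _ hγ (fun m hm => by
    choose a ha1 ha2 ha3 using hm
    have e : m = fun c i => D i (a c) := funext ha3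
    rw [e, ← jac_eq]
    exact hcon a fun c => ⟨ha1 c, ha2 c⟩) (fun c i => D i (z c)) fun c => by
      have := smul_mem' (r := β⁻¹) (by rw [map_inv₀]; exact inv_le_one_of_one_le₀ h4)
        (mem_dInv D hw h2 (hz c))
      rwa [← hβ, smul_smul, inv_mul_cancel₀ hβ0, one_smul] at this
  rw [← jac_eq] at this
  exact lt_irrefl _ this

/-- A derivation bounded on the invariant integers is bounded on all integers. -/
theorem bounded [Finite H] (δ : Derivation ℂ L L) (hw : Triv w) (γ : Γ)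
    (h : ∀ a ∈ IntermediateField.fixedField H, w a ≤ 1 → w (δ a) ≤ γ) :
    ∃ γ' : Γ, ∀ z, w z ≤ 1 → w (δ z) ≤ γ' := by
  classical
  have := Fintype.ofFinite H
  obtain ⟨b0, h1, h2⟩ := exists_sep (H := H) hw
  set β := ∏ h ∈ (univ : Finset H).erase 1, (b0 - (h : L ≃ₐ[ℂ] L) b0) with hβ
  have key : ∀ x ∈ Submodule.span w.integer (dInv H w fun _ : Unit => δ), w (x ()) ≤ γ := by
    intro x hx
    induction hx using Submodule.span_induction with
    | mem x hx =>
      obtain ⟨a, h1, h2, rfl⟩ := hx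
      exact h a h1 h2
    | zero => simp
    | add x y _ _ hx hy => exact w.map_add_le hx hy
    | smul r x _ hx =>
      change w ((r : L) * x ()) ≤ γ
      rw [map_mul]
      exact (mul_le_of_le_one_left' r.2).trans hx
  refine ⟨(w β)⁻¹ * γ, fun z hz => ?_⟩
  have := key _ (mem_dInv (fun _ : Unit => δ) hw h1 hz)
  rw [← hβ, Pi.smul_apply, smul_eq_mul, map_mul] at this
  rwa [le_inv_mul_iff₀ (zero_lt_iff.2 ((w.ne_zero_iff).2 h2))]

end Pool.Agent.Lib.MP_813db1_ag.PQ
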