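import Pool.Agent.Lib.MP_813db1_ag.PQ2

/-! Local theory of a Galois cover of the line. -/

namespace Pool.Agent.Lib.MP_813db1_ag.PQ

open WithZero Finset
open scoped IntermediateField

theorem mc6 {x : ℕ} (hx : 2 ≤ x) :
    (1 / (x : ℚ) = 1 / 2 ∧ 1 / ((min x 6 : ℕ) : ℚ) = 1 / 2) ∨
    (1 / (x : ℚ) = 1 / 3 ∧ 1 / ((min x 6 : ℕ) : ℚ) = 1 / 3) ∨
    (1 / (x : ℚ) = 1 / 4 ∧ 1 / ((min x 6 : ℕ) : ℚ) = 1 / 4) ∨
    (1 / (x : ℚ) = 1 / 5 ∧ 1 / ((min x 6 : ℕ) : ℚ) = 1 / 5) ∨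
    (0 < 1 / (x : ℚ) ∧ 1 / ((min x 6 : ℕ) : ℚ) = 1 / 6) := by
  by_cases h : 6 ≤ x
  · have h0 : (0 : ℚ) < x := by exact_mod_cast (by omega : 0 < x)
    refine Or.inr (Or.inr (Or.inr (Or.inr ⟨one_div_pos.2 h0, ?_⟩)))
    rw [min_eq_right h]
    norm_num
  · have : x < 6 := not_le.1 h
    interval_cases x <;> norm_num

theorem mc4 {x : ℕ} (hx : 2 ≤ x) (h3 : x ≠ 3) :
    (1 / (x : ℚ) = 1 / 2 ∧ 1 / ((min x 4 : ℕ) : ℚ) = 1 / 2) ∨
    (0 < 1 / (x : ℚ) ∧ 1 / ((min x 4 : ℕ) : ℚ) = 1 / 4) := by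
  by_cases h : x = 2
  · subst h
    norm_num
  · have h0 : (0 : ℚ) < x := by exact_mod_cast (by omega : 0 < x)
    refine Or.inr ⟨one_div_pos.2 h0, ?_⟩
    rw [min_eq_right (by omega)]
    norm_num

theorem tri {l a b c : ℕ} (ha : 2 ≤ a) (hb : 2 ≤ b) (hc : 2 ≤ c)
    (h : 1 / (a : ℚ) + 1 / (b : ℚ) + 1 / (c : ℚ) ≤ 1)
    (hl : l = 6 ∨ (l = 4 ∧ a ≠ 3 ∧ b ≠ 3 ∧ c ≠ 3) ∨ (l = 3 ∧ a ≠ 2 ∧ b ≠ 2 ∧ c ≠ 2)) :
    1 / ((min a l : ℕ) : ℚ) + 1 / ((min b l : ℕ) : ℚ) + 1 / ((min c l : ℕ) : ℚ) ≤ 1 := by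
  rcases hl with rfl | ⟨rfl, h1, h2, h3⟩ | ⟨rfl, h1, h2, h3⟩
  · have a1 := mc6 ha
    have b1 := mc6 hb
    have c1 := mc6 hc
    generalize 1 / (a : ℚ) = x at h a1
    generalize 1 / (b : ℚ) = y at h b1
    generalize 1 / (c : ℚ) = z at h c1
    generalize 1 / ((min a 6 : ℕ) : ℚ) = x' at a1
    generalize 1 / ((min b 6 : ℕ) : ℚ) = y' at b1
    generalize 1 / ((min c 6 : ℕ) : ℚ) = z' at c1
    clear ha hb hc
    rcases a1 with ⟨a1, a2⟩ | ⟨a1, a2⟩ | ⟨a1, a2⟩ | ⟨a1, a2⟩ | ⟨a1, a2⟩ <;>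
    rcases b1 with ⟨b1, b2⟩ | ⟨b1, b2⟩ | ⟨b1, b2⟩ | ⟨b1, b2⟩ | ⟨b1, b2⟩ <;>
    rcases c1 with ⟨c1, c2⟩ | ⟨c1, c2⟩ | ⟨c1, c2⟩ | ⟨c1, c2⟩ | ⟨c1, c2⟩ <;>
    linarith
  · rcases mc4 ha h1 with ⟨a1, a2⟩ | ⟨a1, a2⟩ <;> rcases mc4 hb h2 with ⟨b1, b2⟩ | ⟨b1, b2⟩ <;>
      rcases mc4 hc h3 with ⟨c1, c2⟩ | ⟨c1, c2⟩ <;> linarith
  · rw [min_eq_right (by omega), min_eq_right (by omega), min_eq_right (by omega)]
    norm_num

theorem half_le {x : ℕ} (hx : 2 ≤ x) : 1 / 2 ≤ 1 - 1 / (x : ℚ) := by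
  have h1 : (2 : ℚ) ≤ x := by exact_mod_cast hx
  have := one_div_le_one_div_of_le (by norm_num) h1
  linarith

theorem comb {ι : Type} (T : Finset ι) (E : ι → ℕ) (hE : ∀ i, 1 ≤ E i)
    (h : 2 ≤ ∑ i ∈ T, (1 - 1 / (E i : ℚ))) {l : ℕ}
    (hl : l = 6 ∨ (l = 4 ∧ ∀ i, E i ≠ 3) ∨ (l = 3 ∧ ∀ i, E i ≠ 2)) :
    2 ≤ ∑ i ∈ T, (1 - 1 / ((min (E i) l : ℕ) : ℚ)) := by
  classical
  have h1 : ∀ i, ¬ 2 ≤ E i → E i = 1 := fun i hi => by have := hE i; omega
  rw [← sum_filter_of_ne (p := fun i => 2 ≤ E i) fun i _ hi => by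
    by_contra hc
    simp [h1 i hc] at hi] at h
  rw [← sum_filter_of_ne (p := fun i => 2 ≤ E i) fun i _ hi => by
    by_contra hc
    rw [h1 i hc, min_eq_left (by omega)] at hi
    simp at hi]
  have h2 : ∀ i ∈ T.filter fun i => 2 ≤ E i, 2 ≤ E i := fun i hi => (mem_filter.1 hi).2
  generalize T.filter (fun i => 2 ≤ E i) = S at h h2
  rcases lt_trichotomy S.card 3 with h3 | h3 | h3
  · exfalso
    rcases S.eq_empty_or_nonempty with rfl | hne
    · norm_num at h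
    · have h4 := sum_lt_sum_of_nonempty (f := fun i => 1 - 1 / (E i : ℚ)) (g := fun _ => 1) hne
        fun i _ => by
          have : (0 : ℚ) < E i := by exact_mod_cast hE i
          have := one_div_pos.2 this
          linarith
      rw [sum_const, nsmul_eq_mul, mul_one] at h4
      have h5 : (S.card : ℚ) ≤ 2 := by exact_mod_cast (by omega : S.card ≤ 2)
      linarith
  · obtain ⟨a, b, c, hab, hac, hbc, rfl⟩ := card_eq_three.1 h3
    rw [sum_insert (by simp [hab, hac]), sum_pair hbc] at h ⊢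
    have := tri (l := l) (h2 a (by simp)) (h2 b (by simp)) (h2 c (by simp)) (by linarith) (by
      rcases hl with h | ⟨h, h'⟩ | ⟨h, h'⟩
      · exact Or.inl h
      · exact Or.inr (Or.inl ⟨h, h' a, h' b, h' c⟩)
      · exact Or.inr (Or.inr ⟨h, h' a, h' b, h' c⟩))
    linarith
  · have h4 := card_nsmul_le_sum S (fun i => 1 - 1 / ((min (E i) l : ℕ) : ℚ)) (1 / 2)
      fun i hi => half_le (le_min (h2 i hi) (by omega))
    rw [nsmul_eq_mul] at h4
    have h5 : (4 : ℚ) ≤ S.card := by exact_mod_cast h3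
    linarith

theorem data_level {ι : Type} (T : Finset ι) (E : ι → ℕ) (hE : ∀ i, 1 ≤ E i)
    (h : 2 ≤ ∑ i ∈ T, (1 - 1 / (E i : ℚ))) {l : ℕ}
    (hl : l = 6 ∨ (l = 4 ∧ ∀ i, E i ≠ 3) ∨ (l = 3 ∧ ∀ i, E i ≠ 2)) :
    ∃ (T' : Finset ι) (c : ι → ℚ), (∀ p ∉ T', c p = 0) ∧ (∀ p, c p ≤ 1 - 1 / (l : ℚ)) ∧
      (∀ p, c p ≤ 1 - 1 / (E p : ℚ)) ∧ 2 ≤ ∑ p ∈ T', c p := by
  classical
  have h1 : ∀ p (x : ℕ), 1 ≤ x → min (E p) l ≤ x →
      (if p ∈ T then 1 - 1 / ((min (E p) l : ℕ) : ℚ) else 0) ≤ 1 - 1 / (x : ℚ) := by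
    intro p x h0 hx
    split_ifs
    · have h2 : (0 : ℚ) < (min (E p) l : ℕ) := by
        exact_mod_cast (le_min (hE p) (by omega) : 1 ≤ min (E p) l)
      have := one_div_le_one_div_of_le h2 (by exact_mod_cast hx : _ ≤ (x : ℚ))
      linarith
    · have := one_div_le_one_div_of_le one_pos (by exact_mod_cast h0 : (1 : ℚ) ≤ x)
      linarith
  refine ⟨T, fun p => if p ∈ T then 1 - 1 / ((min (E p) l : ℕ) : ℚ) else 0,
    fun p hp => if_neg hp, fun p => h1 p l (by omega) (min_le_right _ _),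
    fun p => h1 p _ (hE p) (min_le_left _ _), ?_⟩
  rw [sum_congr rfl fun p hp => if_pos hp]
  exact comb T E hE h hl

open Classical in
theorem data {ι : Type} (T : Finset ι) (E : ι → ℕ) (hE : ∀ i, 1 ≤ E i)
    (h : 2 ≤ ∑ i ∈ T, (1 - 1 / (E i : ℚ))) (w : ℚ)
    (hw : w = if 4 ≤ {p | 2 ≤ E p}.ncard then 1 - 2 / ({p | 2 ≤ E p}.ncard : ℚ)
      else if ∀ p, E p ≠ 2 then 1 / 3 else if ∀ p, E p ≠ 3 then 1 / 4 else 1 / 6) :
    ∃ (T' : Finset ι) (c : ι → ℚ), (∀ p ∉ T', c p = 0) ∧ (∀ p, c p ≤ 1 - w) ∧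
      (∀ p, c p ≤ 1 - 1 / (E p : ℚ)) ∧ 2 ≤ ∑ p ∈ T', c p := by
  split_ifs at hw with h1 h2 h3
  · have hfin : {p | 2 ≤ E p}.Finite := Set.finite_of_ncard_ne_zero (by omega)
    have h4 : (4 : ℚ) ≤ {p | 2 ≤ E p}.ncard := by exact_mod_cast h1
    have h5 : 2 / ({p | 2 ≤ E p}.ncard : ℚ) ≤ 1 / 2 := by
      rw [div_le_div_iff₀ (by linarith) (by norm_num)]; linarith
    have h6 : 0 ≤ 2 / ({p | 2 ≤ E p}.ncard : ℚ) := by positivity
    refine ⟨hfin.toFinset, fun p => if 2 ≤ E p then 2 / ({p | 2 ≤ E p}.ncard : ℚ) else 0,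
      fun p hp => if_neg (by simpa using hp), fun p => ?_, fun p => ?_, ?_⟩
    · rw [hw]
      dsimp only
      split_ifs <;> linarith
    · dsimp only
      split_ifs with h7
      · exact h5.trans (half_le h7)
      · have := one_div_le_one_div_of_le one_pos (by exact_mod_cast hE p : (1 : ℚ) ≤ E p)
        linarith
    · rw [sum_congr rfl fun p hp => if_pos (by simpa using hp), sum_const, nsmul_eq_mul,
        ← Set.ncard_eq_toFinset_card _ hfin, mul_div_cancel₀ _ (by linarith)]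
  · simpa [hw] using data_level T E hE h (l := 3) (Or.inr (Or.inr ⟨rfl, h2⟩))
  · simpa [hw] using data_level T E hE h (l := 4) (Or.inr (Or.inl ⟨rfl, h3⟩))
  · simpa [hw] using data_level T E hE h (l := 6) (Or.inl rfl)

variable {F : Type} [Field F] [Algebra ℂ F]

theorem v_sub {v : Valuation F Γ} (hv : Triv v) {t : F} {q0 q : ℂ}
    (h : v (t - algebraMap ℂ F q0) < 1) (hq : q ≠ q0) : v (t - algebraMap ℂ F q) = 1 := by
  have h1 := hv.eq_one (sub_ne_zero.2 hq.symm)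
  have := v.map_add_eq_of_lt_right (x := t - algebraMap ℂ F q0) (y := algebraMap ℂ F (q0 - q))
    (h.trans_eq h1.symm)
  rw [h1] at this
  rw [← this]; congr 1; rw [map_sub]; ring

theorem v_fin {v : Valuation F Γ} (hv : Triv v) {t : F} {q0 : ℂ}
    (h : v (t - algebraMap ℂ F q0) < 1) (T : Finset ℂ) (k : ℂ → ℤ) (hk : ∀ q ∉ T, k q = 0) :
    v (∏ q ∈ T, (t - algebraMap ℂ F q) ^ k q) = v (t - algebraMap ℂ F q0) ^ k q0 := by
  rw [map_prod, prod_eq_single q0, map_zpow₀]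
  · intro q _ hq
    rw [map_zpow₀, v_sub hv h hq, one_zpow]
  · intro h0
    rw [hk q0 h0, zpow_zero, map_one]

theorem v_inf {v : Valuation F Γ} (hv : Triv v) {t : F} {e : ℤ} (he : 0 < e) (h : v t = exp e)
    (T : Finset ℂ) (k : ℂ → ℤ) :
    v (∏ q ∈ T, (t - algebraMap ℂ F q) ^ k q) = exp (e * ∑ q ∈ T, k q) := by
  classical
  have h1 : ∀ q, v (t - algebraMap ℂ F q) = exp e := fun q => by
    rw [← h]
    refine v.map_sub_eq_of_lt_left ((hv q).trans_lt ?_)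
    rwa [h, ← exp_zero, exp_lt_exp]
  induction T using Finset.induction_on with
  | empty => simp
  | insert a s ha ih =>
    rw [prod_insert ha, sum_insert ha, map_mul, ih, map_zpow₀, h1, ← exp_zsmul, ← exp_add]
    congr 1
    simp only [smul_eq_mul]
    ring

theorem sub_ne {t : F} (ht : Transcendental ℂ t) (q : ℂ) : t - algebraMap ℂ F q ≠ 0 := fun h =>
  ht (sub_eq_zero.1 h ▸ isAlgebraic_algebraMap q)

theorem rep {t : F} (ht : Transcendental ℂ t) : ∀ φ ∈ ℂ⟮t⟯, φ = 0 ∨ ∃ c : ℂ, c ≠ 0 ∧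
    ∃ k : ℂ →₀ ℤ, φ = algebraMap ℂ F c * k.prod fun q e => (t - algebraMap ℂ F q) ^ e := by
  refine adjoin_ind t _ (fun c => ?_) (fun q => ?_) ?_ ?_
  · by_cases hc : c = 0
    · simp [hc]
    · exact Or.inr ⟨c, hc, 0, by simp⟩
  · exact Or.inr ⟨1, one_ne_zero, Finsupp.single q 1, by simp⟩
  · rintro x y (rfl | ⟨c, hc, k, rfl⟩) (rfl | ⟨c', hc', k', rfl⟩)
    · simp
    · simp
    · simp
    · refine Or.inr ⟨c * c', mul_ne_zero hc hc', k + k', ?_⟩
      rw [Finsupp.prod_add_index' (fun _ => zpow_zero _) fun q a b => zpow_add₀ (sub_ne ht q) a b,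
        map_mul]
      ring
  · rintro x (rfl | ⟨c, hc, k, rfl⟩)
    · simp
    · refine Or.inr ⟨c⁻¹, inv_ne_zero hc, -k, ?_⟩
      rw [Finsupp.prod_neg_index fun _ => zpow_zero _, mul_inv, map_inv₀]
      simp [Finsupp.prod]

theorem triv_adjoin {v : Valuation F Γ} (hv : Triv v) {t : F}
    (h : ∀ q, v (t - algebraMap ℂ F q) = 1) : ∀ x ∈ ℂ⟮t⟯, x = 0 ∨ v x = 1 := by
  refine adjoin_ind t _ (fun c => ?_) (fun q => Or.inr (h q)) ?_ ?_
  · by_cases hc : c = 0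
    · simp [hc]
    · exact Or.inr (hv.eq_one hc)
  · rintro x y (rfl | hx) (rfl | hy)
    · simp
    · simp
    · simp
    · simp [hx, hy]
  · rintro x (rfl | hx)
    · simp
    · simp [hx]

variable {H : Subgroup (F ≃ₐ[ℂ] F)} [Finite H]

theorem fin_fixed : FiniteDimensional (IntermediateField.fixedField H) F :=
  inferInstanceAs (FiniteDimensional (FixedPoints.subfield H F) F)

theorem alg_of {y : F} (hH : IntermediateField.fixedField H = ℂ⟮y⟯) (x : F) :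
    IsAlgebraic ℂ⟮y⟯ x := by
  have := fin_fixed (H := H)
  rw [hH] at this
  exact Algebra.IsAlgebraic.isAlgebraic x

open scoped IntermediateField.algebraAdjoinAdjoin in
theorem exists_centre {y : F} (hy : Transcendental ℂ y)
    (hH : IntermediateField.fixedField H = ℂ⟮y⟯) : ∃ e : ℕ, 0 < e ∧ ∃ u : Valuation F Γ,
      Function.Surjective u ∧ Triv u ∧ u y = exp (-(e : ℤ)) := by
  have := fin_fixed (H := H)
  rw [hH] at this
  let A := Algebra.adjoin ℂ {y}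
  let y' : A := ⟨y, Algebra.self_mem_adjoin_singleton ℂ y⟩
  have hsurj : Function.Surjective (Polynomial.aeval (R := ℂ) y') := by
    rintro ⟨a, ha⟩
    obtain ⟨p, rfl⟩ := (Algebra.adjoin_singleton_eq_range_aeval ℂ y).le ha
    exact ⟨p, Subtype.ext (Polynomial.aeval_algebraMap_apply F y' p).symm⟩
  have : IsPrincipalIdealRing A :=
    IsPrincipalIdealRing.of_surjective (Polynomial.aeval (R := ℂ) y').toRingHom hsurj
  have : CharZero ℂ⟮y⟯ := charZero_of_injective_algebraMap (algebraMap ℂ _).injective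
  have hy0 : y ≠ 0 := by simpa using sub_ne hy 0
  obtain ⟨u, h1, h2, h3⟩ := exists_over (L := F) A ℂ⟮y⟯ y'
    (fun h => hy0 (congrArg Subtype.val h)) (fun h => by
      obtain ⟨b, hb⟩ := h.exists_right_inv
      obtain ⟨p, rfl⟩ := hsurj b
      refine hy ⟨Polynomial.X * p - 1, fun h0 => ?_, ?_⟩
      · simpa using congrArg (Polynomial.eval 0) h0
      · have h4 : y * Polynomial.aeval y p = 1 := by
          have := congrArg (algebraMap A F) hb
          rwa [map_mul, map_one, ← Polynomial.aeval_algebraMap_apply] at this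
        simp [h4])
  obtain ⟨k, hk⟩ := exists_exp (v := u) hy0
  have h4 : k < 0 := by
    have : u y < 1 := h3
    rwa [hk, ← exp_zero, exp_lt_exp] at this
  refine ⟨(-k).toNat, by omega, u, h1, fun c => h2 (algebraMap ℂ A c), ?_⟩
  rw [hk]; congr 1; omega

theorem residue {y : F} (hH : IntermediateField.fixedField H = ℂ⟮y⟯) {u : Valuation F Γ}
    (hu : Triv u) (hy0 : y ≠ 0) (hy : u y < 1) {z : F} (hz : u z ≤ 1) :
    ∃ c : ℂ, u (z - algebraMap ℂ F c) < 1 := by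
  by_contra hcon
  push Not at hcon
  have h1 : ∀ c, u (z - algebraMap ℂ F c) = 1 := fun c =>
    le_antisymm (u.map_sub_le hz (hu c)) (hcon c)
  have h2 : Transcendental ℂ z := fun h => by
    obtain ⟨c, hc⟩ := IsAlgClosed.algebraMap_bijective_of_isIntegral (k := ℂ)
      (K := algebraicClosure ℂ F) |>.2 ⟨z, mem_algebraicClosure_iff.2 h⟩
    have := h1 c
    rw [show algebraMap ℂ F c = z from congrArg Subtype.val hc] at this
    simp at this
  obtain ⟨D', hD'⟩ := exists_der (fun _ : Unit => z) (algebraicIndependent_unique_type_iff.2 h2)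
    (fun _ => 1)
  have h3 := isAlgebraic_of_der ℂ⟮z⟯ (fun D hD => by
    have h4 := der_zero ((D' y) • D - (D y) • D') {y} (by
      rintro _ rfl
      simp [mul_comm]) (alg_of hH z)
    have h5 : D y = 0 := by
      simpa [hD z (IntermediateField.mem_adjoin_simple_self ℂ z), hD' ()] using h4
    ext x
    exact der_zero D {y} (by rintro _ rfl; exact h5) (alg_of hH x)) y⁻¹
  have h4 := le_one_of_alg u ℂ⟮z⟯ (fun x hx => by
    rcases triv_adjoin hu h1 x hx with rfl | h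
    · simp
    · exact h.le) h3
  rw [map_inv₀, inv_le_one₀ (zero_lt_iff.2 ((u.ne_zero_iff).2 hy0))] at h4
  exact absurd hy (not_lt.2 h4)

theorem bound_rat {u : Valuation F Γ} (hu : Triv u) {y : F} (hy0 : y ≠ 0) (hy : u y < 1)
    (δ : Derivation ℂ F F) : ∀ a ∈ ℂ⟮y⟯, u (δ a) ≤ u a * (u (δ y) * (u y)⁻¹) := by
  refine adjoin_ind y _ (fun c => by simp) (fun q => ?_) ?_ ?_
  · have h1 : u y ≤ u (y - algebraMap ℂ F q) := by
      by_cases hq : q = 0
      · simp [hq]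
      · rw [v_sub hu (q0 := 0) (by simpa using hy) hq]
        exact hy.le
    rw [map_sub, Derivation.map_algebraMap, sub_zero, mul_left_comm]
    refine le_mul_of_one_le_right' ?_
    rw [← div_eq_mul_inv]
    exact (one_le_div₀ (zero_lt_iff.2 ((u.ne_zero_iff).2 hy0))).2 h1
  · intro a b ha hb
    rw [Derivation.leibniz, smul_eq_mul, smul_eq_mul]
    refine u.map_add_le ?_ ?_
    · rw [map_mul, map_mul, mul_assoc]
      exact mul_le_mul_right hb _
    · rw [map_mul, map_mul, mul_comm (u a), mul_assoc]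
      exact mul_le_mul_right ha _
  · intro a ha
    by_cases h0 : a = 0
    · simp [h0]
    · rw [Derivation.leibniz_inv, smul_eq_mul, map_mul, Valuation.map_neg, map_pow, map_inv₀]
      refine (mul_le_mul_right ha _).trans_eq ?_
      have := (u.ne_zero_iff).2 h0
      field_simp

theorem local_curve {y : F} (hH : IntermediateField.fixedField H = ℂ⟮y⟯) {u : Valuation F Γ}
    (hs : Function.Surjective u) (hu : Triv u) {e : ℕ} (he : 0 < e) (hy : u y = exp (-(e : ℤ)))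
    (δ : Derivation ℂ F F) : ∃ π : F, u π ≤ 1 ∧ u (δ π) = u (δ y) * exp ((e : ℤ) - 1) ∧
      ∀ z, u z ≤ 1 → u (δ z) ≤ u (δ π) := by
  obtain ⟨π, hπ⟩ := hs (exp (-1))
  have hπ0 : π ≠ 0 := by
    rintro rfl
    rw [map_zero] at hπ
    exact exp_ne_zero hπ.symm
  have hπ1 : u π ≤ 1 := by rw [hπ, ← exp_zero, exp_le_exp]; omega
  have hy0 : y ≠ 0 := by
    rintro rfl
    rw [map_zero] at hy
    exact exp_ne_zero hy.symm
  have hy1 : u y < 1 := by rw [hy, ← exp_zero, exp_lt_exp]; omega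
  obtain ⟨γ, hγ⟩ := bounded (H := H) δ hu (u (δ y) * (u y)⁻¹) fun a ha h1 =>
    (bound_rat hu hy0 hy1 δ a (hH ▸ ha)).trans (mul_le_of_le_one_left' h1)
  have key : ∀ N : ℕ, ∀ z, u z ≤ 1 → u (δ z) ≤ max (u (δ π)) (exp (-(N : ℤ)) * γ) := by
    intro N
    induction N with
    | zero => exact fun z hz => le_max_of_le_right (by simpa using hγ z hz)
    | succ N ih =>
      intro z hz
      obtain ⟨c, hc⟩ := residue hH hu hy0 hy1 hz
      have h1 : u ((z - algebraMap ℂ F c) / π) ≤ 1 := by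
        rw [map_div₀, hπ]
        refine div_le_one_of_le₀ ?_ zero_le
        by_cases h0 : z - algebraMap ℂ F c = 0
        · simp [h0]
        · obtain ⟨k, hk⟩ := exists_exp (v := u) h0
          rw [hk, ← exp_zero, exp_lt_exp] at hc
          rw [hk, exp_le_exp]; omega
      set z' := (z - algebraMap ℂ F c) / π with hz'
      have e1 : z = algebraMap ℂ F c + π * z' := by rw [hz']; field_simp; ring
      rw [e1, map_add, Derivation.map_algebraMap, zero_add, Derivation.leibniz, smul_eq_mul,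
        smul_eq_mul]
      refine u.map_add_le ?_ ?_
      · rw [map_mul]
        rcases le_max_iff.1 (ih z' h1) with h | h
        · exact le_max_of_le_left ((mul_le_of_le_one_left' hπ1).trans h)
        · refine le_max_of_le_right ((mul_le_mul_right h _).trans_eq ?_)
          rw [hπ, ← mul_assoc, ← exp_add]
          congr 2
          push_cast
          ring
      · rw [map_mul]
        exact le_max_of_le_left (mul_le_of_le_one_left' h1)
  have key2 : ∀ z, u z ≤ 1 → u (δ z) ≤ u (δ π) := by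
    intro z hz
    by_contra hc
    rw [not_le] at hc
    have h1 : ∀ N : ℕ, u (δ z) ≤ exp (-(N : ℤ)) * γ := fun N =>
      (le_max_iff.1 (key N z hz)).resolve_left (not_le.2 hc)
    have h2 : δ z ≠ 0 := by
      intro h
      rw [h, map_zero] at hc
      exact not_lt_zero hc
    obtain ⟨k, hk⟩ := exists_exp (v := u) h2
    have h3 : γ ≠ 0 := by
      rintro rfl
      have := h1 0
      rw [mul_zero, le_zero_iff, hk] at this
      exact exp_ne_zero this
    have := h1 (log γ - k + 1).toNat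
    rw [hk, ← exp_log h3, ← exp_add, exp_le_exp, log_exp] at this
    omega
  refine ⟨π, hπ1, ?_, key2⟩
  obtain ⟨e', rfl⟩ : ∃ e', e = e' + 1 := ⟨e - 1, by omega⟩
  have hpw : ∀ j : ℕ, u (π ^ j) = exp (-(j : ℤ)) := fun j => by
    rw [map_pow, hπ, ← exp_nsmul]; simp
  set ε := y / π ^ (e' + 1) with hε
  have h1 : u ε = 1 := by rw [hε, map_div₀, hpw, hy, div_self exp_ne_zero]
  have e1 : y = π ^ (e' + 1) * ε := by rw [hε]; field_simp
  have e2 : δ y = π ^ (e' + 1) * δ ε + ε * (((e' + 1 : ℕ) : F) * (π ^ e' * δ π)) := by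
    conv_lhs => rw [e1]
    rw [Derivation.leibniz, Derivation.leibniz_pow]
    simp only [smul_eq_mul, nsmul_eq_mul, Nat.add_sub_cancel]
  have h2 : u (ε * (((e' + 1 : ℕ) : F) * (π ^ e' * δ π))) = exp (-(e' : ℤ)) * u (δ π) := by
    rw [map_mul, map_mul, map_mul, h1, hu.natCast e'.succ_ne_zero, hpw, one_mul, one_mul]
  have h3 : u (δ y) = exp (-(e' : ℤ)) * u (δ π) := by
    by_cases h0 : u (δ π) = 0
    · have := key2 y hy1.le
      rw [h0, le_zero_iff] at this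
      rw [this, h0, mul_zero]
    · rw [e2, u.map_add_eq_of_lt_right, h2]
      rw [h2, map_mul, hpw]
      refine (mul_le_mul_right (key2 ε h1.le) _).trans_lt
        (mul_lt_mul_of_pos_right ?_ (zero_lt_iff.2 h0))
      rw [exp_lt_exp]
      push_cast
      omega
  rw [h3, mul_right_comm, ← exp_add]
  simp

end Pool.Agent.Lib.MP_813db1_ag.PQ
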