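import Pool.Agent.Lib.MP_813db1_ag.Defs

/-! Branch data of a function on a curve, used in the statement on product-quotients. -/

namespace Pool.Agent.Lib.MP_813db1_ag

variable {F : Type} [Field F] [Algebra ℂ F]

/-- The least order of vanishing of `y` at a place where it vanishes. -/
noncomputable def minOrd (y : F) : ℕ :=
  sInf {e : ℕ | 0 < e ∧ ∃ v : Valuation F (WithZero (Multiplicative ℤ)), Function.Surjective v ∧
    (∀ c : ℂ, v (algebraMap ℂ F c) ≤ 1) ∧ v y = WithZero.exp (-(e : ℤ))}

/-- The ramification index of `t` over a point of the projective line (`none` is infinity). -/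
noncomputable def ram (t : F) : Option ℂ → ℕ
  | none => minOrd t⁻¹
  | some q => minOrd (t - algebraMap ℂ F q)

open Classical in
/-- The weight of the cover given by `t`: `1 - 2 / r` if it has `r ≥ 4` branch points, otherwise
`1 / 3` if no index is `2`, otherwise `1 / 4` if no index is `3`, otherwise `1 / 6`. -/
noncomputable def weight (t : F) : ℚ :=
  if 4 ≤ {p | 2 ≤ ram t p}.ncard then 1 - 2 / ({p | 2 ≤ ram t p}.ncard : ℚ)
  else if ∀ p, ram t p ≠ 2 then 1 / 3 else if ∀ p, ram t p ≠ 3 then 1 / 4 else 1 / 6

end Pool.Agent.Lib.MP_813db1_ag
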