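import Pool.Agent.Lib.MP_813db1_ag.PQ3
import Pool.Agent.Lib.MP_813db1_ag.PQDefs

/-! An invariant pluricanonical form with poles of bounded order on the line. -/

namespace Pool.Agent.Lib.MP_813db1_ag.PQ

open WithZero Finset
open scoped IntermediateField

variable {F : Type} [Field F] [Algebra ℂ F]

theorem le_of_mem {n m : ℕ} (D : Fin n → Derivation ℂ F F) {s : F}
    (hs : ∀ R : ValuationSubring F, IsPlace R → s ∈ jacMod D R ^ m) (u : Valuation F Γ)
    (hu : Function.Surjective u) (hk : Triv u) (γ : Γ)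
    (h : ∀ b : Fin n → F, (∀ c, u (b c) ≤ 1) → u (jac D b) ≤ γ) : u s ≤ γ ^ m := by
  have : u.IsNontrivial := by
    obtain ⟨x, hx⟩ := hu (exp (-1))
    exact ⟨x, by rw [hx]; exact exp_ne_zero, by rw [hx]; simp⟩
  refine BridgeAux.pow_le_Bd ?_ _ (hs u.valuationSubring ⟨hk, inferInstance⟩)
  refine Submodule.span_le.2 ?_
  rintro _ ⟨b, hb, rfl⟩
  exact h b hb

theorem adjoin_sub (t : F) (q : ℂ) : ℂ⟮t - algebraMap ℂ F q⟯ = ℂ⟮t⟯ := by
  refine le_antisymm (IntermediateField.adjoin_simple_le_iff.2 ?_)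
    (IntermediateField.adjoin_simple_le_iff.2 ?_)
  · exact sub_mem (IntermediateField.mem_adjoin_simple_self ℂ t) (algebraMap_mem _ q)
  · simpa using add_mem (IntermediateField.mem_adjoin_simple_self ℂ (t - algebraMap ℂ F q))
      (algebraMap_mem _ q)

theorem adjoin_inv (t : F) : ℂ⟮t⁻¹⟯ = ℂ⟮t⟯ := by
  refine le_antisymm (IntermediateField.adjoin_simple_le_iff.2 ?_)
    (IntermediateField.adjoin_simple_le_iff.2 ?_)
  · exact inv_mem (IntermediateField.mem_adjoin_simple_self ℂ t)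
  · simpa using inv_mem (IntermediateField.mem_adjoin_simple_self ℂ t⁻¹)

theorem tr_sub {t : F} (ht : Transcendental ℂ t) (q : ℂ) :
    Transcendental ℂ (t - algebraMap ℂ F q) := fun h =>
  ht (by simpa using h.add (isAlgebraic_algebraMap q))

theorem tr_inv {t : F} (ht : Transcendental ℂ t) : Transcendental ℂ t⁻¹ := fun h =>
  ht (by simpa using h.inv)

/-- The ramification indices over the zero of `y`. -/
def idx (y : F) : Set ℕ :=
  {e | 0 < e ∧ ∃ u : Valuation F Γ, Function.Surjective u ∧ Triv u ∧ u y = exp (-(e : ℤ))}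

variable {H : Subgroup (F ≃ₐ[ℂ] F)} [Finite H]

theorem norm_form {t : F} (ht : Transcendental ℂ t)
    (hH : IntermediateField.fixedField H = ℂ⟮t⟯) (D : Fin 1 → Derivation ℂ F F)
    (hD : QEffective D) (δ : Derivation ℂ F F) (hδ : δ t = 1) :
    ∃ M : ℕ, 0 < M ∧ ∃ φ ∈ ℂ⟮t⟯, φ ≠ 0 ∧ ∀ y, ℂ⟮y⟯ = ℂ⟮t⟯ → δ y ∈ ℂ⟮t⟯ →
      ∀ u : Valuation F Γ, Function.Surjective u → Triv u → ∀ e : ℕ, 0 < e →
        u y = exp (-(e : ℤ)) → u φ ≤ (u (δ y) * exp ((e : ℤ) - 1)) ^ M := by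
  have := Fintype.ofFinite H
  obtain ⟨m, hm, s, hs0, hs⟩ := hD
  have h1 : ∀ z, D 0 z = D 0 t * δ z := fun z =>
    sub_eq_zero.1 (der_zero (D 0 - (D 0 t) • δ) {t} (by
      rintro _ rfl
      simp [hδ]) (alg_of hH z))
  have h2 : ∀ u : Valuation F Γ, Function.Surjective u → Triv u → ∀ γ,
      (∀ z, u z ≤ 1 → u (δ z) ≤ γ) → u s ≤ (u (D 0 t) * γ) ^ m := fun u hu hk γ h =>
    le_of_mem D hs u hu hk _ fun b hb => by
      rw [jac, Matrix.det_fin_one, Matrix.of_apply, h1, map_mul]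
      exact mul_le_mul_right (h _ (hb 0)) _
  have hd : D 0 t ≠ 0 := by
    intro h0
    obtain ⟨e, he, u, hu, hk, hy⟩ := exists_centre ht hH
    obtain ⟨π, -, -, h3⟩ := local_curve hH hu hk he hy δ
    have := h2 u hu hk _ h3
    rw [h0, map_zero, zero_mul, zero_pow hm.ne', le_zero_iff, u.zero_iff] at this
    exact hs0 this
  have hs1 : s / D 0 t ^ m ≠ 0 := div_ne_zero hs0 (pow_ne_zero _ hd)
  refine ⟨m * Fintype.card H, Nat.mul_pos hm Fintype.card_pos,
    ∏ g : H, (g : F ≃ₐ[ℂ] F) (s / D 0 t ^ m), ?_,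
    prod_ne_zero_iff.2 fun g _ => (map_ne_zero _).2 hs1, ?_⟩
  · rw [← hH, IntermediateField.mem_fixedField_iff]
    intro f hf
    rw [map_prod]
    exact Fintype.prod_equiv (Equiv.mulLeft (⟨f, hf⟩ : H)) _ _ fun g => rfl
  · intro y hy hδy u hu hk e he huy
    rw [map_prod, pow_mul, ← card_univ, ← prod_const]
    refine prod_le_prod' fun g _ => ?_
    have hfix : ∀ x ∈ ℂ⟮t⟯, (g : F ≃ₐ[ℂ] F) x = x := fun x hx =>
      (IntermediateField.mem_fixedField_iff H x).1 (hH ▸ hx) g g.2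
    let u' := u.comap ((g : F ≃ₐ[ℂ] F) : F →+* F)
    have hu' : ∀ x, u' x = u ((g : F ≃ₐ[ℂ] F) x) := fun x => rfl
    have h3 : Function.Surjective u' := hu.comp (g : F ≃ₐ[ℂ] F).surjective
    obtain ⟨π, -, h4, h5⟩ := local_curve (hH.trans hy.symm) h3 (hk.comap _) he (by
      rw [hu', hfix y (hy ▸ IntermediateField.mem_adjoin_simple_self ℂ y), huy]) δ
    have h6 := h2 u' h3 (hk.comap _) _ h5
    rw [h4, hu' (δ y), hfix _ hδy, mul_pow, ← map_pow] at h6
    rw [← hu', map_div₀]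
    rwa [div_le_iff₀' (zero_lt_iff.2 ((u'.ne_zero_iff).2 (pow_ne_zero _ hd)))]

theorem weight_pos (t : F) : 0 ≤ weight t := by
  unfold weight
  split_ifs with h
  · have h4 : (4 : ℚ) ≤ {p | 2 ≤ ram t p}.ncard := by exact_mod_cast h
    rw [sub_nonneg, div_le_one (by linarith)]
    linarith
  all_goals norm_num

theorem curve {t : F} (ht : Transcendental ℂ t)
    (hH : IntermediateField.fixedField H = ℂ⟮t⟯) (D : Fin 1 → Derivation ℂ F F)
    (hD : QEffective D) (δ : Derivation ℂ F F) (hδ : δ t = 1) :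
    ∃ N0 : ℕ, 0 < N0 ∧ ∀ N : ℕ, N0 ∣ N → ∃ (T : Finset ℂ) (k : ℂ → ℤ), (∀ q ∉ T, k q = 0) ∧
      (∀ q, ⌈(N : ℚ) * weight t⌉ - N ≤ k q) ∧ ∑ q ∈ T, k q ≤ -N - ⌈(N : ℚ) * weight t⌉ ∧
      ∀ u : Valuation F Γ, Function.Surjective u → Triv u →
        ∃ b, u b ≤ 1 ∧ u (∏ q ∈ T, (t - algebraMap ℂ F q) ^ k q) ≤ u (δ b) ^ N := by
  classical
  obtain ⟨M, hM, φ, hφ, hφ0, h⟩ := norm_form ht hH D hD δ hδ
  obtain ⟨c, hc, k, rfl⟩ := (rep ht φ hφ).resolve_left hφ0
  have ht0 : t ≠ 0 := by simpa using sub_ne ht 0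
  have hd1 : ∀ q, δ (t - algebraMap ℂ F q) = 1 := fun q => by simp [hδ]
  have hd2 : δ t⁻¹ = -(t⁻¹ ^ 2) := by rw [Derivation.leibniz_inv, hδ]; simp
  have hEn : ram t none ∈ idx t⁻¹ :=
    Nat.sInf_mem (exists_centre (tr_inv ht) (hH.trans (adjoin_inv t).symm))
  have hEs : ∀ q, ram t (some q) ∈ idx (t - algebraMap ℂ F q) := fun q =>
    Nat.sInf_mem (exists_centre (tr_sub ht q) (hH.trans (adjoin_sub t q).symm))
  have hE1 : ∀ o, 1 ≤ ram t o := fun o => by
    rcases o with _ | q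
    · exact hEn.1
    · exact (hEs q).1
  have hinf : ∀ (u : Valuation F Γ) (e : ℕ), u t⁻¹ = exp (-(e : ℤ)) → u t = exp (e : ℤ) ∧
      u (δ t⁻¹) * exp ((e : ℤ) - 1) = exp (-(e : ℤ) - 1) := fun u e hu => by
    refine ⟨by rw [← inv_inj, ← map_inv₀, hu, exp_neg], ?_⟩
    rw [hd2, Valuation.map_neg, map_pow, hu, ← exp_nsmul, ← exp_add]
    congr 1
    simp only [nsmul_eq_mul]
    ring
  have hq : ∀ q, -((ram t (some q) : ℤ) * k q) ≤ M * ((ram t (some q) : ℤ) - 1) := fun q => by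
    obtain ⟨he, u, hu, hk, hy⟩ := hEs q
    have h1 := h _ (adjoin_sub t q) (by rw [hd1]; exact one_mem _) u hu hk _ he hy
    rw [map_mul, hk.eq_one hc, one_mul, Finsupp.prod, v_fin hk (q0 := q) (by
      rw [hy, ← exp_zero, exp_lt_exp]; omega) _ _ (fun q hq => Finsupp.notMem_support_iff.1 hq),
      hy, hd1, map_one, one_mul, ← exp_zsmul, ← exp_nsmul, exp_le_exp] at h1
    simp only [smul_eq_mul, nsmul_eq_mul] at h1
    linarith
  have hi : (ram t none : ℤ) * ∑ q ∈ k.support, k q ≤ M * (-(ram t none : ℤ) - 1) := by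
    obtain ⟨he, u, hu, hk, hy⟩ := hEn
    have h1 := h _ (adjoin_inv t) (by
      rw [hd2]
      exact neg_mem (pow_mem (inv_mem (IntermediateField.mem_adjoin_simple_self ℂ t)) _))
      u hu hk _ he hy
    obtain ⟨h2, h3⟩ := hinf u _ hy
    rwa [map_mul, hk.eq_one hc, one_mul, Finsupp.prod, v_inf hk (by exact_mod_cast he) h2, h3,
      ← exp_nsmul, exp_le_exp, nsmul_eq_mul] at h1
  obtain ⟨T, c, hc0, hc1, hc2, hc3⟩ := data (insertNone k.support) (ram t) hE1 (by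
    rw [sum_insertNone]
    have hM' : (0 : ℚ) < M := by exact_mod_cast hM
    have h1 : ∀ q, -(k q : ℚ) ≤ M * (1 - 1 / (ram t (some q) : ℚ)) := fun q => by
      have h2 : (0 : ℚ) < ram t (some q) := by exact_mod_cast hE1 _
      have h3 : -((ram t (some q) : ℚ) * k q) ≤ M * ((ram t (some q) : ℚ) - 1) := by
        exact_mod_cast hq q
      rw [show (M : ℚ) * (1 - 1 / (ram t (some q) : ℚ)) =
        M * ((ram t (some q) : ℚ) - 1) / ram t (some q) by field_simp, le_div_iff₀ h2]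
      linarith
    have h2 : (M : ℚ) * (1 + 1 / (ram t none : ℚ)) ≤ -∑ q ∈ k.support, (k q : ℚ) := by
      have h2 : (0 : ℚ) < ram t none := by exact_mod_cast hE1 _
      have h3 : (ram t none : ℚ) * ∑ q ∈ k.support, (k q : ℚ) ≤
          M * (-(ram t none : ℚ) - 1) := by exact_mod_cast hi
      rw [show (M : ℚ) * (1 + 1 / (ram t none : ℚ)) = M * ((ram t none : ℚ) + 1) / ram t none by
        field_simp, div_le_iff₀ h2]
      linarith
    have h3 := sum_le_sum fun q (_ : q ∈ k.support) => h1 q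
    rw [sum_neg_distrib, ← mul_sum] at h3
    have h4 := le_of_mul_le_mul_left (h2.trans h3) hM'
    linarith) (weight t) rfl
  refine ⟨∏ p ∈ T, (c p).den, prod_pos fun p _ => (c p).den_pos, fun N hN => ?_⟩
  have hz : ∀ p, ∃ z : ℤ, (z : ℚ) = N * c p := fun p => by
    by_cases hp : p ∈ T
    · obtain ⟨j, rfl⟩ := (dvd_prod_of_mem (fun p => (c p).den) hp).trans hN
      refine ⟨j * (c p).num, ?_⟩
      push_cast
      rw [mul_right_comm, Rat.den_mul_eq_num, mul_comm]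
    · exact ⟨0, by simp [hc0 p hp]⟩
  choose z hz using hz
  have hN0 : (0 : ℚ) ≤ N := Nat.cast_nonneg N
  have hk0 : ∀ q ∉ eraseNone T, -z (some q) = 0 := fun q hq => by
    have := hz (some q)
    rw [hc0 _ (fun h => hq (mem_eraseNone.2 h)), mul_zero] at this
    exact neg_eq_zero.2 (by exact_mod_cast this)
  have hsum : ∑ q ∈ eraseNone T, -z (some q) ≤ z none - 2 * N := by
    have h1 : 2 ≤ c none + ∑ q ∈ eraseNone T, c (some q) := by
      rw [← sum_insertNone, insertNone_eraseNone]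
      exact hc3.trans_eq (sum_subset (subset_insert _ _) fun p _ hp => hc0 p hp)
    have h2 := mul_le_mul_of_nonneg_left h1 hN0
    rw [mul_add, mul_sum, ← hz, sum_congr rfl fun q _ => (hz (some q)).symm] at h2
    rw [sum_neg_distrib]
    have h3 : (N : ℤ) * 2 ≤ z none + ∑ q ∈ eraseNone T, z (some q) := by exact_mod_cast h2
    linarith
  have hw : ∀ p, ⌈(N : ℚ) * weight t⌉ ≤ N - z p := fun p => by
    rw [Int.ceil_le]
    push_cast
    rw [hz]
    have := mul_le_mul_of_nonneg_left (hc1 p) hN0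
    linarith
  have hr : ∀ p (e : ℕ), ram t p ≤ e → (N : ℤ) ≤ e * (N - z p) := fun p e he => by
    have h1 : (0 : ℚ) < ram t p := by exact_mod_cast hE1 p
    have h2 : (ram t p : ℚ) ≤ e := by exact_mod_cast he
    have h3 := one_div_le_one_div_of_le h1 h2
    have h4 : 1 / (e : ℚ) ≤ 1 - c p := by linarith [hc2 p]
    rw [div_le_iff₀ (h1.trans_le h2)] at h4
    have h5 := mul_le_mul_of_nonneg_left h4 hN0
    have h6 : (N : ℚ) ≤ e * (N - z p) := by rw [hz]; linarith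
    exact_mod_cast h6
  refine ⟨eraseNone T, fun q => -z (some q), hk0, fun q => by linarith [hw (some q)],
    by linarith [hw none], fun u hu hk => ?_⟩
  by_cases h1 : 1 < u t
  · obtain ⟨j, hj⟩ := exists_exp (v := u) ht0
    have hj0 : 0 < j := by rwa [hj, ← exp_zero, exp_lt_exp] at h1
    obtain ⟨e, rfl⟩ := Int.eq_ofNat_of_zero_le hj0.le
    have he : 0 < e := by omega
    have hy : u t⁻¹ = exp (-(e : ℤ)) := by rw [map_inv₀, hj, exp_neg]
    obtain ⟨π, h2, h3, -⟩ := local_curve (hH.trans (adjoin_inv t).symm) hu hk he hy δ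
    refine ⟨π, h2, ?_⟩
    rw [h3, (hinf u e hy).2, v_inf hk hj0 hj, ← exp_nsmul, exp_le_exp, nsmul_eq_mul]
    have h4 := hr none e (Nat.sInf_le ⟨he, u, hu, hk, hy⟩)
    have h5 := mul_le_mul_of_nonneg_left hsum hj0.le
    linarith
  · by_cases h2 : ∃ q, u (t - algebraMap ℂ F q) < 1
    · obtain ⟨q, h2⟩ := h2
      obtain ⟨j, hj⟩ := exists_exp (v := u) (sub_ne ht q)
      have hj0 : j < 0 := by rwa [hj, ← exp_zero, exp_lt_exp] at h2
      obtain ⟨e, he'⟩ := Int.eq_ofNat_of_zero_le (show 0 ≤ -j by omega)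
      have he : 0 < e := by omega
      have hy : u (t - algebraMap ℂ F q) = exp (-(e : ℤ)) := by rw [hj, ← he', neg_neg]
      obtain ⟨π, h3, h4, -⟩ := local_curve (hH.trans (adjoin_sub t q).symm) hu hk he hy δ
      refine ⟨π, h3, ?_⟩
      rw [h4, hd1, map_one, one_mul, v_fin hk h2 _ _ hk0, hy, ← exp_zsmul, ← exp_nsmul,
        exp_le_exp, nsmul_eq_mul, smul_eq_mul]
      have h5 := hr (some q) e (Nat.sInf_le ⟨he, u, hu, hk, hy⟩)
      linarith
    · push Not at h1 h2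
      refine ⟨t, h1, ?_⟩
      rw [hδ, map_one, one_pow, map_prod]
      refine prod_le_one' fun q _ => ?_
      rw [map_zpow₀, le_antisymm (u.map_sub_le h1 (hk q)) (h2 q), one_zpow]

/-- Pole orders on the line, read at an arbitrary valuation. -/
theorem line_bound {v : Valuation F Γ} (hv : Triv v) {t : F} (ht : Transcendental ℂ t)
    (T : Finset ℂ) (k : ℂ → ℤ) (N : ℕ) (s : ℤ) (hs : 0 ≤ s) (h0 : ∀ q ∉ T, k q = 0)
    (h1 : ∀ q, s - N ≤ k q) (h2 : ∑ q ∈ T, k q ≤ -N - s) (p : Prop) [Decidable p]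
    (hp : p → ¬ ∀ q, v (t - algebraMap ℂ F q) = 1) : ∃ q0 : ℂ,
      v (∏ q ∈ T, (t - algebraMap ℂ F q) ^ k q) ≤
        v (t - algebraMap ℂ F q0)⁻¹ ^ N * exp (if p then -s else 0) := by
  have ht0 : t ≠ 0 := by simpa using sub_ne ht 0
  by_cases h3 : 1 < v t
  · obtain ⟨j, hj⟩ := exists_exp (v := v) ht0
    have hj0 : 0 < j := by rwa [hj, ← exp_zero, exp_lt_exp] at h3
    refine ⟨0, ?_⟩
    rw [v_inf hv hj0 hj, map_zero, sub_zero, map_inv₀, hj, ← exp_neg, ← exp_nsmul, ← exp_add,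
      exp_le_exp, nsmul_eq_mul]
    have h5 := mul_le_mul_of_nonneg_left h2 hj0.le
    have h6 := mul_le_mul_of_nonneg_right (show 1 ≤ j from hj0) hs
    split_ifs <;> linarith
  · by_cases h4 : ∃ q, v (t - algebraMap ℂ F q) < 1
    · obtain ⟨q, h4⟩ := h4
      obtain ⟨j, hj⟩ := exists_exp (v := v) (sub_ne ht q)
      have hj0 : j < 0 := by rwa [hj, ← exp_zero, exp_lt_exp] at h4
      refine ⟨q, ?_⟩
      rw [v_fin hv h4 _ _ h0, map_inv₀, hj, ← exp_neg, ← exp_nsmul, ← exp_add, ← exp_zsmul,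
        exp_le_exp, nsmul_eq_mul, smul_eq_mul]
      have h5 := mul_le_mul_of_nonpos_right (h1 q) hj0.le
      have h6 := mul_le_mul_of_nonneg_right (show j ≤ -1 by omega) hs
      split_ifs <;> linarith
    · push Not at h3 h4
      have h5 : ∀ q, v (t - algebraMap ℂ F q) = 1 := fun q =>
        le_antisymm (v.map_sub_le h3 (hv q)) (h4 q)
      refine ⟨0, ?_⟩
      rw [if_neg fun h => hp h h5, map_inv₀, h5, map_prod]
      simp [map_zpow₀, h5]

end Pool.Agent.Lib.MP_813db1_ag.PQ
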