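import Pool.Agent.Lib.MP_813db1_ag.PQ4

/-! Product-quotients whose elements move factors of total weight at least one have a
pluricanonical form. -/

namespace Pool.Agent.Lib.MP_813db1_ag.PQ

open WithZero Finset
open scoped IntermediateField

variable {L : Type} [Field L] [Algebra ℂ L] {G : Subgroup (L ≃ₐ[ℂ] L)}

theorem factor [Finite G] (E : IntermediateField ℂ L) (s : E)
    (hC : ∀ g ∈ G, ∀ x ∈ E, g x ∈ E) (hq : E ⊓ IntermediateField.fixedField G = ℂ⟮(s : L)⟯) :
    ∃ H : Subgroup (E ≃ₐ[ℂ] E), Finite H ∧ IntermediateField.fixedField H = ℂ⟮s⟯ := by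
  let r : G → (E ≃ₐ[ℂ] E) := fun g =>
    { toFun := fun x => ⟨(g : L ≃ₐ[ℂ] L) x, hC g g.2 x x.2⟩
      invFun := fun x => ⟨(g : L ≃ₐ[ℂ] L)⁻¹ x, hC _ (G.inv_mem g.2) x x.2⟩
      left_inv := fun x => Subtype.ext ((g : L ≃ₐ[ℂ] L).symm_apply_apply x)
      right_inv := fun x => Subtype.ext ((g : L ≃ₐ[ℂ] L).apply_symm_apply x)
      map_mul' := fun x y => Subtype.ext (map_mul (g : L ≃ₐ[ℂ] L) (x : L) y)
      map_add' := fun x y => Subtype.ext (map_add (g : L ≃ₐ[ℂ] L) (x : L) y)
      commutes' := fun c => Subtype.ext ((g : L ≃ₐ[ℂ] L).commutes c) }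
  let ρ : G →* (E ≃ₐ[ℂ] E) := MonoidHom.mk' r fun _ _ => rfl
  refine ⟨ρ.range, Finite.of_surjective _ ρ.rangeRestrict_surjective, ?_⟩
  ext x
  rw [← IntermediateField.mem_lift x (E := ℂ⟮s⟯), IntermediateField.lift_adjoin_simple, ← hq,
    IntermediateField.mem_inf, IntermediateField.mem_fixedField_iff,
    IntermediateField.mem_fixedField_iff]
  constructor
  · exact fun h => ⟨x.2, fun g hg => congrArg Subtype.val (h _ ⟨⟨g, hg⟩, rfl⟩)⟩
  · rintro ⟨-, h⟩ _ ⟨g, rfl⟩
    exact Subtype.ext (h g g.2)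

theorem Triv.restr {w : Valuation L Γ} (hw : Triv w) (E : IntermediateField ℂ L) :
    Triv (w.comap (algebraMap E L)) := fun c => hw c

theorem alg_sub {n : ℕ} (K : IntermediateField ℂ L) (t : Fin n → K)
    (ht : AlgebraicIndependent ℂ t)
    (h : ∀ x : L, IsAlgebraic (IntermediateField.adjoin ℂ (Set.range fun i => (t i : L))) x)
    (y : K) : IsAlgebraic (IntermediateField.adjoin ℂ (Set.range t)) y := by
  by_contra hy
  rw [IntermediateField.isAlgebraic_adjoin_iff] at hy
  have h1 := ((ht.option_iff_transcendental y).2 hy).map' (f := K.val) Subtype.val_injective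
  have e : (K.val ∘ fun o : Option (Fin n) => o.elim y t) =
      fun o : Option (Fin n) => o.elim (y : L) fun i => (t i : L) := by
    funext o
    cases o <;> rfl
  rw [e] at h1
  exact (AlgebraicIndependent.option_iff.1 h1).2
    (IntermediateField.isAlgebraic_adjoin_iff.1 (h y))

theorem prod_exp {ι : Type} (s : Finset ι) (f : ι → ℤ) :
    ∏ i ∈ s, (exp (f i) : Γ) = exp (∑ i ∈ s, f i) := by
  classical
  induction s using Finset.induction_on with
  | empty => simp
  | insert a s ha ih => rw [prod_insert ha, sum_insert ha, ih, exp_add]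

theorem effV_change {K : Type} [Field K] [Algebra ℂ K] {n : ℕ} (t : Fin n → K)
    (halg : ∀ y : K, IsAlgebraic (IntermediateField.adjoin ℂ (Set.range t)) y)
    (D0 : Fin n → Derivation ℂ K K) (h0 : ∀ a b, D0 a (t b) = if a = b then 1 else 0)
    (D : Fin n → Derivation ℂ K K) (hD : LinearIndependent K D) (h : EffV D0) : EffV D := by
  have h1 : ∀ a y, D a y = ∑ b, D a (t b) * D0 b y := fun a y => by
    rw [← DerAux.sum_smul_apply]
    refine sub_eq_zero.1 (der_zero (D a - ∑ b, D a (t b) • D0 b) _ ?_ (halg y))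
    rintro _ ⟨c, rfl⟩
    rw [Derivation.sub_apply, DerAux.sum_smul_apply]
    simp [h0]
  have h2 : ∀ b, jac D b = jac D t * jac D0 b := fun b => by
    rw [jac, jac, jac, ← Matrix.det_mul]
    congr 1
    ext a c
    rw [Matrix.mul_apply, Matrix.of_apply, h1]
    rfl
  have h3 : jac D t ≠ 0 := fun h => by
    obtain ⟨g, hg0, hg⟩ := Matrix.exists_vecMul_eq_zero_iff.2 h
    refine hg0 (funext (Fintype.linearIndependent_iff.1 hD g ?_))
    ext y
    refine der_zero _ _ ?_ (halg y)
    rintro _ ⟨c, rfl⟩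
    rw [DerAux.sum_smul_apply]
    exact congrFun hg c
  obtain ⟨m, hm, s, hs, h⟩ := h
  refine ⟨m, hm, jac D t ^ m * s, mul_ne_zero (pow_ne_zero _ h3) hs, fun v hv hk => ?_⟩
  obtain ⟨b, hb, h4⟩ := h v hv hk
  refine ⟨b, hb, ?_⟩
  rw [h2 b, map_mul, map_mul, map_pow, mul_pow]
  exact mul_le_mul_right h4 _

theorem le_one_all {E : Type} [Field E] [Algebra ℂ E] {H : Subgroup (E ≃ₐ[ℂ] E)} [Finite H]
    {s : E} (hH : IntermediateField.fixedField H = ℂ⟮s⟯) {u : Valuation E Γ} (hu : Triv u)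
    (h : ∀ q, u (s - algebraMap ℂ E q) = 1) (x : E) : u x ≤ 1 :=
  le_one_of_alg u ℂ⟮s⟯ (fun y hy => by
    rcases triv_adjoin hu h y hy with rfl | h
    · simp
    · exact h.le) (alg_of hH x)

theorem place_of {E : Type} [Field E] [Algebra ℂ E] {u : Valuation E Γ} (hu : Triv u)
    (h : u.IsNontrivial) : IsPlace u.valuationSubring := ⟨hu, inferInstance⟩

open Classical in
theorem main [Finite G] {n : ℕ} (C : Fin n → IntermediateField ℂ L) (tC : ∀ i, C i)
    (ht : AlgebraicIndependent ℂ fun i => (tC i : L)) (hL : ⨆ i, C i = ⊤)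
    (hC : ∀ i, ∀ g ∈ G, ∀ x ∈ C i, g x ∈ C i)
    (hq : ∀ i, C i ⊓ IntermediateField.fixedField G = ℂ⟮(tC i : L)⟯)
    (hκ : ∀ i, ∃ D : Fin 1 → Derivation ℂ (C i) (C i), QEffective D)
    (h6 : ∀ g ∈ G, g ≠ 1 → (∀ i, ∃ R : ValuationSubring (C i), IsPlace R ∧
      ∀ x y : C i, g x = y → (x ∈ R ↔ y ∈ R)) →
      1 ≤ ∑ i with ∃ x ∈ C i, g x ≠ x, weight (tC i))
    (D : Fin n → Derivation ℂ (IntermediateField.fixedField G) (IntermediateField.fixedField G))
    (hD : LinearIndependent (IntermediateField.fixedField G) D) : QEffective D := by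
  let K := IntermediateField.fixedField G
  let t : Fin n → L := fun i => tC i
  have htm : ∀ i, t i ∈ C i ⊓ K := fun i =>
    hq i ▸ IntermediateField.mem_adjoin_simple_self ℂ (t i)
  let tK : Fin n → K := fun i => ⟨t i, (htm i).2⟩
  have htK : AlgebraicIndependent ℂ tK := AlgebraicIndependent.of_comp K.val ht
  have htC : ∀ i, Transcendental ℂ (tC i) := fun i h =>
    ht.transcendental i (h.algHom (C i).val)
  choose H hfin hH using fun i => factor (C i) (tC i) (hC i) (hq i)
  have hkill : ∀ (Δ : Derivation ℂ L L) i, Δ (t i) = 0 → ∀ x ∈ C i, Δ x = 0 := fun Δ i h x hx =>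
    der_zero (Δ.compAlgebraMap (C i)) {tC i} (by rintro _ rfl; exact h) (alg_of (hH i) ⟨x, hx⟩)
  have halgL : ∀ x : L, IsAlgebraic (IntermediateField.adjoin ℂ (Set.range t)) x :=
    isAlgebraic_of_der _ fun Δ hΔ => by
      have h1 : (⊤ : IntermediateField ℂ L) ≤ IntermediateField.adjoin ℂ {x | Δ x = 0} := by
        rw [← hL]
        exact iSup_le fun i x hx => IntermediateField.subset_adjoin ℂ _
          (hkill Δ i (hΔ _ (IntermediateField.subset_adjoin ℂ _ ⟨i, rfl⟩)) x hx)
      ext x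
      exact der_adjoin Δ _ (fun _ h => h) x (h1 trivial)
  have halgK := alg_sub K tK htK halgL
  obtain ⟨D0, hD0⟩ := DerAux.exists_dual tK htK
  obtain ⟨DL, hDL⟩ := DerAux.exists_dual t ht
  have hcomp : ∀ a (y : K), DL a y = (D0 a y : L) := fun a y =>
    der_compat (D0 a) (DL a) _ (by
      rintro _ ⟨b, rfl⟩
      change DL a (t b) = ((D0 a (tK b) : K) : L)
      rw [hDL, hD0]
      split_ifs <;> rfl) (halgK y)
  choose δ hδ using fun i => exists_der (fun _ : Unit => tC i)
    (algebraicIndependent_unique_type_iff.2 (htC i)) (fun _ => 1)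
  have hδL : ∀ i (x : C i), DL i x = (δ i x : L) := fun i x =>
    der_compat (δ i) (DL i) {tC i} (by
      rintro _ rfl
      change DL i (t i) = ((δ i (tC i) : C i) : L)
      rw [hDL, hδ i (), if_pos rfl]
      rfl) (alg_of (hH i) x)
  choose N0 hN0 hN1 using fun i => (hκ i).elim fun D' hD' =>
    curve (htC i) (hH i) D' hD' (δ i) (hδ i ())
  obtain ⟨N, hN, hN2⟩ : ∃ N : ℕ, 0 < N ∧ ∀ i, N0 i ∣ N :=
    ⟨∏ i, N0 i, prod_pos fun i _ => hN0 i, fun i => dvd_prod_of_mem _ (mem_univ i)⟩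
  choose T k hk0 hk1 hk2 hreg using fun i => hN1 i N (hN2 i)
  let φ : Fin n → K := fun i => ∏ q ∈ T i, (tK i - algebraMap ℂ K q) ^ k i q
  have hφ : ∀ i, algebraMap K L (φ i) =
      algebraMap (C i) L (∏ q ∈ T i, (tC i - algebraMap ℂ (C i) q) ^ k i q) := fun i => by
    simp only [φ, map_prod, map_zpow₀, map_sub]
    rfl
  refine qeff_of D (effV_change tK halgK D0 hD0 D hD ⟨N, hN, ∏ i, φ i,
    prod_ne_zero_iff.2 fun i _ => prod_ne_zero_iff.2 fun q _ =>
      zpow_ne_zero _ (sub_ne (htK.transcendental i) q), fun v hv hk => ?_⟩)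
  have := fin_fixed (H := G)
  have : CharZero K := charZero_of_injective_algebraMap (algebraMap ℂ K).injective
  obtain ⟨w, hw⟩ := exists_ext (L := L) v hv
  have hwt : Triv w := fun c => hw.le_one_iff_le_one.1 (hk c)
  by_cases hI : ∀ g : G, g ≠ 1 → ∃ b, InB G w b ∧ 1 ≤ w (b - (g : L ≃ₐ[ℂ] L) b)
  · have h1 : ∀ i, ∃ b : C i, w b ≤ 1 ∧ w (algebraMap K L (φ i)) ≤ w (δ i b : L) ^ N := by
      intro i
      rw [hφ]
      by_cases hn : (w.comap (algebraMap (C i) L)).IsNontrivial
      · obtain ⟨u, hu, he⟩ := exists_norm (w.comap (algebraMap (C i) L))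
        obtain ⟨b, hb1, hb2⟩ := hreg i u hu fun c => he.le_one_iff_le_one.2 (hwt c)
        rw [← map_pow] at hb2
        refine ⟨b, he.le_one_iff_le_one.1 hb1, (he.le_iff_le.1 hb2).trans_eq ?_⟩
        rw [map_pow]
        rfl
      · have h2 : ∀ x : C i, w (algebraMap (C i) L x) ≤ 1 := fun x => by
          by_contra hc
          rw [not_le] at hc
          exact hn ⟨x, (zero_lt_one.trans hc).ne', hc.ne'⟩
        refine ⟨tC i, h2 (tC i), ?_⟩
        rw [hδ i (), OneMemClass.coe_one, map_one, one_pow]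
        exact h2 _
    choose b hb1 hb2 using h1
    have h2 : jac DL (fun i => (b i : L)) = ∏ i, (δ i (b i) : L) := by
      rw [jac, ← Matrix.det_diagonal]
      congr 1
      ext a c
      by_cases e : a = c
      · subst e
        rw [Matrix.diagonal_apply_eq, Matrix.of_apply, hδL]
      · rw [Matrix.diagonal_apply_ne _ e, Matrix.of_apply]
        exact hkill _ c (by rw [hDL, if_neg e]) _ (b c).2
    obtain ⟨a, ha1, ha2⟩ := descent DL hwt hI (fun i => (b i : L)) hb1
    let a' : Fin n → K := fun c => ⟨a c, (ha1 c).1⟩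
    have h3 : algebraMap K L (jac D0 a') = jac DL a := by
      rw [jac, jac, RingHom.map_det]
      congr 1
      ext i c
      exact (hcomp i (a' c)).symm
    refine ⟨a', fun c => hw.le_one_iff_le_one.2 (ha1 c).2, ?_⟩
    rw [← map_pow, hw.le_iff_le, Valuation.comap_apply, Valuation.comap_apply, map_pow, map_pow,
      h3, map_prod, map_prod]
    refine le_trans ?_ (pow_le_pow_left' ha2 N)
    rw [h2, map_prod, ← prod_pow]
    exact prod_le_prod' fun i _ => hb2 i
  · push Not at hI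
    obtain ⟨g, hg1, hg⟩ := hI
    have hin : ∀ z, w z ≤ 1 → w (z - (g : L ≃ₐ[ℂ] L) z) < 1 := fun z => inertia hwt g hg
    have hfix : ∀ i, (∀ x : C i, w x ≤ 1) → ∀ x ∈ C i, (g : L ≃ₐ[ℂ] L) x = x := by
      intro i h x hx
      by_contra hne
      have h1 := h ⟨_, inv_mem (sub_mem hx (hC i g g.2 x hx))⟩
      have h2 : x - (g : L ≃ₐ[ℂ] L) x ≠ 0 := sub_ne_zero.2 (Ne.symm hne)
      rw [map_inv₀, inv_le_one₀ (zero_lt_iff.2 ((w.ne_zero_iff).2 h2))] at h1
      exact absurd (hin x (h ⟨x, hx⟩)) (not_lt.2 h1)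
    have h1 := h6 g g.2 (fun h => hg1 (Subtype.ext h)) fun i => by
      by_cases hn : (w.comap (algebraMap (C i) L)).IsNontrivial
      · refine ⟨_, place_of (hwt.restr (C i)) hn, fun x y hxy => ?_⟩
        change w x ≤ 1 ↔ w y ≤ 1
        rw [← hxy]
        refine ⟨fun hx => ?_, fun hx => ?_⟩
        · simpa using w.map_sub_le hx (hin _ hx).le
        · by_contra hc
          rw [not_le] at hc
          have h2 : w (x : L)⁻¹ < 1 := by
            rw [map_inv₀]
            exact inv_lt_one_of_one_lt₀ hc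
          have h3 := w.map_sub_lt h2 (hin _ h2.le)
          have hx0 : (x : L) ≠ 0 := by
            intro h
            rw [h] at hc
            simp at hc
          rw [sub_sub_cancel, map_inv₀, map_inv₀, inv_lt_one₀ (zero_lt_iff.2
            ((w.ne_zero_iff).2 ((map_ne_zero _).2 hx0)))] at h3
          exact absurd hx (not_le.2 h3)
      · obtain ⟨e, he, u, hu, hut, hy⟩ := exists_centre (htC i) (hH i)
        refine ⟨_, place_of hut ⟨tC i, by rw [hy]; exact exp_ne_zero, by
          rw [hy, ← exp_zero, Ne, exp_inj]; omega⟩, fun x y hxy => ?_⟩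
        rw [hfix i (fun x => by
          by_contra hc
          rw [not_le] at hc
          exact hn ⟨x, (zero_lt_one.trans hc).ne', hc.ne'⟩) x x.2] at hxy
        rw [Subtype.ext hxy]
    choose q hq' using fun i => line_bound (v := v) hk (htK.transcendental i) (T i) (k i) N _
      (Int.ceil_nonneg (mul_nonneg (Nat.cast_nonneg N) (weight_pos (tC i)))) (hk0 i)
      (hk1 i) (hk2 i) (∃ x ∈ C i, (g : L ≃ₐ[ℂ] L) x ≠ x) (by
        rintro ⟨x, hx, hne⟩ h
        exact hne (hfix i (le_one_all (hH i) (hwt.restr (C i)) fun q =>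
          hw.eq_one_iff_eq_one.1 (h q)) x hx))
    obtain ⟨a, ha1, ha2⟩ := log_pole D0 v hv hk (fun i => tK i - algebraMap ℂ K (q i))
      fun i => sub_ne (htK.transcendental i) _
    have h2 : (Matrix.of fun c i => D0 i (tK c - algebraMap ℂ K (q c)) /
        (tK c - algebraMap ℂ K (q c))).det = ∏ i, (tK i - algebraMap ℂ K (q i))⁻¹ := by
      rw [← Matrix.det_diagonal]
      congr 1
      ext a c
      rw [Matrix.of_apply, map_sub, Derivation.map_algebraMap, sub_zero, hD0,
        Matrix.diagonal_apply]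
      by_cases e : a = c
      · rw [if_pos e, if_pos e.symm, one_div]
      · rw [if_neg e, if_neg (Ne.symm e), zero_div]
    refine ⟨a, ha1, le_trans ?_ (pow_le_pow_left' ha2 N)⟩
    rw [h2, map_prod, map_prod, mul_pow, ← prod_pow]
    refine (prod_le_prod' fun i _ => hq' i).trans ?_
    rw [prod_mul_distrib, prod_exp, ← exp_nsmul]
    refine mul_le_mul_right (exp_le_exp.2 ?_) _
    rw [← sum_filter, sum_neg_distrib, nsmul_eq_mul, mul_neg_one, neg_le_neg_iff]
    have h3 := mul_le_mul_of_nonneg_left h1 (Nat.cast_nonneg (α := ℚ) N)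
    rw [mul_one, mul_sum] at h3
    exact_mod_cast h3.trans (sum_le_sum fun i _ => Int.le_ceil _)

end Pool.Agent.Lib.MP_813db1_ag.PQ
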