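import Pool.Agent.Lib.MP_813db1_ag.VA5

/-! Eigenvectors of a permutation and the local valuation of a discriminant. -/

namespace Pool.Agent.Lib.MP_813db1_ag.PQ

open WithZero Finset Equiv

variable {Ω : Type} [Fintype Ω] [DecidableEq Ω]

theorem exists_det {K : Type} [Field K] (S : Set (Ω → K))
    (hS : ∀ l : Ω → K, (∀ v ∈ S, ∑ σ, v σ * l σ = 0) → l = 0) :
    ∃ A : Matrix Ω Ω K, A.det ≠ 0 ∧ ∀ k, A k ∈ S := by
  have h1 : Submodule.span K S = ⊤ := by
    by_contra h
    obtain ⟨f, hf0, hf⟩ := Submodule.exists_le_ker_of_lt_top _ (lt_top_iff_ne_top.2 h)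
    have h2 := hS (fun σ => f fun j => if σ = j then 1 else 0) fun v hv => by
      have := hf (Submodule.subset_span hv)
      rwa [LinearMap.mem_ker, LinearMap.pi_apply_eq_sum_univ] at this
    refine hf0 (LinearMap.ext fun v => ?_)
    rw [LinearMap.pi_apply_eq_sum_univ]
    exact sum_eq_zero fun σ _ => by rw [congrFun h2 σ]; simp
  obtain ⟨b, hb1, hb2, hb3⟩ := exists_linearIndependent K S
  let e := (Pi.basisFun K Ω).indexEquiv (Module.Basis.mk hb3 (by
    rw [Subtype.range_coe, hb2, h1]))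
  exact ⟨Matrix.of fun k => (e k : Ω → K), ((Matrix.isUnit_iff_isUnit_det _).1
    (Matrix.linearIndependent_rows_iff_isUnit.1 (hb3.comp e e.injective))).ne_zero,
    fun k => hb1 (e k).2⟩

/-- The index of a permutation. -/
def ind (P : Perm Ω) : ℕ := P.cycleType.sum - P.cycleType.card

theorem card_le_sum (P : Perm Ω) : P.cycleType.card * 2 ≤ P.cycleType.sum :=
  Multiset.card_nsmul_le_sum fun _ => Perm.two_le_of_mem_cycleType

theorem sum_ite_dvd {o e : ℕ} (h : o ∣ e) (a : ℕ) :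
    ∑ i ∈ range e, (if o ∣ i then 0 else a) + e / o * a = e * a := by
  obtain ⟨k, rfl⟩ := h
  rcases Nat.eq_zero_or_pos o with rfl | ho
  · simp
  rw [Nat.mul_div_cancel_left _ ho]
  induction k with
  | zero => simp
  | succ k ih =>
    obtain ⟨o', rfl⟩ : ∃ o', o = o' + 1 := ⟨o - 1, by omega⟩
    rw [mul_add_one, sum_range_add, sum_range_succ', if_pos (by simp), sum_congr rfl fun i hi =>
      if_neg (c := o' + 1 ∣ (o' + 1) * k + (i + 1)) fun h => absurd (Nat.le_of_dvd (by omega)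
        ((Nat.dvd_add_right (dvd_mul_right _ _)).1 h)) (by have := mem_range.1 hi; omega)]
    simp only [sum_const, card_range, smul_eq_mul]
    linarith

theorem ind_eq {e : ℕ} (P : Perm Ω) : P ^ e = 1 →
    e * ind P = ∑ i ∈ range e, (P ^ i).support.card := by
  induction P using Perm.cycle_induction_on with
  | base_one => simp [ind]
  | base_cycles P hP =>
    intro h
    have h1 := sum_ite_dvd (orderOf_dvd_of_pow_eq_one h) P.support.card
    rw [sum_congr rfl (g := fun i => (P ^ i).support.card) fun i _ => by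
      split_ifs with h2
      · simp [orderOf_dvd_iff_pow_eq_one.1 h2]
      · rw [hP.support_pow_eq_iff.2 h2], ← hP.orderOf,
      Nat.div_mul_cancel (orderOf_dvd_of_pow_eq_one h)] at h1
    rw [ind, hP.cycleType, Multiset.sum_singleton, Multiset.card_singleton, Nat.mul_sub,
      ← hP.orderOf]
    omega
  | induction_disjoint P Q hd _ hP hQ =>
    intro h
    rw [hd.commute.mul_pow, (hd.pow_disjoint_pow e e).mul_eq_one_iff] at h
    simp only [hd.commute.mul_pow, (hd.pow_disjoint_pow _ _).card_support_mul, sum_add_distrib,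
      ← hP h.1, ← hQ h.2, ← mul_add, ind, hd.cycleType_mul, Multiset.sum_add, Multiset.card_add]
    have := card_le_sum P
    have := card_le_sum Q
    congr 1
    omega

theorem geom_zt {e i : ℕ} (hi : i < e) :
    ∑ m ∈ range e, (zt 1 e ^ i) ^ m = if i = 0 then (e : ℂ) else 0 := by
  split_ifs with h
  · simp [h]
  · have h1 := (zt_prim (by omega : e ≠ 0)).pow_ne_one_of_pos_of_lt h hi
    rw [geom_sum_eq h1, ← pow_mul, mul_comm, pow_mul, (zt_prim (by omega)).pow_eq_one]
    simp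

theorem eigen (P : Perm Ω) {e : ℕ} (he : 0 < e) (hP : P ^ e = 1) :
    ∃ (A : Matrix Ω Ω ℂ) (m : Ω → ℕ), A.det ≠ 0 ∧ (∀ k, m k < e) ∧
      (∀ k σ, A k σ = zt 1 e ^ m k * A k (P σ)) ∧ 2 * ∑ k, m k = e * ind P := by
  have hz := zt_prim he.ne'
  obtain ⟨A, hA, h1⟩ := exists_det
    {v : Ω → ℂ | ∃ m < e, ∀ σ, v σ = zt 1 e ^ m * v (P σ)} fun l hl => by
      funext σ0
      have h2 : ∀ m ∈ range e, ∑ σ, (∑ i ∈ range e, (zt 1 e ^ i) ^ m *
          if (P ^ i) σ = σ0 then 1 else 0) * l σ = 0 := fun m hm => hl _ ⟨m, mem_range.1 hm,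
        fun σ => by
          have h3 := (sum_range_succ (fun i => (zt 1 e ^ i) ^ m *
            if (P ^ i) σ = σ0 then (1 : ℂ) else 0) e).symm.trans (sum_range_succ' _ e)
          rw [hP, hz.pow_eq_one, pow_zero, pow_zero, add_left_inj] at h3
          dsimp only
          rw [h3, mul_sum]
          refine sum_congr rfl fun i _ => ?_
          rw [pow_succ P, Perm.mul_apply, pow_succ', mul_pow, mul_assoc]⟩
      have h3 := sum_eq_zero h2
      rw [sum_comm] at h3
      simp only [← sum_mul] at h3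
      rw [sum_congr rfl fun σ _ => by rw [sum_comm, sum_congr rfl fun i hi => by
        rw [← sum_mul, geom_zt (mem_range.1 hi), ite_mul, zero_mul], sum_ite_eq']] at h3
      simpa [he, he.ne'] using h3
  choose m hm hAm using h1
  refine ⟨A, m, hA, hm, hAm, ?_⟩
  obtain ⟨τ, hτ⟩ : ∃ τ : Perm Ω, ∀ k, (A * A.transpose) (τ k) k ≠ 0 := by
    by_contra hc
    push Not at hc
    refine mul_ne_zero hA (Matrix.det_transpose A ▸ hA) ((Matrix.det_mul _ _).symm.trans ?_)
    rw [Matrix.det_apply]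
    exact sum_eq_zero fun τ _ => (hc τ).elim fun k hk => by
      rw [prod_eq_zero (f := fun i => (A * A.transpose) (τ i) i) (mem_univ k) hk, smul_zero]
  have h2 : ∀ k, m (τ k) + m k = if m k = 0 then 0 else e := fun k => by
    have h3 : (A * A.transpose) (τ k) k = zt 1 e ^ (m (τ k) + m k) * (A * A.transpose) (τ k) k := by
      simp only [Matrix.mul_apply, Matrix.transpose_apply]
      conv_rhs => rw [← Equiv.sum_comp P fun σ => A (τ k) σ * A k σ, mul_sum]
      exact sum_congr rfl fun σ _ => by rw [hAm _ σ, hAm k σ]; ring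
    obtain ⟨c, hc⟩ := hz.dvd_of_pow_eq_one _ ((mul_eq_right₀ (hτ k)).1 h3.symm)
    have h4 := hm k
    have h5 := hm (τ k)
    have h6 : c < 2 := lt_of_mul_lt_mul_left (a := e) (by omega) (Nat.zero_le _)
    interval_cases c <;> split_ifs <;> omega
  have h3 : ∀ i, ∑ k, (zt 1 e ^ m k) ^ i + (P ^ i).support.card = Fintype.card Ω := fun i => by
    have h4 : ∀ k σ, A k σ = (zt 1 e ^ m k) ^ i * A k ((P ^ i) σ) := fun k σ => by
      induction i with
      | zero => simp
      | succ i ih => rw [ih, hAm k, pow_succ' P, Perm.mul_apply, pow_succ, mul_assoc]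
    have h5 : ∑ σ, ∑ k, A⁻¹ ((P ^ i) σ) k * A k σ = ∑ k, (zt 1 e ^ m k) ^ i := by
      rw [sum_comm]
      refine sum_congr rfl fun k _ => ?_
      rw [sum_congr rfl fun σ _ => by rw [h4 k σ, mul_left_comm, mul_comm (A⁻¹ _ _)], ← mul_sum,
        Equiv.sum_comp (P ^ i) fun σ => A k σ * A⁻¹ σ k, ← Matrix.mul_apply,
        Matrix.mul_nonsing_inv _ hA.isUnit, Matrix.one_apply_eq, mul_one]
    simp only [← Matrix.mul_apply, Matrix.nonsing_inv_mul _ hA.isUnit, Matrix.one_apply] at h5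
    rw [← h5, sum_boole, ← Nat.cast_add, Perm.support, card_filter_add_card_filter_not, card_univ]
  have h4 := sum_congr (rfl : range e = _) fun i _ => h3 i
  rw [sum_add_distrib, sum_comm, ← Nat.cast_sum, ← ind_eq P hP, sum_congr rfl fun k _ =>
    geom_zt (hm k)] at h4
  have h5 : ∑ k, (if m k = 0 then e else 0) + e * ind P = e * Fintype.card Ω := by
    rw [sum_const, card_range, nsmul_eq_mul] at h4
    exact_mod_cast h4
  have h6 := sum_congr (rfl : univ = _) fun k _ => h2 k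
  rw [sum_add_distrib, Equiv.sum_comp τ m] at h6
  have h7 : ∑ k, (if m k = 0 then e else 0) + ∑ k, (if m k = 0 then 0 else e) =
      e * Fintype.card Ω := by
    rw [← sum_add_distrib, sum_congr rfl (g := fun _ => e) fun k _ => by split_ifs <;> simp]
    simp [mul_comm]
  omega

variable {F : Type} [Field F] [Algebra ℂ F] {G : Type} [Group G] {ρ : G →* (F ≃ₐ[ℂ] F)}

omit [Algebra ℂ F] [DecidableEq Ω] [Fintype Ω] in
theorem prod_sub_lt {u : Valuation F Γ} (a b : Ω → F) (ha : ∀ i, u (a i) ≤ 1)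
    (hb : ∀ i, u (b i) ≤ 1) (h : ∀ i, u (a i - b i) < 1) (s : Finset Ω) :
    u (∏ i ∈ s, a i - ∏ i ∈ s, b i) < 1 := by
  classical
  induction s using Finset.induction_on with
  | empty => simp
  | insert i s hi ih =>
    rw [prod_insert hi, prod_insert hi, show ∀ x y z w : F, x * y - z * w =
      x * (y - w) + w * (x - z) by intros; ring]
    refine u.map_add_lt ?_ ?_ <;> rw [map_mul]
    · exact mul_lt_one_of_nonneg_of_lt_one_right (ha i) zero_le ih
    · exact mul_lt_one_of_nonneg_of_lt_one_right (by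
        rw [map_prod]; exact prod_le_one' fun j _ => hb j) zero_le (h i)

theorem eig_val {u : Valuation F Γ} (hu : Triv u) {z : G} {e m : ℕ} (hm : m < e)
    (hz : Rot ρ u z (zt 1 e)) {r : F} (hr : ρ z r = algebraMap ℂ F (zt 1 e ^ m) * r)
    (h1 : u r ≤ 1) : u r ≤ exp (-(m : ℤ)) ∧ (u r < exp (-(m : ℤ)) → u r ≤ exp (-(e : ℤ))) := by
  by_cases h0 : r = 0
  · simp [h0]
  obtain ⟨k, hk⟩ := exists_ord (w := u) h0
  have h2 := hz r k hk
  have h3 : zt 1 e ^ k = zt 1 e ^ m := by
    by_contra hne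
    rw [hr, ← sub_mul, ← map_sub, map_mul, hu.eq_one (sub_ne_zero.2 (Ne.symm hne)), one_mul] at h2
    exact lt_irrefl _ h2
  obtain ⟨c, hc⟩ := ((zt_prim (by omega : e ≠ 0)).zpow_eq_one_iff_dvd (k - m)).1 (by
    rw [zpow_sub₀ (zt_ne _ _), h3, zpow_natCast, div_self (pow_ne_zero _ (zt_ne _ _))])
  rw [hk, ← exp_zero, exp_le_exp] at h1
  rw [hk, exp_le_exp, exp_lt_exp, exp_le_exp]
  have h4 : -1 < c := lt_of_mul_lt_mul_left (a := (e : ℤ)) (by omega) (by omega)
  have h5 := mul_nonneg (by omega : (0 : ℤ) ≤ e) (by omega : 0 ≤ c)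
  refine ⟨by omega, fun h => ?_⟩
  have h6 : 0 < c := lt_of_mul_lt_mul_left (a := (e : ℤ)) (by omega) (by omega)
  have h7 := mul_le_mul_of_nonneg_left (show 1 ≤ c from h6) (by omega : (0 : ℤ) ≤ e)
  omega

theorem local_det {u : Valuation F Γ} (hs : Function.Surjective u) (hu : Triv u)
    (hres : ∀ x, u x ≤ 1 → ∃ c : ℂ, u (x - algebraMap ℂ F c) < 1) {z : G} {e : ℕ} (he : 0 < e)
    (hz : Rot ρ u z (zt 1 e)) (P : Perm Ω) (hP : P ^ e = 1) (M : Matrix Ω Ω F)
    (hM : ∀ σ j, ρ z (M σ j) = M (P σ) j) (h1 : ∀ σ j, u (M σ j) ≤ 1)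
    (hsat : ∀ c : Ω → ℂ, (∀ σ, u (∑ j, algebraMap ℂ F (c j) * M σ j) ≤ exp (-(e : ℤ))) → c = 0) :
    u (M.det ^ 2) = exp (-(e * ind P : ℤ)) := by
  obtain ⟨A, m, hA, hm, hAm, hsum⟩ := eigen P he hP
  obtain ⟨π, hπ⟩ := hs (exp (-1))
  have hπ0 := ne_zero_of_exp hπ
  have hπm : ∀ k, u (π ^ m k) = exp (-(m k : ℤ)) := fun k => by
    rw [map_pow, hπ, ← exp_nsmul]; simp
  have key : ∀ (k : Ω) (x : Ω → F), (∀ σ, ρ z (x σ) = x (P σ)) → (∀ σ, u (x σ) ≤ 1) →
      u (∑ σ, algebraMap ℂ F (A k σ) * x σ) ≤ exp (-(m k : ℤ)) ∧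
      (u (∑ σ, algebraMap ℂ F (A k σ) * x σ) < exp (-(m k : ℤ)) →
        u (∑ σ, algebraMap ℂ F (A k σ) * x σ) ≤ exp (-(e : ℤ))) := fun k x hx hx1 => by
    refine eig_val hu (hm k) hz ?_ (u.map_sum_le fun σ _ => by
      rw [map_mul]; exact mul_le_one' (hu _) (hx1 σ))
    rw [map_sum, ← Equiv.sum_comp P fun σ => algebraMap ℂ F (A k σ) * x σ, mul_sum]
    exact sum_congr rfl fun σ _ => by
      rw [map_mul, AlgEquiv.commutes, hx, hAm k σ, map_mul, mul_assoc]
  let N : Matrix Ω Ω F := Matrix.of fun k j => (∑ σ, algebraMap ℂ F (A k σ) * M σ j) / π ^ m k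
  have hN : ∀ k j, u (N k j) ≤ 1 := fun k j => by
    simp only [N, Matrix.of_apply, map_div₀, hπm]
    exact div_le_one_of_le₀ (key k _ (hM · j) (h1 · j)).1 zero_le
  choose B hB using fun k j => hres _ (hN k j)
  have hB0 : (Matrix.of B).det ≠ 0 := fun h => by
    obtain ⟨c, hc0, hc⟩ := Matrix.exists_mulVec_eq_zero_iff.2 h
    refine hc0 (hsat c fun σ => ?_)
    have h2 : ∀ k, u (∑ σ, algebraMap ℂ F (A k σ) * ∑ j, algebraMap ℂ F (c j) * M σ j) ≤
        exp (-(e : ℤ)) := fun k => by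
      refine (key k _ (fun σ => by simp [hM]) fun σ => u.map_sum_le fun j _ => by
        rw [map_mul]; exact mul_le_one' (hu _) (h1 σ j)).2 ?_
      have h3 : ∑ σ, algebraMap ℂ F (A k σ) * ∑ j, algebraMap ℂ F (c j) * M σ j =
          π ^ m k * ∑ j, algebraMap ℂ F (c j) * (N k j - algebraMap ℂ F (B k j)) := by
        have h4 : ∑ j, B k j * c j = 0 := congrFun hc k
        simp only [mul_sub, sum_sub_distrib, ← map_mul, ← map_sum, mul_comm (c _), h4, map_zero,
          sub_zero, mul_sum, N, Matrix.of_apply, sum_div]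
        rw [sum_comm]
        refine sum_congr rfl fun j _ => sum_congr rfl fun σ _ => ?_
        field_simp
      rw [h3, map_mul, hπm]
      exact mul_lt_of_lt_one_right (zero_lt_iff.2 exp_ne_zero) (u.map_sum_lt one_ne_zero
        fun j _ => by
          rw [map_mul]; exact mul_lt_one_of_nonneg_of_lt_one_right (hu _) zero_le (hB k j))
    have h3 : ∀ x : Ω → F, x σ = ∑ k, algebraMap ℂ F (A⁻¹ σ k) *
        ∑ τ, algebraMap ℂ F (A k τ) * x τ := fun x => by
      simp only [mul_sum, ← mul_assoc, ← map_mul]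
      rw [sum_comm]
      simp only [← sum_mul, ← map_sum, ← Matrix.mul_apply, Matrix.nonsing_inv_mul _ hA.isUnit]
      simp [Matrix.one_apply, apply_ite (algebraMap ℂ F)]
    rw [h3 fun σ => ∑ j, algebraMap ℂ F (c j) * M σ j]
    exact u.map_sum_le fun k _ => by
      rw [map_mul]; exact (mul_le_of_le_one_left' (hu _)).trans (h2 k)
  have h2 : u N.det = 1 := by
    refine (eq_of_sub_lt ?_).trans (hu.eq_one hB0)
    rw [hu.eq_one hB0, RingHom.map_det, Matrix.det_apply', Matrix.det_apply', ← sum_sub_distrib]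
    refine u.map_sum_lt one_ne_zero fun τ _ => ?_
    rw [← mul_sub, map_mul]
    exact mul_lt_one_of_nonneg_of_lt_one_right (hu.intCast _) zero_le
      (prod_sub_lt _ _ (fun i => hN _ _) (fun i => hu _) (fun i => hB _ _) _)
  have h3 : algebraMap ℂ F A.det * M.det = (∏ k, π ^ m k) * N.det := by
    rw [RingHom.map_det, ← Matrix.det_mul, ← Matrix.det_mul_column]
    congr 1
    ext k j
    simp only [N, Matrix.of_apply, mul_div_cancel₀ _ (pow_ne_zero _ hπ0)]
    rfl
  have h4 := congrArg u h3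
  rw [map_mul, map_mul, hu.eq_one hA, one_mul, h2, mul_one, map_prod] at h4
  rw [map_pow, h4, prod_congr rfl fun k _ => hπm k, prod_exp, ← exp_nsmul, sum_neg_distrib]
  congr 1
  have h5 : (2 : ℤ) * ∑ k, (m k : ℤ) = e * ind P := by exact_mod_cast hsum
  simp [← h5]

end Pool.Agent.Lib.MP_813db1_ag.PQ
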