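import Pool.Agent.Lib.MP_813db1_ag.SC2
import Pool.Agent.Lib.MP_813db1_ag.GT1

/-! The branch data of a cover of weight `1 / 6`. -/

namespace Pool.Agent.Lib.MP_813db1_ag.PQ

open WithZero Finset Equiv
open scoped IntermediateField

variable {F : Type} [Field F] [Algebra ℂ F] {G : Type} [Group G] [Finite G]
  {ρ : G →* (F ≃ₐ[ℂ] F)} {t : F} {u : Option ℂ → Valuation F Γ} {z : Option ℂ → G}

theorem Cov.hyp (h : Cov ρ t) (D : Fin 1 → Derivation ℂ F F) (hD : QEffective D) :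
    ∃ N : ℕ, 0 < N ∧ ∃ X : Option ℂ → ℤ, (∀ p, (N : ℤ) ≤ ram t p * X p) ∧
      ∀ T : Finset (Option ℂ), (∀ p, 2 ≤ ram t p → p ∈ T) → ∑ p ∈ T, (X p - N) ≤ -2 * N := by
  classical
  obtain ⟨u, z, hb⟩ := h.bases
  obtain ⟨N, hN, h1⟩ := h.phi D hD
  obtain ⟨φ, h2, h3, X, h4, -, h5⟩ := h1 N dvd_rfl ∅ 0 0 0 (notMem_empty _)
    (by simpa using mul_nonneg (Nat.cast_nonneg N) (weight_pos t)) (by simp)
  obtain ⟨S, X', h6, h7, h8⟩ := deg_zero h.tr h2 h3
  refine ⟨N, hN, X, h4, fun T hT => ?_⟩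
  have he : ∀ p, (0 : ℤ) < ram t p := fun p => by exact_mod_cast h.ram_pos p
  have h9 : ∀ p, X p - N ≤ X' p - if p = none then 2 * (N : ℤ) else 0 := fun p => by
    have h10 := h5 _ (hb.triv p) p _ (he p) (hb.val p)
    rw [h8 _ (hb.triv p) p _ (he p) (hb.val p), card_empty, mul_zero, pow_zero, mul_one, map_inv₀,
      val_sub (hb.triv p) (he p) (hb.val p), ← exp_neg, ← exp_nsmul, ← exp_add, exp_le_exp] at h10
    refine le_of_mul_le_mul_left ?_ (he p)
    rcases p with _ | q <;> simp at h10 ⊢ <;> linarith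
  have h10 : ∑ p ∈ insert none (S ∪ T), (X' p - if p = none then 2 * (N : ℤ) else 0) = -2 * N := by
    rw [sum_sub_distrib, ← sum_subset (subset_union_left.trans (subset_insert _ _))
      fun p _ => h6 p, h7]
    simp
  refine le_trans ?_ ((sum_le_sum fun p _ => h9 p).trans_eq h10)
  refine sum_le_sum_of_subset_of_nonneg (subset_union_right.trans (subset_insert _ _))
    fun p _ hp => ?_
  have h11 : ram t p = 1 := by
    have := h.ram_pos p
    have := mt (hT p) hp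
    omega
  simpa [h11] using h4 p

theorem Cov.typeA (h : Cov ρ t) (D : Fin 1 → Derivation ℂ F F) (hD : QEffective D)
    (hw : weight t = 1 / 6) : ∃ a b c, ram t a = 2 ∧ ram t b = 3 ∧
      6 ≤ ram t c ∧ ∀ p, 2 ≤ ram t p → p = a ∨ p = b ∨ p = c := by
  classical
  obtain ⟨N, hN, X, h1, h2⟩ := h.hyp D hD
  unfold weight at hw
  split_ifs at hw with h3 h4 h5
  · have h4 : (4 : ℚ) ≤ {p | 2 ≤ ram t p}.ncard := by exact_mod_cast h3
    have h5 : 2 / ({p | 2 ≤ ram t p}.ncard : ℚ) ≤ 1 / 2 := by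
      rw [div_le_div_iff₀ (by linarith) (by norm_num)]; linarith
    linarith
  · norm_num at hw
  · norm_num at hw
  push Not at h4 h5
  obtain ⟨a, ha⟩ := h4
  obtain ⟨b, hb⟩ := h5
  have hab : a ≠ b := by rintro rfl; omega
  have h7 := h1 a
  have h8 := h1 b
  rw [ha] at h7
  rw [hb] at h8
  obtain ⟨c, hc, hca, hcb⟩ : ∃ c, 2 ≤ ram t c ∧ c ≠ a ∧ c ≠ b := by
    by_contra hc
    have h9 := h2 {a, b} fun p hp => by
      by_contra h0
      exact hc ⟨p, hp, by simpa using h0⟩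
    rw [sum_pair hab] at h9
    omega
  have h9 : ∀ p, 2 ≤ ram t p → p = a ∨ p = b ∨ p = c := fun p hp => by
    by_contra h0
    push Not at h0
    refine h3 ((Set.ncard_eq_four.2 ⟨a, b, c, p, hab, hca.symm, h0.1.symm, hcb.symm, h0.2.1.symm,
      h0.2.2.symm, rfl⟩).symm.trans_le (Set.ncard_le_ncard ?_ h.finite_branch))
    rintro x (rfl | rfl | rfl | rfl) <;> simp only [Set.mem_ofPred_eq] <;> omega
  refine ⟨a, b, c, ha, hb, ?_, h9⟩
  have h10 := h2 {a, b, c} fun p hp => by simpa using h9 p hp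
  rw [sum_insert (by simp [hab, hca.symm]), sum_pair hcb.symm] at h10
  have h11 := h1 c
  by_contra h0
  have h13 : ram t c ≤ 5 := by omega
  generalize ram t c = e at *
  interval_cases e <;> omega

theorem Bases.sc (hb : Bases ρ t u z) (h : Cov ρ t) {a b c : Option ℂ} (ha : ram t a = 2)
    (hb' : ram t b = 3) (hc : 7 ≤ ram t c) (hp : ∀ p, 2 ≤ ram t p → p = a ∨ p = b ∨ p = c) :
    SC (z a) (z b) (z c) := fun H _ _ => by
  classical
  obtain ⟨M, d, -, -, h1, h2⟩ := scott h hb (G ⧸ H) {a, b, c} fun p h0 => by simpa using hp p h0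
  have hab : a ≠ b := by rintro rfl; omega
  have hac : a ≠ c := by rintro rfl; omega
  rw [sum_insert (by simp [hab, hac]), sum_pair (by rintro rfl; omega), ← add_assoc] at h2
  exact ⟨_, by rw [Subgroup.index_eq_card, Nat.card_eq_fintype_card]; exact card_le_of_zero d h1, h2⟩

theorem Bases.dat (hb : Bases ρ t u z) (h : Cov ρ t) {a b c : Option ℂ} (ha : ram t a = 2)
    (hb' : ram t b = 3) (hc : 7 ≤ ram t c) (hp : ∀ p, 2 ≤ ram t p → p = a ∨ p = b ∨ p = c) :
    Dat (z a) (z b) (z c) (Subgroup.center G).index (Subgroup.centralizer {z c}).index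
      (orderOf (z c : G ⧸ Subgroup.center G)) :=
  (hb.sc h ha hb' hc hp).dat (by rw [← ha, ← hb.order h, pow_orderOf_eq_one])
    (by rw [← hb', ← hb.order h, pow_orderOf_eq_one]) (hb.order h c ▸ hc)

end Pool.Agent.Lib.MP_813db1_ag.PQ
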