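import Pool.Agent.Lib.MP_813db1_ag.PQ5

/-! Inertia groups and rotation numbers at a discrete valuation. -/

namespace Pool.Agent.Lib.MP_813db1_ag.PQ

open WithZero Finset

variable {L : Type} [Field L] [Algebra ℂ L] {G : Type} [Group G] (ρ : G →* (L ≃ₐ[ℂ] L))
  (w : Valuation L Γ)

/-- `g` lies in the inertia group. -/
def Inert (g : G) : Prop := ∀ z, w z ≤ 1 → w (ρ g z - z) < 1

/-- `g` acts on a uniformiser by the factor `c`. -/
def Rot (g : G) (c : ℂ) : Prop :=
  ∀ (y : L) (k : ℤ), w y = exp (-k) → w (ρ g y - algebraMap ℂ L (c ^ k) * y) < w y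

/-- The conjugate valuation. -/
noncomputable def cv (g : G) : Valuation L Γ := w.comap ((ρ g : L ≃ₐ[ℂ] L) : L →+* L)

variable {ρ w}

theorem cv_apply (g : G) (x : L) : cv ρ w g x = w (ρ g x) := rfl

theorem cv_mul (g h : G) : cv ρ (cv ρ w g) h = cv ρ w (g * h) := by
  ext x
  rw [cv_apply, cv_apply, cv_apply, map_mul, AlgEquiv.mul_apply]

theorem cv_one : cv ρ w 1 = w := by
  ext x
  rw [cv_apply, map_one, AlgEquiv.one_apply]

theorem cv_surj (hs : Function.Surjective w) (g : G) : Function.Surjective (cv ρ w g) :=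
  hs.comp (ρ g).surjective

theorem cv_triv (hw : Triv w) (g : G) : Triv (cv ρ w g) := hw.comap _

omit [Algebra ℂ L] in
theorem eq_of_sub_lt {x y : L} (h : w (x - y) < w y) : w x = w y := by
  have := w.map_add_eq_of_lt_right h
  rwa [sub_add_cancel] at this

omit [Algebra ℂ L] in
theorem exists_ord {y : L} (hy : y ≠ 0) : ∃ k : ℤ, w y = exp (-k) :=
  (exists_exp (v := w) hy).elim fun k hk => ⟨-k, by rw [neg_neg, hk]⟩

omit [Algebra ℂ L] in
theorem ne_zero_of_exp {y : L} {k : ℤ} (h : w y = exp k) : y ≠ 0 := by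
  rintro rfl
  rw [map_zero] at h
  exact exp_ne_zero h.symm

omit [Algebra ℂ L] in
/-- Two surjective equivalent valuations agree. -/
theorem eq_of_equiv {u : Valuation L Γ} (hu : Function.Surjective u) (hw : Function.Surjective w)
    (h : u.IsEquiv w) : u = w := by
  obtain ⟨π, hπ⟩ := hu (exp (-1))
  obtain ⟨π', hπ'⟩ := hw (exp (-1))
  have h0 := ne_zero_of_exp hπ
  obtain ⟨a, ha⟩ := exists_ord (w := w) h0
  obtain ⟨b, hb⟩ := exists_ord (w := u) (ne_zero_of_exp hπ')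
  have key : ∀ (y : L) (k : ℤ), u y = exp (-k) → w y = exp (-(k * a)) := fun y k hk => by
    have h1 : u y = u (π ^ k) := by
      rw [hk, map_zpow₀, hπ, ← exp_zsmul]; simp
    rw [h.eq_iff.1 h1, map_zpow₀, ha, ← exp_zsmul]; simp
  have h1 := key π' b hb
  rw [hπ', exp_inj] at h1
  have h2 : 0 < a := by
    have : u π < 1 := by rw [hπ, ← exp_zero, exp_lt_exp]; omega
    have := h.lt_one_iff_lt_one.1 this
    rw [ha, ← exp_zero, exp_lt_exp] at this
    omega
  have h3 : a = 1 := Int.eq_one_of_mul_eq_one_left h2.le (by omega : b * a = 1)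
  ext y
  by_cases hy : y = 0
  · simp [hy]
  · obtain ⟨k, hk⟩ := exists_ord (w := u) hy
    rw [key y k hk, hk, h3, mul_one]

theorem Rot.map_eq {g : G} {c : ℂ} (h : Rot ρ w g c) (hw : Triv w) (hc : c ≠ 0) (y : L) :
    w (ρ g y) = w y := by
  by_cases hy : y = 0
  · simp [hy]
  · obtain ⟨k, hk⟩ := exists_ord (w := w) hy
    have h1 : w (algebraMap ℂ L (c ^ k) * y) = w y := by
      rw [map_mul, hw.eq_one (zpow_ne_zero _ hc), one_mul]
    rw [← h1]
    exact eq_of_sub_lt ((h y k hk).trans_eq h1.symm)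

theorem Rot.mul {g g' : G} {c c' : ℂ} (h : Rot ρ w g c) (h' : Rot ρ w g' c') (hw : Triv w)
    (hc' : c' ≠ 0) : Rot ρ w (g * g') (c * c') := fun y k hk => by
  have h1 := h'.map_eq hw hc' y
  have e : ρ (g * g') y - algebraMap ℂ L ((c * c') ^ k) * y =
      (ρ g (ρ g' y) - algebraMap ℂ L (c ^ k) * ρ g' y) +
        algebraMap ℂ L (c ^ k) * (ρ g' y - algebraMap ℂ L (c' ^ k) * y) := by
    rw [map_mul, AlgEquiv.mul_apply, mul_zpow, map_mul]; ring
  rw [e]
  refine w.map_add_lt ((h _ k (h1.trans hk)).trans_eq h1) ?_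
  rw [map_mul]
  exact (mul_le_of_le_one_left' (hw _)).trans_lt (h' y k hk)

theorem rot_one : Rot ρ w 1 1 := fun y k hk => by
  rw [map_one, AlgEquiv.one_apply, one_zpow, map_one, one_mul, sub_self, map_zero, hk]
  exact zero_lt_iff.2 exp_ne_zero

theorem Rot.pow {g : G} {c : ℂ} (h : Rot ρ w g c) (hw : Triv w) (hc : c ≠ 0) (n : ℕ) :
    Rot ρ w (g ^ n) (c ^ n) := by
  induction n with
  | zero => simpa using rot_one
  | succ n ih => rw [pow_succ, pow_succ]; exact ih.mul h hw hc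

theorem Rot.uniq {g : G} {c c' : ℂ} (h : Rot ρ w g c) (h' : Rot ρ w g c') (hw : Triv w)
    (hs : Function.Surjective w) : c = c' := by
  obtain ⟨π, hπ⟩ := hs (exp (-1))
  have h1 := w.map_sub_lt (h' π 1 hπ) (h π 1 hπ)
  by_contra hne
  rw [sub_sub_sub_cancel_left, ← sub_mul, ← map_sub, zpow_one, zpow_one, map_mul,
    hw.eq_one (sub_ne_zero.2 hne), one_mul] at h1
  exact lt_irrefl _ h1

theorem Rot.inert {g : G} {c : ℂ} (h : Rot ρ w g c) (hw : Triv w) (hc : c ≠ 0) : Inert ρ w g :=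
  fun z hz => by
    rcases hz.eq_or_lt with h1 | h1
    · simpa [h1] using h z 0 (by simpa using h1)
    · exact w.map_sub_lt ((h.map_eq hw hc z).trans_lt h1) h1

theorem Rot.eq_one [Finite G] (hρ : Function.Injective ρ) {g : G} (h : Rot ρ w g 1)
    (hw : Triv w) : g = 1 := by
  refine hρ (AlgEquiv.ext fun x => ?_)
  rw [map_one, AlgEquiv.one_apply]
  by_contra hne
  have hd : ρ g x - x ≠ 0 := sub_ne_zero.2 hne
  obtain ⟨k, hk⟩ := exists_ord (w := w) hd
  have h1 : ∑ i ∈ range (orderOf g), ρ (g ^ i) (ρ g x - x) = 0 := by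
    have : ∀ i, ρ (g ^ i) (ρ g x - x) = ρ (g ^ (i + 1)) x - ρ (g ^ i) x := fun i => by
      rw [map_sub, pow_succ, map_mul, AlgEquiv.mul_apply]
    rw [sum_congr rfl fun i _ => this i, sum_range_sub (fun i => ρ (g ^ i) x), pow_orderOf_eq_one,
      pow_zero, sub_self]
  have h2 : w (∑ i ∈ range (orderOf g), (ρ (g ^ i) (ρ g x - x) - (ρ g x - x))) < w (ρ g x - x) :=
    w.map_sum_lt ((w.ne_zero_iff).2 hd) fun i _ => by
      simpa using h.pow hw one_ne_zero i _ k hk
  rw [sum_sub_distrib, h1, zero_sub, Valuation.map_neg, sum_const, card_range, nsmul_eq_mul,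
    map_mul, hw.natCast (orderOf_pos g).ne', one_mul] at h2
  exact lt_irrefl _ h2

theorem Rot.pow_order [Finite G] {g : G} {c : ℂ} (h : Rot ρ w g c) (hw : Triv w)
    (hs : Function.Surjective w) (hc : c ≠ 0) : c ^ orderOf g = 1 := by
  have := h.pow hw hc (orderOf g)
  rw [pow_orderOf_eq_one] at this
  exact this.uniq rot_one hw hs

theorem Rot.inv [Finite G] {g : G} {c : ℂ} (h : Rot ρ w g c) (hw : Triv w)
    (hs : Function.Surjective w) (hc : c ≠ 0) : Rot ρ w g⁻¹ c⁻¹ := by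
  obtain ⟨m, hm⟩ : ∃ m, orderOf g = m + 1 := ⟨orderOf g - 1, by have := orderOf_pos g; omega⟩
  have h1 : g⁻¹ = g ^ m := inv_eq_of_mul_eq_one_left (by rw [← pow_succ, ← hm, pow_orderOf_eq_one])
  have h2 : c⁻¹ = c ^ m := inv_eq_of_mul_eq_one_left (by
    rw [← pow_succ, ← hm, h.pow_order hw hs hc])
  rw [h1, h2]
  exact h.pow hw hc m

theorem Rot.uniq' [Finite G] (hρ : Function.Injective ρ) {g g' : G} {c : ℂ} (h : Rot ρ w g c)
    (h' : Rot ρ w g' c) (hw : Triv w) (hs : Function.Surjective w) (hc : c ≠ 0) : g = g' := by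
  have := h.mul (h'.inv hw hs hc) hw (inv_ne_zero hc)
  rw [mul_inv_cancel₀ hc] at this
  exact mul_inv_eq_one.1 (this.eq_one hρ hw)

theorem rot_cv {g h : G} {c : ℂ} : Rot ρ (cv ρ w h) g c ↔ Rot ρ w (h * g * h⁻¹) c := by
  have e : ∀ (y : L) (k : ℤ), ρ h (ρ g y - algebraMap ℂ L (c ^ k) * y) =
      ρ (h * g * h⁻¹) (ρ h y) - algebraMap ℂ L (c ^ k) * ρ h y := fun y k => by
    rw [map_sub, map_mul, AlgEquiv.commutes, ← AlgEquiv.mul_apply (ρ (h * g * h⁻¹)), ← map_mul,
      inv_mul_cancel_right, map_mul, AlgEquiv.mul_apply]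
  refine ⟨fun H y k hk => ?_, fun H y k hk => ?_⟩
  · obtain ⟨y, rfl⟩ := (ρ h).surjective y
    rw [← e]
    exact H y k hk
  · rw [cv_apply, e]
    exact H _ k hk

theorem Inert.map_eq {g : G} (h : Inert ρ w g) (hs : Function.Surjective w) : cv ρ w g = w := by
  refine eq_of_equiv (cv_surj hs g) hs (Valuation.isEquiv_of_val_le_one fun x => ?_)
  rw [cv_apply]
  refine ⟨fun hx => ?_, fun hx => by simpa using w.map_add_le (h x hx).le hx⟩
  by_contra hc
  rw [not_le] at hc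
  have hx0 : x ≠ 0 := by rintro rfl; simp at hc
  have h2 : w x⁻¹ < 1 := by rw [map_inv₀]; exact inv_lt_one_of_one_lt₀ hc
  have h3 := w.map_add_lt (h _ h2.le) h2
  rw [sub_add_cancel, map_inv₀, map_inv₀,
    inv_lt_one₀ (zero_lt_iff.2 ((w.ne_zero_iff).2 ((map_ne_zero _).2 hx0)))] at h3
  exact absurd hx (not_le.2 h3)

theorem Inert.mul {g g' : G} (h : Inert ρ w g) (h' : Inert ρ w g') : Inert ρ w (g * g') :=
  fun z hz => by
    have h1 : w (ρ g' z) ≤ 1 := by simpa using w.map_add_le (h' z hz).le hz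
    have := w.map_add_lt (h _ h1) (h' z hz)
    rwa [sub_add_sub_cancel, ← AlgEquiv.mul_apply, ← map_mul] at this

theorem inert_one : Inert ρ w 1 := fun z _ => by simp

theorem Inert.pow {g : G} (h : Inert ρ w g) (n : ℕ) : Inert ρ w (g ^ n) := by
  induction n with
  | zero => simpa using inert_one
  | succ n ih => rw [pow_succ]; exact ih.mul h

theorem Inert.rot [Finite G] {g : G} (h : Inert ρ w g) (hw : Triv w)
    (hs : Function.Surjective w) : ∃ c : ℂ, c ≠ 0 ∧ Rot ρ w g c := by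
  obtain ⟨π, hπ⟩ := hs (exp (-1))
  have hπ0 := ne_zero_of_exp hπ
  have hg : ∀ y, w (ρ g y) = w y := fun y => by rw [← cv_apply, h.map_eq hs]
  set x := ρ g π / π with hx
  have hx1 : w x = 1 := by rw [hx, map_div₀, hg, div_self ((w.ne_zero_iff).2 hπ0)]
  have h1 : ∀ n : ℕ, w (ρ (g ^ n) π / π - x ^ n) < 1 := fun n => by
    induction n with
    | zero => simp [hπ0]
    | succ n ih =>
      have e : ρ (g ^ (n + 1)) π / π - x ^ (n + 1) =
          (ρ (g ^ n) x - x) * (ρ (g ^ n) π / π) + x * (ρ (g ^ n) π / π - x ^ n) := by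
        have := (map_ne_zero (ρ (g ^ n))).2 hπ0
        rw [pow_succ g, map_mul, AlgEquiv.mul_apply, pow_succ' x, hx, map_div₀]
        field_simp
        ring
      rw [e]
      refine w.map_add_lt ?_ (by rwa [map_mul, hx1, one_mul])
      rw [map_mul, map_div₀ w, ← cv_apply (g ^ n) π, (h.pow n).map_eq hs,
        div_self ((w.ne_zero_iff).2 hπ0), mul_one]
      exact h.pow n x hx1.le
  have h2 := h1 (orderOf g)
  rw [pow_orderOf_eq_one, map_one, AlgEquiv.one_apply, div_self hπ0, w.map_sub_swap] at h2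
  have h3 : x ^ orderOf g - 1 = ∏ ζ ∈ Polynomial.nthRootsFinset (orderOf g) (1 : ℂ),
      (x - algebraMap ℂ L ζ) := by
    have := congrArg (Polynomial.aeval x) (Polynomial.X_pow_sub_one_eq_prod (orderOf_pos g)
      (Complex.isPrimitiveRoot_exp _ (orderOf_pos g).ne'))
    simpa [map_prod] using this
  obtain ⟨c, hc, hc1⟩ : ∃ c ∈ Polynomial.nthRootsFinset (orderOf g) (1 : ℂ),
      w (x - algebraMap ℂ L c) < 1 := by
    by_contra hcon
    push Not at hcon
    rw [h3, map_prod] at h2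
    exact absurd h2 (not_lt.2 (one_le_prod' hcon))
  have hc0 : c ≠ 0 := Polynomial.ne_zero_of_mem_nthRootsFinset one_ne_zero hc
  refine ⟨c, hc0, fun y k hk => ?_⟩
  have hC := hw.eq_one hc0
  have hx0 : x ≠ 0 := by rintro h0; rw [h0] at hx1; simp at hx1
  have h4 : ∀ k : ℤ, w (x ^ k - algebraMap ℂ L (c ^ k)) < 1 := fun k => by
    induction k using Int.induction_on with
    | zero => simp
    | succ n ih =>
      have e : x ^ ((n : ℤ) + 1) - algebraMap ℂ L (c ^ ((n : ℤ) + 1)) =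
          (x ^ (n : ℤ) - algebraMap ℂ L (c ^ (n : ℤ))) * x +
            algebraMap ℂ L (c ^ (n : ℤ)) * (x - algebraMap ℂ L c) := by
        rw [zpow_add_one₀ hx0, zpow_add_one₀ hc0, map_mul]; ring
      rw [e]
      refine w.map_add_lt (by rwa [map_mul, hx1, mul_one]) ?_
      rwa [map_mul, hw.eq_one (zpow_ne_zero _ hc0), one_mul]
    | pred n ih =>
      have hC0 : algebraMap ℂ L c ≠ 0 := (map_ne_zero _).2 hc0
      have e : x ^ (-(n : ℤ) - 1) - algebraMap ℂ L (c ^ (-(n : ℤ) - 1)) =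
          (x ^ (-(n : ℤ)) - algebraMap ℂ L (c ^ (-(n : ℤ)))) * x⁻¹ -
            algebraMap ℂ L (c ^ (-(n : ℤ))) * (x - algebraMap ℂ L c) * (x⁻¹ * (algebraMap ℂ L c)⁻¹) := by
        rw [zpow_sub_one₀ hx0, zpow_sub_one₀ hc0, map_mul, map_inv₀]
        field_simp
        ring
      rw [e]
      refine w.map_sub_lt (by rwa [map_mul, map_inv₀, hx1, inv_one, mul_one]) ?_
      rwa [map_mul, map_mul, map_mul, map_inv₀, map_inv₀, hx1, hC, hw.eq_one (zpow_ne_zero _ hc0),
        inv_one, one_mul, mul_one, mul_one]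
  set ε := y / π ^ k with hε
  have hπk : w (π ^ k) = exp (-k) := by rw [map_zpow₀, hπ, ← exp_zsmul]; simp
  have hε1 : w ε = 1 := by rw [hε, map_div₀, hπk, hk, div_self exp_ne_zero]
  have e : ρ g y - algebraMap ℂ L (c ^ k) * y =
      π ^ k * (x ^ k * (ρ g ε - ε) + (x ^ k - algebraMap ℂ L (c ^ k)) * ε) := by
    have h5 := zpow_ne_zero k hπ0
    have h6 := zpow_ne_zero k ((map_ne_zero (ρ g)).2 hπ0)
    rw [hε, hx, map_div₀, map_zpow₀ (ρ g), div_zpow]
    field_simp
    ring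
  rw [e, map_mul, hπk, hk]
  refine mul_lt_of_lt_one_right (zero_lt_iff.2 exp_ne_zero) (w.map_add_lt ?_ ?_)
  · rw [map_mul, map_zpow₀, hx1, one_zpow, one_mul]
    exact h ε hε1.le
  · rw [map_mul, hε1, mul_one]
    exact h4 k

variable (ρ w) in
/-- The inertia group. -/
def ine [Finite G] : Subgroup G where
  carrier := {g | Inert ρ w g}
  mul_mem' := Inert.mul
  one_mem' := inert_one
  inv_mem' := fun {g} hg => by
    obtain ⟨m, hm⟩ : ∃ m, orderOf g = m + 1 := ⟨orderOf g - 1, by have := orderOf_pos g; omega⟩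
    rw [inv_eq_of_mul_eq_one_left (show g ^ m * g = 1 by
      rw [← pow_succ, ← hm, pow_orderOf_eq_one])]
    exact Inert.pow hg m

/-- The root of unity of angle `a / e`. -/
noncomputable def zt (a : ℤ) (e : ℕ) : ℂ := Complex.exp (2 * Real.pi * Complex.I * (a / e))

theorem zt_ne (a : ℤ) (e : ℕ) : zt a e ≠ 0 := Complex.exp_ne_zero _

theorem zt_prim {r : ℕ} (hr : r ≠ 0) : IsPrimitiveRoot (zt 1 r) r := by
  have := Complex.isPrimitiveRoot_exp r hr
  rw [zt, Int.cast_one, mul_one_div]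
  exact this

theorem zt_zpow {r e : ℕ} {α j : ℤ} (hr : r ≠ 0) (he : e ≠ 0) (h : e * α = j * r) :
    zt 1 r ^ α = zt j e := by
  rw [zt, zt, ← Complex.exp_int_mul]
  congr 1
  have h1 : (e : ℂ) * α = j * r := by exact_mod_cast h
  have h2 : (r : ℂ) ≠ 0 := Nat.cast_ne_zero.2 hr
  have h3 : (e : ℂ) ≠ 0 := Nat.cast_ne_zero.2 he
  field_simp
  push_cast
  linear_combination h1

theorem Rot.order [Finite G] (hρ : Function.Injective ρ) {g : G} {r : ℕ} (hr : r ≠ 0)
    (h : Rot ρ w g (zt 1 r)) (hw : Triv w) (hs : Function.Surjective w) : orderOf g = r := by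
  refine Nat.dvd_antisymm (orderOf_dvd_of_pow_eq_one ?_)
    ((zt_prim hr).dvd_of_pow_eq_one _ (h.pow_order hw hs (zt_ne _ _)))
  have := h.pow hw (zt_ne _ _) r
  rw [(zt_prim hr).pow_eq_one] at this
  exact this.eq_one hρ hw

theorem exists_gen [Finite G] (hρ : Function.Injective ρ) (hw : Triv w)
    (hs : Function.Surjective w) : ∃ g, Rot ρ w g (zt 1 (Nat.card (ine ρ w))) := by
  choose c hc0 hc using fun g : ine ρ w => Inert.rot g.2 hw hs
  let χ : ine ρ w →* ℂ :=
    { toFun := c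
      map_one' := (hc 1).uniq rot_one hw hs
      map_mul' := fun a b => (hc (a * b)).uniq ((hc a).mul (hc b) hw (hc0 b)) hw hs }
  have hχ : Function.Injective χ := fun a b h =>
    Subtype.ext ((hc a).uniq' hρ ((show c a = c b from h) ▸ hc b) hw hs (hc0 a))
  have := isCyclic_of_injective_ringHom χ hχ
  obtain ⟨g, hg⟩ := IsCyclic.exists_ofOrder_eq_natCard (α := ine ρ w)
  have hr : Nat.card (ine ρ w) ≠ 0 := Nat.card_pos.ne'
  have h1 : IsPrimitiveRoot (c g) (Nat.card (ine ρ w)) := by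
    rw [← hg, ← orderOf_injective χ hχ g]
    exact IsPrimitiveRoot.orderOf _
  have : NeZero (Nat.card (ine ρ w)) := ⟨hr⟩
  obtain ⟨i, -, hi⟩ := h1.eq_pow_of_pow_eq_one (zt_prim hr).pow_eq_one
  exact ⟨g ^ i, hi ▸ (hc g).pow hw (hc0 g) i⟩

end Pool.Agent.Lib.MP_813db1_ag.PQ
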