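import Pool.Agent.Lib.MP_813db1_ag.VA9

/-! The choice of the weights in the dimension count. -/

namespace Pool.Agent.Lib.MP_813db1_ag.PQ

open WithZero Finset
open scoped IntermediateField

theorem weight_cases {F : Type} [Field F] [Algebra ℂ F] (t : F)
    (hfin : {p | 2 ≤ ram t p}.Finite) : (weight t ≠ 1 / 6 → 1 / 4 ≤ weight t) ∧
      (weight t = 1 / 6 → ∀ p p', 5 ≤ ram t p → 5 ≤ ram t p' → p = p') := by
  unfold weight
  split_ifs with h1 h2 h3
  · have h4 : (4 : ℚ) ≤ {p | 2 ≤ ram t p}.ncard := by exact_mod_cast h1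
    have h5 : 2 / ({p | 2 ≤ ram t p}.ncard : ℚ) ≤ 1 / 2 := by
      rw [div_le_div_iff₀ (by linarith) (by norm_num)]; linarith
    exact ⟨fun _ => by linarith, fun h => by linarith⟩
  · norm_num
  · norm_num
  · refine ⟨fun h => absurd rfl h, fun _ p p' hp hp' => by_contra fun hne => h1 ?_⟩
    push Not at h2 h3
    obtain ⟨a, ha⟩ := h2
    obtain ⟨b, hb⟩ := h3
    have h4 : ({a, b, p, p'} : Set (Option ℂ)).ncard = 4 := Set.ncard_eq_four.2 ⟨a, b, p, p',
      by rintro rfl; omega, by rintro rfl; omega, by rintro rfl; omega, by rintro rfl; omega,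
      by rintro rfl; omega, hne, rfl⟩
    rw [← h4]
    refine Set.ncard_le_ncard ?_ hfin
    rintro x (rfl | rfl | rfl | rfl) <;> simp only [Set.mem_ofPred_eq] <;> omega

variable {L : Type} [Field L] [Algebra ℂ L] {G : Subgroup (L ≃ₐ[ℂ] L)}

theorem main2 [Finite G] {n : ℕ} (hn : 4 ≤ n) (C : Fin n → IntermediateField ℂ L) (t : ∀ i, C i)
    (ht : AlgebraicIndependent ℂ fun i => (t i : L)) (hL : ⨆ i, C i = ⊤)
    (hC : ∀ i, ∀ g ∈ G, ∀ x ∈ C i, g x ∈ C i)
    (hq : ∀ i, C i ⊓ IntermediateField.fixedField G = ℂ⟮(t i : L)⟯)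
    (hf : ∀ i, ∀ g ∈ G, (∀ x ∈ C i, g x = x) → g = 1)
    (hκ : ∀ i, ∃ D : Fin 1 → Derivation ℂ (C i) (C i), QEffective D)
    (hH : ∀ i, weight (t i) = 1 / 6 → ∀ g : G, 5 ≤ orderOf g → (∃ p, ram (t i) p = orderOf g) →
      (∃ R : ValuationSubring (C i), IsPlace R ∧ ∀ x y : C i, g.1 x = y → (x ∈ R ↔ y ∈ R)) →
      7 ≤ orderOf g ∧ (if orderOf g = 7 then 19 else 12) ≤ (Subgroup.centralizer {g}).index)
    (D : Fin n → Derivation ℂ (IntermediateField.fixedField G) (IntermediateField.fixedField G))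
    (hD : LinearIndependent (IntermediateField.fixedField G) D) : QEffective D := by
  classical
  choose ρC hρC hc using fun i => factor' (C i) (t i)
    (fun h => ht.transcendental i (h.algHom (C i).val)) (hC i) (hq i) (hf i)
  have hw := fun i => weight_cases (t i) (hc i).finite_branch
  by_cases hA : ∀ i, weight (t i) ≠ 1 / 6
  · refine main C t ht hL hC hq hκ (fun g hg hg1 _ => ?_) D hD
    rw [filter_true_of_mem fun i _ => by_contra fun h => hg1 (hf i g hg (by simpa using h))]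
    refine le_trans ?_ (card_nsmul_le_sum _ _ _ fun i _ => (hw i).1 (hA i))
    have : (4 : ℚ) ≤ n := by exact_mod_cast hn
    rw [card_univ, Fintype.card_fin, nsmul_eq_mul]
    linarith
  have hH' : ∀ i, weight (t i) = 1 / 6 → ∀ (g : G) p (u : Valuation (C i) Γ) c, c ≠ 0 →
      Function.Surjective u → Triv u → Rot (ρC i) u g c → ram (t i) p = orderOf g →
      5 ≤ orderOf g → 7 ≤ orderOf g ∧
        (if orderOf g = 7 then 19 else 12) ≤ (Subgroup.centralizer {g}).index := by
    intro i hi g p u c hc0 hu hut hg h1 h2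
    obtain ⟨π, hπ⟩ := hu (exp (-1))
    refine hH i hi g h2 ⟨p, h1⟩ ⟨_, place_of hut (isNontrivial (ne_zero_of_exp hπ)
      (hπ ▸ (exp_neg_lt one_pos).ne)), fun x y hxy => ?_⟩
    change u x ≤ 1 ↔ u y ≤ 1
    rw [show y = ρC i g x from Subtype.ext (hxy.symm.trans (hρC i g x).symm), hg.map_eq hut hc0]
  have h7 : ∀ i, weight (t i) = 1 / 6 → ∀ p, 5 ≤ ram (t i) p → 7 ≤ ram (t i) p := by
    intro i hi p hp
    obtain ⟨u, hu, hut, -, h1, -⟩ := ((hc i).loc p).base
    obtain ⟨g, hg⟩ := exists_gen (hc i).inj hut hu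
    rw [h1, ← ram_eq] at hg
    have h2 := hg.order (hc i).inj (by omega) hut hu
    exact h2 ▸ (hH' i hi g p u _ (zt_ne _ _) hu hut hg h2.symm (h2 ▸ hp)).1
  have hσ : ∀ i0, ∃ σ : Fin 4 → Fin n, Function.Injective σ ∧ σ 0 = i0 := fun i0 =>
    ⟨fun a => Equiv.swap (Fin.castLE hn 0) i0 (Fin.castLE hn a),
      (Equiv.injective _).comp (Fin.castLE_injective hn), Equiv.swap_apply_left _ _⟩
  have hwt : ∀ x y : ℕ, x + y = 700 → ∀ i, (((if decide (weight (t i) = 1 / 6) then x else 966) +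
      (if decide (weight (t i) = 1 / 6) then y else 84) : ℕ) : ℚ) ≤ 4200 * weight (t i) := by
    intro x y hxy i
    by_cases hi : weight (t i) = 1 / 6
    · simp only [hi, decide_true, if_true, hxy]
      norm_num
    · simp only [hi, decide_false]
      have := (hw i).1 hi
      norm_num
      linarith
  by_cases h8 : ∃ i p, weight (t i) = 1 / 6 ∧ ram (t i) p = 7
  · obtain ⟨i0, p0, hi0, hp0⟩ := h8
    obtain ⟨σ, hσ, rfl⟩ := hσ i0
    refine core hn C t ht hL ρC hρC hc hκ σ hσ _ _ (fun _ => 19) (fun _ => by norm_num)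
      (fun i => by split_ifs <;> norm_num) (hwt 600 100 rfl) (fun i p hp => ?_)
      (fun j g p u hg h => ?_) (vol7 (fun a => decide (weight (t (σ a)) = 1 / 6)) (decide_eq_true hi0)) D hD
    · split_ifs with h1
      · have := h7 i (of_decide_eq_true h1) p hp
        omega
      · omega
    · obtain ⟨h1, h2, h3, h4⟩ := h 0
      have h5 := (hw _).2 hi0 (p 0) p0 (hg.trans (Nat.le_of_dvd ((hc _).ram_pos _) h3)) (by omega)
      rw [h5, hp0] at h3
      have h6 : orderOf g = 7 := ((Nat.dvd_prime (by norm_num)).1 h3).resolve_left (by omega)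
      simpa [h6] using (hH' _ hi0 g p0 _ _ (zt_ne _ _) h1 h2 h4 (hp0.trans h6.symm) hg).2
  · push Not at hA h8
    obtain ⟨i0, hi0⟩ := hA
    obtain ⟨σ, hσ, rfl⟩ := hσ i0
    refine core hn C t ht hL ρC hρC hc hκ σ hσ _ _ _ (fun _ => by split_ifs <;> norm_num)
      (fun i => by split_ifs <;> norm_num) (hwt 525 175 rfl) (fun i p hp => ?_)
      (fun j g p u hg h => ?_) (vol8 (fun a => decide (weight (t (σ a)) = 1 / 6)) (decide_eq_true hi0)) D hD
    · split_ifs with h1
      · have := h7 i (of_decide_eq_true h1) p hp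
        have := h8 i p (of_decide_eq_true h1)
        omega
      · omega
    · split_ifs with h0
      · obtain ⟨a, ha, hj⟩ := h0
        obtain ⟨h1, h2, -, h4⟩ := h a
        rw [hj, Nat.cast_one] at h4
        have h5 := h4.order (hc _).inj ((hc _).ram_pos _).ne' h2 h1
        refine le_trans ?_ (hH' _ (of_decide_eq_true ha) g _ _ _ (zt_ne _ _) h1 h2 h4 h5.symm hg).2
        split_ifs <;> norm_num
      · exact Nat.pos_of_ne_zero Subgroup.index_ne_zero_of_finite

end Pool.Agent.Lib.MP_813db1_ag.PQ
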