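import Pool.Agent.Lib.MP_813db1_ag.VA1

/-! Extensions of a discrete valuation to a Galois extension. -/

namespace Pool.Agent.Lib.MP_813db1_ag.PQ

open WithZero Finset IsDedekindDomain
open scoped Pointwise

variable {L : Type} [Field L] [Algebra ℂ L] {G : Type} [Group G] {ρ : G →* (L ≃ₐ[ℂ] L)}

omit [Algebra ℂ L] in
theorem eq_adic {S : Type} [CommRing S] [IsDedekindDomain S] [Algebra S L] [IsFractionRing S L]
    (P : HeightOneSpectrum S) {w : Valuation L Γ} (hs : Function.Surjective w)
    (h1 : ∀ s : S, w (algebraMap S L s) ≤ 1) (h2 : ∀ s : S, s ∈ P.asIdeal ↔ w (algebraMap S L s) < 1) :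
    P.valuation L = w := by
  have h3 : ∀ d : P.asIdeal.primeCompl, w (algebraMap S L d) = 1 := fun d =>
    le_antisymm (h1 _) (not_lt.1 fun h => d.2 ((h2 _).2 h))
  refine eq_of_equiv (P.valuation_surjective L) hs (Valuation.isEquiv_of_val_le_one fun x =>
    ⟨fun hx => ?_, fun hx => ?_⟩)
  · obtain ⟨n, d, h⟩ := P.exists_primeCompl_mul_eq_of_integer x hx
    have := h1 n
    rwa [← h, map_mul, h3, mul_one] at this
  · obtain ⟨n, d, h | h⟩ := P.exists_primeCompl_mul_eq_or_mul_eq (K := L) x
    · have : P.valuation L (algebraMap S L n) ≤ 1 := P.valuation_le_one n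
      rwa [← h, map_mul, P.valuation_eq_one_iff_notMem.2 d.2, mul_one] at this
    · have h4 := h3 d
      rw [← h, map_mul] at h4
      have h5 : n ∉ P.asIdeal := fun hn =>
        (mul_lt_one_of_nonneg_of_lt_one_right hx zero_le ((h2 n).1 hn)).ne h4
      have : P.valuation L (algebraMap S L d) ≤ 1 := P.valuation_le_one (d : S)
      rwa [← h, map_mul, P.valuation_eq_one_iff_notMem.2 h5, mul_one] at this

theorem galois_place [Finite G] (hρ : Function.Injective ρ) (K : IntermediateField ℂ L)
    (hK : ∀ x, x ∈ K ↔ ∀ g, ρ g x = x) (v : Valuation K Γ) (hv : Function.Surjective v)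
    (hk : Triv v) : ∃ w : Valuation L Γ, Function.Surjective w ∧
      (∀ x : K, w x = v x ^ Nat.card (ine ρ w)) ∧ ∀ w' : Valuation L Γ, Function.Surjective w' →
        v.IsEquiv (w'.comap (algebraMap K L)) → ∃ g, w' = cv ρ w g := by
  let _ : MulSemiringAction G L := MulSemiringAction.compHom L ρ
  have hsm : ∀ (g : G) (x : L), g • x = ρ g x := fun _ _ => rfl
  have hGal : IsGaloisGroup G K L :=
    ⟨⟨fun h => hρ (AlgEquiv.ext h)⟩, ⟨fun g a x => by
      rw [hsm, hsm, Algebra.smul_def, Algebra.smul_def, map_mul]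
      congr 1
      exact (hK a).1 a.2 g⟩, ⟨fun x hx => ⟨⟨x, (hK x).2 hx⟩, rfl⟩⟩⟩
  have := IsGaloisGroup.finiteDimensional G K L
  have : CharZero K := charZero_of_injective_algebraMap (algebraMap ℂ K).injective
  obtain ⟨π, hπ⟩ := hv (exp (-1))
  have hπ0 := ne_zero_of_exp hπ
  have hπ1 : v π < 1 := by rw [hπ, ← exp_zero, exp_lt_exp]; omega
  have : v.IsNontrivial := isNontrivial hπ0 hπ1.ne
  let R := v.valuationSubring
  let _ : Algebra R L := ((algebraMap K L).comp (algebraMap R K)).toAlgebra
  have : IsScalarTower R K L := IsScalarTower.of_algebraMap_eq fun _ => rfl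
  have : SMulCommClass G R L := ⟨fun g a x => by
    rw [hsm, hsm, Algebra.smul_def, Algebra.smul_def, map_mul]
    congr 1
    exact (hK _).1 (a : K).2 g⟩
  let S := integralClosure R L
  have : IsDedekindDomain S := IsIntegralClosure.isDedekindDomain R K L _
  have : IsFractionRing S L := integralClosure.isFractionRing_of_finite_extension K L
  have : Module.Finite R S := IsIntegralClosure.finite R K L S
  have : SMulDistribClass G S L := ⟨fun g s x => by
    rw [Algebra.smul_def, Algebra.smul_def, smul_mul']; rfl⟩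
  have : IsGaloisGroup G R S := IsGaloisGroup.of_isFractionRing G R S K L
  have : FaithfulSMul R S := (faithfulSMul_iff_algebraMap_injective R S).2 fun a b h =>
    Subtype.ext ((algebraMap K L).injective (congrArg (fun z : S => (z : L)) h))
  let p := IsDiscreteValuationRing.maximalIdeal R
  have hp : p.valuation K = v := eq_adic p hv (fun s => s.2) fun s =>
    v.mem_maximalIdeal_iff
  have key : ∀ w : Valuation L Γ, Function.Surjective w → v.IsEquiv (w.comap (algebraMap K L)) →
      ∃ P : HeightOneSpectrum S, P.asIdeal.LiesOver p.asIdeal ∧ P.valuation L = w ∧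
        ∀ s : S, s ∈ P.asIdeal ↔ w s < 1 := fun w hs he => by
    have h1 : ∀ s : S, w s ≤ 1 := fun s => by
      let _ : Algebra R w.integer :=
        ((algebraMap R L).codRestrict w.integer fun a => he.le_one_iff_le_one.1 a.2).toAlgebra
      have : IsScalarTower R w.integer L := IsScalarTower.of_algebraMap_eq fun _ => rfl
      exact (Valuation.integer.integers w).mem_of_integral
        (IsIntegral.tower_top (A := w.integer) s.2)
    let I : Ideal S :=
      { carrier := {s | w s < 1}
        add_mem' := fun ha hb => w.map_add_lt ha hb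
        zero_mem' := by simp
        smul_mem' := fun c x hx => by
          change w ((c : L) * x) < 1
          rw [map_mul]
          exact mul_lt_one_of_nonneg_of_lt_one_right (h1 c) zero_le hx }
    have hI : I.IsPrime := ⟨fun h => by
      have h0 : (1 : S) ∈ I := h ▸ trivial
      have h2 : w ((1 : S) : L) < 1 := h0
      simp at h2, fun {a b} h => by
      by_contra hc
      rw [not_or] at hc
      have h2 : w ((a : L) * b) < 1 := h
      rw [map_mul, le_antisymm (h1 a) (not_lt.1 hc.1), le_antisymm (h1 b) (not_lt.1 hc.2),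
        mul_one] at h2
      exact lt_irrefl _ h2⟩
    have h2 : algebraMap R S ⟨π, hπ1.le⟩ ∈ I := he.lt_one_iff_lt_one.1 hπ1
    refine ⟨⟨I, hI, fun h => hπ0 ?_⟩, ⟨?_⟩, eq_adic _ hs h1 fun _ => Iff.rfl, fun _ => Iff.rfl⟩
    · rw [h] at h2
      exact (map_eq_zero (algebraMap K L)).1 (congrArg Subtype.val h2)
    · ext a
      exact v.mem_maximalIdeal_iff.trans he.lt_one_iff_lt_one
  obtain ⟨w0, hw0⟩ := exists_ext (L := L) v hv
  have : w0.IsNontrivial := isNontrivial ((map_ne_zero (algebraMap K L)).2 hπ0)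
    (hw0.lt_one_iff_lt_one.1 hπ1).ne
  obtain ⟨w, hs, he⟩ := exists_norm w0
  have hw : v.IsEquiv (w.comap (algebraMap K L)) := hw0.trans (he.symm.comap _)
  obtain ⟨P, hP1, hP2, hP3⟩ := key w hs hw
  refine ⟨w, hs, fun x => ?_, fun w' hs' he' => ?_⟩
  · have : CharZero p.asIdeal.ResidueField := charZero_of_injective_ringHom
      ((algebraMap R p.asIdeal.ResidueField).comp
        ((algebraMap ℂ K).codRestrict R.toSubring hk)).injective
    have h1 : P.asIdeal.inertia G = ine ρ w := by
      ext g
      refine ⟨fun h z hz => ?_, fun h s => (hP3 _).2 (h s (hP2 ▸ P.valuation_le_one s))⟩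
      obtain ⟨n, d, hz'⟩ := P.exists_primeCompl_mul_eq_of_integer z (hP2 ▸ hz)
      have hd : w (d : S) = 1 := hP2 ▸ P.valuation_eq_one_iff_notMem.2 d.2
      have h2 : w (ρ g (d : S) - (d : S)) < 1 := (hP3 _).1 (h d)
      have h3 : w (ρ g n - n) < 1 := (hP3 _).1 (h n)
      have h4 : w (ρ g (d : S)) = 1 := (eq_of_sub_lt (h2.trans_eq hd.symm)).trans hd
      have hn : (n : L) = z * (d : S) := hz'.symm
      have e : (ρ g z - z) * ρ g (d : S) = (ρ g n - n) - z * (ρ g (d : S) - (d : S)) := by
        rw [hn, map_mul]; ring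
      have h5 := w.map_sub_lt h3 (y := z * (ρ g (d : S) - (d : S))) (by
        rw [map_mul]
        exact mul_lt_one_of_nonneg_of_lt_one_right hz zero_le h2)
      rwa [← e, map_mul, h4, mul_one] at h5
    rw [← h1, Ideal.card_inertia_eq_ramificationIdxIn p.asIdeal P.asIdeal,
      Ideal.ramificationIdxIn_eq_ramificationIdx p.asIdeal P.asIdeal G,
      ← Ideal.ramificationIdx'_eq_ramificationIdx p.asIdeal P.asIdeal p.ne_bot, ← hp,
      HeightOneSpectrum.valuation_liesOver L p P, hP2]
    rfl
  · obtain ⟨P', hP1', hP2', hP3'⟩ := key w' hs' he'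
    obtain ⟨σ, hσ⟩ := Ideal.exists_smul_eq_of_isGaloisGroup p.asIdeal P.asIdeal P'.asIdeal G
    refine ⟨σ⁻¹, hP2'.symm.trans (eq_adic P' (cv_surj hs _) (fun s => ?_) fun s => ?_)⟩
    · exact hP2 ▸ P.valuation_le_one (σ⁻¹ • s)
    · rw [← hσ, Ideal.mem_pointwise_smul_iff_inv_smul_mem, hP3]
      rfl

end Pool.Agent.Lib.MP_813db1_ag.PQ
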