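import Pool.Agent.Lib.MP_813db1_ag.VA2

/-! Places, functions with bounded poles and Taylor expansions on a Galois cover of the line. -/

namespace Pool.Agent.Lib.MP_813db1_ag.PQ

open WithZero Finset
open scoped IntermediateField

variable {F : Type} [Field F] [Algebra ℂ F] {G : Type} [Group G] [Finite G]
  {ρ : G →* (F ≃ₐ[ℂ] F)} {t : F}

/-- A local parameter of the line at a point. -/
noncomputable def yy (t : F) : Option ℂ → F
  | none => t⁻¹
  | some q => t - algebraMap ℂ F q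

theorem ram_eq (t : F) (p : Option ℂ) : ram t p = minOrd (yy t p) := by cases p <;> rfl

variable (ρ t) in
/-- A faithful action with quotient the line. -/
structure Cov : Prop where
  inj : Function.Injective ρ
  tr : Transcendental ℂ t
  fix : ∀ x, x ∈ ℂ⟮t⟯ ↔ ∀ g, ρ g x = x

omit [Finite G] in
theorem Cov.fixed (h : Cov ρ t) : IntermediateField.fixedField ρ.range = ℂ⟮t⟯ := by
  ext x
  rw [h.fix, IntermediateField.mem_fixedField_iff]
  exact ⟨fun H g => H _ ⟨g, rfl⟩, by rintro H _ ⟨g, rfl⟩; exact H g⟩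

instance : Finite ρ.range := Finite.of_surjective _ ρ.rangeRestrict_surjective

omit [Finite G] in
theorem Cov.of_eq (h : Cov ρ t) {y : F} (hy : Transcendental ℂ y) (e : ℂ⟮y⟯ = ℂ⟮t⟯) : Cov ρ y :=
  ⟨h.inj, hy, e ▸ h.fix⟩

omit [Finite G] in
theorem Cov.loc (h : Cov ρ t) (p : Option ℂ) : Cov ρ (yy t p) := by
  cases p
  · exact h.of_eq (tr_inv h.tr) (adjoin_inv t)
  · exact h.of_eq (tr_sub h.tr _) (adjoin_sub t _)

omit [Finite G] in
theorem Cov.ne (h : Cov ρ t) : t ≠ 0 := by simpa using sub_ne h.tr 0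

omit [Finite G] in
theorem Cov.self (h : Cov ρ t) (g : G) : ρ g t = t :=
  (h.fix t).1 (IntermediateField.mem_adjoin_simple_self ℂ t) g

theorem val_rep (ht : Transcendental ℂ t) {x : F} (hx : x ∈ ℂ⟮t⟯) (h0 : x ≠ 0) :
    ∃ k : ℂ →₀ ℤ, ∀ (u : Valuation F Γ) (q : ℂ), Triv u → u (t - algebraMap ℂ F q) < 1 →
      u x = u (t - algebraMap ℂ F q) ^ k q := by
  obtain ⟨c, hc, k, rfl⟩ := (rep ht x hx).resolve_left h0
  refine ⟨k, fun u q hu h => ?_⟩
  rw [map_mul, hu.eq_one hc, one_mul, Finsupp.prod,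
    v_fin hu h _ _ fun q hq => Finsupp.notMem_support_iff.1 hq]

omit [Algebra ℂ F] in
theorem exists_pos {u : Valuation F Γ} {y : F} (h0 : y ≠ 0) (h : u y < 1) :
    ∃ e : ℕ, 0 < e ∧ u y = exp (-(e : ℤ)) := by
  obtain ⟨k, hk⟩ := exists_ord (w := u) h0
  rw [hk, ← exp_zero, exp_lt_exp] at h
  refine ⟨k.toNat, by omega, ?_⟩
  rw [hk]; congr 1; omega

theorem exp_neg_lt {a : ℤ} (h : 0 < a) : (exp (-a) : Γ) < 1 := by
  rw [← exp_zero, exp_lt_exp]; omega

/-- The places over the zero of `t` are conjugate, with inertia of order the index. -/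
theorem Cov.base (h : Cov ρ t) : ∃ u0 : Valuation F Γ, Function.Surjective u0 ∧ Triv u0 ∧
    u0 t < 1 ∧ Nat.card (ine ρ u0) = minOrd t ∧ ∀ u : Valuation F Γ, Function.Surjective u →
      Triv u → u t < 1 → (∃ g, u = cv ρ u0 g) ∧ u t = exp (-(minOrd t : ℤ)) := by
  have key : ∀ u u' : Valuation F Γ, Triv u → Triv u' → u t < 1 → u' t < 1 →
      (u.comap (algebraMap ℂ⟮t⟯ F)).IsEquiv (u'.comap (algebraMap ℂ⟮t⟯ F)) := by
    intro u u' hu hu' h1 h1'
    refine Valuation.isEquiv_of_val_le_one fun x => ?_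
    by_cases hx : (x : F) = 0
    · simp [show x = 0 from Subtype.ext hx]
    obtain ⟨k, hk⟩ := val_rep h.tr x.2 hx
    have h2 : ∀ u : Valuation F Γ, Triv u → u t < 1 → (u x ≤ 1 ↔ 0 ≤ k 0) := fun u hu h1 => by
      obtain ⟨e, he, h3⟩ := exists_pos h.ne h1
      rw [hk u 0 hu (by simpa using h1), map_zero, sub_zero, h3, ← exp_zsmul, ← exp_zero,
        exp_le_exp, smul_eq_mul, mul_neg, neg_nonpos]
      exact mul_nonneg_iff_of_pos_right (by omega)
    exact (h2 u hu h1).trans (h2 u' hu' h1').symm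
  obtain ⟨e, he, u1, -, hu1, h1⟩ := exists_centre h.tr h.fixed
  have h1' : u1 t < 1 := h1 ▸ exp_neg_lt (by omega)
  let t' : ℂ⟮t⟯ := ⟨t, IntermediateField.mem_adjoin_simple_self ℂ t⟩
  have : (u1.comap (algebraMap ℂ⟮t⟯ F)).IsNontrivial :=
    isNontrivial (x := t') (fun h0 => h.ne (congrArg Subtype.val h0)) h1'.ne
  obtain ⟨v, hv, hv1⟩ := exists_norm (u1.comap (algebraMap ℂ⟮t⟯ F))
  have hvt : Triv v := fun c => hv1.le_one_iff_le_one.2 (hu1 c)
  obtain ⟨w, hw, hw1, hw2⟩ := galois_place h.inj ℂ⟮t⟯ h.fix v hv hvt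
  have hr : 0 < Nat.card (ine ρ w) := Nat.card_pos
  have hwt : Triv w := fun c => (hw1 (algebraMap ℂ _ c)).trans_le (pow_le_one' (hvt c) _)
  have hvt' : v t' < 1 := hv1.lt_one_iff_lt_one.2 h1'
  have h2 : w t < 1 := (hw1 t').trans_lt (pow_lt_one' hvt' hr.ne')
  have h3 : w t = exp (-(Nat.card (ine ρ w) : ℤ)) := by
    obtain ⟨π, hπ⟩ := hv (exp (-1))
    obtain ⟨j, hj, hj1⟩ := exists_pos (u := v) (fun h0 => h.ne (congrArg Subtype.val h0)) hvt'
    obtain ⟨k, hk⟩ := val_rep h.tr π.2 fun h0 => ne_zero_of_exp hπ (Subtype.ext h0)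
    have h4 := hk w 0 hwt (by simpa using h2)
    have h5 : w t = _ := hw1 t'
    rw [hw1, hπ, map_zero, sub_zero, h5, hj1, ← exp_nsmul, ← exp_nsmul, ← exp_zsmul,
      exp_inj] at h4
    simp only [smul_eq_mul, nsmul_eq_mul] at h4
    have h6 : k 0 * j = 1 := mul_left_cancel₀ (by omega : (Nat.card (ine ρ w) : ℤ) ≠ 0) (by
      linarith)
    have h7 : (j : ℤ) = 1 := Int.eq_one_of_mul_eq_one_left (by omega) h6
    rw [h5, hj1, h7, ← exp_nsmul]
    simp
  have h4 : ∀ u : Valuation F Γ, Function.Surjective u → Triv u → u t < 1 →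
      (∃ g, u = cv ρ w g) ∧ u t = exp (-(Nat.card (ine ρ w) : ℤ)) := fun u hu hut h5 => by
    obtain ⟨g, rfl⟩ := hw2 u hu (hv1.trans (key u1 u hu1 hut h1' h5))
    exact ⟨⟨g, rfl⟩, by rw [cv_apply, h.self, h3]⟩
  have h5 : Nat.card (ine ρ w) = minOrd t := by
    obtain ⟨he, u, hu, hut, h6⟩ : minOrd t ∈ idx t := Nat.sInf_mem ⟨_, hr, w, hw, hwt, h3⟩
    have := (h4 u hu hut (h6 ▸ exp_neg_lt (by omega))).2
    rw [h6, exp_inj] at this
    omega
  exact ⟨w, hw, hwt, h2, h5, h5 ▸ h4⟩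

theorem Cov.ram_pos (h : Cov ρ t) (p : Option ℂ) : 0 < ram t p := by
  obtain ⟨u, -, -, -, h1, -⟩ := (h.loc p).base
  rw [ram_eq, ← h1]
  exact Nat.card_pos

/-- Clearing the denominators of a function. -/
theorem Cov.bound (h : Cov ρ t) (x : F) : ∃ d ∈ ℂ⟮t⟯, d ≠ 0 ∧ ∃ c : ℕ, ∀ w : Valuation F Γ,
    Triv w → w (d * x) ≤ max 1 (w t) ^ c := by
  have h1 : ∀ a ∈ Algebra.adjoin ℂ {t}, ∃ c : ℕ, ∀ w : Valuation F Γ,
      Triv w → w a ≤ max 1 (w t) ^ c := fun a ha => by
    induction ha using Algebra.adjoin_induction with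
    | mem x hx => exact ⟨1, fun w _ => by rw [hx, pow_one]; exact le_max_right _ _⟩
    | algebraMap c => exact ⟨0, fun w hw => by rw [pow_zero]; exact hw c⟩
    | add x y _ _ hx hy =>
      obtain ⟨c, hc⟩ := hx
      obtain ⟨c', hc'⟩ := hy
      exact ⟨c + c', fun w hw => w.map_add_le
        ((hc w hw).trans (pow_le_pow_right' (le_max_left _ _) (by omega)))
        ((hc' w hw).trans (pow_le_pow_right' (le_max_left _ _) (by omega)))⟩
    | mul x y _ _ hx hy =>
      obtain ⟨c, hc⟩ := hx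
      obtain ⟨c', hc'⟩ := hy
      exact ⟨c + c', fun w hw => by
        rw [map_mul, pow_add]; exact mul_le_mul' (hc w hw) (hc' w hw)⟩
  obtain ⟨d, hd, p, hp, hp0⟩ := (IntermediateField.isAlgebraic_adjoin_iff.1
    (alg_of h.fixed x)).exists_integral_multiple
  refine ⟨d, IntermediateField.algebra_adjoin_le_adjoin ℂ _ d.2,
    fun h0 => hd (Subtype.ext h0), ?_⟩
  choose c hc using fun i => h1 _ (p.coeff i).2
  refine ⟨∑ i ∈ range p.natDegree, c i, fun w hw => ?_⟩
  by_contra hcon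
  rw [not_le] at hcon
  change _ < w (d • x) at hcon
  generalize d • x = z at hcon hp0
  have h2 : 1 ≤ max 1 (w t) := le_max_left _ _
  have h3 : 1 < w z := (one_le_pow_of_one_le' h2 _).trans_lt hcon
  rw [hp.as_sum, Polynomial.eval₂_add, Polynomial.eval₂_X_pow, Polynomial.eval₂_finsetSum,
    add_eq_zero_iff_eq_neg] at hp0
  have h4 := congrArg w hp0
  rw [Valuation.map_neg, map_pow] at h4
  refine (w.map_sum_lt (pow_ne_zero _ (zero_lt_one.trans h3).ne') fun i hi => ?_).ne' h4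
  rw [Polynomial.eval₂_mul, Polynomial.eval₂_C, Polynomial.eval₂_X_pow, map_mul, map_pow]
  have h5 : w (algebraMap _ F (p.coeff i)) < w z := ((hc i w hw).trans (pow_le_pow_right' h2
    (single_le_sum (f := c) (fun _ _ => Nat.zero_le _) hi))).trans_lt hcon
  refine (mul_lt_mul_of_pos_right h5 (pow_pos (zero_lt_one.trans h3) _)).trans_le ?_
  rw [← pow_succ']
  exact pow_le_pow_right' h3.le (mem_range.1 hi)

theorem Cov.poles (h : Cov ρ t) (x : F) : {q : ℂ | ∃ u : Valuation F Γ, Triv u ∧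
    u (t - algebraMap ℂ F q) < 1 ∧ 1 < u x}.Finite := by
  obtain ⟨d, hd, hd0, c, hc⟩ := h.bound x
  obtain ⟨k, hk⟩ := val_rep h.tr hd hd0
  refine k.support.finite_toSet.subset ?_
  rintro q ⟨u, hu, h1, h2⟩
  by_contra h3
  have h4 := hc u hu
  have h5 : u t ≤ 1 := by simpa using u.map_add_le h1.le (hu q)
  rw [map_mul, hk u q hu h1, Finsupp.notMem_support_iff.1 h3, zpow_zero, one_mul,
    max_eq_left h5, one_pow] at h4
  exact absurd h2 (not_lt.2 h4)

theorem Cov.finite_branch (h : Cov ρ t) : {p | 2 ≤ ram t p}.Finite := by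
  have h1 : ∀ g : G, ∃ b, g ≠ 1 → ρ g b - b ≠ 0 := fun g => by
    by_contra hc
    push Not at hc
    exact (hc 0).1 (h.inj (AlgEquiv.ext fun b => by simpa using sub_eq_zero.1 (hc b).2))
  choose b hb using h1
  refine (((Set.finite_iUnion fun g => (h.poles (b g)).union
    (h.poles (ρ g (b g) - b g)⁻¹)).image some).insert none).subset ?_
  rintro (_ | q) hq
  · exact Or.inl rfl
  refine Or.inr ⟨q, ?_, rfl⟩
  obtain ⟨u, -, hu, h2, h3, -⟩ := (h.loc (some q)).base
  have : Nontrivial (ine ρ u) := Finite.one_lt_card_iff_nontrivial.1 (h3 ▸ hq)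
  obtain ⟨g, hg⟩ := exists_ne (1 : ine ρ u)
  refine Set.mem_iUnion.2 ⟨g, ?_⟩
  by_cases h4 : 1 < u (b g)
  · exact Or.inl ⟨u, hu, h2, h4⟩
  · refine Or.inr ⟨u, hu, h2, ?_⟩
    rw [map_inv₀, one_lt_inv₀ (zero_lt_iff.2 ((u.ne_zero_iff).2 (hb g fun e =>
      hg (Subtype.ext e))))]
    exact g.2 _ (not_lt.1 h4)

theorem Cov.const (h : Cov ρ t) {δ : Derivation ℂ F F} (hδ : δ t = 1) {x : F} (hx : δ x = 0) :
    ∃ c : ℂ, algebraMap ℂ F c = x := by
  by_cases h1 : IsAlgebraic ℂ x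
  · obtain ⟨c, hc⟩ := IsAlgClosed.algebraMap_bijective_of_isIntegral (k := ℂ)
      (K := algebraicClosure ℂ F) |>.2 ⟨x, mem_algebraicClosure_iff.2 h1⟩
    exact ⟨c, congrArg Subtype.val hc⟩
  · obtain ⟨D', hD'⟩ := exists_der (fun _ : Unit => x) (algebraicIndependent_unique_type_iff.2 h1)
      (fun _ => 1)
    have h4 := der_zero (D' - (D' t) • δ) {t} (by
      rintro _ rfl
      simp [hδ]) (alg_of h.fixed x)
    simp [hx, hD' ()] at h4

/-- Many independent functions with poles only at the poles of `t`. -/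
theorem Cov.sections (h : Cov ρ t) : ∃ c : ℕ, ∀ d : ℕ, ∃ f : Fin d × Fin (Nat.card G) → F,
    LinearIndependent ℂ f ∧ ∀ i (w : Valuation F Γ), Triv w → w (f i) ≤ max 1 (w t) ^ (d + c) := by
  have h1 : Module.finrank ℂ⟮t⟯ F = Nat.card G := by
    have := Fintype.ofFinite ρ.range
    rw [← h.fixed, Nat.card_congr (ρ.ofInjective h.inj).toEquiv, Nat.card_eq_fintype_card]
    exact FixedPoints.finrank_eq_card ρ.range F
  have := fin_fixed (H := ρ.range)
  rw [h.fixed] at this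
  let ω := Module.finBasisOfFinrankEq ℂ⟮t⟯ F h1
  choose d hd hd0 c hc using fun k => h.bound (ω k)
  refine ⟨∑ k, c k, fun n => ⟨fun i => t ^ (i.1 : ℕ) * (d i.2 * ω i.2), ?_, fun i w hw => ?_⟩⟩
  · let t' : ℂ⟮t⟯ := ⟨t, IntermediateField.mem_adjoin_simple_self ℂ t⟩
    have h2 : LinearIndependent ℂ fun i : Fin n => t' ^ (i : ℕ) := by
      refine LinearIndependent.of_comp ℂ⟮t⟯.val.toLinearMap ?_
      have := (Polynomial.basisMonomials ℂ).linearIndependent.map'
        (Polynomial.aeval t).toLinearMap (LinearMap.ker_eq_bot.2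
          (transcendental_iff_injective.1 h.tr))
      have h3 := this.comp (fun i : Fin n => (i : ℕ)) Fin.val_injective
      simpa [Function.comp_def, t'] using h3
    exact linearIndependent_smul h2 (ω.linearIndependent.units_smul fun k =>
      Units.mk0 (⟨d k, hd k⟩ : ℂ⟮t⟯) fun e => hd0 k (congrArg Subtype.val e))
  · rw [map_mul, map_pow, pow_add]
    exact mul_le_mul' ((pow_le_pow_left' (le_max_right _ _) _).trans
      (pow_le_pow_right' (le_max_left _ _) i.1.2.le)) ((hc _ w hw).trans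
        (pow_le_pow_right' (le_max_left _ _)
          (single_le_sum (f := c) (fun _ _ => Nat.zero_le _) (mem_univ _))))

theorem Cov.taylor (h : Cov ρ t) {u : Valuation F Γ} (hu : Triv u) (h1 : u t < 1) {π : F}
    (hπ : u π = exp (-1)) (f : F) : ∃ τ : ℕ → ℂ, u f ≤ 1 → ∀ B : ℕ, ∃ z, u z ≤ 1 ∧
      f = ∑ m ∈ range B, algebraMap ℂ F (τ m) * π ^ m + z * π ^ B := by
  have hπ0 := ne_zero_of_exp hπ
  have h2 : ∀ z : F, ∃ c : ℂ, u z ≤ 1 → u ((z - algebraMap ℂ F c) / π) ≤ 1 := fun z => by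
    by_cases hz : u z ≤ 1
    · obtain ⟨c, hc⟩ := residue h.fixed hu h.ne h1 hz
      refine ⟨c, fun _ => ?_⟩
      rw [map_div₀, hπ]
      refine div_le_one_of_le₀ ?_ zero_le
      by_cases h0 : z - algebraMap ℂ F c = 0
      · simp [h0]
      · obtain ⟨e, he, hk⟩ := exists_pos h0 hc
        rw [hk, exp_le_exp]; omega
    · exact ⟨0, fun h => absurd h hz⟩
  choose c hc using h2
  let s : F → F := fun z => (z - algebraMap ℂ F (c z)) / π
  refine ⟨fun m => c (s^[m] f), fun hf B => ⟨s^[B] f, ?_, ?_⟩⟩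
  · induction B with
    | zero => exact hf
    | succ B ih => rw [Function.iterate_succ_apply']; exact hc _ ih
  · induction B with
    | zero => simp
    | succ B ih =>
      rw [Function.iterate_succ_apply', sum_range_succ, add_assoc]
      refine ih.trans ?_
      congr 1
      simp only [s]
      field_simp
      ring

end Pool.Agent.Lib.MP_813db1_ag.PQ
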