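import Pool.Agent.Lib.MP_813db1_ag.VA3

/-! Counting places with a given rotation, forms on the line, and independence of products. -/

namespace Pool.Agent.Lib.MP_813db1_ag.PQ

open WithZero Finset
open scoped IntermediateField

variable {F : Type} [Field F] [Algebra ℂ F] {G : Type} [Group G]
  {ρ : G →* (F ≃ₐ[ℂ] F)} {t : F}

theorem Cov.norm [Finite G] (h : Cov ρ t) {w : Valuation F Γ} (hw : Triv w) {a : ℤ} (ha : 0 < a)
    (hp : w t = exp (-a)) : ∃ u : Valuation F Γ, Function.Surjective u ∧ Triv u ∧ u t < 1 ∧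
      u.IsEquiv w ∧ ∃ α : ℤ, 0 < α ∧ a = minOrd t * α ∧
        (∀ x k, u x = exp (-k) → w x = exp (-(k * α))) ∧ ∀ g c, c ≠ 0 → Rot ρ w g c →
          Rot ρ u g (c ^ α) ∧ orderOf g ∣ minOrd t := by
  have h1 : w t < 1 := hp ▸ exp_neg_lt ha
  have : w.IsNontrivial := isNontrivial h.ne h1.ne
  obtain ⟨u, hu, he⟩ := exists_norm w
  have hut : Triv u := fun c => he.le_one_iff_le_one.2 (hw c)
  have h2 : u t < 1 := he.lt_one_iff_lt_one.2 h1
  obtain ⟨π, hπ⟩ := hu (exp (-1))
  obtain ⟨α, hα, h3⟩ := exists_pos (u := w) (ne_zero_of_exp hπ)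
    (he.lt_one_iff_lt_one.1 (hπ ▸ exp_neg_lt one_pos))
  have key : ∀ x (k : ℤ), u x = exp (-k) → w x = exp (-(k * α)) := fun y k hk => by
    have h1 : u y = u (π ^ k) := by
      rw [hk, map_zpow₀, hπ, ← exp_zsmul]; simp
    rw [he.eq_iff.1 h1, map_zpow₀, h3, ← exp_zsmul]; simp
  obtain ⟨u0, -, -, -, -, h4⟩ := h.base
  have h5 := (h4 u hu hut h2).2
  refine ⟨u, hu, hut, h2, he, α, by omega, ?_, key, fun g c hc hg => ?_⟩
  · have := key t _ h5
    rw [hp, exp_inj] at this
    omega
  · have h6 : Rot ρ u g (c ^ (α : ℤ)) := fun y k hk => by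
      rw [he.lt_iff_lt, ← zpow_mul, mul_comm (α : ℤ)]
      exact hg y _ (key y k hk)
    refine ⟨h6, orderOf_dvd_of_pow_eq_one ?_⟩
    have h7 := h6 t _ h5
    have h8 := h6.pow hut (zpow_ne_zero _ hc) (minOrd t)
    have h9 : (c ^ (α : ℤ)) ^ minOrd t = 1 := by
      by_contra hne
      rw [h.self, zpow_natCast, ← one_sub_mul, ← map_one (algebraMap ℂ F), ← map_sub, map_mul,
        hut.eq_one (sub_ne_zero.2 (Ne.symm hne)), one_mul] at h7
      exact lt_irrefl _ h7
    rw [h9] at h8
    exact h8.eq_one h.inj hut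

section Count

variable [Fintype G] (ρ) (u : Valuation F Γ) (c : ℂ) (g : G)

open Classical in
/-- The translates of a place at which `g` rotates by `c`. -/
noncomputable def SS : Finset G := univ.filter fun h => Rot ρ (cv ρ u h) g c

open Classical in
/-- The conjugate places at which `g` rotates by `c`. -/
noncomputable def AA : Finset (Valuation F Γ) := (SS ρ u c g).image (cv ρ u)

variable {ρ u c}

theorem card_AA (hs : Function.Surjective u) :
    Nat.card (ine ρ u) * (AA ρ u c g).card ≤ (SS ρ u c g).card := by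
  classical
  refine mul_card_image_le_card _ _ fun b hb => ?_
  obtain ⟨h, hh, rfl⟩ := mem_image.1 hb
  rw [Nat.card_eq_fintype_card, ← card_univ]
  refine card_le_card_of_injOn (fun k => (k : G) * h) (fun k _ => ?_)
    fun a _ b _ e => Subtype.ext (mul_right_cancel e)
  have e : cv ρ u (k * h) = cv ρ u h := by rw [← cv_mul, Inert.map_eq k.2 hs]
  simp only [SS, coe_filter, mem_filter, mem_univ, true_and, Set.mem_ofPred_eq, e, and_true] at hh ⊢
  exact hh

theorem card_SS (hρ : Function.Injective ρ) (hs : Function.Surjective u) (hu : Triv u)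
    (hc : c ≠ 0) : (SS ρ u c g).card * (Subgroup.centralizer {g}).index ≤ Fintype.card G := by
  classical
  rw [← Nat.card_eq_fintype_card, ← (Subgroup.centralizer {g}).card_mul_index]
  refine Nat.mul_le_mul_right _ ?_
  rcases (SS ρ u c g).eq_empty_or_nonempty with h | ⟨h0, hh0⟩
  · simp [h]
  rw [Nat.card_eq_fintype_card, Fintype.card_subtype]
  refine card_le_card_of_injOn (fun h => h0⁻¹ * h) (fun h hh => ?_)
    fun a _ b _ e => mul_left_cancel e
  have e := (rot_cv.1 (mem_filter.1 hh).2).uniq' hρ (rot_cv.1 (mem_filter.1 hh0).2) hu hs hc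
  simp only [coe_filter, mem_univ, true_and, Set.mem_ofPred_eq, Subgroup.mem_centralizer_singleton_iff]
  calc h0⁻¹ * h * g = h0⁻¹ * (h * g * h⁻¹) * h := by group
    _ = _ := by rw [e]; group

theorem sum_SS (hρ : Function.Injective ρ) (hs : Function.Surjective u) (hu : Triv u)
    (hc : c ≠ 0) : ∑ g, (SS ρ u c g).card ≤ Fintype.card G := by
  classical
  rw [← card_biUnion fun a _ b _ hab => disjoint_left.2 fun h ha hb => hab
    ((mem_filter.1 ha).2.uniq' hρ (mem_filter.1 hb).2 (cv_triv hu h) (cv_surj hs h) hc)]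
  exact card_le_univ _

end Count

/-- Lattice points in a simplex. -/
theorem simplex (B : ℕ) : ∀ (n : ℕ) (a : Fin n → ℝ), (∀ i, 0 < a i) → ∀ R : ℝ, 0 ≤ R →
    (((Fintype.piFinset fun _ : Fin n => range B).filter fun m => ∑ i, m i * a i < R).card : ℝ) *
      (n.factorial * ∏ i, a i) ≤ (R + ∑ i, a i) ^ n := by
  intro n
  induction n with
  | zero =>
    intro a _ R _
    simp only [Nat.factorial_zero, Nat.cast_one, univ_eq_empty, prod_empty, mul_one, pow_zero]
    exact_mod_cast (card_le_univ _).trans_eq (by simp)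
  | succ n ih =>
    intro a ha R hR
    have hS : 0 ≤ ∑ i : Fin n, a i.succ := sum_nonneg fun i _ => (ha _).le
    set S := ∑ i : Fin n, a i.succ with hSd
    let g : ℕ → ℝ := fun m => max (R + S + a 0 - m * a 0) 0 ^ (n + 1)
    have h1 : ((Fintype.piFinset fun _ : Fin (n + 1) => range B).filter
        fun m => ∑ i, m i * a i < R).card = ∑ k ∈ range B, ((Fintype.piFinset fun _ : Fin n =>
          range B).filter fun m => ∑ i, m i * a i.succ < R - k * a 0).card := by
      rw [← card_sigma]
      refine card_bij' (fun m _ => ⟨m 0, fun i => m i.succ⟩) (fun x _ => Fin.cons x.1 x.2)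
        (fun m hm => ?_) (fun x hx => ?_) (fun m _ => Fin.cons_self_tail m) fun x _ => by simp
      · simp only [mem_filter, Fintype.mem_piFinset, mem_sigma, Fin.sum_univ_succ] at hm ⊢
        exact ⟨hm.1 0, fun i => hm.1 _, by linarith [hm.2]⟩
      · simp only [mem_filter, Fintype.mem_piFinset, mem_sigma, Fin.sum_univ_succ,
          Fin.forall_fin_succ, Fin.cons_zero, Fin.cons_succ] at hx ⊢
        exact ⟨⟨hx.1, hx.2.1⟩, by linarith [hx.2.2]⟩
    rw [h1, Nat.cast_sum, sum_mul, Fin.sum_univ_succ, ← hSd]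
    refine (sum_le_sum (g := fun k => g k - g (k + 1)) fun k _ => ?_).trans ?_
    · have h0 := ha 0
      by_cases hk : R - k * a 0 < 0
      · rw [filter_eq_empty_iff.2 fun m _ => not_lt.2 (hk.le.trans
          (sum_nonneg fun i _ => mul_nonneg (Nat.cast_nonneg _) (ha _).le))]
        simp only [card_empty, Nat.cast_zero, zero_mul, sub_nonneg, g]
        refine pow_le_pow_left₀ (le_max_right _ _) (max_le_max_right _ ?_) _
        push_cast
        linarith
      · rw [not_lt] at hk
        have h2 := ih (fun i => a i.succ) (fun i => ha _) _ hk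
        have h3 : 0 ≤ R - k * a 0 + S := add_nonneg hk hS
        have h5 : g k - g (k + 1) = (R - k * a 0 + S + a 0) ^ (n + 1) -
            (R - k * a 0 + S) ^ (n + 1) := by
          simp only [g]
          rw [max_eq_left (by linarith), max_eq_left (by push_cast; linarith)]
          push_cast
          ring
        have h6 := pow_add_mul_le_add_pow h3 (by linarith : 0 ≤ 2 * (R - k * a 0 + S) + a 0) (n + 1)
        rw [h5, Fin.prod_univ_succ, Nat.factorial_succ]
        rw [Nat.add_sub_cancel] at h6
        have h7 := mul_le_mul_of_nonneg_left h2 (by positivity : 0 ≤ ((n + 1 : ℕ) : ℝ) * a 0)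
        rw [← hSd] at h7
        push_cast at h6 h7 ⊢
        linarith
    · rw [sum_range_sub']
      simp only [g]
      rw [Nat.cast_zero, zero_mul, sub_zero, max_eq_left (by linarith [ha 0]), sub_le_iff_le_add,
        add_assoc, add_comm S]
      exact le_add_of_nonneg_right (pow_nonneg (le_max_right _ _) _)

theorem indep_const (E : IntermediateField ℂ F) (D : Derivation ℂ F F) (h1 : ∀ x ∈ E, D x ∈ E)
    (h2 : ∀ x ∈ E, D x = 0 → ∃ c, algebraMap ℂ F c = x) {ι : Type} (P : ι → F)
    (hP : ∀ i, D (P i) = 0) (h : LinearIndependent ℂ P) : LinearIndependent E P := by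
  classical
  have key : ∀ (s : Finset ι) (g : ι → F), (∀ i, g i ∈ E) → ∑ i ∈ s, g i * P i = 0 →
      ∀ i ∈ s, g i = 0 := by
    intro s
    induction s using Finset.induction_on with
    | empty => simp
    | insert a s ha ih =>
      intro g hg h0
      by_cases h3 : g a = 0
      · rw [sum_insert ha, h3, zero_mul, zero_add] at h0
        exact forall_mem_insert _ _ _ |>.2 ⟨h3, ih g hg h0⟩
      · exfalso
        have h4 : ∑ i ∈ insert a s, g i / g a * P i = 0 := by
          simp only [div_mul_eq_mul_div, ← sum_div, h0, zero_div]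
        have h5 := congrArg D h4
        rw [sum_insert ha, div_self h3, one_mul, map_add, hP, zero_add, map_sum, map_zero] at h5
        simp only [Derivation.leibniz, hP, smul_eq_mul, mul_zero, zero_add, mul_comm (P _)] at h5
        have h6 := ih _ (fun i => h1 _ (div_mem (hg i) (hg a))) h5
        have h7 : ∀ i, ∃ c, i ∈ insert a s → algebraMap ℂ F c = g i / g a := fun i => by
          by_cases hi : i ∈ s
          · exact (h2 _ (div_mem (hg i) (hg a)) (h6 i hi)).imp fun c hc _ => hc
          · refine ⟨1, fun h8 => ?_⟩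
            rw [(mem_insert.1 h8).resolve_right hi, div_self h3, map_one]
        choose c hc using h7
        have h8 := linearIndependent_iff'.1 h (insert a s) c (by
          rw [← h4]
          exact sum_congr rfl fun i hi => by rw [Algebra.smul_def, hc i hi]) a (mem_insert_self _ _)
        have h9 := hc a (mem_insert_self _ _)
        rw [h8, map_zero, div_self h3] at h9
        exact zero_ne_one h9
  exact linearIndependent_iff'.2 fun s g hg i hi =>
    Subtype.ext (key s (fun i => g i) (fun i => (g i).2) hg i hi)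

theorem indep_prod : ∀ (n : ℕ) (E : Fin n → IntermediateField ℂ F) (D : Fin n → Derivation ℂ F F)
    (ι : Fin n → Type) (f : ∀ a, ι a → E a), (∀ a, ∀ x ∈ E a, D a x ∈ E a) →
    (∀ a, ∀ x ∈ E a, D a x = 0 → ∃ c, algebraMap ℂ F c = x) →
    (∀ a b, a ≠ b → ∀ x ∈ E b, D a x = 0) → (∀ a, LinearIndependent ℂ (f a)) →
    LinearIndependent ℂ fun i : ∀ a, ι a => ∏ a, (f a (i a) : F) := by
  intro n
  induction n with
  | zero =>
    intro E D ι f _ _ _ _
    simp
  | succ n ih =>
    intro E D ι f h1 h2 h3 h4
    have h5 := ih (fun a => E a.succ) (fun a => D a.succ) (fun a => ι a.succ) (fun a => f a.succ)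
      (fun a => h1 _) (fun a => h2 _) (fun a b hab => h3 _ _ fun e => hab (Fin.succ_injective _ e))
      fun a => h4 _
    have h6 := linearIndependent_smul (h4 0) (indep_const (E 0) (D 0) (h1 0) (h2 0) _ (fun i =>
      prod_induction _ (fun x => D 0 x = 0) (fun x y hx hy => by simp [hx, hy]) (D 0).map_one_eq_zero
        fun a _ => h3 _ _ (Fin.succ_ne_zero a).symm _ (f a.succ (i a)).2) h5)
    rw [← linearIndependent_equiv (Fin.consEquiv ι)]
    convert h6 using 2 with i
    simp [Fin.prod_univ_succ, Fin.consEquiv, IntermediateField.smul_def]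

end Pool.Agent.Lib.MP_813db1_ag.PQ
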