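import Pool.Agent.Lib.MP_813db1_ag.VA4

/-! Forms on the line with larger poles at the points of large index. -/

namespace Pool.Agent.Lib.MP_813db1_ag.PQ

open WithZero Finset
open scoped IntermediateField

variable {F : Type} [Field F] [Algebra ℂ F] {G : Type} [Group G]
  {ρ : G →* (F ≃ₐ[ℂ] F)} {t : F}

theorem val_prod {w : Valuation F Γ} (hw : Triv w) {p : Option ℂ} {a : ℤ} (ha : 0 < a)
    (hp : w (yy t p) = exp (-a)) (T : Finset ℂ) (k : ℂ → ℤ) (hk : ∀ q ∉ T, k q = 0) :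
    w (∏ q ∈ T, (t - algebraMap ℂ F q) ^ k q) = exp (-(a * p.elim (-∑ q ∈ T, k q) k)) := by
  rcases p with _ | q
  · rw [v_inf hw ha (by rw [← inv_inj, ← map_inv₀, ← exp_neg]; exact hp)]
    simp
  · have hp' : w (t - algebraMap ℂ F q) = exp (-a) := hp
    rw [v_fin hw (hp' ▸ exp_neg_lt ha) _ _ hk, hp', ← exp_zsmul]
    simp [mul_comm]

theorem val_sub {w : Valuation F Γ} (hw : Triv w) {p : Option ℂ} {a : ℤ} (ha : 0 < a)
    (hp : w (yy t p) = exp (-a)) (q : ℂ) : w (t - algebraMap ℂ F q) =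
      exp (-(a * p.elim (-1) fun q' => if q' = q then 1 else 0)) := by
  classical
  simpa using val_prod hw ha hp {q} (fun q' => if q' = q then 1 else 0) fun _ h =>
    if_neg (by simpa using h)

theorem tri_or {w : Valuation F Γ} (hw : Triv w) (ht : Transcendental ℂ t) :
    (∀ q, w (t - algebraMap ℂ F q) = 1) ∨ ∃ p, ∃ a : ℕ, 0 < a ∧ w (yy t p) = exp (-(a : ℤ)) := by
  have ht0 : t ≠ 0 := by simpa using sub_ne ht 0
  by_cases h1 : 1 < w t
  · exact Or.inr ⟨none, exists_pos (inv_ne_zero ht0)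
      (by rw [yy, map_inv₀]; exact inv_lt_one_of_one_lt₀ h1)⟩
  by_cases h2 : ∃ q, w (t - algebraMap ℂ F q) < 1
  · exact h2.elim fun q hq => Or.inr ⟨some q, exists_pos (sub_ne ht q) hq⟩
  · push Not at h1 h2
    exact Or.inl fun q => le_antisymm (w.map_sub_le h1 (hw q)) (h2 q)

theorem Cov.phi [Finite G] (h : Cov ρ t) (D : Fin 1 → Derivation ℂ F F) (hD : QEffective D) :
    ∃ N0 : ℕ, 0 < N0 ∧ ∀ N : ℕ, N0 ∣ N → ∀ (B : Finset (Option ℂ)) (q0 : ℂ) (x y : ℕ),
      some q0 ∉ B → ((x + y : ℕ) : ℚ) ≤ N * weight t → (∀ p ∈ B, N ≤ ram t p * x) →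
      ∃ φ ∈ ℂ⟮t⟯, φ ≠ 0 ∧ ∃ X : Option ℂ → ℤ, (∀ p, (N : ℤ) ≤ ram t p * X p) ∧
        (∀ p ∈ B, (x : ℤ) ≤ X p) ∧ ∀ w : Valuation F Γ, Triv w → ∀ p (a : ℤ), 0 < a →
          w (yy t p) = exp (-a) → w φ * max 1 (w (t - algebraMap ℂ F q0)⁻¹) ^ (y * B.card) ≤
            w (t - algebraMap ℂ F (p.getD 0))⁻¹ ^ N * exp (-(a * X p)) := by
  classical
  obtain ⟨δ, hδ⟩ := exists_der (fun _ : Unit => t) (algebraicIndependent_unique_type_iff.2 h.tr)
    (fun _ => 1)
  obtain ⟨N0, hN0, hN⟩ := curve h.tr h.fixed D hD δ (hδ ())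
  refine ⟨N0, hN0, fun N hdvd B q0 x y hq0 hxy hB => ?_⟩
  obtain ⟨T, k, hk0, hk1, hk2, hreg⟩ := hN N hdvd
  have hlg : ∀ w : Valuation F Γ, Triv w → ∀ p (a : ℤ), 0 < a → w (yy t p) = exp (-a) →
      w (t - algebraMap ℂ F (p.getD 0))⁻¹ = exp (a * p.elim (-1) fun _ => 1) :=
    fun w hw p a ha hp => by
      rw [map_inv₀, val_sub hw ha hp, ← exp_neg, neg_neg]
      cases p <;> simp
  let X0 : Option ℂ → ℤ := fun p => p.elim (-∑ q ∈ T, k q - N) fun q => k q + N
  have h1 : ∀ p, (x : ℤ) + y ≤ X0 p := fun p => by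
    have h2 : (x : ℤ) + y ≤ ⌈(N : ℚ) * weight t⌉ := by
      exact_mod_cast hxy.trans (Int.le_ceil _)
    rcases p with _ | q
    · exact h2.trans (by simp only [X0, Option.elim]; linarith)
    · exact h2.trans (by simp only [X0, Option.elim]; linarith [hk1 q])
  have h2 : ∀ p, (N : ℤ) ≤ ram t p * X0 p := fun p => by
    obtain ⟨u, hu, hut, h3, -, h4⟩ := (h.loc p).base
    have h5 := (h4 u hu hut h3).2
    rw [← ram_eq] at h5
    have he := h.ram_pos p
    obtain ⟨b, hb, hb1⟩ := hreg u hu hut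
    obtain ⟨π, -, h6, h7⟩ := local_curve (h.loc p).fixed hu hut he h5 δ
    have h8 := hb1.trans (pow_le_pow_left' ((h7 b hb).trans_eq h6) N)
    rw [val_prod hut (by omega) h5 _ _ hk0] at h8
    rcases p with _ | q
    · have h9 : δ (yy t none) = -(yy t none ^ 2) := by
        rw [yy, Derivation.leibniz_inv, hδ ()]; simp
      rw [h9, Valuation.map_neg, map_pow, h5, ← exp_nsmul, ← exp_add, ← exp_nsmul,
        exp_le_exp] at h8
      simp only [X0, Option.elim, nsmul_eq_mul] at h8 ⊢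
      push_cast at h8
      linarith
    · have h9 : δ (yy t (some q)) = 1 := by simp [yy, hδ ()]
      rw [h9, map_one, one_mul, ← exp_nsmul, exp_le_exp] at h8
      simp only [X0, Option.elim, nsmul_eq_mul] at h8 ⊢
      linarith
  have hmem : ∀ q, t - algebraMap ℂ F q ∈ ℂ⟮t⟯ := fun q =>
    sub_mem (IntermediateField.mem_adjoin_simple_self ℂ t) (algebraMap_mem _ q)
  refine ⟨(∏ q ∈ T, (t - algebraMap ℂ F q) ^ k q) * (∏ q ∈ eraseNone B, (t - algebraMap ℂ F q) ^
    (if some q ∈ B then -(y : ℤ) else 0)) * (t - algebraMap ℂ F q0) ^ (y * B.card),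
    mul_mem (mul_mem (prod_mem fun q _ => zpow_mem (hmem q) _)
      (prod_mem fun q _ => zpow_mem (hmem q) _)) (pow_mem (hmem _) _),
    mul_ne_zero (mul_ne_zero (prod_ne_zero_iff.2 fun q _ => zpow_ne_zero _ (sub_ne h.tr q))
      (prod_ne_zero_iff.2 fun q _ => zpow_ne_zero _ (sub_ne h.tr q)))
      (pow_ne_zero _ (sub_ne h.tr _)),
    fun p => X0 p - if p ∈ B then (y : ℤ) else 0, fun p => ?_, fun p hp => ?_,
    fun w hw p a ha hp => ?_⟩
  · dsimp only
    split_ifs with h3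
    · have h4 : (N : ℤ) ≤ ram t p * x := by exact_mod_cast hB p h3
      exact h4.trans (mul_le_mul_of_nonneg_left (by linarith [h1 p]) (by omega))
    · simpa using h2 p
  · dsimp only
    rw [if_pos hp]
    linarith [h1 p]
  · rw [map_mul, map_mul, val_prod hw ha hp _ _ hk0, val_prod hw ha hp _ _ fun q hq =>
      if_neg fun h3 => hq (mem_eraseNone.2 h3), hlg w hw p a ha hp, map_pow, mul_assoc,
      ← mul_pow, map_inv₀, val_sub hw ha hp q0]
    rcases p with _ | q
    · have h3 : (B.card : ℤ) = (eraseNone B).card + if none ∈ B then 1 else 0 := by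
        split_ifs with h4
        · exact_mod_cast (card_eraseNone_of_mem h4 ▸ by
            have := card_pos.2 ⟨_, h4⟩; omega : B.card = (eraseNone B).card + 1)
        · rw [card_eraseNone_of_not_mem h4, add_zero]
      rw [max_eq_left (by rw [← exp_neg, ← exp_zero, exp_le_exp]; simp; omega), mul_one,
        sum_congr rfl fun q hq => if_pos (mem_eraseNone.1 hq), ← exp_nsmul, ← exp_nsmul,
        ← exp_add, ← exp_add, ← exp_add, exp_le_exp]
      simp only [X0, Option.elim, nsmul_eq_mul, sum_const]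
      push_cast
      rw [h3]
      split_ifs <;> linarith
    · have h3 : exp (-(a * if q = q0 then 1 else 0)) *
          max 1 (exp (-(a * if q = q0 then 1 else 0)) : Γ)⁻¹ = 1 := by
        rw [max_eq_right, mul_inv_cancel₀ exp_ne_zero]
        rw [← exp_neg, ← exp_zero, exp_le_exp]
        split_ifs <;> omega
      simp only [X0, Option.elim]
      rw [h3, one_pow, mul_one, ← exp_nsmul, ← exp_add, ← exp_add, exp_le_exp]
      simp only [nsmul_eq_mul]
      split_ifs <;> linarith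

end Pool.Agent.Lib.MP_813db1_ag.PQ
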