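import Pool.Agent.Lib.MP_813db1_ag.VA6

/-! The two volume inequalities, by evaluation. -/

namespace Pool.Agent.Lib.MP_813db1_ag.PQ

open Finset

theorem vol7 : ∀ τ : Fin 4 → Bool, τ 0 → Vol (fun a => if τ a then 600 else 966)
    (fun a => if τ a then 100 else 84) fun _ => 19 := by
  unfold Vol
  decide +kernel

theorem vol8 : ∀ τ : Fin 4 → Bool, τ 0 → Vol (fun a => if τ a then 525 else 966)
    (fun a => if τ a then 175 else 84) fun j => if ∃ a, τ a ∧ j a = 1 then 12 else 1 := by
  unfold Vol
  decide +kernel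

end Pool.Agent.Lib.MP_813db1_ag.PQ
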