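import Pool.Agent.Lib.MP_813db1_ag.VA7
import Pool.Agent.Lib.MP_813db1_ag.VA8

/-! Product-quotients with a faithful diagonal action have a pluricanonical form. -/

namespace Pool.Agent.Lib.MP_813db1_ag.PQ

open WithZero Finset
open scoped IntermediateField

variable {L : Type} [Field L] [Algebra ℂ L] {G : Subgroup (L ≃ₐ[ℂ] L)}

theorem factor' (E : IntermediateField ℂ L) (s : E) (hs : Transcendental ℂ s)
    (hC : ∀ g ∈ G, ∀ x ∈ E, g x ∈ E) (hq : E ⊓ IntermediateField.fixedField G = ℂ⟮(s : L)⟯)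
    (hf : ∀ g ∈ G, (∀ x ∈ E, g x = x) → g = 1) :
    ∃ ρ : G →* (E ≃ₐ[ℂ] E), (∀ g x, (ρ g x : L) = G.subtype g x) ∧ Cov ρ s := by
  let r : G → (E ≃ₐ[ℂ] E) := fun g =>
    { toFun := fun x => ⟨(g : L ≃ₐ[ℂ] L) x, hC g g.2 x x.2⟩
      invFun := fun x => ⟨(g : L ≃ₐ[ℂ] L)⁻¹ x, hC _ (G.inv_mem g.2) x x.2⟩
      left_inv := fun x => Subtype.ext ((g : L ≃ₐ[ℂ] L).symm_apply_apply x)
      right_inv := fun x => Subtype.ext ((g : L ≃ₐ[ℂ] L).apply_symm_apply x)
      map_mul' := fun x y => Subtype.ext (map_mul (g : L ≃ₐ[ℂ] L) (x : L) y)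
      map_add' := fun x y => Subtype.ext (map_add (g : L ≃ₐ[ℂ] L) (x : L) y)
      commutes' := fun c => Subtype.ext ((g : L ≃ₐ[ℂ] L).commutes c) }
  let ρ : G →* (E ≃ₐ[ℂ] E) := MonoidHom.mk' r fun _ _ => rfl
  refine ⟨ρ, fun _ _ => rfl, (injective_iff_map_eq_one ρ).2 fun g hg => Subtype.ext
    (hf g g.2 fun x hx => congrArg Subtype.val (AlgEquiv.congr_fun hg ⟨x, hx⟩)), hs, fun x => ?_⟩
  rw [← IntermediateField.mem_lift x (E := ℂ⟮s⟯), IntermediateField.lift_adjoin_simple, ← hq,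
    IntermediateField.mem_inf, IntermediateField.mem_fixedField_iff]
  exact ⟨fun h g => Subtype.ext (h.2 g g.2),
    fun h => ⟨x.2, fun g hg => congrArg Subtype.val (h ⟨g, hg⟩)⟩⟩

theorem core [Finite G] {n : ℕ} (hn : 4 ≤ n) (C : Fin n → IntermediateField ℂ L) (tC : ∀ i, C i)
    (ht : AlgebraicIndependent ℂ fun i => (tC i : L)) (hL : ⨆ i, C i = ⊤)
    (ρC : ∀ i, G →* (C i ≃ₐ[ℂ] C i)) (hρC : ∀ i g x, (ρC i g x : L) = G.subtype g x)
    (hc : ∀ i, Cov (ρC i) (tC i))
    (hκ : ∀ i, ∃ D : Fin 1 → Derivation ℂ (C i) (C i), QEffective D)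
    (σ : Fin 4 → Fin n) (hσ : Function.Injective σ) (ξ η : Fin n → ℕ) (I : (Fin 4 → ℕ) → ℕ)
    (hI0 : ∀ j, 0 < I j) (hξ : ∀ i, 525 ≤ ξ i)
    (hwt : ∀ i, ((ξ i + η i : ℕ) : ℚ) ≤ 4200 * weight (tC i))
    (he : ∀ i p, 5 ≤ ram (tC i) p → 4200 ≤ ram (tC i) p * ξ i)
    (hI : ∀ (j : Fin 4 → ℕ) (g : G) (p : Fin 4 → Option ℂ)
      (u : ∀ a, Valuation (C (σ a)) Γ), 5 ≤ orderOf g → (∀ a, Function.Surjective (u a) ∧
        Triv (u a) ∧ orderOf g ∣ ram (tC (σ a)) (p a) ∧
        Rot (ρC (σ a)) (u a) g (zt (j a) (ram (tC (σ a)) (p a)))) →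
      I j ≤ (Subgroup.centralizer {g}).index) (hV : Vol (fun a => ξ (σ a)) (fun a => η (σ a)) I)
    (D : Fin n → Derivation ℂ (IntermediateField.fixedField G) (IntermediateField.fixedField G))
    (hD : LinearIndependent (IntermediateField.fixedField G) D) : QEffective D := by
  classical
  have := Fintype.ofFinite G
  let K := IntermediateField.fixedField G
  have hK : ∀ x, x ∈ K ↔ ∀ g, G.subtype g x = x := fun x =>
    (IntermediateField.mem_fixedField_iff G x).trans ⟨fun h g => h g g.2, fun h g hg => h ⟨g, hg⟩⟩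
  let t : Fin n → L := fun i => tC i
  let tK : Fin n → K := fun i => ⟨t i, (hK _).2 fun g => by rw [← hρC, (hc i).self]⟩
  have htK : AlgebraicIndependent ℂ tK := AlgebraicIndependent.of_comp K.val ht
  have hkill : ∀ (Δ : Derivation ℂ L L) i, Δ (t i) = 0 → ∀ x ∈ C i, Δ x = 0 := fun Δ i h x hx =>
    der_zero (Δ.compAlgebraMap (C i)) {tC i} (by rintro _ rfl; exact h)
      (alg_of (hc i).fixed ⟨x, hx⟩)
  have halgL : ∀ x : L, IsAlgebraic (IntermediateField.adjoin ℂ (Set.range t)) x :=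
    isAlgebraic_of_der _ fun Δ hΔ => by
      have h1 : (⊤ : IntermediateField ℂ L) ≤ IntermediateField.adjoin ℂ {x | Δ x = 0} := by
        rw [← hL]
        exact iSup_le fun i x hx => IntermediateField.subset_adjoin ℂ _
          (hkill Δ i (hΔ _ (IntermediateField.subset_adjoin ℂ _ ⟨i, rfl⟩)) x hx)
      ext x
      exact der_adjoin Δ _ (fun _ h => h) x (h1 trivial)
  have halgK := alg_sub K tK htK halgL
  obtain ⟨D0, hD0⟩ := DerAux.exists_dual tK htK
  obtain ⟨DL, hDL⟩ := DerAux.exists_dual t ht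
  choose δ hδ using fun i => exists_der (fun _ : Unit => tC i)
    (algebraicIndependent_unique_type_iff.2 (hc i).tr) (fun _ => 1)
  have hδL : ∀ i (x : C i), DL i x = (δ i x : L) := fun i x =>
    der_compat (δ i) (DL i) {tC i} (by
      rintro _ rfl
      change DL i (t i) = ((δ i (tC i) : C i) : L)
      rw [hDL, hδ i (), if_pos rfl]
      rfl) (alg_of (hc i).fixed x)
  have hfin : ∀ i, {p | 5 ≤ ram (tC i) p}.Finite := fun i =>
    (hc i).finite_branch.subset fun p hp => le_trans (by norm_num : 2 ≤ 5) hp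
  let B := fun i => (hfin i).toFinset
  have hB : ∀ i p, p ∈ B i ↔ 5 ≤ ram (tC i) p := fun i p => (hfin i).mem_toFinset
  choose q0 hq0 using fun i => Infinite.exists_notMem_finset (eraseNone (B i))
  simp only [mem_eraseNone] at hq0
  choose N0 hN0 hN1 using fun i => (hκ i).elim fun D' hD' => (hc i).phi D' hD'
  obtain ⟨m, hm, hdvd, s, hs0, hS1, hS2⟩ := section4 G.subtype_injective (fun a => C (σ a))
    (fun a => tC (σ a)) (fun a => ρC (σ a)) (fun a => hρC _) (fun a => hc _) (fun a => DL (σ a))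
    (fun a x hx => (hδL _ ⟨x, hx⟩).symm ▸ (δ _ ⟨x, hx⟩).2)
    (fun a x hx h => ((hc _).const (hδ _ ()) (x := ⟨x, hx⟩)
      (Subtype.ext ((hδL _ ⟨x, hx⟩).symm.trans h))).imp fun c hc => congrArg Subtype.val hc)
    (fun a b hab => hkill _ _ (by rw [hDL, if_neg (hσ.ne hab)])) (fun a => B (σ a))
    (fun a p => (hB _ p).2) (fun a => q0 (σ a)) (fun a => hq0 _) _ _ I hI0 (fun a => hξ _) hI hV
    (prod_pos fun i (_ : i ∈ univ) => hN0 i)
  choose φ hφ1 hφ0 X hX1 hX2 hφ using fun i => hN1 i (4200 * m)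
    (((dvd_prod_of_mem _ (mem_univ i)).trans hdvd).mul_left _) (B i) (q0 i) (ξ i * m) (η i * m)
    (hq0 i) (by
      have := mul_le_mul_of_nonneg_right (hwt i) (Nat.cast_nonneg m)
      push_cast at this ⊢
      linarith) fun p hp => by
        rw [← mul_assoc]; exact Nat.mul_le_mul_right _ (he i p ((hB i p).1 hp))
  have hS1' : ∀ w : Valuation L Γ, Triv w → w s ≤ ∏ i, max 1
      (w ((tC i - algebraMap ℂ (C i) (q0 i))⁻¹ : C i)) ^ (η i * m * (B i).card) := fun w hw => by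
    refine (hS1 w hw).trans ((prod_map univ ⟨σ, hσ⟩ fun i => max 1 (w ((tC i - algebraMap ℂ (C i)
      (q0 i))⁻¹ : C i)) ^ (η i * m * (B i).card)).symm.trans_le ?_)
    exact prod_le_prod_of_subset_of_one_le' (subset_univ _) fun i _ _ =>
      one_le_pow_of_one_le' (le_max_left _ _) _
  let h : K := ⟨∏ g : G, G.subtype g ((∏ i, (φ i : L)) * s), (hK _).2 fun f => by
    rw [map_prod]
    exact Fintype.prod_equiv (Equiv.mulLeft f) _ _ fun g => rfl⟩
  refine qeff_of D (effV_change tK halgK D0 hD0 D hD ⟨4200 * m * Fintype.card G,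
    Nat.mul_pos (by omega) Fintype.card_pos, h, fun h0 => prod_ne_zero_iff.2 (fun g _ =>
      (map_ne_zero _).2 (mul_ne_zero (prod_ne_zero_iff.2 fun i _ h1 => hφ0 i (Subtype.ext h1))
        hs0)) (congrArg Subtype.val h0), fun v hv hk => ?_⟩)
  obtain ⟨w0, hs0, hw0, -⟩ := galois_place G.subtype_injective K hK v hv hk
  have htriv : ∀ (r : ℕ) (w : Valuation L Γ), (∀ x : K, w x = v x ^ r) → Triv w := fun r w hw c =>
    (hw (algebraMap ℂ K c)).trans_le (pow_le_one' (hk c) _)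
  obtain ⟨g0, hg0⟩ := exists_gen G.subtype_injective (htriv _ _ hw0) hs0
  have hr : 0 < Nat.card (ine G.subtype w0) := Nat.card_pos
  generalize Nat.card (ine G.subtype w0) = r at hw0 hg0 hr
  have fin : ∀ γ : Γ, (∀ (w : Valuation L Γ) (g : G), Function.Surjective w →
      (∀ x : K, w x = v x ^ r) → Rot G.subtype w g (zt 1 r) → w ((∏ i, (φ i : L)) * s) ≤ γ ^ r) →
      v h ≤ γ ^ Fintype.card G := fun γ hγ => by
    refine (pow_le_pow_iff_left₀ zero_le zero_le hr.ne').1 ?_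
    rw [← hw0, ← pow_mul, mul_comm, pow_mul, ← card_univ, ← prod_const, map_prod]
    refine prod_le_prod' fun g _ => hγ (cv G.subtype w0 g) (g⁻¹ * g0 * g) (cv_surj hs0 g)
      (fun x => by rw [cv_apply, (hK x).1 x.2, hw0]) (rot_cv.2 (by simpa [mul_assoc] using hg0))
  have h1 : ∀ i, ∃ (p : Option ℂ) (j : ℕ), (j = 0 ∧ ∀ q, v (tK i - algebraMap ℂ K q) = 1) ∨
      (0 < j ∧ v (yy (tK i) p) = exp (-(j : ℤ))) := fun i =>
    (tri_or hk (htK.transcendental i)).elim (fun h => ⟨none, 0, Or.inl ⟨rfl, h⟩⟩)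
      fun ⟨p, j, h⟩ => ⟨p, j, Or.inr h⟩
  choose p j hpj using h1
  have hsub : ∀ (w : Valuation L Γ), (∀ x : K, w x = v x ^ r) → ∀ i q,
      w (tC i - algebraMap ℂ (C i) q : C i) = v (tK i - algebraMap ℂ K q) ^ r :=
    fun w hw i q => hw (tK i - algebraMap ℂ K q)
  have hyy : ∀ (w : Valuation L Γ), (∀ x : K, w x = v x ^ r) → ∀ i, 0 < j i →
      w (yy (tC i) (p i) : C i) = exp (-(j i * r : ℤ)) := fun w hw i hi => by
    have h2 := hw (yy (tK i) (p i))
    rw [((hpj i).resolve_left fun h => hi.ne' h.1).2, ← exp_nsmul, nsmul_eq_mul, mul_neg,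
      mul_comm] at h2
    rw [← h2]
    cases p i <;> rfl
  have hφ' : ∀ (w : Valuation L Γ), (∀ x : K, w x = v x ^ r) → ∀ i, w (φ i) * max 1
      (w ((tC i - algebraMap ℂ (C i) (q0 i))⁻¹ : C i)) ^ (η i * m * (B i).card) ≤
      (v (tK i - algebraMap ℂ K ((p i).getD 0))⁻¹ ^ r) ^ (4200 * m) *
        exp (-(j i * r * X i (p i))) := fun w hw i => by
    rcases hpj i with ⟨h2, h3⟩ | ⟨h2, -⟩
    · have h4 : w (φ i) = 1 := (triv_adjoin ((htriv r w hw).restr (C i))
        (fun q => (hsub w hw i q).trans (by rw [h3, one_pow])) _ (hφ1 i)).resolve_left (hφ0 i)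
      rw [h4, IntermediateField.coe_inv, map_inv₀, map_inv₀, hsub w hw, h3, h3, h2]
      simp
    · rw [← hw]
      exact hφ i _ ((htriv r w hw).restr (C i)) (p i) _ (by positivity) (hyy w hw i h2)
  have hmul : ∀ (w : Valuation L Γ), (∀ x : K, w x = v x ^ r) → ∀ k : ℤ, w s ≤ (∏ i, max 1
      (w ((tC i - algebraMap ℂ (C i) (q0 i))⁻¹ : C i)) ^ (η i * m * (B i).card)) *
      exp (∑ i, j i * r * X i (p i) + k) → w ((∏ i, (φ i : L)) * s) ≤
      (∏ i, v (tK i - algebraMap ℂ K ((p i).getD 0))⁻¹ ^ r) ^ (4200 * m) * exp k :=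
    fun w hw k h2 => by
      rw [map_mul, map_prod]
      refine (mul_le_mul_right h2 _).trans ?_
      rw [← mul_assoc, ← prod_mul_distrib]
      refine (mul_le_mul_left (prod_le_prod' fun i _ => hφ' w hw i) _).trans_eq ?_
      rw [prod_mul_distrib, prod_exp, prod_pow, mul_assoc, ← exp_add, sum_neg_distrib,
        neg_add_cancel_left]
  by_cases hall : ∀ i, j i = 0
  · have h2 := fun i => ((hpj i).resolve_right fun h => h.1.ne' (hall i)).2
    refine ⟨tK, fun i => by simpa using (h2 i 0).le, (fin 1 fun w g _ hw _ => ?_).trans_eq ?_⟩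
    · simpa [h2] using hmul w hw 0 (by simpa [hall] using hS1' w (htriv r w hw))
    · rw [jac, show (Matrix.of fun a c => D0 a (tK c)) = 1 from
        Matrix.ext fun a c => (hD0 a c).trans (Matrix.one_apply).symm]
      simp
  push Not at hall
  obtain ⟨i0, hi0⟩ := hall
  obtain ⟨a, ha1, ha2⟩ := log_pole D0 v hv hk (fun i => tK i - algebraMap ℂ K ((p i).getD 0))
    fun i => sub_ne (htK.transcendental i) _
  have h2 : (Matrix.of fun c i => D0 i (tK c - algebraMap ℂ K ((p c).getD 0)) /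
      (tK c - algebraMap ℂ K ((p c).getD 0))).det =
      ∏ i, (tK i - algebraMap ℂ K ((p i).getD 0))⁻¹ := by
    rw [← Matrix.det_diagonal]
    congr 1
    ext a c
    rw [Matrix.of_apply, map_sub, Derivation.map_algebraMap, sub_zero, hD0,
      Matrix.diagonal_apply]
    by_cases e : a = c
    · rw [if_pos e, if_pos e.symm, one_div]
    · rw [if_neg e, if_neg (Ne.symm e), zero_div]
  rw [h2, map_prod] at ha2
  refine ⟨a, ha1, (fin _ fun w g hs hw hg => ?_).trans
    ((pow_le_pow_left' (pow_le_pow_left' ha2 (4200 * m)) _).trans_eq (pow_mul _ _ _).symm)⟩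
  have hwt := htriv r w hw
  refine (hmul w hw (-(r * (4200 * m : ℕ))) ?_).trans_eq (by
    rw [prod_pow, ← pow_mul, ← pow_mul, mul_pow, mul_comm r, ← exp_nsmul]
    congr 2
    simp [mul_comm])
  have hres := fun i (hi : 0 < j i) => (hc i).restrict G.subtype_injective (hρC i) hs hwt hr hi hg
    (hyy w hw i hi)
  have hpos : 1 < r → ∀ i, 0 < j i := fun h3 i => Nat.pos_of_ne_zero fun h4 => by
    have h5 : ∀ x : C i, w x ≤ 1 := le_one_all (hc i).fixed (hwt.restr (C i)) fun q =>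
      (hsub w hw i q).trans (by rw [((hpj i).resolve_right fun h => h.1.ne' h4).2, one_pow])
    have h6 : g = 1 := (injective_iff_map_eq_one _).1 (hc i).inj g (AlgEquiv.ext fun x => by
      by_contra hne
      rw [AlgEquiv.one_apply] at hne
      have h7 := h5 (ρC i g x - x)⁻¹
      have h8 := hg.inert hwt (zt_ne _ _) x (h5 x)
      rw [← hρC] at h8
      rw [IntermediateField.coe_inv, map_inv₀, inv_le_one₀ (zero_lt_iff.2 ((w.ne_zero_iff).2
        fun h9 => hne (sub_eq_zero.1 (Subtype.ext h9))))] at h7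
      exact absurd h8 (not_lt.2 h7))
    have h7 := hg.order G.subtype_injective hr.ne' hwt hs
    rw [h6, orderOf_one] at h7
    omega
  by_cases h5 : 5 ≤ r
  · refine ((hS2 w hs hwt g r (fun a => p (σ a)) (fun a => j (σ a)) h5 hg fun a =>
      ⟨hpos (by omega) _, hyy w hw _ (hpos (by omega) _)⟩).trans (exp_le_exp.2 ?_)).trans
      (le_mul_of_one_le_left' (one_le_prod' fun i _ => one_le_pow_of_one_le' (le_max_left _ _) _))
    have h6 : ∑ a, ξ (σ a) * j (σ a) ≤ ∑ i, ξ i * j i :=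
      (sum_map univ ⟨σ, hσ⟩ fun i => ξ i * j i).symm.trans_le (sum_le_sum_of_subset (subset_univ _))
    have h7 : ∑ a, (ξ (σ a) : ℤ) * j (σ a) ≤ ∑ i, (ξ i : ℤ) * j i := by exact_mod_cast h6
    have h8 : (r : ℤ) * m * ∑ i, (ξ i : ℤ) * j i ≤ ∑ i, j i * r * X i (p i) := by
      rw [mul_sum]
      refine sum_le_sum fun i _ => ?_
      obtain ⟨u, -, -, -, -, -, h9, -⟩ := hres i (hpos (by omega) i)
      refine (mul_le_mul_of_nonneg_left (hX2 i _ ((hB i _).2 (h5.trans (Nat.le_of_dvd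
        ((hc i).ram_pos _) h9)))) (by positivity)).trans_eq' ?_
      push_cast
      ring
    have h9 := mul_le_mul_of_nonneg_left h7 (by positivity : (0 : ℤ) ≤ r * m)
    push_cast
    linarith
  · refine (hS1' w hwt).trans (le_mul_of_one_le_right' ?_)
    rw [← exp_zero, exp_le_exp, ← sub_eq_add_neg, sub_nonneg]
    have h6 : ∀ i, 0 < j i → ((4200 * m : ℕ) : ℤ) ≤ j i * r * X i (p i) := fun i hi => by
      obtain ⟨u, -, -, -, -, -, -, α, h9, -⟩ := hres i hi
      have h10 : (0 : ℤ) < ram (tC i) (p i) := by exact_mod_cast (hc i).ram_pos _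
      have h11 : 0 < α := (mul_pos_iff_of_pos_left h10).1 (h9 ▸ by positivity)
      rw [← h9, mul_right_comm]
      exact (hX1 i _).trans (le_mul_of_one_le_right ((Nat.cast_nonneg _).trans (hX1 i _)) h11)
    rcases (show r = 1 ∨ 1 < r by omega) with rfl | h7
    · rw [Nat.cast_one, one_mul]
      refine (h6 i0 (Nat.pos_of_ne_zero hi0)).trans (single_le_sum
        (f := fun i => (j i * (1 : ℕ) * X i (p i) : ℤ)) (fun i _ => ?_) (mem_univ i0))
      rcases Nat.eq_zero_or_pos (j i) with h8 | h8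
      · simp [h8]
      · exact (Nat.cast_nonneg _).trans (h6 i h8)
    · refine le_trans ?_ (card_nsmul_le_sum _ _ _ fun i _ => h6 i (hpos h7 i))
      rw [card_univ, Fintype.card_fin, nsmul_eq_mul]
      exact mul_le_mul_of_nonneg_right (by omega) (Nat.cast_nonneg _)

end Pool.Agent.Lib.MP_813db1_ag.PQ
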