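import Pool.Agent.Lib.MP_813db1_ag.VB1

/-! The volume inequalities, by evaluation. -/

namespace Pool.Agent.Lib.MP_813db1_ag.PQ

open Finset

/-- The volume inequality in a form suited to evaluation. -/
def V4 (x0 x1 x2 x3 y : ℕ) (I : ℕ → ℕ → ℕ → ℕ → ℕ) : Prop :=
  ∑ a ∈ range 8, ∑ b ∈ range 8, ∑ c ∈ range 8, ∑ d ∈ range 8,
    ((12600 - (x0 * (a + 1) + x1 * (b + 1) + x2 * (c + 1) + x3 * (d + 1))) ^ 4 /
      (24 * ((a + 1) * (b + 1) * (c + 1) * (d + 1)) * I (a + 1) (b + 1) (c + 1) (d + 1) ^ 3) + 1) ≤ y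

/-- The volume inequality with weights depending on the type of the factor. -/
def VT (x y : ℕ) (a b c : Bool) (I : ℕ → ℕ → ℕ → ℕ → ℕ) : Prop :=
  V4 x (if a then x else y) (if b then x else y) (if c then x else y)
    ((2100 - x) * (if a then 2100 - x else 3150 - y) * (if b then 2100 - x else 3150 - y) *
      (if c then 2100 - x else 3150 - y)) I

instance (x y : ℕ) (a b c : Bool) (I : ℕ → ℕ → ℕ → ℕ → ℕ) : Decidable (VT x y a b c I) := by
  unfold VT V4
  infer_instance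

theorem VT.vol {x y : ℕ} {τ : Fin 4 → Bool} (h0 : τ 0) {I : ℕ → ℕ → ℕ → ℕ → ℕ}
    (h : VT x y (τ 1) (τ 2) (τ 3) I) : Vol' (fun a => if τ a then x else y)
      (fun a => if τ a then 2100 - x else 3150 - y) fun j => I (j 0) (j 1) (j 2) (j 3) := by
  unfold VT V4 at h
  unfold Vol' vterm
  simp only [Fin.sum_univ_four, Fin.prod_univ_four, h0, if_true]
  exact h

theorem volA1 : VT 1850 2772 false false false fun i _ _ _ => if i = 1 then 6 else 1 := by
  decide +kernel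

theorem volA4 : VT 1500 2520 false false false fun i _ _ _ => if i % 3 = 0 then 1 else 4 := by
  decide +kernel

theorem volR7 : ∀ a b c, VT 1800 2898 a b c fun _ _ _ _ => 19 := by
  decide +kernel

theorem volR8 : ∀ a b c, VT 1575 2898 a b c fun _ _ _ _ => 12 := by
  decide +kernel

theorem volR9 : ∀ a b c : Bool, a ∨ b ∨ c → VT 1400 2800 a b c fun i j k l =>
    if i = 1 ∨ a ∧ j = 1 ∨ b ∧ k = 1 ∨ c ∧ l = 1 then 10 else 1 := by
  decide +kernel

theorem volR6 : ∀ a b c : Bool, a ∨ b ∨ c → VT 1050 2520 a b c fun i j k l =>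
    if a ∧ j.gcd 6 ≠ i.gcd 6 ∨ b ∧ k.gcd 6 ≠ i.gcd 6 ∨ c ∧ l.gcd 6 ≠ i.gcd 6 then 100 else
      if i.gcd 6 = 1 then 6 else if i.gcd 6 = 2 then 2 else 1 := by
  decide +kernel

end Pool.Agent.Lib.MP_813db1_ag.PQ
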