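import Pool.Agent.Lib.MP_813db1_ag.VA10
import Pool.Agent.Lib.MP_813db1_ag.VB2
import Pool.Agent.Lib.MP_813db1_ag.VB4
import Pool.Agent.Lib.MP_813db1_ag.DS5
import Pool.Agent.Lib.MP_813db1_ag.TA1

/-! Product-quotients with a faithful diagonal action and no `(2, 3, 6)` factor. -/

namespace Pool.Agent.Lib.MP_813db1_ag.PQ

open WithZero Finset
open scoped IntermediateField

theorem conj_order {G : Type} [Group G] [Finite G] {z g : G} {j : ℕ} (h : IsConj (z ^ j) g) :
    orderOf g = orderOf z / (orderOf z).gcd j := by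
  obtain ⟨k, rfl⟩ := isConj_iff.1 h
  rw [← orderOf_pow]
  exact orderOf_eq_orderOf_iff.2 fun n => by simp [conj_pow]

theorem conj_oc {G : Type} [Group G] [Finite G] {z g : G} {j : ℕ} (h : IsConj (z ^ j) g) :
    oc G g = oc G z / (oc G z).gcd j :=
  conj_order ((QuotientGroup.mk' (Subgroup.center G)).map_isConj h)

theorem coprime_of {e j o : ℕ} (he : 7 ≤ e ∧ e ≤ 8) (h : 5 ≤ e / e.gcd j) (ho : o ∣ e) :
    j.Coprime o := by
  refine (Nat.Coprime.symm (by_contra fun h0 => ?_)).coprime_dvd_right ho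
  have := Nat.gcd_pos_of_pos_left j (by omega : 0 < e)
  have := Nat.div_le_div_left (a := e) (by omega : 2 ≤ e.gcd j) (by norm_num)
  omega

variable {L : Type} [Field L] [Algebra ℂ L] {G : Subgroup (L ≃ₐ[ℂ] L)}

theorem main3 [Finite G] {n : ℕ} (C : Fin n → IntermediateField ℂ L) (t : ∀ i, C i)
    (ht : AlgebraicIndependent ℂ fun i => (t i : L)) (hL : ⨆ i, C i = ⊤)
    (hC : ∀ i, ∀ g ∈ G, ∀ x ∈ C i, g x ∈ C i)
    (hq : ∀ i, C i ⊓ IntermediateField.fixedField G = ℂ⟮(t i : L)⟯)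
    (hf : ∀ i, ∀ g ∈ G, (∀ x ∈ C i, g x = x) → g = 1)
    (hκ : ∀ i, ∃ D : Fin 1 → Derivation ℂ (C i) (C i), QEffective D)
    (σ0 : Fin 4 → Fin n) (hσ0 : Function.Injective σ0)
    (h6 : ∀ i ∈ Set.range σ0, ∀ a b c, ram (t i) a = 2 → ram (t i) b = 3 → ram (t i) c = 6 →
      ∃ p, 2 ≤ ram (t i) p ∧ p ≠ a ∧ p ≠ b ∧ p ≠ c)
    (D : Fin n → Derivation ℂ (IntermediateField.fixedField G) (IntermediateField.fixedField G))
    (hD : LinearIndependent (IntermediateField.fixedField G) D) : QEffective D := by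
  classical
  have hn : 4 ≤ n := by simpa using Fintype.card_le_of_injective σ0 hσ0
  choose ρC hρC hc using fun i => factor' (C i) (t i)
    (fun h => ht.transcendental i (h.algHom (C i).val)) (hC i) (hq i) (hf i)
  have hw := fun i => (weight_cases (t i) (hc i).finite_branch).1
  let S := fun i => weight (t i) = 1 / 6 ∧ i ∈ Set.range σ0
  by_cases hA : ∀ i, ¬ S i
  · refine main C t ht hL hC hq hκ (fun g hg hg1 _ => ?_) D hD
    rw [filter_true_of_mem fun i _ => by_contra fun h => hg1 (hf i g hg (by simpa using h))]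
    refine le_trans ?_ (sum_le_sum_of_subset_of_nonneg (subset_univ (univ.map ⟨σ0, hσ0⟩))
      fun i _ _ => weight_pos _)
    rw [sum_map]
    refine le_trans ?_ (card_nsmul_le_sum _ _ _ fun i _ => hw _ fun h => hA _ ⟨h, i, rfl⟩)
    norm_num
  choose u z hb using fun i => (hc i).bases
  have h0 : ∀ i, ∃ a b c, weight (t i) = 1 / 6 → ram (t i) a = 2 ∧ ram (t i) b = 3 ∧
      6 ≤ ram (t i) c ∧ ∀ p, 2 ≤ ram (t i) p → p = a ∨ p = b ∨ p = c := fun i => by
    by_cases hi : weight (t i) = 1 / 6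
    · obtain ⟨a, b, c, h⟩ := (hκ i).elim fun D' hD' => (hc i).typeA D' hD' hi
      exact ⟨a, b, c, fun _ => h⟩
    · exact ⟨none, none, none, fun h => absurd h hi⟩
  choose a b c h0 using h0
  have h1 : ∀ i, weight (t i) = 1 / 6 → ∀ p, 5 ≤ ram (t i) p ↔ p = c i := fun i hi p => by
    obtain ⟨h1, h2, h3, h4⟩ := h0 i hi
    refine ⟨fun h => ?_, by rintro rfl; omega⟩
    rcases h4 p (by omega) with rfl | rfl | rfl
    exacts [by omega, by omega, rfl]
  have h7 : ∀ i, S i → 7 ≤ ram (t i) (c i) := fun i hi => by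
    obtain ⟨h2, h3, h4, h5⟩ := h0 i hi.1
    refine lt_of_le_of_ne h4 fun h => ?_
    obtain ⟨p, h7, h8⟩ := h6 i hi.2 _ _ _ h2 h3 h.symm
    have := h5 p h7
    tauto
  have hdat := fun i (hi : S i) => (hb i).dat (hc i) (h0 i hi.1).1 (h0 i hi.1).2.1 (h7 i hi)
    (h0 i hi.1).2.2.2
  let e := fun i => orderOf (z i (c i))
  let o := fun i => oc G (z i (c i))
  let I := fun i => (Subgroup.centralizer {z i (c i)}).index
  have he : ∀ i, ram (t i) (c i) = e i := fun i => ((hb i).order (hc i) _).symm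
  replace h7 : ∀ i, S i → 7 ≤ e i := fun i hi => he i ▸ h7 i hi
  have hcs : ∀ i, S i → _ := fun i hi => (hdat i hi).cases
  have hdv : ∀ i, S i → o i ∣ e i := fun i hi => (hdat i hi).dvd
  simp only [List.mem_cons, List.not_mem_nil, or_false] at hcs
  obtain ⟨i0, hi0, hpr⟩ : ∃ i0, S i0 ∧ (e i0 = 7 ∨
      (∀ i, S i → 8 ≤ e i) ∧ (e i0 = 8 ∨ (∀ i, S i → 9 ≤ e i) ∧
        (o i0 ≠ 6 ∨ ∀ i, S i → o i = 6))) := by
    by_cases h2 : ∃ i, S i ∧ e i = 7
    · exact h2.imp fun i h => ⟨h.1, Or.inl h.2⟩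
    push Not at h2 hA
    have h3 : ∀ i, S i → 8 ≤ e i := fun i hi =>
      lt_of_le_of_ne (h7 i hi) (h2 i hi).symm
    by_cases h4 : ∃ i, S i ∧ e i = 8
    · exact h4.imp fun i h => ⟨h.1, Or.inr ⟨h3, Or.inl h.2⟩⟩
    push Not at h4
    have h5 : ∀ i, S i → 9 ≤ e i := fun i hi =>
      lt_of_le_of_ne (h3 i hi) (h4 i hi).symm
    by_cases h8 : ∃ i, S i ∧ o i ≠ 6
    · exact h8.imp fun i h => ⟨h.1, Or.inr ⟨h3, Or.inr ⟨h5, Or.inl h.2⟩⟩⟩
    push Not at h8
    exact hA.imp fun i h => ⟨h, Or.inr ⟨h3, Or.inr ⟨h5, Or.inr h8⟩⟩⟩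
  obtain ⟨σ, hσ, rfl, hσ1⟩ : ∃ σ : Fin 4 → Fin n, Function.Injective σ ∧ σ 0 = i0 ∧
      ∀ a, σ a ∈ Set.range σ0 := by
    obtain ⟨a0, rfl⟩ := hi0.2
    exact ⟨σ0 ∘ Equiv.swap 0 a0, hσ0.comp (Equiv.injective _), by simp, fun a => ⟨_, rfl⟩⟩
  let τ : Fin n → Bool := fun i => decide (weight (t i) = 1 / 6)
  have hτ' : ∀ i, τ i ↔ weight (t i) = 1 / 6 := fun i => decide_eq_true_iff
  have hτ : ∀ a, τ (σ a) ↔ S (σ a) := fun a => (hτ' _).trans (and_iff_left (hσ1 a)).symm
  have fin : ∀ x y x' y' : ℕ, x + x' ≤ 2100 → y + y' ≤ 3150 → 2520 ≤ y →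
      (∀ i, S i → 12600 ≤ e i * x) → Sec G.subtype (fun a => C (σ a))
        (fun a => t (σ a)) (fun a => if τ (σ a) then x else y)
        (fun a => if τ (σ a) then x' else y') → QEffective D := fun x y x' y' h2 h3 h4 h5 h8 =>
    core' hn C t ht hL ρC hρC hc hκ σ hσ
      (fun i => if τ i then if i ∈ Set.range σ0 then x else 2100 else y)
      (fun i => if τ i then if i ∈ Set.range σ0 then x' else 0 else y') (fun i => by
        have h2' : ((x + x' : ℕ) : ℚ) ≤ 2100 := by exact_mod_cast h2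
        have h3' : ((y + y' : ℕ) : ℚ) ≤ 3150 := by exact_mod_cast h3
        split_ifs with h
        · linarith [(hτ' i).1 h]
        · norm_num [(hτ' i).1 h]
        · linarith [hw i (mt (hτ' i).2 h)]) (fun i p hp => by
        split_ifs with h h'
        · rw [(h1 i ((hτ' i).1 h) p).1 hp, he]
          exact h5 i ⟨(hτ' i).1 h, h'⟩
        · rw [(h1 i ((hτ' i).1 h) p).1 hp]
          have := (h0 i ((hτ' i).1 h)).2.2.1
          omega
        · exact le_trans (by norm_num) (Nat.mul_le_mul hp h4))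
      (by simpa only [hσ1, if_true] using h8) D hD
  have cnt : ∀ (x y : ℕ) (J : ℕ → ℕ → ℕ → ℕ → ℕ), 1050 ≤ x ∧ x ≤ 2100 ∧ 2520 ≤ y ∧ y ≤ 3150 →
      (∀ i, S i → 12600 ≤ e i * x) → (∀ i j k l, 0 < J i j k l) →
      (∀ (j : Fin 4 → ℕ) (g : G), 5 ≤ orderOf g → (∀ a, τ (σ a) →
        IsConj (z (σ a) (c (σ a)) ^ j a) g) → J (j 0) (j 1) (j 2) (j 3) ≤
          (Subgroup.centralizer {g}).index) → VT x y (τ (σ 1)) (τ (σ 2)) (τ (σ 3)) J →
      QEffective D := fun x y J h2 h3 h4 h5 h8 =>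
    fin x y (2100 - x) (3150 - y) (by omega) (by omega) (by omega) h3
      (sec_count G.subtype_injective _ _ (fun a => ρC (σ a)) (fun a => hρC _) (fun a => hc _)
        (fun a => u (σ a)) (fun a => z (σ a)) (fun a => hb _) _ _ _ (fun j => h4 _ _ _ _)
        (fun a => by split_ifs <;> omega) (fun j g p hg h => h5 j g hg fun a ha => by
          have h9 := conj_order (h a)
          rw [(hb _).order (hc _)] at h9
          exact (h1 _ ((hτ' _).1 ha) _).1 (hg.trans (h9 ▸ Nat.div_le_self _ _)) ▸ h a)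
        (VT.vol (τ := fun a => τ (σ a)) ((hτ _).2 hi0) h8))
  have hI : ∀ (g : G), 1 ≤ (Subgroup.centralizer {g}).index := fun g =>
    Nat.pos_of_ne_zero Subgroup.index_ne_zero_of_finite
  have hc0 := hcs _ hi0
  have hτ0 := (hτ _).2 hi0
  have hm12 : (Subgroup.center G).index = 12 → ∀ i, S i → o i = 3 ∧ e i = 12 :=
    fun hm i hi => by have := hcs i hi; simp only [o, e, oc]; omega
  by_cases h2 : τ (σ 1) ∨ τ (σ 2) ∨ τ (σ 3)
  swap
  · simp only [not_or, Bool.not_eq_true] at h2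
    rw [h2.1, h2.2.1, h2.2.2] at cnt
    by_cases hm : (Subgroup.center G).index = 12
    · refine cnt _ _ _ (by omega) (fun i hi => by rw [(hm12 hm i hi).2]; omega)
        (fun _ _ _ _ => by split_ifs <;> omega) (fun j g _ h => ?_) volA4
      split_ifs with h3
      · exact hI g
      · refine le_trans (by omega) (centralizer_pow ?_ (h 0 hτ0))
        rw [show orderOf _ = 3 from (hm12 hm _ hi0).1, Nat.coprime_comm,
          Nat.prime_three.coprime_iff_not_dvd]
        omega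
    · refine cnt _ _ _ (by omega) (fun i hi => by have := h7 i hi; omega)
        (fun _ _ _ _ => by split_ifs <;> omega) (fun j g _ h => ?_) volA1
      split_ifs with h3
      · exact le_trans (by omega) (centralizer_pow (h3 ▸ Nat.coprime_one_left _) (h 0 hτ0))
      · exact hI g
  by_cases hm : (Subgroup.center G).index = 12 ∨ (Subgroup.center G).index = 24
  · have h3 : 2 ≤ ∑ a, (τ (σ a)).toNat := by
      rw [Fin.sum_univ_four, hτ0]
      rcases h2 with h | h | h <;> simp [h] <;> omega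
    have h4 := fun o' I x y η ho hm' (h : ∀ i, S i → o i = o' ∧
        (o' = 3 → e i = 12)) => sec_disc (o := o') (I := I) (x := x) (y := y) (η := η)
      G.subtype_injective _ _ (fun a => ρC (σ a)) (fun a => hρC _) (fun a => hc _)
      (fun a => u (σ a)) (fun a => z (σ a)) (fun a => hb _) _ h3 ho hm' ((hdat _ hi0).ord hm)
      fun i hi => by
        have h5 := (hτ _).1 hi
        obtain ⟨h8, h9, h10, h11⟩ := h0 _ h5.1
        refine ⟨c _, h1 _ h5.1, (h _ h5).1, he _ ▸ (h _ h5).2, {a (σ i), b (σ i), c (σ i)},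
          fun p hp => by simpa using h11 p hp, ?_⟩
        have h12 : a (σ i) ≠ b (σ i) := fun h => by rw [h] at h8; omega
        have h13 : a (σ i) ≠ c (σ i) := fun h => by rw [h] at h8; omega
        rw [sum_insert (by simp [h12, h13]), sum_pair fun h => by rw [h] at h9; omega]
        simp only [kc, show oc G _ = o' from (h _ h5).1, show oc G _ = 2 from (hdat _ h5).hx,
          show oc G _ = 3 from (hdat _ h5).hy, hm']
        rcases ho with ⟨rfl, rfl, -⟩ | ⟨rfl, rfl, -⟩ <;> norm_num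
    simp only [mul_ite] at h4
    rcases hm with hm | hm
    · exact fin _ _ _ _ (by omega) (by omega) (by omega) (fun i hi => by rw [(hm12 hm i hi).2])
        (h4 3 4 1 3 1050 (by omega) hm fun i hi => ⟨(hm12 hm i hi).1, fun _ => (hm12 hm i hi).2⟩)
    · have h5 : ∀ i, S i → o i = 4 := fun i hi => by
        have := hcs i hi; simp only [o, oc]; omega
      exact fin _ _ _ _ (by omega) (by omega) (by omega) (fun i hi => by
        have := h5 i hi ▸ hdv i hi
        have := h7 i hi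
        omega) (h4 4 6 3 6 525 (by omega) hm fun i hi => ⟨h5 i hi, by omega⟩)
  have hd0 := hdv _ hi0
  simp only [o, e, oc] at hd0
  rcases hpr with h3 | ⟨h3, h4 | ⟨h4, h5 | h5⟩⟩
  · refine cnt _ _ _ (by omega) (fun i hi => by have := h7 i hi; omega)
      (fun _ _ _ _ => by omega) (fun j g hg h => ?_) (volR7 _ _ _)
    simp only [e] at h3
    refine le_trans ?_ (centralizer_pow (coprime_of (by omega)
      (conj_order (h 0 hτ0) ▸ hg) hd0) (h 0 hτ0))
    rcases hc0 with h | h | h | h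
    · omega
    · omega
    · rw [h.2.1] at hd0; omega
    · exact h.2.2.2.2.1 h3
  · refine cnt _ _ _ (by omega) (fun i hi => by have := h3 i hi; omega)
      (fun _ _ _ _ => by omega) (fun j g hg h => ?_) (volR8 _ _ _)
    simp only [e] at h4
    refine le_trans ?_ (centralizer_pow (coprime_of (by omega)
      (conj_order (h 0 hτ0) ▸ hg) hd0) (h 0 hτ0))
    rcases hc0 with h | h | h | h
    · omega
    · omega
    · rw [h.2.1] at hd0; omega
    · exact h.2.2.2.1 h4
  · refine cnt _ _ _ (by omega) (fun i hi => by have := h4 i hi; omega)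
      (fun _ _ _ _ => by split_ifs <;> omega) (fun j g hg h => ?_) (volR9 _ _ _ h2)
    split_ifs with h8
    swap
    · exact hI g
    obtain ⟨i, h9, h10⟩ : ∃ i, τ (σ i) ∧ j i = 1 := by
      rcases h8 with h8 | h8 | h8 | h8
      exacts [⟨0, hτ0, h8⟩, ⟨1, h8⟩, ⟨2, h8⟩, ⟨3, h8⟩]
    refine le_trans ?_ (centralizer_pow (h10 ▸ Nat.coprime_one_left _) (h i h9))
    have h11 := conj_oc (h i h9)
    have h12 := conj_oc (h 0 hτ0) ▸ Nat.div_dvd_of_dvd (Nat.gcd_dvd_left _ _)
    rw [h10, Nat.gcd_one_right, Nat.div_one] at h11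
    rw [h11] at h12
    simp only [o, oc] at h5 h12
    rcases hcs _ ((hτ _).1 h9) with h | h | h | h
    · omega
    · omega
    · rw [h.2.1] at h12; omega
    · omega
  · refine cnt _ _ _ (by omega) (fun i hi => by
      have := h5 i hi ▸ hdv i hi
      have := h7 i hi
      omega) (fun _ _ _ _ => by split_ifs <;> omega) (fun j g hg h => ?_) (volR6 _ _ _ h2)
    have h8 : ∀ i, τ (σ i) → oc G g * (j i).gcd 6 = 6 := fun i hi => by
      rw [conj_oc (h i hi), show oc G _ = 6 from h5 _ ((hτ _).1 hi), Nat.gcd_comm,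
        Nat.div_mul_cancel (Nat.gcd_dvd_right _ _)]
    have h9 : ∀ i, τ (σ i) → (j i).gcd 6 = (j 0).gcd 6 := fun i hi =>
      Nat.eq_of_mul_eq_mul_left (oc_pos g) ((h8 i hi).trans (h8 0 hτ0).symm)
    rw [if_neg (by
      rintro (h10 | h10 | h10) <;> exact h10.2 (h9 _ h10.1))]
    split_ifs with h10 h11
    · refine le_trans (by omega) (centralizer_pow ?_ (h 0 hτ0))
      rwa [show orderOf _ = 6 from h5 _ hi0]
    · refine lt_of_le_of_ne (hI g) fun h12 => ?_
      have h13 := h8 0 hτ0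
      rw [oc, (QuotientGroup.eq_one_iff g).2 (Subgroup.centralizer_eq_top_iff_subset.1
        (Subgroup.index_eq_one.1 h12.symm) rfl), orderOf_one] at h13
      omega
    · exact hI g

end Pool.Agent.Lib.MP_813db1_ag.PQ
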